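import Pool.Agent.Helper39.DiscB

/-!
# Hausdorff contents and the counting step for sparse heights and arbitrary direction sets
-/

open MeasureTheory Set Filter Topology
open scoped ENNReal NNReal

namespace Pool.Agent.Helper39

/-- Hausdorff content of exponent `u` -/
noncomputable def cont (X : Type*) [EMetricSpace X] (u : ℝ) (hu : 0 < u) : OuterMeasure X :=
  OuterMeasure.ofFunction (fun S => Metric.ediam S ^ u) (by simp [hu])

lemma cont_le {X : Type*} [EMetricSpace X] {u : ℝ} (hu : 0 < u) (S : Set X) :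
    cont X u hu S ≤ Metric.ediam S ^ u := OuterMeasure.ofFunction_le S

lemma hausdorff_eq_zero_of_cont {X : Type*} [EMetricSpace X] [MeasurableSpace X] [BorelSpace X]
    {u : ℝ} (hu : 0 < u) {S : Set X} (h : cont X u hu S = 0) : μH[u] S = 0 := by
  rw [Measure.hausdorffMeasure_apply]
  refine le_antisymm (iSup₂_le (fun r hr => ?_)) zero_le
  refine ENNReal.le_of_forall_pos_le_add (fun ε hε _ => ?_)
  rw [zero_add]
  set δ : ℝ≥0∞ := min (ε : ℝ≥0∞) (r ^ u) with hδ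
  have hδ0 : 0 < δ := lt_min (by exact_mod_cast hε) (ENNReal.rpow_pos_of_nonneg hr hu.le)
  have h1 : (⨅ (t : ℕ → Set X) (_ : S ⊆ iUnion t), ∑' n, Metric.ediam (t n) ^ u) < δ := by
    have h2 : cont X u hu S < δ := by rw [h]; exact hδ0
    exact h2
  rw [iInf_lt_iff] at h1
  obtain ⟨t, h1⟩ := h1
  rw [iInf_lt_iff] at h1
  obtain ⟨hcov, h1⟩ := h1
  refine iInf₂_le_of_le t hcov ?_
  refine iInf_le_of_le (fun n => ?_) ?_
  · have h3 : Metric.ediam (t n) ^ u ≤ r ^ u :=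
      (ENNReal.le_tsum n).trans (h1.le.trans (min_le_right _ _))
    exact (ENNReal.rpow_le_rpow_iff hu).1 h3
  · refine le_trans (ENNReal.tsum_le_tsum (fun n => ?_)) (h1.le.trans (min_le_left _ _))
    exact iSup_le (fun _ => le_rfl)

lemma cont_ne_zero {X : Type*} [EMetricSpace X] {u : ℝ} (hu : 0 < u) {S : Set X}
    (h : ENNReal.ofReal u < dimH S) : cont X u hu S ≠ 0 := by
  borelize X
  intro h0
  have h1 := hausdorff_eq_zero_of_cont hu h0
  have h2 : ((Real.toNNReal u : ℝ≥0) : ℝ≥0∞) < dimH S := h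
  have h3 := hausdorffMeasure_of_lt_dimH h2
  have h4 : ((Real.toNNReal u : ℝ≥0) : ℝ) = u := Real.coe_toNNReal _ hu.le
  rw [h4, h1] at h3
  exact ENNReal.zero_ne_top h3

lemma exists_large_pieceO {X : Type*} (μ : OuterMeasure X) {S : Set X} {S' : ℕ → Set X}
    (h : S ⊆ ⋃ j, S' j) {a : ℝ≥0∞} (ha : a ≤ μ S) (hpos : a ≠ 0) (hfin : a ≠ ∞) {c : ℕ → ℝ≥0∞}
    (hc : ∑' j, c j < 1) :
    ∃ j, c j * a ≤ μ (S' j) := by
  by_contra hcon
  push Not at hcon
  have h1 : a ≤ ∑' j, c j * a := by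
    calc a ≤ μ S := ha
      _ ≤ μ (⋃ j, S' j) := measure_mono h
      _ ≤ ∑' j, μ (S' j) := measure_iUnion_le _
      _ ≤ ∑' j, c j * a := ENNReal.tsum_le_tsum (fun j => (hcon j).le)
  rw [ENNReal.tsum_mul_right] at h1
  have h2 : (∑' j, c j) * a < 1 * a := ENNReal.mul_lt_mul_left hpos hfin hc
  rw [one_mul] at h2
  exact absurd h1 (not_le.2 h2)

/-- the counting step; heights and directions are measured by outer measures -/
lemma disc_coreO {m Q : ℕ} (hQ : 0 < Q) {h0 : ℝ}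
    (J : Finset ℕ) (t : ℕ → Set ((Fin m → ℝ) × ℝ))
    (ht : ∀ n ∈ J, ∀ p ∈ t n, ∀ q ∈ t n, dist p q ≤ 1/Q)
    (D : Set (Fin m → ℝ)) (hD : D ⊆ Icc 0 1) (x : (Fin m → ℝ) → (Fin m → ℝ))
    (S : (Fin m → ℝ) → Set ℝ) (hS : ∀ v ∈ D, S v ⊆ Ico h0 (h0+1))
    (hSt : ∀ v ∈ D, ∀ θ ∈ S v, ∃ n ∈ J, (x v + θ • v, θ) ∈ t n)
    (ν : OuterMeasure ℝ) (ν' : OuterMeasure (Fin m → ℝ)) {β γ : ℝ} (hβ : 0 < β) (hγ : 0 < γ)
    (hν : ∀ a : ℝ, ν (Ico a (a + 1/Q)) ≤ ENNReal.ofReal β)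
    (hν' : ∀ c : Fin m → ℝ, ν' (Icc c (c + fun _ => 1/(Q:ℝ))) ≤ ENNReal.ofReal γ)
    {σ τ : ℝ} (hσ : ∀ v ∈ D, ENNReal.ofReal σ ≤ ν (S v)) (hτ : ENNReal.ofReal τ ≤ ν' D) :
    ∃ (L : Finset ((Fin m → ℝ) × (Fin m → ℝ))) (T : (Fin m → ℝ) × (Fin m → ℝ) → Finset ℕ),
      (∀ l ∈ L, ‖l.2‖ ≤ Q) ∧
      Set.InjOn (fun l : (Fin m → ℝ) × (Fin m → ℝ) => fun k => ⌊l.2 k⌋) ↑L ∧
      (∀ l ∈ L, T l ⊆ Finset.range Q) ∧ (∀ l ∈ L, σ / β ≤ (T l).card) ∧
      τ / γ ≤ L.card ∧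
      (∑ i ∈ Finset.range Q, (((L.filter (fun l => i ∈ T l)).image
        (fun l => fun k => ⌊l.1 k + (i:ℝ)/Q * l.2 k⌋)).card : ℝ)) ≤
        J.card * (5 * 5^m) := by
  classical
  have hQr : (0:ℝ) < Q := by exact_mod_cast hQ
  set C : Set (Fin m → ℤ) := {c | ∃ v ∈ D, ∀ k, ⌊(Q:ℝ) * v k⌋ = c k} with hC
  have hCfin : C.Finite := by
    refine (Set.finite_Icc (0 : Fin m → ℤ) (fun _ => ⌊(Q:ℝ)⌋)).subset ?_
    rintro c ⟨v, hv, hc⟩
    have hv1 := (hD hv).1
    have hv2 := (hD hv).2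
    refine ⟨fun k => ?_, fun k => ?_⟩
    · rw [← hc k]
      exact Int.floor_nonneg.2 (mul_nonneg hQr.le (hv1 k))
    · rw [← hc k]
      exact Int.floor_le_floor (mul_le_of_le_one_right hQr.le (hv2 k))
  have hex : ∀ c, c ∈ C → ∃ v ∈ D, ∀ k, ⌊(Q:ℝ) * v k⌋ = c k := fun c hc => hc
  choose! g hgD hgf using hex
  set F := hCfin.toFinset with hF
  have hFC : ∀ c, c ∈ F ↔ c ∈ C := fun c => by rw [hF, Set.Finite.mem_toFinset]
  let G : (Fin m → ℤ) → (Fin m → ℝ) × (Fin m → ℝ) :=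
    fun c => ((Q:ℝ) • (x (g c) + h0 • g c), (Q:ℝ) • g c)
  have hGf : ∀ c ∈ F, (fun k => ⌊(G c).2 k⌋) = c := by
    intro c hc
    funext k
    have := hgf c ((hFC c).1 hc) k
    simpa [G] using this
  have hGinj : Set.InjOn G ↑F := by
    intro c hc c' hc' h
    rw [← hGf c hc, ← hGf c' hc', h]
  set L := F.image G with hL
  set T : (Fin m → ℝ) × (Fin m → ℝ) → Finset ℕ := fun l => (Finset.range Q).filter
    (fun i : ℕ => ∃ θ ∈ S ((Q:ℝ)⁻¹ • l.2), h0 + (i:ℝ) / Q ≤ θ ∧ θ < h0 + (i:ℝ) / Q + 1/Q) with hT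
  have hGT : ∀ c, T (G c) = (Finset.range Q).filter
      (fun i : ℕ => ∃ θ ∈ S (g c), h0 + (i:ℝ) / Q ≤ θ ∧ θ < h0 + (i:ℝ) / Q + 1/Q) := by
    intro c
    simp only [hT, G]
    rw [smul_smul, inv_mul_cancel₀ hQr.ne', one_smul]
  refine ⟨L, T, ?_, ?_, ?_, ?_, ?_, ?_⟩
  · intro l hl
    obtain ⟨c, hc, rfl⟩ := Finset.mem_image.1 hl
    have hv := hD (hgD c ((hFC c).1 hc))
    simp only [G]
    rw [norm_smul, Real.norm_of_nonneg hQr.le]
    have h1 : ‖g c‖ ≤ 1 := by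
      rw [pi_norm_le_iff_of_nonneg zero_le_one]
      intro k
      rw [Real.norm_of_nonneg (hv.1 k)]
      exact hv.2 k
    calc (Q:ℝ) * ‖g c‖ ≤ (Q:ℝ) * 1 := by gcongr
      _ = Q := by ring
  · intro l hl l' hl' h
    obtain ⟨c, hc, rfl⟩ := Finset.mem_image.1 hl
    obtain ⟨c', hc', rfl⟩ := Finset.mem_image.1 hl'
    have h1 : (fun k => ⌊(G c).2 k⌋) = (fun k => ⌊(G c').2 k⌋) := h
    rw [hGf c hc, hGf c' hc'] at h1
    rw [h1]
  · intro l _
    exact Finset.filter_subset _ _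
  · intro l hl
    obtain ⟨c, hc, rfl⟩ := Finset.mem_image.1 hl
    have hv := hgD c ((hFC c).1 hc)
    have hsub : S (g c) ⊆ ⋃ i ∈ T (G c), Ico (h0 + (i:ℝ) / Q) (h0 + (i:ℝ) / Q + 1/Q) := by
      intro θ hθ
      have h1 := hS _ hv hθ
      have hnn : 0 ≤ (θ - h0) * Q := by
        have := sub_nonneg.2 h1.1
        positivity
      have h2 := Nat.floor_le hnn
      have h3 := Nat.lt_floor_add_one ((θ - h0) * Q)
      set i := ⌊(θ - h0) * Q⌋₊ with hi
      have h4 : h0 + (i:ℝ) / Q ≤ θ := by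
        have : (i:ℝ) / Q ≤ θ - h0 := by rw [div_le_iff₀ hQr]; exact h2
        linarith
      have h5 : θ < h0 + (i:ℝ) / Q + 1/Q := by
        have : θ - h0 < ((i:ℝ) + 1) / Q := by rw [lt_div_iff₀ hQr]; exact h3
        rw [add_div] at this
        linarith
      have h6 : i < Q := by
        have h7 : (θ - h0) * Q < Q := by
          have : θ - h0 < 1 := by linarith [h1.2]
          nlinarith
        have : (i:ℝ) < Q := lt_of_le_of_lt h2 h7
        exact_mod_cast this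
      refine mem_iUnion₂.2 ⟨i, ?_, h4, h5⟩
      rw [hGT]
      exact Finset.mem_filter.2 ⟨Finset.mem_range.2 h6, θ, hθ, h4, h5⟩
    have h1 : ENNReal.ofReal σ ≤ ENNReal.ofReal (((T (G c)).card : ℝ) * β) := by
      calc ENNReal.ofReal σ ≤ ν (S (g c)) := hσ _ hv
        _ ≤ ν (⋃ i ∈ T (G c), Ico (h0 + (i:ℝ) / Q) (h0 + (i:ℝ) / Q + 1/Q)) := measure_mono hsub
        _ ≤ ∑ i ∈ T (G c), ν (Ico (h0 + (i:ℝ) / Q) (h0 + (i:ℝ) / Q + 1/Q)) :=
            measure_biUnion_finset_le _ _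
        _ ≤ ∑ i ∈ T (G c), ENNReal.ofReal β := Finset.sum_le_sum (fun i _ => hν _)
        _ = ENNReal.ofReal (((T (G c)).card : ℝ) * β) := by
            rw [Finset.sum_const, nsmul_eq_mul, ENNReal.ofReal_mul (by positivity), ENNReal.ofReal_natCast]
    rw [ENNReal.ofReal_le_ofReal_iff (by positivity)] at h1
    rwa [div_le_iff₀ hβ]
  · have hcard : L.card = F.card := Finset.card_image_of_injOn hGinj
    rw [hcard]
    have hsub : D ⊆ ⋃ c ∈ F, Icc (fun k => (c k : ℝ) / Q) ((fun k => (c k : ℝ) / Q) + fun _ => 1/(Q:ℝ)) := by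
      intro v hv
      refine mem_iUnion₂.2 ⟨fun k => ⌊(Q:ℝ) * v k⌋, (hFC _).2 ⟨v, hv, fun k => rfl⟩, ?_, ?_⟩
      · intro k
        simp only
        rw [div_le_iff₀ hQr, mul_comm]
        exact Int.floor_le _
      · intro k
        simp only [Pi.add_apply]
        rw [← add_div, le_div_iff₀ hQr, mul_comm]
        exact (Int.lt_floor_add_one _).le
    have h1 : ENNReal.ofReal τ ≤ ENNReal.ofReal ((F.card : ℝ) * γ) := by
      calc ENNReal.ofReal τ ≤ ν' D := hτ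
        _ ≤ _ := measure_mono hsub
        _ ≤ ∑ c ∈ F, ν' (Icc (fun k => (c k : ℝ) / Q) ((fun k => (c k : ℝ) / Q) + fun _ => 1/(Q:ℝ))) :=
            measure_biUnion_finset_le _ _
        _ ≤ ∑ c ∈ F, ENNReal.ofReal γ := Finset.sum_le_sum (fun c _ => hν' _)
        _ = _ := by
            rw [Finset.sum_const, nsmul_eq_mul, ENNReal.ofReal_mul (by positivity), ENNReal.ofReal_natCast]
    rw [ENNReal.ofReal_le_ofReal_iff (by positivity)] at h1
    rwa [div_le_iff₀ hγ]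
  · have hexp : ∀ n, (t n).Nonempty → ∃ p, p ∈ t n := fun n h => h
    choose! p hp using hexp
    let s := J ×ˢ ((Finset.Icc (-2:ℤ) 2) ×ˢ (Fintype.piFinset (fun _ : Fin m => Finset.Icc (-2:ℤ) 2)))
    let f : ℕ × ℤ × (Fin m → ℤ) → ((_ : ℕ) × (Fin m → ℤ)) := fun q =>
      ⟨(⌊((p q.1).2 - h0) * Q⌋ + q.2.1).toNat, fun k => ⌊(Q:ℝ) * (p q.1).1 k⌋ + q.2.2 k⟩
    let E : ℕ → Finset (Fin m → ℤ) := fun i => ((L.filter (fun l => i ∈ T l)).image
        (fun l => fun k => ⌊l.1 k + (i:ℝ)/Q * l.2 k⌋))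
    have hsurj : Set.SurjOn f ↑s ↑((Finset.range Q).sigma E) := by
      rintro ⟨i, c⟩ hic
      have hic' := Finset.mem_sigma.1 (Finset.mem_coe.1 hic)
      obtain ⟨hi, hc⟩ := hic'
      simp only [E] at hc
      obtain ⟨l, hl, hlc⟩ := Finset.mem_image.1 hc
      obtain ⟨hl1, hl2⟩ := Finset.mem_filter.1 hl
      obtain ⟨c', hc', rfl⟩ := Finset.mem_image.1 hl1
      rw [hGT] at hl2
      obtain ⟨_, θ, hθ, hθ1, hθ2⟩ := Finset.mem_filter.1 hl2
      have hv := hgD c' ((hFC c').1 hc')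
      have hvI := hD hv
      obtain ⟨n, hnJ, hnt⟩ := hSt _ hv θ hθ
      have hpn : p n ∈ t n := hp n ⟨_, hnt⟩
      have hdist := ht n hnJ _ hnt _ hpn
      rw [Prod.dist_eq, max_le_iff] at hdist
      obtain ⟨hd1, hd2⟩ := hdist
      have hd1' : ∀ k, |x (g c') k + θ * g c' k - (p n).1 k| ≤ 1 / Q := by
        intro k
        have := (dist_le_pi_dist (x (g c') + θ • g c') (p n).1 k).trans hd1
        rwa [Real.dist_eq] at this
      have hd2' : |θ - (p n).2| ≤ 1 / Q := by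
        rwa [Real.dist_eq] at hd2
      have e3 : |(θ - (p n).2) * Q| ≤ 1 := by
        rw [abs_mul, abs_of_pos hQr]
        calc |θ - (p n).2| * Q ≤ (1/Q) * Q := by gcongr
          _ = 1 := by field_simp
      rw [abs_le] at e3
      have g1 : (i:ℝ) ≤ (θ - h0) * Q := by
        have : (i:ℝ) / Q ≤ θ - h0 := by linarith
        rwa [div_le_iff₀ hQr] at this
      have g2 : (θ - h0) * Q ≤ (i:ℝ) + 1 := by
        have : θ - h0 ≤ ((i:ℝ) + 1) / Q := by rw [add_div]; linarith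
        rwa [le_div_iff₀ hQr] at this
      have hbb1 : ⌊(i:ℝ)⌋ - ⌊((p n).2 - h0) * Q⌋ ≤ 2 := by
        apply floor_sub_floor_le
        push_cast
        nlinarith [e3.1, e3.2]
      have hbb2 : ⌊((p n).2 - h0) * Q⌋ - ⌊(i:ℝ)⌋ ≤ 2 := by
        apply floor_sub_floor_le
        push_cast
        nlinarith [e3.1, e3.2]
      rw [Int.floor_natCast] at hbb1 hbb2
      have hce : ∀ k, |((Q:ℝ) * (x (g c') k + h0 * g c' k)) + (i:ℝ)/Q * (Q * g c' k) - Q * (p n).1 k| ≤ 2 := by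
        intro k
        have e0 : ((Q:ℝ) * (x (g c') k + h0 * g c' k)) + (i:ℝ)/Q * (Q * g c' k) - Q * (p n).1 k =
            Q * (x (g c') k + θ * g c' k - (p n).1 k) - Q * (θ - (h0 + i / Q)) * g c' k := by
          field_simp
          ring
        rw [e0]
        have e1 : |(Q:ℝ) * (x (g c') k + θ * g c' k - (p n).1 k)| ≤ 1 := by
          rw [abs_mul, abs_of_pos hQr]
          calc (Q:ℝ) * |x (g c') k + θ * g c' k - (p n).1 k| ≤ Q * (1/Q) := by gcongr; exact hd1' k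
            _ = 1 := by field_simp
        have e2 : |(Q:ℝ) * (θ - (h0 + i / Q)) * g c' k| ≤ 1 := by
          have f1 : 0 ≤ θ - (h0 + i / Q) := by linarith
          have f2 : θ - (h0 + i / Q) ≤ 1 / Q := by linarith
          have f3 : 0 ≤ g c' k := hvI.1 k
          rw [abs_of_nonneg (mul_nonneg (mul_nonneg hQr.le f1) f3)]
          calc (Q:ℝ) * (θ - (h0 + i / Q)) * g c' k ≤ Q * (1 / Q) * 1 := by
                have := hvI.1 k
                have := hvI.2 k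
                gcongr
                exact hvI.2 k
            _ = 1 := by field_simp
        rw [abs_le] at e1 e2 ⊢
        constructor <;> linarith [e1.1, e1.2, e2.1, e2.2]
      have hcc : ∀ k, c k = ⌊((Q:ℝ) * (x (g c') k + h0 * g c' k)) + (i:ℝ)/Q * (Q * g c' k)⌋ := by
        intro k
        rw [← hlc]
        simp [G]
      refine ⟨(n, (i:ℤ) - ⌊((p n).2 - h0) * Q⌋, fun k => c k - ⌊(Q:ℝ) * (p n).1 k⌋), ?_, ?_⟩
      · simp only [s, Finset.coe_product, Set.mem_prod, Finset.mem_coe, Finset.mem_Icc, Fintype.mem_piFinset]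
        refine ⟨hnJ, ⟨by omega, by omega⟩, fun k => ⟨?_, ?_⟩⟩
        · have : ⌊(Q:ℝ) * (p n).1 k⌋ - c k ≤ 2 := by
            rw [hcc k]
            apply floor_sub_floor_le
            have := (neg_le_abs _).trans (hce k)
            push_cast
            linarith
          linarith
        · rw [hcc k]
          apply floor_sub_floor_le
          have := (le_abs_self _).trans (hce k)
          push_cast
          linarith
      · simp only [f]
        have e1 : (⌊((p n).2 - h0) * Q⌋ + ((i:ℤ) - ⌊((p n).2 - h0) * Q⌋)).toNat = i := by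
          rw [add_sub_cancel]
          simp
        rw [e1]
        congr 1
        funext k
        ring
    have h1 := Finset.card_le_card_of_surjOn f hsurj
    rw [Finset.card_sigma] at h1
    have h2 : s.card = J.card * (5 * 5^m) := by
      simp only [s]
      rw [Finset.card_product, Finset.card_product, Int.card_Icc, Fintype.card_piFinset]
      simp only [Int.card_Icc, Finset.prod_const, Finset.card_univ, Fintype.card_fin]
      congr 2
    rw [h2] at h1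
    exact_mod_cast h1

end Pool.Agent.Helper39
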