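import Pool.Agent.Helper39.DiscD
import Pool.Agent.Helper39.DiscJ

/-!
# Arbitrary sets of directions: the core statement
-/

open MeasureTheory Set Filter Topology
open scoped ENNReal NNReal

namespace Pool.Agent.Helper39

theorem core_dirs {m : ℕ} {al : ℝ} (hal : 0 < al) (h : DiscreteIH m al)
    (K : Set ((Fin m → ℝ) × ℝ)) (V : Set (Fin m → ℝ)) (hV : V ⊆ Icc 0 1)
    (hK : ∀ v ∈ V, ∃ x : Fin m → ℝ, 1 ≤ dimH {θ : ℝ | (x + θ • v, θ) ∈ K})
    {s : ℝ} (hs : 0 < s) (hsV : ENNReal.ofReal s < dimH V) :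
    ENNReal.ofReal (s/al + 1) ≤ dimH K := by
  by_contra hcon
  push Not at hcon
  obtain ⟨d, hd1, hd2⟩ := ENNReal.lt_iff_exists_nnreal_btwn.1 hcon
  have hd0 : 0 < d := by
    have : (0:ℝ≥0∞) < d := lt_of_le_of_lt zero_le hd1
    exact_mod_cast this
  have hd3 : (d:ℝ) < s/al + 1 := by
    have h1 : ENNReal.ofReal (d:ℝ) < ENNReal.ofReal (s/al + 1) := by
      rwa [ENNReal.ofReal_coe_nnreal]
    exact (ENNReal.ofReal_lt_ofReal_iff (by positivity)).1 h1
  set δ0 : ℝ := s - ((d:ℝ) - 1) * al with hδ0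
  have hδpos : 0 < δ0 := by
    have : ((d:ℝ) - 1) < s / al := by linarith
    rw [lt_div_iff₀ hal] at this
    linarith
  obtain ⟨η0, hη0, Q0, hIH⟩ := h (δ0/4) (by positivity)
  -- the exponent of the heights
  set η : ℝ := min η0 1 with hηdef
  have hη : 0 < η := lt_min hη0 one_pos
  have hη1 : η ≤ 1 := min_le_right _ _
  have hηη0 : η ≤ η0 := min_le_left _ _
  set u : ℝ := 1 - η/4 with hu
  have hupos : 0 < u := by linarith
  have hu1 : u < 1 := by linarith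
  choose! x hx using hK
  -- classes
  set W : ℤ × ℕ → Set (Fin m → ℝ) := fun kq => {v | v ∈ V ∧
    ENNReal.ofReal (1/((kq.2:ℝ)+1)) ≤ cont ℝ u hupos ({θ : ℝ | (x v + θ • v, θ) ∈ K} ∩ Ico (kq.1:ℝ) ((kq.1:ℝ)+1))} with hW
  have hcover : V ⊆ ⋃ kq, W kq := by
    intro v hv
    have h1 : cont ℝ u hupos {θ : ℝ | (x v + θ • v, θ) ∈ K} ≠ 0 := by
      apply cont_ne_zero
      refine lt_of_lt_of_le ?_ (hx v hv)
      rw [← ENNReal.ofReal_one]
      exact (ENNReal.ofReal_lt_ofReal_iff one_pos).2 hu1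
    have h2 : ∃ k : ℤ, cont ℝ u hupos ({θ : ℝ | (x v + θ • v, θ) ∈ K} ∩ Ico (k:ℝ) ((k:ℝ)+1)) ≠ 0 := by
      by_contra hall
      push Not at hall
      apply h1
      have h3 : {θ : ℝ | (x v + θ • v, θ) ∈ K} ⊆
          ⋃ k : ℤ, ({θ : ℝ | (x v + θ • v, θ) ∈ K} ∩ Ico (k:ℝ) ((k:ℝ)+1)) := by
        intro θ hθ
        exact mem_iUnion.2 ⟨⌊θ⌋, hθ, Int.floor_le θ, Int.lt_floor_add_one θ⟩
      exact measure_mono_null h3 (measure_iUnion_null hall)
    obtain ⟨k, hk⟩ := h2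
    obtain ⟨q, hq⟩ := ENNReal.exists_inv_nat_lt hk
    refine mem_iUnion.2 ⟨(k, q), hv, ?_⟩
    refine le_trans ?_ hq.le
    rw [one_div, ENNReal.ofReal_inv_of_pos (by positivity), ENNReal.inv_le_inv,
      ← ENNReal.ofReal_natCast]
    exact ENNReal.ofReal_le_ofReal (by simp)
  obtain ⟨⟨kk, qq⟩, hkq⟩ : ∃ kq, ENNReal.ofReal s < dimH (W kq) := by
    have h1 : ENNReal.ofReal s < ⨆ kq, dimH (W kq) := by
      rw [← dimH_iUnion]
      exact hsV.trans_le (dimH_mono hcover)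
    exact lt_iSup_iff.1 h1
  set WW : Set (Fin m → ℝ) := W (kk, qq) with hWW
  set q1 : ℝ := 1/((qq:ℝ)+1) with hq1
  have hq1pos : 0 < q1 := by positivity
  have hWI : WW ⊆ Icc 0 1 := fun v hv => hV hv.1
  have hWne := cont_ne_zero hs hkq
  have hWfin : cont (Fin m → ℝ) s hs WW ≠ ∞ := by
    refine ne_top_of_le_ne_top ?_ (cont_le hs WW)
    refine ENNReal.rpow_ne_top_of_nonneg hs.le ?_
    have hb : Bornology.IsBounded (Icc (0 : Fin m → ℝ) 1) := Metric.isBounded_Icc 0 1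
    exact (hb.subset hWI).ediam_ne_top
  set c0 : ℝ := (cont (Fin m → ℝ) s hs WW).toReal with hc0
  have hc0pos : 0 < c0 := ENNReal.toReal_pos hWne hWfin
  have hc0e : cont (Fin m → ℝ) s hs WW = ENNReal.ofReal c0 := (ENNReal.ofReal_toReal hWfin).symm
  -- geometric weights
  set η' : ℝ := min (η/4) (δ0/4) with hη'
  have hη'pos : 0 < η' := lt_min (by positivity) (by positivity)
  set r : ℝ := (2:ℝ)^(-η') with hr
  have hrpos : 0 < r := by positivity
  have hr1 : r < 1 := Real.rpow_lt_one_of_one_lt_of_neg (by norm_num) (by linarith)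
  set cr : ℕ → ℝ := fun j => (1 - r)/2 * r^j with hcr
  have hcrpos : ∀ j, 0 < cr j := fun j => by
    have : 0 < 1 - r := by linarith
    positivity
  have hcsum : ∑' j, ENNReal.ofReal (cr j) < 1 := by
    have hs : Summable cr := (summable_geometric_of_lt_one hrpos.le hr1).mul_left _
    rw [← ENNReal.ofReal_tsum_of_nonneg (fun j => (hcrpos j).le) hs]
    have : ∑' j, cr j = 1/2 := by
      simp only [hcr]
      rw [tsum_mul_left, tsum_geometric_of_lt_one hrpos.le hr1]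
      have : 1 - r ≠ 0 := by linarith
      field_simp
    rw [this, ← ENNReal.ofReal_one]
    exact (ENNReal.ofReal_lt_ofReal_iff one_pos).2 (by norm_num)
  have hrj : ∀ j : ℕ, r^j = ((2:ℝ)^j)^(-η') := by
    intro j
    rw [hr, ← Real.rpow_natCast, ← Real.rpow_mul (by norm_num), mul_comm, Real.rpow_mul (by norm_num),
      Real.rpow_natCast]
  -- the constants
  set C1 : ℝ := 2 * (2:ℝ)^(d:ℝ) * (5 * 5^m) with hC1
  have hC1pos : 0 < C1 := by positivity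
  set C2 : ℝ := C1^al / ((1-r)/2 * c0) with hC2
  have h1r : 0 < 1 - r := by linarith
  -- choose the scale
  have hev : ∀ᶠ j : ℕ in atTop, Q0 ≤ 2^j ∧ 2/((1-r) * q1) ≤ ((2:ℝ)^j)^(η/2) ∧ C2 < ((2:ℝ)^j)^(δ0/2) := by
    refine Filter.Eventually.and ?_ (Filter.Eventually.and ?_ ?_)
    · exact (tendsto_pow_atTop_atTop_of_one_lt (by norm_num : 1 < 2)).eventually_ge_atTop Q0
    · exact (tendsto_two_pow_rpow (by positivity)).eventually_ge_atTop _
    · exact (tendsto_two_pow_rpow (by positivity)).eventually_gt_atTop _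
  obtain ⟨k0, hk0⟩ := eventually_atTop.1 hev
  obtain ⟨t, J, hKt, hJ0, hJd, hJc⟩ := exists_cover hd0 hd1 k0
  set S : ℕ → (Fin m → ℝ) → Set ℝ := fun j v => {θ | θ ∈ Ico (kk:ℝ) ((kk:ℝ)+1) ∧
    ∃ n ∈ J j, (x v + θ • v, θ) ∈ t n} with hS
  set D : ℕ → Set (Fin m → ℝ) := fun j => {v | v ∈ WW ∧
    ENNReal.ofReal (cr j) * ENNReal.ofReal q1 ≤ cont ℝ u hupos (S j v)} with hD
  have hDcov : WW ⊆ ⋃ j, D j := by
    intro v hv
    have hsub : ({θ : ℝ | (x v + θ • v, θ) ∈ K} ∩ Ico (kk:ℝ) ((kk:ℝ)+1)) ⊆ ⋃ j, S j v := by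
      rintro θ ⟨hθK, hθI⟩
      obtain ⟨j, hj⟩ := mem_iUnion.1 (hKt hθK)
      obtain ⟨n, hn1, hn2⟩ := mem_iUnion₂.1 hj
      exact mem_iUnion.2 ⟨j, hθI, n, hn1, hn2⟩
    obtain ⟨j, hj⟩ := exists_large_pieceO (cont ℝ u hupos) hsub hv.2
      (ENNReal.ofReal_pos.2 hq1pos).ne' ENNReal.ofReal_ne_top hcsum
    exact mem_iUnion.2 ⟨j, hv, hj⟩
  obtain ⟨j, hj⟩ := exists_large_pieceO (cont (Fin m → ℝ) s hs) hDcov le_rfl hWne hWfin hcsum
  have hjk : k0 ≤ j := by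
    by_contra hlt
    push Not at hlt
    have hSe : ∀ v, S j v = ∅ := by
      intro v
      simp only [hS, hJ0 j hlt]
      simp
    have hDe : D j = ∅ := by
      rw [Set.eq_empty_iff_forall_notMem]
      rintro v ⟨_, hv⟩
      rw [hSe v, measure_empty] at hv
      have : 0 < ENNReal.ofReal (cr j) * ENNReal.ofReal q1 :=
        ENNReal.mul_pos (ENNReal.ofReal_pos.2 (hcrpos j)).ne' (ENNReal.ofReal_pos.2 hq1pos).ne'
      exact absurd hv (not_le.2 this)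
    rw [hDe, measure_empty] at hj
    have : 0 < ENNReal.ofReal (cr j) * cont (Fin m → ℝ) s hs WW :=
      ENNReal.mul_pos (ENNReal.ofReal_pos.2 (hcrpos j)).ne' hWne
    exact absurd hj (not_le.2 this)
  obtain ⟨hj1, hj2, hj3⟩ := hk0 j hjk
  have hQpos : 0 < 2^j := by positivity
  have hQcast : ((2^j : ℕ) : ℝ) = (2:ℝ)^j := by push_cast; rfl
  set Q : ℝ := (2:ℝ)^j with hQ
  have hQr : 0 < Q := by positivity
  obtain ⟨L, T, hL1, hL2, hL3, hL4, hL5, hL6⟩ := disc_coreO (m := m) (Q := 2^j) hQpos (h0 := (kk:ℝ))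
    (J j) t
    (by
      intro n hn p hp q hq
      have h1 := hJd j n hn _ hp _ hq
      rw [edist_dist, ENNReal.ofReal_le_ofReal_iff (by positivity)] at h1
      rw [hQcast]
      calc dist p q ≤ (1/2)^j := h1
        _ = 1 / (2:ℝ)^j := by rw [div_pow, one_pow])
    (D j) (fun v hv => hWI hv.1) x (S j) (fun v _ θ hθ => hθ.1)
    (by
      rintro v _ θ ⟨_, n, hn1, hn2⟩
      exact ⟨n, hn1, hn2⟩)
    (cont ℝ u hupos) (cont (Fin m → ℝ) s hs) (β := (1/Q)^u) (γ := (1/Q)^s) (by positivity) (by positivity)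
    (by
      intro a
      refine (cont_le hupos _).trans ?_
      rw [← ENNReal.ofReal_rpow_of_nonneg (by positivity) hupos.le]
      refine ENNReal.rpow_le_rpow ?_ hupos.le
      rw [Real.ediam_Ico, hQcast]
      simp)
    (by
      intro c
      refine (cont_le hs _).trans ?_
      rw [← ENNReal.ofReal_rpow_of_nonneg (by positivity) hs.le]
      refine ENNReal.rpow_le_rpow ?_ hs.le
      refine Metric.ediam_le (fun y hy z hz => ?_)
      rw [edist_dist]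
      refine ENNReal.ofReal_le_ofReal ?_
      rw [hQcast] at hy hz
      rw [dist_pi_le_iff (by positivity)]
      intro k
      have y1 := hy.1 k
      have y2 := hy.2 k
      have z1 := hz.1 k
      have z2 := hz.2 k
      simp only [Pi.add_apply] at y2 z2
      rw [Real.dist_eq, abs_le]
      constructor <;> linarith)
    (σ := cr j * q1) (τ := cr j * c0)
    (by
      intro v hv
      rw [ENNReal.ofReal_mul (hcrpos j).le]
      exact hv.2)
    (by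
      rw [ENNReal.ofReal_mul (hcrpos j).le, ← hc0e]
      exact hj)
  have hQ1 : 1 ≤ Q := by rw [hQ]; exact one_le_pow₀ (by norm_num)
  have hcond : ∀ l ∈ L, (((2^j : ℕ) : ℝ))^(1-η0) ≤ (T l).card := by
    intro l hl
    refine le_trans ?_ (hL4 l hl)
    rw [hQcast]
    have e1 : cr j * q1 / (1/Q)^u = (1-r)/2 * q1 * (Q^(-η') * Q^u) := by
      simp only [hcr]
      rw [hrj j, ← hQ, one_div, Real.inv_rpow hQr.le, div_inv_eq_mul]
      ring
    rw [e1, ← Real.rpow_add hQr]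
    have e3 : Q^(1-η0) * Q^(η/2) ≤ Q^(-η' + u) := by
      rw [← Real.rpow_add hQr]
      apply Real.rpow_le_rpow_of_exponent_le hQ1
      have : η' ≤ η/4 := min_le_left _ _
      rw [hu]
      linarith
    have e4 : Q^(1-η0) * (2/((1-r) * q1)) ≤ Q^(-η' + u) :=
      (mul_le_mul_of_nonneg_left hj2 (by positivity)).trans e3
    calc Q^(1-η0) = (1-r)/2 * q1 * (Q^(1-η0) * (2/((1-r) * q1))) := by field_simp
      _ ≤ (1-r)/2 * q1 * Q^(-η' + u) := by gcongr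
  have hfinal := hIH (2^j) hj1 L T hL1 hL2 hL3 hcond
  rw [hQcast] at hfinal
  set SS : ℝ := ∑ i ∈ Finset.range (2^j), (((L.filter (fun l => i ∈ T l)).image
          (fun l => fun k => ⌊l.1 k + (i:ℝ)/Q * l.2 k⌋)).card : ℝ) with hSS
  have hL6' : SS ≤ (J j).card * (5 * 5^m) := by
    rw [hSS, ← hQcast]
    exact_mod_cast hL6
  have hJcard : ((J j).card : ℝ) ≤ 2 * (2:ℝ)^(d:ℝ) * Q^(d:ℝ) := by
    refine (hJc j).trans (le_of_eq ?_)
    rw [mul_assoc, hQ, ← Real.rpow_natCast, ← Real.rpow_mul (by norm_num), ← Real.rpow_add (by norm_num)]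
    congr 2
    ring
  have hSSn : 0 ≤ SS := Finset.sum_nonneg (fun i _ => Nat.cast_nonneg _)
  have hSS2 : 1/Q * SS ≤ C1 * Q^((d:ℝ)-1) := by
    have e1 : SS ≤ C1 * Q^(d:ℝ) := by
      calc SS ≤ (J j).card * (5 * 5^m) := hL6'
        _ ≤ (2 * (2:ℝ)^(d:ℝ) * Q^(d:ℝ)) * (5 * 5^m) := by gcongr
        _ = C1 * Q^(d:ℝ) := by rw [hC1]; ring
    rw [Real.rpow_sub hQr, Real.rpow_one]
    calc 1/Q * SS ≤ 1/Q * (C1 * Q^(d:ℝ)) := by gcongr
      _ = _ := by ring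
  have hup : (L.card : ℝ) ≤ C1^al * Q^(δ0/4 + ((d:ℝ)-1)*al) := by
    calc (L.card : ℝ) ≤ Q^(δ0/4) * (1/Q * SS)^al := hfinal
      _ ≤ Q^(δ0/4) * (C1 * Q^((d:ℝ)-1))^al :=
          mul_le_mul_of_nonneg_left (Real.rpow_le_rpow (mul_nonneg (one_div_nonneg.2 hQr.le) hSSn) hSS2 hal.le)
            (Real.rpow_nonneg hQr.le _)
      _ = _ := by
        rw [Real.mul_rpow hC1pos.le (by positivity), ← Real.rpow_mul hQr.le, Real.rpow_add hQr]
        ring
  have hlow : (1-r)/2 * c0 * Q^(s - η') ≤ L.card := by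
    refine le_trans (le_of_eq ?_) hL5
    simp only [hcr]
    have e4 : Q^(s - η') = Q^s * Q^(-η') := by
      rw [sub_eq_add_neg, Real.rpow_add hQr]
    rw [hrj j, ← hQ, e4, one_div, Real.inv_rpow hQr.le, div_inv_eq_mul]
    ring
  have hcomb : (1-r)/2 * c0 * Q^(s - η') ≤ C1^al * Q^(δ0/4 + ((d:ℝ)-1)*al) := hlow.trans hup
  have hcoef : 0 < (1-r)/2 * c0 := by positivity
  have e5 : Q^(s - η') = Q^(δ0/4 + ((d:ℝ)-1)*al) * Q^(δ0 - δ0/4 - η') := by
    rw [← Real.rpow_add hQr]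
    congr 1
    rw [hδ0]
    ring
  rw [e5] at hcomb
  have e6 : 0 < Q^(δ0/4 + ((d:ℝ)-1)*al) := by positivity
  have e7 : (1-r)/2 * c0 * Q^(δ0 - δ0/4 - η') ≤ C1^al := by
    have : Q^(δ0/4 + ((d:ℝ)-1)*al) * ((1-r)/2 * c0 * Q^(δ0 - δ0/4 - η')) ≤
        Q^(δ0/4 + ((d:ℝ)-1)*al) * C1^al := by
      calc _ = (1-r)/2 * c0 * (Q^(δ0/4 + ((d:ℝ)-1)*al) * Q^(δ0 - δ0/4 - η')) := by ring
        _ ≤ _ := hcomb
        _ = _ := by ring
    exact le_of_mul_le_mul_left this e6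
  have e8 : Q^(δ0/2) ≤ Q^(δ0 - δ0/4 - η') := by
    apply Real.rpow_le_rpow_of_exponent_le hQ1
    have : η' ≤ δ0/4 := min_le_right _ _
    linarith
  have e9 : Q^(δ0/2) ≤ C2 := by
    rw [hC2, le_div_iff₀ hcoef]
    calc Q^(δ0/2) * ((1-r)/2 * c0) ≤ Q^(δ0 - δ0/4 - η') * ((1-r)/2 * c0) := by gcongr
      _ = (1-r)/2 * c0 * Q^(δ0 - δ0/4 - η') := by ring
      _ ≤ _ := e7
  linarith

end Pool.Agent.Helper39
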