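import Pool.Agent.Helper71.FK.Defs

/-! Integration by parts against the radial field for a torsion pair (module M3b of the
quantitative Faber-Krahn development). -/

open MeasureTheory Metric Set Filter Topology
open scoped ENNReal ContDiff

namespace Pool.Agent.Helper71.FK

namespace Radial

theorem hasFDerivAt_prim {k k' : ℝ → ℝ → ℝ} (hk : Continuous (Function.uncurry k))
    (hk' : Continuous (Function.uncurry k'))
    (hd : ∀ σ ρ, HasDerivAt (fun ρ => k σ ρ) (k' σ ρ) ρ) (z : ℝ × ℝ) :
    HasFDerivAt (fun z : ℝ × ℝ => ∫ σ in (0:ℝ)..z.1, k σ z.2)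
      ((ContinuousLinearMap.toSpanSingleton ℝ (k z.1 z.2)).coprod
        (ContinuousLinearMap.toSpanSingleton ℝ (∫ σ in (0:ℝ)..z.1, k' σ z.2))) z := by
  have hkc : ∀ ρ, Continuous (fun σ => k σ ρ) := fun ρ =>
    hk.comp (Continuous.prodMk_left ρ)
  have hkc' : ∀ ρ, Continuous (fun σ => k' σ ρ) := fun ρ =>
    hk'.comp (Continuous.prodMk_left ρ)
  have h := hasStrictFDerivAt_uncurry_coprod (𝕜 := ℝ) (u := z)
    (f := fun s ρ => ∫ σ in (0:ℝ)..s, k σ ρ)
    (f₁ := fun s ρ => ContinuousLinearMap.toSpanSingleton ℝ (k s ρ))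
    (f₂ := fun s ρ => ContinuousLinearMap.toSpanSingleton ℝ (∫ σ in (0:ℝ)..s, k' σ ρ))
    (Eventually.of_forall fun v => ?_) (Eventually.of_forall fun v => ?_) ?_ ?_
  · exact h.hasFDerivAt
  · exact (intervalIntegral.integral_hasDerivAt_right ((hkc v.2).intervalIntegrable _ _)
      ((hkc v.2).stronglyMeasurable.stronglyMeasurableAtFilter)
      (hkc v.2).continuousAt).hasFDerivAt
  · have hcomp : IsCompact (uIcc (0:ℝ) v.1 ×ˢ closedBall v.2 1) :=
      isCompact_uIcc.prod (isCompact_closedBall _ _)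
    obtain ⟨C, hC⟩ := hcomp.exists_bound_of_continuousOn hk'.continuousOn
    have := (intervalIntegral.hasDerivAt_integral_of_dominated_loc_of_deriv_le
      (μ := volume) (a := (0:ℝ)) (b := v.1) (F := fun ρ σ => k σ ρ) (F' := fun ρ σ => k' σ ρ)
      (x₀ := v.2) (s := closedBall v.2 1) (bound := fun _ => C)
      (closedBall_mem_nhds _ one_pos)
      (Eventually.of_forall fun ρ => (hkc ρ).aestronglyMeasurable)
      ((hkc v.2).intervalIntegrable _ _) (hkc' v.2).aestronglyMeasurable
      (Eventually.of_forall fun t ht x hx => hC (t, x) ⟨uIoc_subset_uIcc ht, hx⟩)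
      intervalIntegrable_const
      (Eventually.of_forall fun t _ x _ => hd t x)).2
    exact this.hasFDerivAt
  · have : Continuous (fun p : ℝ × ℝ => ContinuousLinearMap.toSpanSingleton ℝ (k p.1 p.2)) := by
      exact (ContinuousLinearMap.toSpanSingletonCLE (𝕜 := ℝ) (E := ℝ)).continuous.comp hk
    exact this.continuousAt
  · have h1 : Continuous fun p : ℝ × ℝ => ∫ t in (0:ℝ)..p.2, k' t p.1 :=
      intervalIntegral.continuous_parametric_primitive_of_continuous
        (f := fun ρ σ => k' σ ρ) (by exact hk'.comp continuous_swap)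
    have : Continuous (fun p : ℝ × ℝ =>
        ContinuousLinearMap.toSpanSingleton ℝ (∫ σ in (0:ℝ)..p.1, k' σ p.2)) := by
      exact (ContinuousLinearMap.toSpanSingletonCLE (𝕜 := ℝ) (E := ℝ)).continuous.comp
        (h1.comp continuous_swap)
    exact this.continuousAt

theorem continuous_prim {k : ℝ → ℝ → ℝ} (hk : Continuous (Function.uncurry k)) :
    Continuous fun z : ℝ × ℝ => ∫ σ in (0:ℝ)..z.1, k σ z.2 := by
  have h1 : Continuous fun p : ℝ × ℝ => ∫ t in (0:ℝ)..p.2, k t p.1 :=
    intervalIntegral.continuous_parametric_primitive_of_continuous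
      (f := fun ρ σ => k σ ρ) (by exact hk.comp continuous_swap)
  exact h1.comp continuous_swap

/-- integration by parts against the radial field, compactly supported `C^1` function -/
theorem integral_fderiv_radial {N : ℕ} {F : E N → ℝ} {F' : E N → E N →L[ℝ] ℝ}
    (hF : ∀ y, HasFDerivAt F (F' y) y) (hF'c : Continuous F') (hc : HasCompactSupport F)
    (b : E N) : ∫ y, F' y (y - b) = - N * ∫ y, F y := by
  have hFc : Continuous F := continuous_iff_continuousAt.2 fun y => (hF y).continuousAt
  have hc' : HasCompactSupport F' := by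
    have : F' = fderiv ℝ F := by
      ext1 y; exact (hF y).fderiv.symm
    rw [this]; exact hc.fderiv (𝕜 := ℝ)
  have key : ∀ i : Fin N, ∫ y, F' y (EuclideanSpace.single i (1:ℝ)) * (y - b) i =
      - ∫ y, F y := by
    intro i
    have hg : ∀ y : E N, HasFDerivAt (fun y : E N => (y - b) i)
        (EuclideanSpace.proj (𝕜 := ℝ) i : E N →L[ℝ] ℝ) y := by
      intro y
      have := ((EuclideanSpace.proj (𝕜 := ℝ) i : E N →L[ℝ] ℝ).hasFDerivAt
        (x := y - b)).comp y ((hasFDerivAt_id y).sub_const b)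
      exact this
    have hgc : Continuous (fun y : E N => (y - b) i) :=
      continuous_iff_continuousAt.2 fun y => (hg y).continuousAt
    have := integral_bilinear_hasFDerivAt_right_eq_neg_left_of_integrable
      (μ := (volume : Measure (E N))) (B := ContinuousLinearMap.mul ℝ ℝ)
      (f := F) (f' := F') (g := fun y : E N => (y - b) i)
      (g' := fun _ => (EuclideanSpace.proj (𝕜 := ℝ) i : E N →L[ℝ] ℝ))
      (v := EuclideanSpace.single i (1:ℝ)) ?_ ?_ ?_ (fun y _ => hF y) (fun y _ => hg y)
    · simp only [ContinuousLinearMap.mul_apply'] at this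
      rw [eq_neg_iff_add_eq_zero, add_comm, ← eq_neg_iff_add_eq_zero, ← this]
      simp
    · refine Continuous.integrable_of_hasCompactSupport ?_ ?_
      · simp only [ContinuousLinearMap.mul_apply']
        exact ((hF'c.clm_apply continuous_const).mul hgc)
      · refine hc'.mono ?_
        intro y hy
        simp only [Function.mem_support, ContinuousLinearMap.mul_apply'] at hy ⊢
        intro h0; apply hy; rw [h0]; simp
    · refine Continuous.integrable_of_hasCompactSupport ?_ ?_
      · simp only [ContinuousLinearMap.mul_apply']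
        exact (hFc.mul continuous_const)
      · refine hc.mono ?_
        intro y hy
        simp only [Function.mem_support, ContinuousLinearMap.mul_apply'] at hy ⊢
        intro h0; apply hy; rw [h0]; simp
    · refine Continuous.integrable_of_hasCompactSupport ?_ ?_
      · simp only [ContinuousLinearMap.mul_apply']
        exact (hFc.mul hgc)
      · refine hc.mono ?_
        intro y hy
        simp only [Function.mem_support, ContinuousLinearMap.mul_apply'] at hy ⊢
        intro h0; apply hy; rw [h0]; simp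
  have hsum : ∀ y : E N, F' y (y - b) =
      ∑ i : Fin N, F' y (EuclideanSpace.single i (1:ℝ)) * (y - b) i := by
    intro y
    have hy : (y - b) = ∑ i : Fin N, (y - b) i • EuclideanSpace.single i (1:ℝ) := by
      have := (EuclideanSpace.basisFun (Fin N) ℝ).sum_repr (y - b)
      simpa using this.symm
    conv_lhs => rw [hy]
    rw [map_sum]
    refine Finset.sum_congr rfl fun i _ => ?_
    rw [map_smul, smul_eq_mul, mul_comm]
  simp_rw [hsum]
  rw [integral_finsetSum]
  · simp_rw [key]
    simp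
  · intro i _
    refine Continuous.integrable_of_hasCompactSupport ?_ ?_
    · exact ((hF'c.clm_apply continuous_const).mul (by fun_prop))
    · refine hc'.mono ?_
      intro y hy
      simp only [Function.mem_support] at hy ⊢
      intro h0; apply hy; rw [h0]; simp

theorem smooth_radial {N : ℕ} {Ω : Set (E N)} {u : E N → ℝ} (hu : Tst Ω u) (b : E N)
    {k k' : ℝ → ℝ → ℝ} (hk : Continuous (Function.uncurry k))
    (hk' : Continuous (Function.uncurry k'))
    (hd : ∀ σ ρ, HasDerivAt (fun ρ => k σ ρ) (k' σ ρ) ρ) :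
    ∫ y, k (u y) (‖y - b‖ ^ 2) * inner ℝ (gradient u y) (y - b) =
      - ∫ y, ∫ σ in (0:ℝ)..(u y), (N * k σ (‖y - b‖ ^ 2) +
        2 * ‖y - b‖ ^ 2 * k' σ (‖y - b‖ ^ 2)) := by
  have huc : Continuous u := hu.smooth.continuous
  have hdu : Continuous (fderiv ℝ u) := hu.smooth.continuous_fderiv one_ne_zero
  have hrc : Continuous (fun y : E N => ‖y - b‖ ^ 2) := by fun_prop
  have hkc : ∀ ρ, Continuous (fun σ => k σ ρ) := fun ρ =>
    hk.comp (Continuous.prodMk_left ρ)
  have hkc' : ∀ ρ, Continuous (fun σ => k' σ ρ) := fun ρ =>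
    hk'.comp (Continuous.prodMk_left ρ)
  set F : E N → ℝ := fun y => ∫ σ in (0:ℝ)..(u y), k σ (‖y - b‖ ^ 2) with hFdef
  set G : E N → ℝ := fun y => ∫ σ in (0:ℝ)..(u y), k' σ (‖y - b‖ ^ 2) with hGdef
  have hpair : Continuous (fun y : E N => (u y, ‖y - b‖ ^ 2)) := huc.prodMk hrc
  have hFc : Continuous F := (continuous_prim hk).comp hpair
  have hGc : Continuous G := (continuous_prim hk').comp hpair
  have hkuc : Continuous (fun y : E N => k (u y) (‖y - b‖ ^ 2)) := hk.comp hpair
  set F' : E N → E N →L[ℝ] ℝ := fun y => k (u y) (‖y - b‖ ^ 2) • fderiv ℝ u y +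
    G y • ((2:ℝ) • innerSL ℝ (y - b)) with hF'def
  have hF' : ∀ y, HasFDerivAt F (F' y) y := by
    intro y
    have h1 : HasFDerivAt u (fderiv ℝ u y) y :=
      (hu.smooth.differentiable one_ne_zero y).hasFDerivAt
    have h2 : HasFDerivAt (fun y : E N => ‖y - b‖ ^ 2) ((2:ℝ) • innerSL ℝ (y - b)) y := by
      have := ((hasStrictFDerivAt_norm_sq (y - b)).hasFDerivAt).comp y
        ((hasFDerivAt_id y).sub_const b)
      convert! this using 1
      ext v
      simp
    have h3 := (hasFDerivAt_prim hk hk' hd (u y, ‖y - b‖ ^ 2)).comp y (h1.prodMk h2)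
    convert! h3 using 1
    ext v
    simp [hF'def, hGdef, mul_comm]
  have hF'c : Continuous F' := by
    refine (hkuc.smul hdu).add (hGc.smul ?_)
    have h1 : Continuous (fun y : E N => innerSL ℝ (y - b)) :=
      (innerSL ℝ (E := E N)).continuous.comp (continuous_id.sub continuous_const)
    exact h1.const_smul (2:ℝ)
  have hcF : HasCompactSupport F := by
    refine hu.cpt.mono ?_
    intro y hy
    simp only [Function.mem_support, hFdef] at hy ⊢
    intro h0; apply hy; rw [h0]; simp
  have hcG : HasCompactSupport G := by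
    refine hu.cpt.mono ?_
    intro y hy
    simp only [Function.mem_support, hGdef] at hy ⊢
    intro h0; apply hy; rw [h0]; simp
  have hmain := integral_fderiv_radial hF' hF'c hcF b
  have hval : ∀ y, F' y (y - b) = k (u y) (‖y - b‖ ^ 2) * inner ℝ (gradient u y) (y - b) +
      2 * ‖y - b‖ ^ 2 * G y := by
    intro y
    have : inner ℝ (gradient u y) (y - b) = fderiv ℝ u y (y - b) := by
      rw [gradient, InnerProductSpace.toDual_symm_apply]
    rw [this]
    simp only [hF'def, add_apply, smul_apply,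
      smul_eq_mul, innerSL_apply_apply, real_inner_self_eq_norm_sq]
    ring
  have hint1 : Integrable (fun y => k (u y) (‖y - b‖ ^ 2) *
      inner ℝ (gradient u y) (y - b)) := by
    have : ∀ y, inner ℝ (gradient u y) (y - b) = fderiv ℝ u y (y - b) := by
      intro y
      rw [gradient, InnerProductSpace.toDual_symm_apply]
    simp_rw [this]
    refine Continuous.integrable_of_hasCompactSupport
      (hkuc.mul (hdu.clm_apply (by fun_prop))) ?_
    refine (hu.cpt.fderiv (𝕜 := ℝ)).mono ?_
    intro y hy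
    simp only [Function.mem_support] at hy ⊢
    intro h0; apply hy; rw [h0]; simp
  have hint2 : Integrable (fun y => 2 * ‖y - b‖ ^ 2 * G y) := by
    refine Continuous.integrable_of_hasCompactSupport (by fun_prop) ?_
    exact hcG.mul_left
  have hint3 : Integrable F := hFc.integrable_of_hasCompactSupport hcF
  simp_rw [hval] at hmain
  rw [integral_add hint1 hint2] at hmain
  have hinner : ∀ y : E N, ∫ σ in (0:ℝ)..(u y), (N * k σ (‖y - b‖ ^ 2) +
        2 * ‖y - b‖ ^ 2 * k' σ (‖y - b‖ ^ 2)) = N * F y + 2 * ‖y - b‖ ^ 2 * G y := by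
    intro y
    rw [intervalIntegral.integral_add, intervalIntegral.integral_const_mul,
      intervalIntegral.integral_const_mul]
    · exact ((hkc _).const_mul _).intervalIntegrable _ _
    · exact ((hkc' _).const_mul _).intervalIntegrable _ _
  simp_rw [hinner]
  rw [integral_add (hint3.const_mul _) hint2, integral_const_mul]
  linarith

theorem continuous_param {N : ℕ} {Ψ : ℝ → E N → ℝ} (hΨ : Continuous (Function.uncurry Ψ)) :
    Continuous fun z : ℝ × E N => ∫ σ in (0:ℝ)..z.1, Ψ σ z.2 := by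
  have h1 : Continuous fun p : E N × ℝ => ∫ t in (0:ℝ)..p.2, Ψ t p.1 :=
    intervalIntegral.continuous_parametric_primitive_of_continuous
      (f := fun ρ σ => Ψ σ ρ) (by exact hΨ.comp continuous_swap)
  exact h1.comp continuous_swap

theorem lip_param {N : ℕ} {Ψ : ℝ → E N → ℝ} (hΨ : Continuous (Function.uncurry Ψ)) {C' : ℝ}
    (hC' : ∀ s, 0 ≤ s → ∀ y, |Ψ s y| ≤ C') {s t : ℝ} (hs : 0 ≤ s) (ht : 0 ≤ t) (y : E N) :
    |(∫ σ in (0:ℝ)..s, Ψ σ y) - ∫ σ in (0:ℝ)..t, Ψ σ y| ≤ C' * |s - t| := by
  have hc : Continuous (fun σ => Ψ σ y) := hΨ.comp (Continuous.prodMk_left y)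
  rw [intervalIntegral.integral_interval_sub_left (hc.intervalIntegrable _ _)
    (hc.intervalIntegrable _ _)]
  have := intervalIntegral.norm_integral_le_of_norm_le_const (a := t) (b := s)
    (f := fun σ => Ψ σ y) (C := C') (fun x hx => by
      rw [Real.norm_eq_abs]
      apply hC'
      have := hx.1
      exact le_trans (le_min ht hs) this.le)
  simpa [Real.norm_eq_abs] using this

theorem gradient_continuous {N : ℕ} {u : E N → ℝ} (hu : ContDiff ℝ 1 u) :
    Continuous (gradient u) := by
  have hdu : Continuous (fderiv ℝ u) := hu.continuous_fderiv one_ne_zero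
  exact (InnerProductSpace.toDual ℝ (E N)).symm.continuous.comp hdu

theorem gradient_hasCompactSupport {N : ℕ} {u : E N → ℝ} (hu : HasCompactSupport u) :
    HasCompactSupport (gradient u) := by
  refine (hu.fderiv (𝕜 := ℝ)).mono ?_
  intro y hy
  simp only [Function.mem_support, gradient] at hy ⊢
  intro h0; apply hy; rw [h0]; simp

/-- Fubini -/
theorem fubini_radial {N : ℕ} {w : E N → ℝ} (hwm : Measurable w) (hw0 : ∀ y, 0 ≤ w y)
    (hwi : Integrable w) {Ψ : ℝ → E N → ℝ} (hΨ : Continuous (Function.uncurry Ψ)) {C' : ℝ}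
    (hC' : ∀ s, 0 ≤ s → ∀ y, |Ψ s y| ≤ C') :
    ∫ y, ∫ σ in (0:ℝ)..(w y), Ψ σ y =
      ∫ s in Ioi (0:ℝ), ∫ y in {y | s < w y}, Ψ s y := by
  have hC0 : 0 ≤ C' := le_trans (abs_nonneg _) (hC' 0 le_rfl 0)
  set S : Set (ℝ × E N) := {z | z.1 < w z.2} with hS
  have hSm : MeasurableSet S := measurableSet_lt measurable_fst (hwm.comp measurable_snd)
  set f : ℝ × E N → ℝ := S.indicator (Function.uncurry Ψ) with hf
  have hfm : Measurable f := hΨ.measurable.indicator hSm
  have hsec : ∀ y, ∫ σ in (0:ℝ)..(w y), Ψ σ y = ∫ σ in Ioi (0:ℝ), f (σ, y) := by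
    intro y
    rw [intervalIntegral.integral_of_le (hw0 y), integral_Ioc_eq_integral_Ioo,
      ← integral_indicator measurableSet_Ioo, ← integral_indicator measurableSet_Ioi]
    congr 1
    ext σ
    simp only [hf, hS, indicator, mem_Ioo, mem_Ioi, mem_ofPred_eq, Function.uncurry]
    by_cases h1 : 0 < σ <;> by_cases h2 : σ < w y <;> simp [h1, h2]
  have hbd : ∀ y, ∀ σ, ‖f (σ, y)‖ * (Ioi (0:ℝ)).indicator (fun _ => (1:ℝ)) σ ≤
      C' * (Ioo (0:ℝ) (w y)).indicator (fun _ => (1:ℝ)) σ := by
    intro y σ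
    simp only [hf, hS, indicator, mem_Ioo, mem_Ioi, mem_ofPred_eq, Function.uncurry]
    by_cases h1 : 0 < σ <;> by_cases h2 : σ < w y <;> simp [h1, h2]
    exact hC' σ h1.le y
  have hintσ : ∀ y, Integrable (fun σ => f (σ, y)) (volume.restrict (Ioi (0:ℝ))) := by
    intro y
    have hmy : Measurable (fun σ => f (σ, y)) := hfm.comp (by fun_prop)
    have hI : Integrable (fun σ : ℝ => C' * (Ioo (0:ℝ) (w y)).indicator (fun _ => (1:ℝ)) σ)
        (volume.restrict (Ioi (0:ℝ))) := by
      refine Integrable.const_mul ?_ _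
      refine Integrable.restrict ?_
      exact (integrable_indicator_iff measurableSet_Ioo).2 (integrableOn_const (by simp))
    refine hI.mono' hmy.aestronglyMeasurable ?_
    filter_upwards [ae_restrict_mem measurableSet_Ioi] with σ hσ
    have := hbd y σ
    simpa [indicator_of_mem hσ] using this
  have hint : Integrable f ((volume.restrict (Ioi (0:ℝ))).prod volume) := by
    rw [integrable_prod_iff' hfm.aestronglyMeasurable]
    refine ⟨Eventually.of_forall hintσ, ?_⟩
    refine (hwi.const_mul C').mono' ?_ (Eventually.of_forall fun y => ?_)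
    · exact (hfm.aestronglyMeasurable.norm.prod_swap).integral_prod_right'
    · rw [Real.norm_of_nonneg (integral_nonneg fun _ => norm_nonneg _)]
      calc ∫ σ in Ioi (0:ℝ), ‖f (σ, y)‖ 
          ≤ ∫ σ in Ioi (0:ℝ), C' * (Ioo (0:ℝ) (w y)).indicator (fun _ => (1:ℝ)) σ := by
            refine integral_mono_ae (hintσ y).norm ?_ ?_
            · refine Integrable.const_mul ?_ _
              refine Integrable.restrict ?_
              exact (integrable_indicator_iff measurableSet_Ioo).2 (integrableOn_const (by simp))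
            · filter_upwards [ae_restrict_mem measurableSet_Ioi] with σ hσ
              have := hbd y σ
              simpa [indicator_of_mem hσ] using this
        _ = C' * w y := by
            rw [integral_const_mul, integral_indicator measurableSet_Ioo]
            simp only [integral_const, smul_eq_mul, mul_one]
            congr 1
            rw [Measure.restrict_restrict measurableSet_Ioo]
            have : Ioo (0:ℝ) (w y) ∩ Ioi 0 = Ioo 0 (w y) := by
              ext σ; simp; tauto
            rw [this, measureReal_restrict_apply_univ]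
            simp [hw0 y]
  simp_rw [hsec]
  rw [← integral_integral_swap (f := fun σ y => f (σ, y)) hint]
  refine integral_congr_ae ?_
  filter_upwards [ae_restrict_mem measurableSet_Ioi] with σ hσ
  have hms : MeasurableSet {y | σ < w y} := measurableSet_lt measurable_const hwm
  rw [← integral_indicator hms]
  rfl

theorem cs_ball {N : ℕ} (b : E N) (R : ℝ) {d : E N → E N}
    (hd : MemLp d 2 (volume : Measure (E N))) :
    ∫ y, (closedBall b R).indicator (fun _ => (1:ℝ)) y * ‖d y‖ ≤
      Real.sqrt (volume.real (closedBall b R)) * Real.sqrt (∫ y, ‖d y‖ ^ 2) := by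
  have h2 : (ENNReal.ofReal 2) = 2 := by norm_num
  have hI : MemLp ((closedBall b R).indicator (fun _ => (1:ℝ))) (ENNReal.ofReal 2)
      (volume : Measure (E N)) := by
    refine memLp_indicator_const _ measurableSet_closedBall _ (Or.inr ?_)
    exact (isCompact_closedBall b R).measure_lt_top.ne
  have h := integral_mul_le_Lp_mul_Lq_of_nonneg (μ := (volume : Measure (E N)))
    (p := 2) (q := 2) (by exact Real.HolderConjugate.two_two)
    (f := (closedBall b R).indicator (fun _ => (1:ℝ))) (g := fun y => ‖d y‖)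
    (Eventually.of_forall fun y => indicator_nonneg (fun _ _ => zero_le_one) y)
    (Eventually.of_forall fun y => norm_nonneg _) hI (by rw [h2]; exact hd.norm)
  refine h.trans (le_of_eq ?_)
  rw [← Real.sqrt_eq_rpow, ← Real.sqrt_eq_rpow]
  congr 2
  · have : ∀ y, (closedBall b R).indicator (fun _ => (1:ℝ)) y ^ (2:ℝ) =
        (closedBall b R).indicator (fun _ => (1:ℝ)) y := by
      intro y
      by_cases hy : y ∈ closedBall b R <;> simp [hy]
    simp_rw [this]
    rw [integral_indicator measurableSet_closedBall]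
    simp
  · congr 1
    ext y
    rw [Real.rpow_two]

theorem limit_radial {N : ℕ} {Ω : Set (E N)} {u : ℕ → E N → ℝ} {w : E N → ℝ}
    {g : E N → E N} (hp : Pair Ω u w g) (b : E N) {k k' : ℝ → ℝ → ℝ}
    (hk : Continuous (Function.uncurry k))
    (hk' : Continuous (Function.uncurry k'))
    (hd : ∀ σ ρ, HasDerivAt (fun ρ => k σ ρ) (k' σ ρ) ρ) {C R C' : ℝ}
    (hR : ∀ s, 0 ≤ s → ∀ y, R < ‖y - b‖ → k s (‖y - b‖ ^ 2) = 0)
    (hC : ∀ s, 0 ≤ s → ∀ y, |k s (‖y - b‖ ^ 2)| * ‖y - b‖ ≤ C)
    (hC' : ∀ s, 0 ≤ s → ∀ y, |N * k s (‖y - b‖ ^ 2) +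
      2 * ‖y - b‖ ^ 2 * k' s (‖y - b‖ ^ 2)| ≤ C') :
    ∫ y, k (w y) (‖y - b‖ ^ 2) * inner ℝ (g y) (y - b) =
      - ∫ y, ∫ σ in (0:ℝ)..(w y), (N * k σ (‖y - b‖ ^ 2) +
        2 * ‖y - b‖ ^ 2 * k' σ (‖y - b‖ ^ 2)) := by
  set Ψ : ℝ → E N → ℝ := fun s y => N * k s (‖y - b‖ ^ 2) +
      2 * ‖y - b‖ ^ 2 * k' s (‖y - b‖ ^ 2) with hΨdef
  have hkc2 : Continuous (fun z : ℝ × E N => k z.1 (‖z.2 - b‖ ^ 2)) :=
    hk.comp (continuous_fst.prodMk (by fun_prop))
  have hkc2' : Continuous (fun z : ℝ × E N => k' z.1 (‖z.2 - b‖ ^ 2)) :=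
    hk'.comp (continuous_fst.prodMk (by fun_prop))
  have hΨc : Continuous (Function.uncurry Ψ) := by
    show Continuous (fun z : ℝ × E N => N * k z.1 (‖z.2 - b‖ ^ 2) +
      2 * ‖z.2 - b‖ ^ 2 * k' z.1 (‖z.2 - b‖ ^ 2))
    fun_prop
  have hC0 : 0 ≤ C := by
    refine le_trans ?_ (hC 0 le_rfl b)
    positivity
  have hC'0 : 0 ≤ C' := le_trans (abs_nonneg _) (hC' 0 le_rfl 0)
  have hPc := continuous_param hΨc
  have hPm : ∀ v : E N → ℝ, Measurable v →
      Measurable (fun y => ∫ σ in (0:ℝ)..(v y), Ψ σ y) := fun v hv =>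
    hPc.measurable.comp (hv.prodMk measurable_id)
  have hPi : ∀ v : E N → ℝ, Measurable v → (∀ y, 0 ≤ v y) → Integrable v →
      Integrable (fun y => ∫ σ in (0:ℝ)..(v y), Ψ σ y) := by
    intro v hv hv0 hvi
    refine (hvi.const_mul C').mono' (hPm v hv).aestronglyMeasurable
      (Eventually.of_forall fun y => ?_)
    have := lip_param hΨc hC' (hv0 y) le_rfl y
    simpa [abs_of_nonneg (hv0 y)] using this
  have hui : ∀ n, Integrable (u n) := fun n =>
    (hp.tst n).smooth.continuous.integrable_of_hasCompactSupport (hp.tst n).cpt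
  have hum : ∀ n, Measurable (u n) := fun n => (hp.tst n).smooth.continuous.measurable
  have h1 : Tendsto (fun n => ∫ y, ∫ σ in (0:ℝ)..(u n y), Ψ σ y) atTop
      (𝓝 (∫ y, ∫ σ in (0:ℝ)..(w y), Ψ σ y)) := by
    rw [tendsto_iff_norm_sub_tendsto_zero]
    have hz : Tendsto (fun n => C' * ∫ y, |u n y - w y|) atTop (𝓝 0) := by
      simpa using hp.limw.const_mul C'
    refine squeeze_zero (fun _ => norm_nonneg _) (fun n => ?_) hz
    rw [← integral_sub (hPi _ (hum n) (hp.upos n) (hui n)) (hPi _ hp.wm hp.wpos hp.wint)]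
    refine (norm_integral_le_integral_norm _).trans ?_
    rw [← integral_const_mul]
    refine integral_mono ?_ ?_ fun y => ?_
    · exact ((hPi _ (hum n) (hp.upos n) (hui n)).sub (hPi _ hp.wm hp.wpos hp.wint)).norm
    · exact (((hui n).sub hp.wint).abs).const_mul _
    · exact lip_param hΨc hC' (hp.upos n y) (hp.wpos y) y
  -- left side
  have hgc : ∀ n, Continuous (gradient (u n)) := fun n => gradient_continuous (hp.tst n).smooth
  have hgL : ∀ n, MemLp (gradient (u n)) 2 (volume : Measure (E N)) := fun n =>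
    (hgc n).memLp_of_hasCompactSupport (gradient_hasCompactSupport (hp.tst n).cpt)
  have hgg : MemLp g 2 (volume : Measure (E N)) :=
    (memLp_two_iff_integrable_sq_norm hp.gm.aestronglyMeasurable).2 hp.gint
  have hBi : Integrable ((closedBall b R).indicator (fun _ => (1:ℝ)))
      (volume : Measure (E N)) :=
    (integrable_indicator_iff measurableSet_closedBall).2
      (integrableOn_const (isCompact_closedBall b R).measure_lt_top.ne)
  have hkm : ∀ v : E N → ℝ, Measurable v → Measurable (fun y => k (v y) (‖y - b‖ ^ 2)) :=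
    fun v hv => hkc2.measurable.comp (hv.prodMk measurable_id)
  have hkey : ∀ s, 0 ≤ s → ∀ y, ∀ z : E N, |k s (‖y - b‖ ^ 2) * inner ℝ z (y - b)| ≤
      C * ((closedBall b R).indicator (fun _ => (1:ℝ)) y * ‖z‖) := by
    intro s hs y z
    by_cases hy : y ∈ closedBall b R
    · rw [indicator_of_mem hy, one_mul, abs_mul]
      calc |k s (‖y - b‖ ^ 2)| * |inner ℝ z (y - b)| ≤
          |k s (‖y - b‖ ^ 2)| * (‖z‖ * ‖y - b‖) := by
            gcongr; exact abs_real_inner_le_norm _ _
        _ = (|k s (‖y - b‖ ^ 2)| * ‖y - b‖) * ‖z‖ := by ring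
        _ ≤ C * ‖z‖ := by gcongr; exact hC s hs y
    · rw [indicator_of_notMem hy, hR s hs y (by
        rw [mem_closedBall, dist_eq_norm, not_le] at hy; exact hy)]
      simp
  have hmul_int : ∀ (v : E N → ℝ) (z : E N → E N), Measurable v → (∀ y, 0 ≤ v y) →
      Measurable z → Integrable (fun y => ‖z y‖ ^ 2) →
      Integrable (fun y => k (v y) (‖y - b‖ ^ 2) * inner ℝ (z y) (y - b)) := by
    intro v z hv hv0 hz hzi
    refine ((hBi.add hzi).const_mul C).mono' ?_ (Eventually.of_forall fun y => ?_)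
    · refine ((hkm v hv).mul ?_).aestronglyMeasurable
      exact hz.inner (by fun_prop)
    · refine (hkey (v y) (hv0 y) y (z y)).trans ?_
      gcongr
      by_cases hy : y ∈ closedBall b R
      · simp only [indicator_of_mem hy, one_mul, Pi.add_apply]
        nlinarith [sq_nonneg (‖z y‖ - 1), norm_nonneg (z y)]
      · simp only [indicator_of_notMem hy, zero_mul, Pi.add_apply, zero_add]
        positivity
  have h2a : Tendsto (fun n => ∫ y, k (u n y) (‖y - b‖ ^ 2) *
      inner ℝ (gradient (u n) y - g y) (y - b)) atTop (𝓝 0) := by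
    have hz : Tendsto (fun n => C * (Real.sqrt (volume.real (closedBall b R)) *
        Real.sqrt (∫ y, ‖gradient (u n) y - g y‖ ^ 2))) atTop (𝓝 0) := by
      have := ((Real.continuous_sqrt.tendsto 0).comp hp.limg)
      simp only [Real.sqrt_zero] at this
      simpa using (this.const_mul (Real.sqrt (volume.real (closedBall b R)))).const_mul C
    rw [tendsto_zero_iff_norm_tendsto_zero]
    refine squeeze_zero (fun _ => norm_nonneg _) (fun n => ?_) hz
    have hdn : MemLp (fun y => gradient (u n) y - g y) 2 (volume : Measure (E N)) :=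
      (hgL n).sub hgg
    have hdi : Integrable (fun y => ‖gradient (u n) y - g y‖ ^ 2) :=
      (memLp_two_iff_integrable_sq_norm hdn.aestronglyMeasurable).1 hdn
    refine (norm_integral_le_integral_norm _).trans ?_
    refine le_trans ?_ (mul_le_mul_of_nonneg_left (cs_ball b R hdn) hC0)
    rw [← integral_const_mul]
    refine integral_mono ?_ ?_ fun y => ?_
    · exact (hmul_int (u n) (fun y => gradient (u n) y - g y) (hum n) (hp.upos n)
        ((hgc n).measurable.sub hp.gm) hdi).norm
    · refine Integrable.const_mul ?_ _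
      refine (hBi.add hdi).mono' ?_ (Eventually.of_forall fun y => ?_)
      · refine AEStronglyMeasurable.mul ?_ ?_
        · exact hBi.aestronglyMeasurable
        · exact hdn.aestronglyMeasurable.norm
      · by_cases hy : y ∈ closedBall b R
        · simp only [indicator_of_mem hy, one_mul, Pi.add_apply, norm_norm]
          nlinarith [sq_nonneg (‖gradient (u n) y - g y‖ - 1),
            norm_nonneg (gradient (u n) y - g y)]
        · simp only [indicator_of_notMem hy, zero_mul, Pi.add_apply, zero_add, norm_zero]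
          positivity
    · exact hkey (u n y) (hp.upos n y) y _
  have h2b : Tendsto (fun n => ∫ y, k (u n y) (‖y - b‖ ^ 2) * inner ℝ (g y) (y - b)) atTop
      (𝓝 (∫ y, k (w y) (‖y - b‖ ^ 2) * inner ℝ (g y) (y - b))) := by
    refine tendsto_integral_of_dominated_convergence
      (fun y => C * ((closedBall b R).indicator (fun _ => (1:ℝ)) y + ‖g y‖ ^ 2))
      (fun n => (hmul_int (u n) g (hum n) (hp.upos n) hp.gm hp.gint).aestronglyMeasurable)
      ((hBi.add hp.gint).const_mul C) (fun n => Eventually.of_forall fun y => ?_) ?_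
    · refine (hkey (u n y) (hp.upos n y) y (g y)).trans ?_
      gcongr
      by_cases hy : y ∈ closedBall b R
      · simp only [indicator_of_mem hy, one_mul]
        nlinarith [sq_nonneg (‖g y‖ - 1), norm_nonneg (g y)]
      · simp only [indicator_of_notMem hy, zero_mul, zero_add]
        positivity
    · filter_upwards [hp.limae] with y hy
      have h3 : Tendsto (fun n => (u n y, ‖y - b‖ ^ 2)) atTop (𝓝 (w y, ‖y - b‖ ^ 2)) :=
        hy.prodMk_nhds tendsto_const_nhds
      exact ((hk.tendsto _).comp h3).mul_const _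
  have h2 : Tendsto (fun n => ∫ y, k (u n y) (‖y - b‖ ^ 2) *
      inner ℝ (gradient (u n) y) (y - b)) atTop
      (𝓝 (∫ y, k (w y) (‖y - b‖ ^ 2) * inner ℝ (g y) (y - b))) := by
    have := h2a.add h2b
    rw [zero_add] at this
    refine this.congr fun n => ?_
    have hdn : MemLp (fun y => gradient (u n) y - g y) 2 (volume : Measure (E N)) :=
      (hgL n).sub hgg
    have hdi : Integrable (fun y => ‖gradient (u n) y - g y‖ ^ 2) :=
      (memLp_two_iff_integrable_sq_norm hdn.aestronglyMeasurable).1 hdn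
    rw [← integral_add (hmul_int (u n) (fun y => gradient (u n) y - g y) (hum n) (hp.upos n)
        ((hgc n).measurable.sub hp.gm) hdi)
        (hmul_int (u n) g (hum n) (hp.upos n) hp.gm hp.gint)]
    congr 1
    ext y
    rw [inner_sub_left]
    ring
  have h3 := h1.neg
  refine tendsto_nhds_unique h2 (h3.congr fun n => ?_)
  exact (smooth_radial (hp.tst n) b hk hk' hd).symm

/-- Bounded on the half-line: a continuous function vanishing beyond `s₁`. -/
theorem exists_bound_half {a : ℝ → ℝ} (ha : Continuous a) {s₁ : ℝ}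
    (h : ∀ s, s₁ ≤ s → a s = 0) : ∃ A, 0 ≤ A ∧ ∀ s, 0 ≤ s → |a s| ≤ A := by
  obtain ⟨A, hA⟩ := (isCompact_Icc (a := (0:ℝ)) (b := s₁)).exists_bound_of_continuousOn
    ha.continuousOn
  refine ⟨max A 0, le_max_right _ _, fun s hs => ?_⟩
  rcases le_total s s₁ with h1 | h1
  · exact (hA s ⟨hs, h1⟩).trans (le_max_left _ _)
  · rw [h s h1]; simp

theorem exists_bound_cpt {m : ℝ → ℝ} (hm : Continuous m) {M : ℝ}
    (h : ∀ t, |t| ≥ M → m t = 0) : ∃ A, 0 ≤ A ∧ ∀ s, |m s| ≤ A := by
  obtain ⟨A, hA⟩ := (isCompact_closedBall (0:ℝ) M).exists_bound_of_continuousOn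
    hm.continuousOn
  refine ⟨max A 0, le_max_right _ _, fun s => ?_⟩
  rcases le_total M |s| with h1 | h1
  · rw [h s h1]; simp
  · exact (hA s (by simpa using h1)).trans (le_max_left _ _)

end Radial

open Radial in
/-- M3, P1: integration by parts against the radial field. Here `p(s) = 1 - 2 N s`. -/
theorem Pair.radialParts {N : ℕ} (hN : 1 ≤ N) {Ω : Set (E N)} {u : ℕ → E N → ℝ} {w : E N → ℝ}
    {g : E N → E N} (hp : Pair Ω u w g) (b : E N) {a m : ℝ → ℝ} {q : ℝ} (hq : 0 < q)
    (ha : Continuous a) (haq : ∀ s, 1 - 2 * N * s ≤ q → a s = 0) (hm : ContDiff ℝ 1 m)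
    {M : ℝ} (hmM : ∀ t, |t| ≥ M → m t = 0) :
    ∫ y, a (w y) * m (‖y - b‖ ^ 2 / (1 - 2 * N * w y)) * (inner ℝ (g y) (y - b)) =
      - ∫ s in Ioi (0 : ℝ), a s * ∫ y in {y | s < w y},
          (N * m (‖y - b‖ ^ 2 / (1 - 2 * N * s)) +
            2 * (‖y - b‖ ^ 2 / (1 - 2 * N * s)) * deriv m (‖y - b‖ ^ 2 / (1 - 2 * N * s))) := by
  have hN' : (0:ℝ) < N := by exact_mod_cast hN
  set r : ℝ → ℝ := fun s => (Max.max (1 - 2 * N * s) q)⁻¹ with hr
  have hmax : ∀ s : ℝ, 0 < Max.max (1 - 2 * N * s) q := fun s => lt_max_of_lt_right hq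
  have hrc : Continuous r := by
    refine Continuous.inv₀ (by fun_prop) fun s => (hmax s).ne'
  have hr0 : ∀ s, 0 < r s := fun s => inv_pos.2 (hmax s)
  have hreq : ∀ s, a s ≠ 0 → r s = (1 - 2 * N * s)⁻¹ := by
    intro s hs
    have : q < 1 - 2 * N * s := by
      by_contra h; exact hs (haq s (not_lt.1 h))
    simp only [hr]
    rw [max_eq_left this.le]
  have hmc : Continuous m := hm.continuous
  have hmd : Continuous (deriv m) := hm.continuous_deriv le_rfl
  set k : ℝ → ℝ → ℝ := fun s ρ => a s * m (ρ * r s) with hkdef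
  set k' : ℝ → ℝ → ℝ := fun s ρ => a s * (deriv m (ρ * r s) * r s) with hkdef'
  have hk : Continuous (Function.uncurry k) := by
    show Continuous (fun z : ℝ × ℝ => a z.1 * m (z.2 * r z.1))
    fun_prop
  have hk' : Continuous (Function.uncurry k') := by
    show Continuous (fun z : ℝ × ℝ => a z.1 * (deriv m (z.2 * r z.1) * r z.1))
    fun_prop
  have hd : ∀ σ ρ, HasDerivAt (fun ρ => k σ ρ) (k' σ ρ) ρ := by
    intro σ ρ
    have h1 : HasDerivAt m (deriv m (ρ * r σ)) (ρ * r σ) :=
      (hm.differentiable one_ne_zero _).hasDerivAt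
    have h2 : HasDerivAt (fun ρ : ℝ => ρ * r σ) (r σ) ρ := by
      simpa using (hasDerivAt_id ρ).mul_const (r σ)
    exact (h1.comp ρ h2).const_mul (a σ)
  -- bounds
  have haz : ∀ s, (1 - q) / (2 * N) ≤ s → a s = 0 := by
    intro s hs
    apply haq
    rw [div_le_iff₀ (by positivity)] at hs
    linarith
  obtain ⟨A, hA0, hA⟩ := exists_bound_half ha haz
  obtain ⟨B, hB0, hB⟩ := exists_bound_cpt hmc hmM
  have hdz : ∀ t, |t| ≥ |M| + 1 → deriv m t = 0 := by
    intro t ht
    have : m =ᶠ[𝓝 t] fun _ => 0 := by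
      have : ∀ᶠ x in 𝓝 t, |M| < |x| :=
        (continuous_abs.tendsto t).eventually_const_lt (by linarith)
      filter_upwards [this] with x hx
      exact hmM x ((le_abs_self M).trans hx.le)
    rw [this.deriv_eq]; simp
  obtain ⟨B', hB'0, hB'⟩ := exists_bound_cpt (m := fun x => N * m x + 2 * x * deriv m x)
    (M := |M| + 1) (by fun_prop) (by
      intro t ht
      rw [hdz t ht, hmM t (by
        have := le_abs_self M
        exact (by linarith : |t| ≥ M))]
      simp)
  set R : ℝ := Real.sqrt (|M| * Max.max 1 q) with hRdef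
  have hR : ∀ s, 0 ≤ s → ∀ y : E N, R < ‖y - b‖ → k s (‖y - b‖ ^ 2) = 0 := by
    intro s hs y hy
    simp only [hkdef]
    rw [hmM, mul_zero]
    have h1 : |M| * Max.max 1 q < ‖y - b‖ ^ 2 := by
      have := (Real.sqrt_lt' (lt_of_le_of_lt (Real.sqrt_nonneg _) hy)).1 hy
      exact this
    have h2 : Max.max (1 - 2 * N * s) q ≤ Max.max 1 q := by
      apply max_le_max _ le_rfl
      have : 0 ≤ 2 * N * s := by positivity
      linarith
    have h3 : |M| ≤ ‖y - b‖ ^ 2 * r s := by
      simp only [hr]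
      rw [← div_eq_mul_inv, le_div_iff₀ (hmax s)]
      calc |M| * Max.max (1 - 2 * N * s) q ≤ |M| * Max.max 1 q := by gcongr
        _ ≤ _ := h1.le
    exact ((le_abs_self M).trans h3).trans (le_abs_self _)
  have hC : ∀ s, 0 ≤ s → ∀ y : E N, |k s (‖y - b‖ ^ 2)| * ‖y - b‖ ≤ A * B * R := by
    intro s hs y
    by_cases hy : R < ‖y - b‖
    · rw [hR s hs y hy]
      simp only [abs_zero, zero_mul]
      have : 0 ≤ R := Real.sqrt_nonneg _
      positivity
    · rw [not_lt] at hy
      simp only [hkdef]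
      rw [abs_mul]
      gcongr
      · exact hA s hs
      · exact hB _
  have hval : ∀ s (y : E N), N * k s (‖y - b‖ ^ 2) + 2 * ‖y - b‖ ^ 2 * k' s (‖y - b‖ ^ 2) =
      a s * (N * m (‖y - b‖ ^ 2 * r s) + 2 * (‖y - b‖ ^ 2 * r s) *
        deriv m (‖y - b‖ ^ 2 * r s)) := by
    intro s y
    simp only [hkdef, hkdef']
    ring
  have hC' : ∀ s, 0 ≤ s → ∀ y : E N, |N * k s (‖y - b‖ ^ 2) +
      2 * ‖y - b‖ ^ 2 * k' s (‖y - b‖ ^ 2)| ≤ A * B' := by
    intro s hs y
    rw [hval, abs_mul]
    gcongr
    · exact hA s hs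
    · exact hB' _
  have hmain := limit_radial hp b hk hk' hd hR hC hC'
  have hΨc : Continuous (Function.uncurry (fun s (y : E N) => N * k s (‖y - b‖ ^ 2) +
      2 * ‖y - b‖ ^ 2 * k' s (‖y - b‖ ^ 2))) := by
    have hkc2 : Continuous (fun z : ℝ × E N => k z.1 (‖z.2 - b‖ ^ 2)) :=
      hk.comp (continuous_fst.prodMk (by fun_prop))
    have hkc2' : Continuous (fun z : ℝ × E N => k' z.1 (‖z.2 - b‖ ^ 2)) :=
      hk'.comp (continuous_fst.prodMk (by fun_prop))
    show Continuous (fun z : ℝ × E N => N * k z.1 (‖z.2 - b‖ ^ 2) +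
      2 * ‖z.2 - b‖ ^ 2 * k' z.1 (‖z.2 - b‖ ^ 2))
    fun_prop
  rw [fubini_radial hp.wm hp.wpos hp.wint hΨc hC'] at hmain
  have hL : ∀ y, a (w y) * m (‖y - b‖ ^ 2 / (1 - 2 * N * w y)) * (inner ℝ (g y) (y - b)) =
      k (w y) (‖y - b‖ ^ 2) * inner ℝ (g y) (y - b) := by
    intro y
    by_cases h0 : a (w y) = 0
    · simp [hkdef, h0]
    · simp only [hkdef]
      rw [hreq _ h0, div_eq_mul_inv]
  simp_rw [hL]
  rw [hmain]
  congr 1
  refine integral_congr_ae (Eventually.of_forall fun s => ?_)
  simp only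
  rw [← integral_const_mul]
  refine integral_congr_ae (Eventually.of_forall fun y => ?_)
  simp only
  rw [hval]
  by_cases h0 : a s = 0
  · simp [h0]
  · rw [hreq _ h0, div_eq_mul_inv]

end Pool.Agent.Helper71.FK
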