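import Mathlib

open MeasureTheory Set Filter Topology
open scoped ENNReal NNReal

namespace Pool.Agent.Helper39

/-- the discrete statement -/
def DiscreteIH (m : ℕ) (al : ℝ) : Prop :=
  ∀ ε : ℝ, 0 < ε → ∃ η : ℝ, 0 < η ∧ ∃ Q0 : ℕ, ∀ Q : ℕ, Q0 ≤ Q →
    ∀ (L : Finset ((Fin m → ℝ) × (Fin m → ℝ))) (T : (Fin m → ℝ) × (Fin m → ℝ) → Finset ℕ),
      (∀ l ∈ L, ‖l.2‖ ≤ Q) →
      Set.InjOn (fun l : (Fin m → ℝ) × (Fin m → ℝ) => fun k => ⌊l.2 k⌋) ↑L →
      (∀ l ∈ L, T l ⊆ Finset.range Q) → (∀ l ∈ L, (Q:ℝ)^(1-η) ≤ (T l).card) →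
      (L.card : ℝ) ≤ (Q:ℝ)^ε * ((1/(Q:ℝ)) * ∑ i ∈ Finset.range Q,
        (((L.filter (fun l => i ∈ T l)).image
          (fun l => fun k => ⌊l.1 k + (i:ℝ)/Q * l.2 k⌋)).card : ℝ))^al

/-- the discrete statement for lines with an additional property `P` -/
def DiscreteIHP (m : ℕ) (al : ℝ) (P : ℕ → (Fin m → ℝ) × (Fin m → ℝ) → Prop) : Prop :=
  ∀ ε : ℝ, 0 < ε → ∃ η : ℝ, 0 < η ∧ ∃ Q0 : ℕ, ∀ Q : ℕ, Q0 ≤ Q →
    ∀ (L : Finset ((Fin m → ℝ) × (Fin m → ℝ))) (T : (Fin m → ℝ) × (Fin m → ℝ) → Finset ℕ),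
      (∀ l ∈ L, ‖l.2‖ ≤ Q) → (∀ l ∈ L, P Q l) →
      Set.InjOn (fun l : (Fin m → ℝ) × (Fin m → ℝ) => fun k => ⌊l.2 k⌋) ↑L →
      (∀ l ∈ L, T l ⊆ Finset.range Q) → (∀ l ∈ L, (Q:ℝ)^(1-η) ≤ (T l).card) →
      (L.card : ℝ) ≤ (Q:ℝ)^ε * ((1/(Q:ℝ)) * ∑ i ∈ Finset.range Q,
        (((L.filter (fun l => i ∈ T l)).image
          (fun l => fun k => ⌊l.1 k + (i:ℝ)/Q * l.2 k⌋)).card : ℝ))^al

lemma DiscreteIH.toP {m : ℕ} {al : ℝ} (h : DiscreteIH m al) (P : ℕ → (Fin m → ℝ) × (Fin m → ℝ) → Prop) :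
    DiscreteIHP m al P := by
  intro ε hε
  obtain ⟨η, hη, Q0, h1⟩ := h ε hε
  exact ⟨η, hη, Q0, fun Q hQ L T h2 _ h4 h5 h6 => h1 Q hQ L T h2 h4 h5 h6⟩

lemma floor_sub_floor_le {a b : ℝ} {c : ℤ} (h : a - b ≤ c) : ⌊a⌋ - ⌊b⌋ ≤ c := by
  have h1 := Int.floor_le a
  have h2 := Int.lt_floor_add_one b
  have h3 : ((⌊a⌋ - ⌊b⌋ : ℤ) : ℝ) < ((c + 1 : ℤ) : ℝ) := by push_cast; linarith
  have h4 := Int.cast_lt.1 h3
  omega

lemma disc_core {m Q : ℕ} (hQ : 0 < Q) {H h0 : ℝ} (hH : 0 < H) (hH1 : H ≤ 1)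
    (J : Finset ℕ) (t : ℕ → Set ((Fin m → ℝ) × ℝ))
    (ht : ∀ n ∈ J, ∀ p ∈ t n, ∀ q ∈ t n, dist p q ≤ 1/Q)
    (D : Set (Fin m → ℝ)) (hD : D ⊆ Icc 0 1) (x : (Fin m → ℝ) → (Fin m → ℝ))
    (S : (Fin m → ℝ) → Set ℝ) (hS : ∀ v ∈ D, S v ⊆ Ico h0 (h0+H))
    (hSt : ∀ v ∈ D, ∀ θ ∈ S v, ∃ n ∈ J, (x v + θ • v, θ) ∈ t n)
    {σ τ : ℝ} (hσ : ∀ v ∈ D, ENNReal.ofReal σ ≤ volume (S v)) (hτ : ENNReal.ofReal τ ≤ volume D)
    (P : (Fin m → ℝ) × (Fin m → ℝ) → Prop)
    (hP : ∀ v ∈ D, P ((Q:ℝ) • (x v + h0 • v), ((Q:ℝ) * H) • v)) :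
    ∃ (L : Finset ((Fin m → ℝ) × (Fin m → ℝ))) (T : (Fin m → ℝ) × (Fin m → ℝ) → Finset ℕ),
      (∀ l ∈ L, ‖l.2‖ ≤ Q) ∧ (∀ l ∈ L, P l) ∧
      Set.InjOn (fun l : (Fin m → ℝ) × (Fin m → ℝ) => fun k => ⌊l.2 k⌋) ↑L ∧
      (∀ l ∈ L, T l ⊆ Finset.range Q) ∧ (∀ l ∈ L, σ * Q / H ≤ (T l).card) ∧
      τ * (Q * H)^m ≤ L.card ∧
      (∑ i ∈ Finset.range Q, (((L.filter (fun l => i ∈ T l)).image
        (fun l => fun k => ⌊l.1 k + (i:ℝ)/Q * l.2 k⌋)).card : ℝ)) ≤
        J.card * ((2 * (⌈1/H⌉₊ + 1) + 1) * 5^m) := by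
  classical
  have hQr : (0:ℝ) < Q := by exact_mod_cast hQ
  have hQH : 0 < (Q:ℝ) * H := by positivity
  set C : Set (Fin m → ℤ) := {c | ∃ v ∈ D, ∀ k, ⌊(Q * H) * v k⌋ = c k} with hC
  have hCfin : C.Finite := by
    refine (Set.finite_Icc (0 : Fin m → ℤ) (fun _ => ⌊(Q:ℝ) * H⌋)).subset ?_
    rintro c ⟨v, hv, hc⟩
    have hv1 := (hD hv).1
    have hv2 := (hD hv).2
    refine ⟨fun k => ?_, fun k => ?_⟩
    · rw [← hc k]
      exact Int.floor_nonneg.2 (mul_nonneg hQH.le (hv1 k))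
    · rw [← hc k]
      exact Int.floor_le_floor (mul_le_of_le_one_right hQH.le (hv2 k))
  have hex : ∀ c, c ∈ C → ∃ v ∈ D, ∀ k, ⌊(Q * H) * v k⌋ = c k := fun c hc => hc
  choose! g hgD hgf using hex
  set F := hCfin.toFinset with hF
  have hFC : ∀ c, c ∈ F ↔ c ∈ C := fun c => by rw [hF, Set.Finite.mem_toFinset]
  let G : (Fin m → ℤ) → (Fin m → ℝ) × (Fin m → ℝ) :=
    fun c => ((Q:ℝ) • (x (g c) + h0 • g c), ((Q:ℝ) * H) • g c)
  have hGf : ∀ c ∈ F, (fun k => ⌊(G c).2 k⌋) = c := by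
    intro c hc
    funext k
    have := hgf c ((hFC c).1 hc) k
    simpa [G] using this
  have hGinj : Set.InjOn G ↑F := by
    intro c hc c' hc' h
    rw [← hGf c hc, ← hGf c' hc', h]
  set L := F.image G with hL
  set T : (Fin m → ℝ) × (Fin m → ℝ) → Finset ℕ := fun l => (Finset.range Q).filter
    (fun i : ℕ => ∃ θ ∈ S (((Q:ℝ) * H)⁻¹ • l.2), h0 + (i:ℝ) * H / Q ≤ θ ∧ θ < h0 + ((i:ℝ) + 1) * H / Q) with hT
  have hGT : ∀ c, T (G c) = (Finset.range Q).filter
      (fun i : ℕ => ∃ θ ∈ S (g c), h0 + (i:ℝ) * H / Q ≤ θ ∧ θ < h0 + ((i:ℝ) + 1) * H / Q) := by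
    intro c
    simp only [hT, G]
    rw [smul_smul, inv_mul_cancel₀ hQH.ne', one_smul]
  refine ⟨L, T, ?_, ?_, ?_, ?_, ?_, ?_, ?_⟩
  · intro l hl
    obtain ⟨c, hc, rfl⟩ := Finset.mem_image.1 hl
    have hv := hD (hgD c ((hFC c).1 hc))
    simp only [G]
    rw [norm_smul, Real.norm_of_nonneg hQH.le]
    have h1 : ‖g c‖ ≤ 1 := by
      rw [pi_norm_le_iff_of_nonneg zero_le_one]
      intro k
      rw [Real.norm_of_nonneg (hv.1 k)]
      exact hv.2 k
    calc (Q:ℝ) * H * ‖g c‖ ≤ (Q:ℝ) * 1 * 1 := by gcongr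
      _ = Q := by ring
  · intro l hl
    obtain ⟨c, hc, rfl⟩ := Finset.mem_image.1 hl
    exact hP _ (hgD c ((hFC c).1 hc))
  · intro l hl l' hl' h
    obtain ⟨c, hc, rfl⟩ := Finset.mem_image.1 hl
    obtain ⟨c', hc', rfl⟩ := Finset.mem_image.1 hl'
    have h1 : (fun k => ⌊(G c).2 k⌋) = (fun k => ⌊(G c').2 k⌋) := h
    rw [hGf c hc, hGf c' hc'] at h1
    rw [h1]
  · intro l _
    exact Finset.filter_subset _ _
  · intro l hl
    obtain ⟨c, hc, rfl⟩ := Finset.mem_image.1 hl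
    have hv := hgD c ((hFC c).1 hc)
    have hsub : S (g c) ⊆ ⋃ i ∈ T (G c), Ico (h0 + (i:ℝ) * H / Q) (h0 + ((i:ℝ) + 1) * H / Q) := by
      intro θ hθ
      have h1 := hS _ hv hθ
      have hnn : 0 ≤ (θ - h0) * Q / H := by
        have := sub_nonneg.2 h1.1
        positivity
      have h2 := Nat.floor_le hnn
      have h3 := Nat.lt_floor_add_one ((θ - h0) * Q / H)
      set i := ⌊(θ - h0) * Q / H⌋₊ with hi
      have h4 : h0 + (i:ℝ) * H / Q ≤ θ := by
        rw [le_div_iff₀ hH] at h2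
        have : (i:ℝ) * H / Q ≤ θ - h0 := by rw [div_le_iff₀ hQr]; exact h2
        linarith
      have h5 : θ < h0 + ((i:ℝ) + 1) * H / Q := by
        rw [div_lt_iff₀ hH] at h3
        have : θ - h0 < ((i:ℝ) + 1) * H / Q := by rw [lt_div_iff₀ hQr]; exact h3
        linarith
      have h6 : i < Q := by
        have h7 : (θ - h0) * Q / H < Q := by
          rw [div_lt_iff₀ hH]
          have : θ - h0 < H := by linarith [h1.2]
          nlinarith
        have : (i:ℝ) < Q := lt_of_le_of_lt h2 h7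
        exact_mod_cast this
      refine mem_iUnion₂.2 ⟨i, ?_, h4, h5⟩
      rw [hGT]
      exact Finset.mem_filter.2 ⟨Finset.mem_range.2 h6, θ, hθ, h4, h5⟩
    have h1 : ENNReal.ofReal σ ≤ ENNReal.ofReal (((T (G c)).card : ℝ) * (H / Q)) := by
      calc ENNReal.ofReal σ ≤ volume (S (g c)) := hσ _ hv
        _ ≤ volume (⋃ i ∈ T (G c), Ico (h0 + (i:ℝ) * H / Q) (h0 + ((i:ℝ) + 1) * H / Q)) := measure_mono hsub
        _ ≤ ∑ i ∈ T (G c), volume (Ico (h0 + (i:ℝ) * H / Q) (h0 + ((i:ℝ) + 1) * H / Q)) :=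
            measure_biUnion_finset_le _ _
        _ = ∑ i ∈ T (G c), ENNReal.ofReal (H / Q) := by
            refine Finset.sum_congr rfl (fun i _ => ?_)
            rw [Real.volume_Ico]
            congr 1
            ring
        _ = ENNReal.ofReal (((T (G c)).card : ℝ) * (H / Q)) := by
            rw [Finset.sum_const, nsmul_eq_mul, ENNReal.ofReal_mul (by positivity), ENNReal.ofReal_natCast]
    rw [ENNReal.ofReal_le_ofReal_iff (by positivity)] at h1
    rw [div_le_iff₀ hH]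
    calc σ * Q ≤ ((T (G c)).card : ℝ) * (H / Q) * Q := by gcongr
      _ = _ := by field_simp
  · have hcard : L.card = F.card := Finset.card_image_of_injOn hGinj
    rw [hcard]
    have hsub : D ⊆ ⋃ c ∈ F, Icc (fun k => (c k : ℝ) / (Q * H)) (fun k => ((c k : ℝ) + 1) / (Q * H)) := by
      intro v hv
      refine mem_iUnion₂.2 ⟨fun k => ⌊(Q * H) * v k⌋, (hFC _).2 ⟨v, hv, fun k => rfl⟩, ?_, ?_⟩
      · intro k
        simp only
        rw [div_le_iff₀ hQH, mul_comm]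
        exact Int.floor_le _
      · intro k
        simp only
        rw [le_div_iff₀ hQH, mul_comm]
        exact (Int.lt_floor_add_one _).le
    have h1 : ENNReal.ofReal τ ≤ ENNReal.ofReal ((F.card : ℝ) * (1/(Q * H))^m) := by
      calc ENNReal.ofReal τ ≤ volume D := hτ
        _ ≤ _ := measure_mono hsub
        _ ≤ ∑ c ∈ F, volume (Icc (fun k => (c k : ℝ) / (Q * H)) (fun k => ((c k : ℝ) + 1) / (Q * H))) :=
            measure_biUnion_finset_le _ _
        _ = ∑ c ∈ F, ENNReal.ofReal ((1/(Q * H))^m) := by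
            refine Finset.sum_congr rfl (fun c _ => ?_)
            rw [Real.volume_Icc_pi]
            have : ∀ k : Fin m, ENNReal.ofReal (((c k : ℝ) + 1) / (Q * H) - (c k : ℝ) / (Q * H)) =
                ENNReal.ofReal (1/(Q*H)) := by
              intro k
              congr 1
              ring
            rw [Finset.prod_congr rfl (fun k _ => this k), Finset.prod_const, Finset.card_univ,
              Fintype.card_fin, ENNReal.ofReal_pow (by positivity)]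
        _ = _ := by
            rw [Finset.sum_const, nsmul_eq_mul, ENNReal.ofReal_mul (by positivity), ENNReal.ofReal_natCast]
    rw [ENNReal.ofReal_le_ofReal_iff (by positivity)] at h1
    calc τ * (Q * H)^m ≤ ((F.card : ℝ) * (1/(Q * H))^m) * (Q * H)^m := by gcongr
      _ = F.card := by
        rw [mul_assoc, ← mul_pow, one_div, inv_mul_cancel₀ hQH.ne', one_pow, mul_one]
  · have hexp : ∀ n, (t n).Nonempty → ∃ p, p ∈ t n := fun n h => h
    choose! p hp using hexp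
    set B : ℤ := (⌈1/H⌉₊ : ℤ) + 1 with hB
    let s := J ×ˢ ((Finset.Icc (-B) B) ×ˢ (Fintype.piFinset (fun _ : Fin m => Finset.Icc (-2:ℤ) 2)))
    let f : ℕ × ℤ × (Fin m → ℤ) → ((_ : ℕ) × (Fin m → ℤ)) := fun q =>
      ⟨(⌊((p q.1).2 - h0) * Q / H⌋ + q.2.1).toNat, fun k => ⌊(Q:ℝ) * (p q.1).1 k⌋ + q.2.2 k⟩
    let E : ℕ → Finset (Fin m → ℤ) := fun i => ((L.filter (fun l => i ∈ T l)).image
        (fun l => fun k => ⌊l.1 k + (i:ℝ)/Q * l.2 k⌋))
    have hsurj : Set.SurjOn f ↑s ↑((Finset.range Q).sigma E) := by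
      rintro ⟨i, c⟩ hic
      have hic' := Finset.mem_sigma.1 (Finset.mem_coe.1 hic)
      obtain ⟨hi, hc⟩ := hic'
      simp only [E] at hc
      obtain ⟨l, hl, hlc⟩ := Finset.mem_image.1 hc
      obtain ⟨hl1, hl2⟩ := Finset.mem_filter.1 hl
      obtain ⟨c', hc', rfl⟩ := Finset.mem_image.1 hl1
      rw [hGT] at hl2
      obtain ⟨_, θ, hθ, hθ1, hθ2⟩ := Finset.mem_filter.1 hl2
      have hv := hgD c' ((hFC c').1 hc')
      have hvI := hD hv
      obtain ⟨n, hnJ, hnt⟩ := hSt _ hv θ hθ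
      have hpn : p n ∈ t n := hp n ⟨_, hnt⟩
      have hdist := ht n hnJ _ hnt _ hpn
      rw [Prod.dist_eq, max_le_iff] at hdist
      obtain ⟨hd1, hd2⟩ := hdist
      have hd1' : ∀ k, |x (g c') k + θ * g c' k - (p n).1 k| ≤ 1 / Q := by
        intro k
        have := (dist_le_pi_dist (x (g c') + θ • g c') (p n).1 k).trans hd1
        rwa [Real.dist_eq] at this
      have hd2' : |θ - (p n).2| ≤ 1 / Q := by
        rwa [Real.dist_eq] at hd2
      have hb1 : (i:ℝ) - ((p n).2 - h0) * Q / H ≤ 1/H := by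
        have e1 : (i:ℝ) ≤ (θ - h0) * Q / H := by
          rw [le_div_iff₀ hH]
          have : (i:ℝ) * H / Q ≤ θ - h0 := by linarith
          rwa [div_le_iff₀ hQr] at this
        have e2 : (θ - h0) * Q / H - ((p n).2 - h0) * Q / H = (θ - (p n).2) * Q / H := by ring
        have e3 : (θ - (p n).2) * Q / H ≤ 1 / H := by
          apply div_le_div_of_nonneg_right _ hH.le
          calc (θ - (p n).2) * Q ≤ (1/Q) * Q := by gcongr; exact (le_abs_self _).trans hd2'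
            _ = 1 := by field_simp
        linarith
      have hb2 : ((p n).2 - h0) * Q / H - (i:ℝ) ≤ 1/H + 1 := by
        have e1 : (θ - h0) * Q / H ≤ (i:ℝ) + 1 := by
          rw [div_le_iff₀ hH]
          have : θ - h0 ≤ ((i:ℝ) + 1) * H / Q := by linarith
          rwa [le_div_iff₀ hQr] at this
        have e2 : ((p n).2 - h0) * Q / H - (θ - h0) * Q / H = ((p n).2 - θ) * Q / H := by ring
        have e3 : ((p n).2 - θ) * Q / H ≤ 1 / H := by
          apply div_le_div_of_nonneg_right _ hH.le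
          calc ((p n).2 - θ) * Q ≤ (1/Q) * Q := by
                gcongr
                rw [← neg_sub]
                exact (neg_le_abs _).trans hd2'
            _ = 1 := by field_simp
        linarith
      have hceil := Nat.le_ceil (1/H)
      have hbb1 : ⌊(i:ℝ)⌋ - ⌊((p n).2 - h0) * Q / H⌋ ≤ B := by
        apply floor_sub_floor_le
        rw [hB]
        push_cast
        linarith
      have hbb2 : ⌊((p n).2 - h0) * Q / H⌋ - ⌊(i:ℝ)⌋ ≤ B := by
        apply floor_sub_floor_le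
        rw [hB]
        push_cast
        linarith
      rw [Int.floor_natCast] at hbb1 hbb2
      have hce : ∀ k, |((Q:ℝ) * (x (g c') k + h0 * g c' k)) + (i:ℝ)/Q * ((Q * H) * g c' k) - Q * (p n).1 k| ≤ 2 := by
        intro k
        have e0 : ((Q:ℝ) * (x (g c') k + h0 * g c' k)) + (i:ℝ)/Q * ((Q * H) * g c' k) - Q * (p n).1 k =
            Q * (x (g c') k + θ * g c' k - (p n).1 k) - Q * (θ - (h0 + i * H / Q)) * g c' k := by
          field_simp
          ring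
        rw [e0]
        have e1 : |(Q:ℝ) * (x (g c') k + θ * g c' k - (p n).1 k)| ≤ 1 := by
          rw [abs_mul, abs_of_pos hQr]
          calc (Q:ℝ) * |x (g c') k + θ * g c' k - (p n).1 k| ≤ Q * (1/Q) := by gcongr; exact hd1' k
            _ = 1 := by field_simp
        have e2 : |(Q:ℝ) * (θ - (h0 + i * H / Q)) * g c' k| ≤ 1 := by
          have f1 : 0 ≤ θ - (h0 + i * H / Q) := by linarith
          have f2 : θ - (h0 + i * H / Q) ≤ H / Q := by
            have : ((i:ℝ) + 1) * H / Q = i * H / Q + H / Q := by ring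
            linarith
          have f3 : 0 ≤ g c' k := hvI.1 k
          rw [abs_of_nonneg (mul_nonneg (mul_nonneg hQr.le f1) f3)]
          calc (Q:ℝ) * (θ - (h0 + i * H / Q)) * g c' k ≤ Q * (H / Q) * 1 := by
                have := hvI.1 k
                have := hvI.2 k
                gcongr
                exact hvI.2 k
            _ = H := by field_simp
            _ ≤ 1 := hH1
        rw [abs_le] at e1 e2 ⊢
        constructor <;> linarith [e1.1, e1.2, e2.1, e2.2]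
      have hcc : ∀ k, c k = ⌊((Q:ℝ) * (x (g c') k + h0 * g c' k)) + (i:ℝ)/Q * ((Q * H) * g c' k)⌋ := by
        intro k
        rw [← hlc]
        simp [G]
      refine ⟨(n, (i:ℤ) - ⌊((p n).2 - h0) * Q / H⌋, fun k => c k - ⌊(Q:ℝ) * (p n).1 k⌋), ?_, ?_⟩
      · simp only [s, Finset.coe_product, Set.mem_prod, Finset.mem_coe, Finset.mem_Icc, Fintype.mem_piFinset]
        refine ⟨hnJ, ⟨by omega, by omega⟩, fun k => ⟨?_, ?_⟩⟩
        · have : ⌊(Q:ℝ) * (p n).1 k⌋ - c k ≤ 2 := by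
            rw [hcc k]
            apply floor_sub_floor_le
            have := (neg_le_abs _).trans (hce k)
            push_cast
            linarith
          linarith
        · rw [hcc k]
          apply floor_sub_floor_le
          have := (le_abs_self _).trans (hce k)
          push_cast
          linarith
      · simp only [f]
        have e1 : (⌊((p n).2 - h0) * Q / H⌋ + ((i:ℤ) - ⌊((p n).2 - h0) * Q / H⌋)).toNat = i := by
          rw [add_sub_cancel]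
          simp
        rw [e1]
        congr 1
        funext k
        ring
    have h1 := Finset.card_le_card_of_surjOn f hsurj
    rw [Finset.card_sigma] at h1
    have h2 : s.card = J.card * ((2 * (⌈1/H⌉₊ + 1) + 1) * 5^m) := by
      simp only [s]
      rw [Finset.card_product, Finset.card_product, Int.card_Icc, Fintype.card_piFinset]
      simp only [Int.card_Icc, Finset.prod_const, Finset.card_univ, Fintype.card_fin]
      congr 2
      rw [hB]
      omega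
    rw [h2] at h1
    exact_mod_cast h1

end Pool.Agent.Helper39
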