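import Pool.Agent.Helper39.Prev4

open MeasureTheory Set Filter Topology
open scoped ENNReal NNReal

namespace Pool.Agent.Helper39.AlmostEvery

/-- `diagShift k lam x` is the vector `(lam_1 x_1, …, lam_k x_k, 0, 0)` of `ℝ^(k+2)`. -/
noncomputable def diagShift (k : ℕ) (lam : Fin k → ℝ) (x : EuclideanSpace ℝ (Fin (k + 2))) :
    EuclideanSpace ℝ (Fin (k + 2)) :=
  WithLp.toLp 2 (fun j => if h : (j : ℕ) < k then lam ⟨j, h⟩ * x j else 0)

/-- `KakeyaUnion k a lam` is the union, over all unit vectors `ω` of `ℝ^(k+2)`, of the unit segments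
`{a ω + diagShift k lam ω + t ω : 0 ≤ t ≤ 1}`. -/
def KakeyaUnion (k : ℕ) (a : EuclideanSpace ℝ (Fin (k + 2)) → EuclideanSpace ℝ (Fin (k + 2)))
    (lam : Fin k → ℝ) : Set (EuclideanSpace ℝ (Fin (k + 2))) :=
  {x | ∃ ω : EuclideanSpace ℝ (Fin (k + 2)), ‖ω‖ = 1 ∧ ∃ t : ℝ, 0 ≤ t ∧ t ≤ 1 ∧
    x = a ω + diagShift k lam ω + t • ω}

open Pool.Agent.Helper39

variable {k : ℕ}

/-- the box of parameters -/
def box (k : ℕ) : Set (((Fin k → ℝ) × ℝ) × ℝ) :=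
  ((univ.pi (fun _ : Fin k => Icc (0:ℝ) (1 / (2 * ((k:ℝ) + 1))))) ×ˢ (Icc (0:ℝ) (1/4))) ×ˢ (Icc (0:ℝ) (1/4))

lemma box_compl (k : ℕ) : ((dirm k (1 / (2 * ((k:ℝ) + 1)))).prod intm) (box k)ᶜ = 0 := by
  have h : (dirm k (1 / (2 * ((k:ℝ) + 1)))).prod intm =
      (((Measure.pi (fun _ : Fin k => (volume : Measure ℝ))).prod (volume : Measure ℝ)).prod (volume : Measure ℝ)).restrict (box k) := by
    unfold dirm boxm intm box
    rw [← Measure.restrict_pi_pi, Measure.prod_restrict, Measure.prod_restrict]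
  rw [h, Measure.restrict_apply]
  · simp
  · refine MeasurableSet.compl ?_
    unfold box
    exact ((MeasurableSet.univ_pi (fun _ => measurableSet_Icc)).prod measurableSet_Icc).prod measurableSet_Icc

lemma omv_eq {w : (Fin k → ℝ) × ℝ} (h : rr w ≠ 0) : omv w = rr w • vv w := by
  unfold omv vv
  ext j
  refine Fin.lastCases ?_ (fun i => ?_) j
  · simp
  · refine Fin.lastCases ?_ (fun i => ?_) i
    · simp [mul_comm]
    · simp
      field_simp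

lemma omv_norm {w : (Fin k → ℝ) × ℝ} (h : ∑ i, w.1 i ^ 2 ≤ 1) : ‖omv w‖ = 1 := by
  have h1 : ‖omv w‖ ^ 2 = 1 := by
    rw [EuclideanSpace.norm_sq_eq, Fin.sum_univ_castSucc, Fin.sum_univ_castSucc]
    unfold omv
    simp only [Fin.snoc_castSucc, Fin.snoc_last, Real.norm_eq_abs, sq_abs]
    have h2 : rr w ^ 2 = (1 - ∑ i, w.1 i ^ 2) / (1 + w.2 ^ 2) := by
      unfold rr
      rw [Real.sq_sqrt]
      apply div_nonneg
      · linarith
      · positivity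
    rw [mul_pow, h2]
    have h3 : 0 < 1 + w.2 ^ 2 := by positivity
    field_simp
    ring
  have h2 : 0 ≤ ‖omv w‖ := norm_nonneg _
  nlinarith

lemma rr_ge {w : (Fin k → ℝ) × ℝ} (h : ∑ i, w.1 i ^ 2 ≤ 1 / 4) (hz : w.2 ^ 2 ≤ 1 / 16) : 1 / 4 ≤ rr w := by
  unfold rr
  apply Real.le_sqrt_of_sq_le
  rw [le_div_iff₀ (by positivity)]
  nlinarith

lemma image_subset (a : EuclideanSpace ℝ (Fin (k + 2)) → EuclideanSpace ℝ (Fin (k + 2))) (lam : Fin k → ℝ) :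
    FF a lam '' (box k) ⊆ KakeyaUnion k a lam := by
  rintro _ ⟨ξ, hξ, rfl⟩
  obtain ⟨⟨h1, h2⟩, h3⟩ := hξ
  have hsum : ∑ i, ξ.1.1 i ^ 2 ≤ 1 / 4 := by
    have h4 : ∀ i, ξ.1.1 i ^ 2 ≤ (1 / (2 * ((k:ℝ) + 1))) ^ 2 := by
      intro i
      have := h1 i (mem_univ i)
      exact pow_le_pow_left₀ this.1 this.2 2
    calc ∑ i, ξ.1.1 i ^ 2 ≤ ∑ _i : Fin k, (1 / (2 * ((k:ℝ) + 1))) ^ 2 := Finset.sum_le_sum (fun i _ => h4 i)
      _ = k * (1 / (2 * ((k:ℝ) + 1))) ^ 2 := by simp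
      _ ≤ 1 / 4 := by
          have hk : (0:ℝ) ≤ k := Nat.cast_nonneg k
          rw [div_pow, one_pow, mul_one_div, div_le_div_iff₀ (by positivity) (by norm_num)]
          nlinarith
  have hz : ξ.1.2 ^ 2 ≤ 1 / 16 := by
    have := h2
    have h5 := pow_le_pow_left₀ this.1 this.2 2
    linarith
  have hr := rr_ge hsum hz
  have hr0 : rr ξ.1 ≠ 0 := by linarith
  refine ⟨omv ξ.1, omv_norm (by linarith), ξ.2 / rr ξ.1, div_nonneg h3.1 (by linarith), ?_, ?_⟩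
  · rw [div_le_one (by linarith)]
    linarith [h3.2]
  · have h6 : (ξ.2 / rr ξ.1) • omv ξ.1 = ξ.2 • vv ξ.1 := by
      rw [omv_eq hr0, smul_smul, div_mul_cancel₀ _ hr0]
    rw [h6]
    rfl

lemma meas_ne_zero (k : ℕ) : (dirm k (1 / (2 * ((k:ℝ) + 1)))).prod intm ≠ 0 := by
  intro h0
  have h1 : ((dirm k (1 / (2 * ((k:ℝ) + 1)))).prod intm) univ = 0 := by rw [h0]; simp
  rw [← univ_prod_univ, Measure.prod_prod] at h1
  unfold dirm boxm intm at h1
  rw [← univ_prod_univ, Measure.prod_prod, ← pi_univ univ, Measure.pi_pi] at h1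
  simp only [Measure.restrict_apply_univ, Real.volume_Icc, Finset.prod_const, Finset.card_univ,
    Fintype.card_fin, mul_eq_zero, pow_eq_zero_iff', ENNReal.ofReal_eq_zero] at h1
  have hk : (0:ℝ) < 1 / (2 * ((k:ℝ) + 1)) := by positivity
  rcases h1 with (⟨h1, _⟩ | h1) | h1 <;> linarith

theorem result (k : ℕ) (a : EuclideanSpace ℝ (Fin (k + 2)) → EuclideanSpace ℝ (Fin (k + 2)))
    (ha : Measurable a) :
    ∀ᵐ lam : Fin k → ℝ, dimH (KakeyaUnion k a lam) = (k : ℝ≥0∞) + 2 := by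
  set c : ℝ := 1 / (2 * ((k:ℝ) + 1)) with hc
  have hkey : ∀ (R : ℕ) (j : ℕ), ∀ᵐ lam ∂(boxm k (-(R:ℝ)) R),
      (((((k : ℝ≥0) + 2) * (((j:ℝ≥0) + 1) / ((j:ℝ≥0) + 2)) : ℝ≥0)) : ℝ≥0∞) ≤ dimH (KakeyaUnion k a lam) := by
    intro R j
    set β : ℝ := ((j:ℝ) + 1) / ((j:ℝ) + 2) with hβ
    have hβ0 : 0 < β := by positivity
    have hβ1 : β < 1 := by
      rw [hβ, div_lt_one (by positivity)]
      linarith
    have hfin := energy_finite (k := k) hβ0 hβ1 c R ha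
    have hF := FF_meas (k := k) ha
    have hm : Measurable (fun l : Fin k → ℝ => ∫⁻ ξ, ∫⁻ ξ', (edist (FF a l ξ) (FF a l ξ')) ^ (-(((k : ℝ) + 2) * β))
      ∂((dirm k c).prod intm) ∂((dirm k c).prod intm)) := by
      have h1 : Measurable (fun q : ((Fin k → ℝ) × (((Fin k → ℝ) × ℝ) × ℝ)) × (((Fin k → ℝ) × ℝ) × ℝ) =>
          (edist (FF a q.1.1 q.1.2) (FF a q.1.1 q.2)) ^ (-(((k : ℝ) + 2) * β))) := by
        refine Measurable.pow_const ?_ _
        refine Measurable.edist ?_ ?_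
        · exact hF.comp (f := fun q : ((Fin k → ℝ) × (((Fin k → ℝ) × ℝ) × ℝ)) × (((Fin k → ℝ) × ℝ) × ℝ) => (q.1.1, q.1.2)) (by fun_prop)
        · exact hF.comp (f := fun q : ((Fin k → ℝ) × (((Fin k → ℝ) × ℝ) × ℝ)) × (((Fin k → ℝ) × ℝ) × ℝ) => (q.1.1, q.2)) (by fun_prop)
      have h2 := h1.lintegral_prod_right' (ν := (dirm k c).prod intm)
      exact h2.lintegral_prod_right' (ν := (dirm k c).prod intm)
    filter_upwards [ae_lt_top hm hfin] with lam hlam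
    have hFl : Measurable (FF a lam) :=
      hF.comp (f := fun ξ : ((Fin k → ℝ) × ℝ) × ℝ => (lam, ξ)) (by fun_prop)
    have hp : ((((k : ℝ≥0) + 2) * (((j:ℝ≥0) + 1) / ((j:ℝ≥0) + 2)) : ℝ≥0) : ℝ) = ((k : ℝ) + 2) * β := by
      push_cast
      rw [hβ]
    have hp0 : 0 < (((k : ℝ≥0) + 2) * (((j:ℝ≥0) + 1) / ((j:ℝ≥0) + 2)) : ℝ≥0) := by positivity
    refine (dimH_ge_of_energy (μ := (dirm k c).prod intm) (meas_ne_zero k) hFl hp0 ?_ (box_compl k)).trans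
      (dimH_mono (image_subset a lam))
    rw [hp]
    exact hlam.ne
  have hae : ∀ᵐ lam : Fin k → ℝ, ∀ j : ℕ,
      (((((k : ℝ≥0) + 2) * (((j:ℝ≥0) + 1) / ((j:ℝ≥0) + 2)) : ℝ≥0)) : ℝ≥0∞) ≤ dimH (KakeyaUnion k a lam) := by
    rw [ae_all_iff]
    intro j
    have hU : (⋃ R : ℕ, (univ.pi (fun _ : Fin k => Icc (-(R:ℝ)) R))) = univ := by
      refine eq_univ_of_forall (fun x => ?_)
      obtain ⟨R, hR⟩ := exists_nat_ge ‖x‖
      refine mem_iUnion.2 ⟨R, fun i _ => ?_⟩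
      have := (norm_le_pi_norm x i).trans hR
      rw [Real.norm_eq_abs, abs_le] at this
      exact this
    rw [← Measure.restrict_univ (μ := (volume : Measure (Fin k → ℝ))), ← hU, ae_restrict_iUnion_iff]
    intro R
    have h1 := hkey R j
    unfold boxm at h1
    rw [← Measure.restrict_pi_pi] at h1
    exact h1
  filter_upwards [hae] with lam hlam
  apply le_antisymm
  · calc dimH (KakeyaUnion k a lam) ≤ dimH (univ : Set (EuclideanSpace ℝ (Fin (k + 2)))) := dimH_mono (subset_univ _)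
      _ = (k : ℝ≥0∞) + 2 := by rw [Real.dimH_univ_eq_finrank]; simp
  · have hlim : Tendsto (fun j : ℕ => (((((k : ℝ≥0) + 2) * (((j:ℝ≥0) + 1) / ((j:ℝ≥0) + 2)) : ℝ≥0)) : ℝ≥0∞)) atTop
        (𝓝 ((((k : ℝ≥0) + 2) * 1 : ℝ≥0) : ℝ≥0∞)) := by
      rw [ENNReal.tendsto_coe]
      refine Tendsto.const_mul _ ?_
      rw [← NNReal.tendsto_coe]
      push_cast
      have h1 : Tendsto (fun j : ℕ => 1 - 1 / (((j + 1 : ℕ) : ℝ) + 1)) atTop (𝓝 (1 - 0)) :=
        tendsto_const_nhds.sub (tendsto_one_div_add_atTop_nhds_zero_nat.comp (tendsto_add_atTop_nat 1))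
      rw [sub_zero] at h1
      refine h1.congr (fun j => ?_)
      push_cast
      field_simp
      ring
    have h2 := le_of_tendsto hlim (Eventually.of_forall hlam)
    simpa using h2

end Pool.Agent.Helper39.AlmostEvery
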