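import Pool.Agent.Helper39.Moll2

open MeasureTheory Set Filter Topology
open scoped ENNReal NNReal Matrix ContDiff

namespace Pool.Agent.Helper39

variable {m : ℕ}

/-- telescoping step -/
lemma step_bound {ζ : EE m → ℝ} {f : EE m → EE m} {α C r0 : ℝ} (hζ : ContDiff ℝ 1 ζ)
    (hζc : HasCompactSupport ζ) (hf : Continuous f) (hα : 0 < α) (hα1 : α ≤ 1) (hC : 0 ≤ C) (hr0 : 0 < r0)
    (hH : ∀ v, fderiv ℝ ζ v ≠ 0 → ∀ x, ‖x - v‖ ≤ 2 * r0 → ‖f x - f v‖ ≤ C * ‖x - v‖ ^ α) :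
    ∃ A : ℝ, 0 ≤ A ∧ ∀ (φ : EE m → ℝ), ContDiff ℝ 1 φ → (∀ x, |φ x| ≤ 1) → ∀ r : ℝ, 0 < r → r ≤ r0 →
      |JJ ζ φ (mol (r / 2) f) - JJ ζ φ (mol r f)| ≤ A * (r ^ α * (r ^ (α - 1)) ^ (m - 1)) := by
  obtain ⟨L, hL, hder⟩ := mol_fderiv m
  refine ⟨m * (‖dtM m‖ * (∫ v, ‖fderiv ℝ ζ v‖)) * (2 * C) * (4 * L * C) ^ (m - 1), by positivity, ?_⟩
  intro φ hφ hφb r hr hrr
  have hr2 : 0 < r / 2 := by positivity
  have hlen : ∀ s : ℝ, 0 < s → s ≤ r → r ≤ 2 * s → ∀ v, fderiv ℝ ζ v ≠ 0 →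
      ‖mol s f v - f v‖ ≤ C * r ^ α ∧ ‖fderiv ℝ (mol s f) v‖ ≤ 4 * L * C * r ^ (α - 1) := by
    intro s hs hsr hsr2 v hv
    constructor
    · refine mol_sub_le hs hf (f v) v (fun w hw => ?_)
      refine (hH v hv w (by linarith)).trans ?_
      refine mul_le_mul_of_nonneg_left ?_ hC
      exact Real.rpow_le_rpow (norm_nonneg _) (by linarith) hα.le
    · refine (hder s (C * (2 * s) ^ α) f (f v) v hs hf (fun w hw => ?_)).trans ?_
      · refine (hH v hv w (by linarith)).trans ?_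
        refine mul_le_mul_of_nonneg_left ?_ hC
        exact Real.rpow_le_rpow (norm_nonneg _) (by linarith) hα.le
      · have e1 : (2 * s) ^ α ≤ 2 * s ^ α := by
          rw [Real.mul_rpow (by norm_num) hs.le]
          refine mul_le_mul_of_nonneg_right ?_ (by positivity)
          calc (2:ℝ) ^ α ≤ 2 ^ (1:ℝ) := Real.rpow_le_rpow_of_exponent_le (by norm_num) hα1
            _ = 2 := by norm_num
        have e2 : s ^ α / s = s ^ (α - 1) := by
          rw [Real.rpow_sub_one hs.ne']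
        have e3 : s ^ (α - 1) ≤ 2 * r ^ (α - 1) := by
          have h1 : s ^ (α - 1) ≤ (r / 2) ^ (α - 1) :=
            Real.rpow_le_rpow_of_nonpos hr2 (by linarith) (by linarith)
          refine h1.trans ?_
          rw [Real.div_rpow hr.le (by norm_num), div_eq_mul_inv, mul_comm]
          refine mul_le_mul_of_nonneg_right ?_ (by positivity)
          rw [← Real.rpow_neg (by norm_num)]
          calc (2:ℝ) ^ (-(α - 1)) ≤ 2 ^ (1:ℝ) := Real.rpow_le_rpow_of_exponent_le (by norm_num) (by linarith)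
            _ = 2 := by norm_num
        calc L * (C * (2 * s) ^ α) / s ≤ L * (C * (2 * s ^ α)) / s := by gcongr
          _ = 2 * L * C * (s ^ α / s) := by ring
          _ = 2 * L * C * s ^ (α - 1) := by rw [e2]
          _ ≤ 2 * L * C * (2 * r ^ (α - 1)) := by gcongr
          _ = _ := by ring
  have h1 := homotopy_bound hζ hζc hφ hφb (mol_contDiff (n := 2) hr hf) (mol_contDiff (n := 2) hr2 hf)
    (δ := 2 * C * r ^ α) (M := 4 * L * C * r ^ (α - 1)) (by positivity) (by positivity) (fun v hv => ?_)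
  · refine h1.trans (le_of_eq ?_)
    rw [mul_pow]
    ring
  · obtain ⟨a1, a2⟩ := hlen r hr le_rfl (by linarith) v hv
    obtain ⟨b1, b2⟩ := hlen (r / 2) hr2 (by linarith) (by linarith) v hv
    refine ⟨?_, a2, b2⟩
    calc ‖mol (r / 2) f v - mol r f v‖ = ‖(mol (r / 2) f v - f v) - (mol r f v - f v)‖ := by congr 1; abel
      _ ≤ ‖mol (r / 2) f v - f v‖ + ‖mol r f v - f v‖ := norm_sub_le _ _
      _ ≤ C * r ^ α + C * r ^ α := add_le_add b1 a1
      _ = _ := by ring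

/-- geometric telescoping -/
lemma geom_tele {a : ℕ → ℝ} {A q : ℝ} (hA : 0 ≤ A) (hq : 0 < q) (hq1 : q < 1)
    (h : ∀ k, |a (k + 1) - a k| ≤ A * q ^ k) (K j : ℕ) : |a (K + j) - a K| ≤ A * q ^ K / (1 - q) := by
  have h1 : ∀ j, |a (K + j) - a K| ≤ A * q ^ K * ∑ i ∈ Finset.range j, q ^ i := by
    intro j
    induction j with
    | zero => simp
    | succ j ih =>
      rw [Finset.sum_range_succ, mul_add]
      calc |a (K + (j + 1)) - a K| = |(a (K + j + 1) - a (K + j)) + (a (K + j) - a K)| := by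
            congr 1; rw [← add_assoc]; ring
        _ ≤ |a (K + j + 1) - a (K + j)| + |a (K + j) - a K| := abs_add_le _ _
        _ ≤ A * q ^ (K + j) + A * q ^ K * ∑ i ∈ Finset.range j, q ^ i := add_le_add (h _) ih
        _ = _ := by rw [pow_add]; ring
  refine (h1 j).trans ?_
  have h2 : ∑ i ∈ Finset.range j, q ^ i ≤ 1 / (1 - q) := by
    rw [le_div_iff₀ (by linarith), geom_sum_eq hq1.ne, div_mul_eq_mul_div, div_le_iff_of_neg (by linarith)]
    have : 0 < q ^ j := by positivity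
    nlinarith
  calc A * q ^ K * ∑ i ∈ Finset.range j, q ^ i ≤ A * q ^ K * (1 / (1 - q)) :=
        mul_le_mul_of_nonneg_left h2 (by positivity)
    _ = _ := by ring

end Pool.Agent.Helper39
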