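import Pool.Agent.Helper39.Conv

open MeasureTheory Set Filter Topology
open scoped ENNReal NNReal Matrix ContDiff

namespace Pool.Agent.Helper39

variable {m : ℕ}

lemma unif_cont_near {f : EE m → EE m} (hf : Continuous f) {S : Set (EE m)} (hS : IsCompact S) {η : ℝ}
    (hη : 0 < η) : ∃ δ > 0, ∀ v ∈ S, ∀ w, ‖w - v‖ ≤ δ → ‖f w - f v‖ ≤ η := by
  have h := hS.uniformContinuousAt_of_continuousAt f (fun a _ => hf.continuousAt) (Metric.dist_mem_uniformity hη)
  obtain ⟨δ, hδ, h2⟩ := Metric.mem_uniformity_dist.1 h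
  refine ⟨δ / 2, by positivity, fun v hv w hw => ?_⟩
  have h3 := @h2 v w (by rw [dist_comm, dist_eq_norm]; linarith) hv
  have h4 : dist (f v) (f w) < η := h3
  rw [dist_comm, dist_eq_norm] at h4
  exact h4.le

lemma JJ_cutoff_small {ζ : EE m → ℝ} {g : EE m → EE m} (hζ : ContDiff ℝ 1 ζ)
    (hζc : HasCompactSupport ζ) (hg : ContDiff ℝ 2 g) {C : Set (EE m)} (hC : IsClosed C)
    (h0 : volume C = 0) {ε : ℝ} (hε : 0 < ε) :
    ∃ η > 0, ∃ φ : EE m → ℝ, ContDiff ℝ 1 φ ∧ (∀ x, |φ x| ≤ 1) ∧ (∀ x ∈ Metric.cthickening η C, φ x = 1) ∧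
      |JJ ζ φ g| < ε := by
  have hi : ∀ i : ℕ, (0:ℝ) < 1 / ((i:ℝ) + 1) := fun i => by positivity
  have hcut : ∀ i : ℕ, ∃ φ : EE m → ℝ, ContDiff ℝ ∞ φ ∧
      (∀ x ∈ (Metric.thickening (2 * (1 / ((i:ℝ) + 1))) C)ᶜ, φ x = 0) ∧
      (∀ x ∈ Metric.cthickening (1 / ((i:ℝ) + 1)) C, φ x = 1) ∧ ∀ x, φ x ∈ Icc (0:ℝ) 1 := by
    intro i
    refine exists_cutoff Metric.isOpen_thickening.isClosed_compl Metric.isClosed_cthickening ?_
    rw [Set.disjoint_left]
    intro x hx hx2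
    exact hx (Metric.cthickening_subset_thickening' (by have := hi i; positivity)
      (by have := hi i; linarith) C hx2)
  choose φ hφ1 hφ2 hφ3 hφ4 using hcut
  have habs : ∀ i x, |φ i x| ≤ 1 := by
    intro i x
    obtain ⟨a, b⟩ := hφ4 i x
    rw [abs_of_nonneg a]
    exact b
  have hlim : ∀ x, Tendsto (fun i => φ i x) atTop (𝓝 (C.indicator (fun _ => (1:ℝ)) x)) := by
    intro x
    by_cases hx : x ∈ C
    · rw [indicator_of_mem hx]
      have : (fun i => φ i x) = fun _ => (1:ℝ) := by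
        ext i
        exact hφ3 i x (Metric.self_subset_cthickening C hx)
      rw [this]
      exact tendsto_const_nhds
    · rw [indicator_of_notMem hx]
      have hx' : x ∉ closure C := by rwa [hC.closure_eq]
      rw [Metric.closure_eq_iInter_thickening] at hx'
      simp only [mem_iInter, not_forall] at hx'
      obtain ⟨δ, hδ, hxδ⟩ := hx'
      have hev : ∀ᶠ i : ℕ in atTop, 2 * (1 / ((i:ℝ) + 1)) < δ := by
        have : Tendsto (fun i : ℕ => 2 * (1 / ((i:ℝ) + 1))) atTop (𝓝 (2 * 0)) :=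
          tendsto_one_div_add_atTop_nhds_zero_nat.const_mul 2
        rw [mul_zero] at this
        exact this.eventually_lt_const hδ
      refine tendsto_const_nhds.congr' ?_
      filter_upwards [hev] with i hi2
      symm
      apply hφ2
      intro hmem
      exact hxδ (Metric.thickening_mono hi2.le C hmem)
  have hJc : Continuous (jac g) := jac_cont hg
  have hint : Integrable (fun v => |ζ v * jac g v|) :=
    ((hζ.continuous.mul hJc).integrable_of_hasCompactSupport hζc.mul_right).abs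
  have hT : Tendsto (fun i => JJ ζ (φ i) g) atTop
      (𝓝 (∫ v, ζ v * (C.indicator (fun _ => (1:ℝ)) (g v) * jac g v))) := by
    unfold JJ
    refine tendsto_integral_of_dominated_convergence (fun v => |ζ v * jac g v|) ?_ hint ?_ ?_
    · intro i
      exact (hζ.continuous.mul (((hφ1 i).continuous.comp hg.continuous).mul hJc)).aestronglyMeasurable
    · intro i
      refine Eventually.of_forall (fun v => ?_)
      rw [Real.norm_eq_abs, abs_mul, abs_mul, abs_mul]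
      calc |ζ v| * (|φ i (g v)| * |jac g v|) ≤ |ζ v| * (1 * |jac g v|) := by
            gcongr
            exact habs i _
        _ = _ := by rw [one_mul]
    · exact Eventually.of_forall (fun v => ((hlim (g v)).mul_const _).const_mul _)
  have hz : ∫ v, ζ v * (C.indicator (fun _ => (1:ℝ)) (g v) * jac g v) = 0 := by
    have hnull := null_preimage hg hC h0
    have : (fun v => ζ v * (C.indicator (fun _ => (1:ℝ)) (g v) * jac g v)) =ᵐ[volume] 0 := by
      have h1 : ∀ᵐ v, ¬ (g v ∈ C ∧ jac g v ≠ 0) := by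
        rw [ae_iff]
        simpa only [not_not] using hnull
      filter_upwards [h1] with v hv
      by_cases hgv : g v ∈ C
      · have : jac g v = 0 := by
          by_contra h
          exact hv ⟨hgv, h⟩
        simp [this]
      · simp [indicator_of_notMem hgv]
    rw [integral_congr_ae this]
    simp
  rw [hz] at hT
  obtain ⟨i, hi2⟩ := ((Metric.tendsto_nhds.1 hT) ε hε).exists
  rw [Real.dist_eq, sub_zero] at hi2
  exact ⟨_, hi i, φ i, (hφ1 i).of_le (by norm_num), habs i, hφ3 i, hi2⟩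

theorem tendsto_jac {ζ : EE m → ℝ} {f : EE m → EE m} {α C r0 : ℝ} (hζ : ContDiff ℝ 1 ζ)
    (hζc : HasCompactSupport ζ) (hf : Continuous f) (hα : 0 < α) (hα1 : α ≤ 1) (hC : 0 ≤ C) (hr0 : 0 < r0)
    (hH : ∀ v, fderiv ℝ ζ v ≠ 0 → ∀ x, ‖x - v‖ ≤ 2 * r0 → ‖f x - f v‖ ≤ C * ‖x - v‖ ^ α)
    (hm : 0 < α + (α - 1) * ((m - 1 : ℕ) : ℝ)) (h0 : volume (f '' tsupport ζ) = 0) :
    Tendsto (fun k : ℕ => ∫ v, ζ v * jac (mol (r0 / 2 ^ k) f) v) atTop (𝓝 0) := by
  obtain ⟨A, hA, hstep⟩ := step_bound hζ hζc hf hα hα1 hC hr0 hH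
  set e := α + (α - 1) * ((m - 1 : ℕ) : ℝ) with he
  set q : ℝ := (2:ℝ) ^ (-e) with hq
  have hq0 : 0 < q := by positivity
  have hq1 : q < 1 := Real.rpow_lt_one_of_one_lt_of_neg (by norm_num) (by linarith)
  set A' := A * r0 ^ e with hA'
  have hA'0 : 0 ≤ A' := by positivity
  have hrk : ∀ k : ℕ, 0 < r0 / 2 ^ k := fun k => by positivity
  have hkey : ∀ (φ : EE m → ℝ), ContDiff ℝ 1 φ → (∀ x, |φ x| ≤ 1) → ∀ k : ℕ,
      |JJ ζ φ (mol (r0 / 2 ^ (k + 1)) f) - JJ ζ φ (mol (r0 / 2 ^ k) f)| ≤ A' * q ^ k := by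
    intro φ hφ hφb k
    have h1 := hstep φ hφ hφb (r0 / 2 ^ k) (hrk k) (div_le_self hr0.le (one_le_pow₀ (by norm_num)))
    have h2 : r0 / 2 ^ (k + 1) = r0 / 2 ^ k / 2 := by rw [pow_succ]; field_simp
    rw [h2]
    refine h1.trans (le_of_eq ?_)
    have h3 : (r0 / 2 ^ k) ^ α * ((r0 / 2 ^ k) ^ (α - 1)) ^ (m - 1) = (r0 / 2 ^ k) ^ e := by
      rw [← Real.rpow_natCast ((r0 / 2 ^ k) ^ (α - 1)) (m - 1), ← Real.rpow_mul (hrk k).le,
        ← Real.rpow_add (hrk k)]
    rw [h3, hA', mul_assoc]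
    congr 1
    rw [Real.div_rpow hr0.le (by positivity), div_eq_mul_inv]
    congr 1
    rw [← Real.rpow_natCast (2:ℝ) k, ← Real.rpow_mul (by norm_num), ← Real.rpow_neg (by norm_num), hq,
      ← Real.rpow_natCast _ k, ← Real.rpow_mul (by norm_num)]
    congr 1
    ring
  rw [Metric.tendsto_atTop]
  intro ε hε
  obtain ⟨K, hK⟩ : ∃ K : ℕ, A' * q ^ K / (1 - q) < ε / 2 := by
    have h1 : Tendsto (fun K : ℕ => A' * q ^ K / (1 - q)) atTop (𝓝 (A' * 0 / (1 - q))) :=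
      ((tendsto_pow_atTop_nhds_zero_of_lt_one hq0.le hq1).const_mul A').div_const _
    rw [mul_zero, zero_div] at h1
    exact (h1.eventually_lt_const (by positivity)).exists
  have hcl : IsClosed (f '' tsupport ζ) := (hζc.image hf).isClosed
  obtain ⟨η, hη, φ, hφ, hφb, hφ1, hsmall⟩ := JJ_cutoff_small hζ hζc
    (mol_contDiff (n := 2) (hrk K) hf) hcl h0 (ε := ε / 2) (by positivity)
  obtain ⟨δ, hδ, hunif⟩ := unif_cont_near hf hζc hη
  obtain ⟨N, hN⟩ : ∃ N : ℕ, ∀ k ≥ N, r0 / 2 ^ k ≤ δ := by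
    have h1 : Tendsto (fun k : ℕ => r0 / 2 ^ k) atTop (𝓝 0) := by
      have := (tendsto_pow_atTop_nhds_zero_of_lt_one (r := (1/2:ℝ)) (by norm_num) (by norm_num)).const_mul r0
      rw [mul_zero] at this
      refine this.congr (fun k => ?_)
      rw [one_div, inv_pow, div_eq_mul_inv]
    obtain ⟨N, hN⟩ := eventually_atTop.1 (h1.eventually_lt_const hδ)
    exact ⟨N, fun k hk => (hN k hk).le⟩
  refine ⟨max K N, fun k hk => ?_⟩
  have hkK : K ≤ k := le_trans (le_max_left _ _) hk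
  have hkN : N ≤ k := le_trans (le_max_right _ _) hk
  rw [Real.dist_eq, sub_zero]
  have h1 : ∫ v, ζ v * jac (mol (r0 / 2 ^ k) f) v = JJ ζ φ (mol (r0 / 2 ^ k) f) := by
    unfold JJ
    congr 1
    ext v
    by_cases hv : v ∈ tsupport ζ
    · rw [hφ1, one_mul]
      refine Metric.mem_cthickening_of_dist_le _ (f v) _ _ (mem_image_of_mem f hv) ?_
      rw [dist_eq_norm]
      exact mol_sub_le (hrk k) hf (f v) v (fun w hw => hunif v hv w (hw.trans (hN k hkN)))
    · rw [image_eq_zero_of_notMem_tsupport hv]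
      simp
  rw [h1]
  have h2 := geom_tele (a := fun k => JJ ζ φ (mol (r0 / 2 ^ k) f)) hA'0 hq0 hq1 (hkey φ hφ hφb) K (k - K)
  rw [Nat.add_sub_cancel' hkK] at h2
  calc |JJ ζ φ (mol (r0 / 2 ^ k) f)|
      = |(JJ ζ φ (mol (r0 / 2 ^ k) f) - JJ ζ φ (mol (r0 / 2 ^ K) f)) + JJ ζ φ (mol (r0 / 2 ^ K) f)| := by
        congr 1; ring
    _ ≤ |JJ ζ φ (mol (r0 / 2 ^ k) f) - JJ ζ φ (mol (r0 / 2 ^ K) f)| + |JJ ζ φ (mol (r0 / 2 ^ K) f)| := abs_add_le _ _
    _ < ε / 2 + ε / 2 := add_lt_add_of_le_of_lt (h2.trans hK.le) hsmall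
    _ = ε := by ring

end Pool.Agent.Helper39
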