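import Pool.Agent.Helper39.Jac

open MeasureTheory Set Filter Topology Module
open scoped ENNReal NNReal

namespace Pool.Agent.Helper39

variable {m : ℕ}

/-- coordinates adapted to a unit vector -/
lemma coords (m : ℕ) (w : EE (m + 1)) (hw : ‖w‖ = 1) :
    ∃ (P : EE (m + 1) →L[ℝ] EE m) (Q : EE m →L[ℝ] EE (m + 1)), (∀ v, ‖Q v‖ = ‖v‖) ∧
      (∀ v, inner ℝ w (Q v) = 0) ∧ (∀ v, P (Q v) = v) ∧ (P w = 0) ∧
      (∀ y, y = Q (P y) + (inner ℝ w y : ℝ) • w) ∧ (∀ y, ‖P y‖ ≤ ‖y‖) := by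
  have hw0 : w ≠ 0 := by
    rintro rfl
    simp at hw
  have : Fact (finrank ℝ (EE (m + 1)) = m + 1) := ⟨by simp⟩
  let ob := OrthonormalBasis.fromOrthogonalSpanSingleton (𝕜 := ℝ) m hw0
  let e : ((ℝ ∙ w)ᗮ : Submodule ℝ (EE (m + 1))) ≃ₗᵢ[ℝ] EE m := ob.repr
  let Pr : EE (m + 1) →L[ℝ] ((ℝ ∙ w)ᗮ : Submodule ℝ (EE (m + 1))) := (ℝ ∙ w)ᗮ.orthogonalProjectionOnto
  let P : EE (m + 1) →L[ℝ] EE m := (e.toContinuousLinearEquiv : _ →L[ℝ] EE m).comp Pr
  let Q : EE m →L[ℝ] EE (m + 1) := ((ℝ ∙ w)ᗮ).subtypeL.comp (e.symm.toContinuousLinearEquiv : EE m →L[ℝ] _)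
  have hQ : ∀ v, Q v = ((e.symm v : ((ℝ ∙ w)ᗮ : Submodule ℝ (EE (m + 1)))) : EE (m + 1)) := fun v => rfl
  have hP : ∀ y, P y = e (Pr y) := fun y => rfl
  refine ⟨P, Q, ?_, ?_, ?_, ?_, ?_, ?_⟩
  · intro v
    have h := LinearIsometryEquiv.norm_map e.symm v
    rw [hQ]
    exact h
  · intro v
    rw [hQ]
    exact (Submodule.mem_orthogonal_singleton_iff_inner_right.1 (e.symm v).2)
  · intro v
    rw [hP, hQ]
    have : Pr ((e.symm v : ((ℝ ∙ w)ᗮ : Submodule ℝ (EE (m + 1)))) : EE (m + 1)) = e.symm v :=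
      Submodule.orthogonalProjectionOnto_mem_subspace_eq_self _
    rw [this, LinearIsometryEquiv.apply_symm_apply]
  · rw [hP]
    have : Pr w = 0 := by
      apply Submodule.orthogonalProjectionOnto_orthogonal_apply_eq_zero
      exact Submodule.mem_span_singleton_self w
    rw [this, map_zero]
  · intro y
    rw [hQ, hP, LinearIsometryEquiv.symm_apply_apply]
    have h1 : y - (inner ℝ w y : ℝ) • w ∈ (ℝ ∙ w)ᗮ := by
      rw [Submodule.mem_orthogonal_singleton_iff_inner_right, inner_sub_right, inner_smul_right,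
        real_inner_self_eq_norm_sq, hw]
      simp
    have h2 : Pr y = ⟨y - (inner ℝ w y : ℝ) • w, h1⟩ := by
      have e1 : y = (y - (inner ℝ w y : ℝ) • w) + (inner ℝ w y : ℝ) • w := by abel
      have e2 : Pr y = Pr (y - (inner ℝ w y : ℝ) • w) + Pr ((inner ℝ w y : ℝ) • w) := by
        conv_lhs => rw [e1]
        rw [map_add]
      have e3 : Pr w = 0 := by
        apply Submodule.orthogonalProjectionOnto_orthogonal_apply_eq_zero
        exact Submodule.mem_span_singleton_self w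
      rw [e2, map_smul, e3, smul_zero, add_zero]
      exact Submodule.orthogonalProjectionOnto_mem_subspace_eq_self (K := (ℝ ∙ w)ᗮ) ⟨_, h1⟩
    rw [h2]
    change y = (y - (inner ℝ w y : ℝ) • w) + (inner ℝ w y : ℝ) • w
    rw [sub_add_cancel]
  · intro y
    rw [hP, LinearIsometryEquiv.norm_map]
    have h := Submodule.norm_orthogonalProjectionOnto_apply_le ((ℝ ∙ w)ᗮ) y
    exact h

end Pool.Agent.Helper39
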