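import Mathlib

open MeasureTheory Set Filter Topology
open scoped ENNReal NNReal

namespace Pool.Agent.Helper39

/-- coverings of a set of small Hausdorff dimension, sorted by dyadic size -/
lemma exists_cover {X : Type*} [EMetricSpace X] [MeasurableSpace X] [BorelSpace X] {K : Set X} {d : ℝ≥0}
    (hd : 0 < d) (h : dimH K < d) (k0 : ℕ) :
    ∃ (t : ℕ → Set X) (J : ℕ → Finset ℕ), (K ⊆ ⋃ j, ⋃ n ∈ J j, t n) ∧ (∀ j, j < k0 → J j = ∅) ∧
      (∀ j, ∀ n ∈ J j, ∀ x ∈ t n, ∀ y ∈ t n, edist x y ≤ ENNReal.ofReal ((1/2)^j)) ∧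
      (∀ j, ((J j).card : ℝ) ≤ 2 * (2:ℝ)^(((j:ℝ)+1) * d)) := by
  have h0 : μH[(d:ℝ)] K = 0 := hausdorffMeasure_of_dimH_lt h
  rw [Measure.hausdorffMeasure_apply] at h0
  have h1 : (⨅ (t : ℕ → Set X) (_ : K ⊆ ⋃ n, t n) (_ : ∀ n, Metric.ediam (t n) ≤ ENNReal.ofReal ((1/2)^k0)),
      ∑' n, ⨆ _ : (t n).Nonempty, Metric.ediam (t n) ^ (d:ℝ)) < 1 := by
    refine lt_of_le_of_lt ?_ zero_lt_one
    rw [← h0]
    refine le_iSup₂_of_le (ENNReal.ofReal ((1/2)^k0)) ?_ le_rfl
    simp
  rw [iInf_lt_iff] at h1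
  obtain ⟨t, h1⟩ := h1
  rw [iInf_lt_iff] at h1
  obtain ⟨hcov, h1⟩ := h1
  rw [iInf_lt_iff] at h1
  obtain ⟨hdiam, h1⟩ := h1
  -- the classes
  have hsum : ∀ F : Finset ℕ, ∑ n ∈ F, (⨆ _ : (t n).Nonempty, Metric.ediam (t n) ^ (d:ℝ)) ≤ 1 :=
    fun F => (ENNReal.sum_le_tsum F).trans h1.le
  set A : ℕ → Set ℕ := fun j => {n | (t n).Nonempty ∧ ENNReal.ofReal ((1/2)^(j+1)) < Metric.ediam (t n) ∧
    Metric.ediam (t n) ≤ ENNReal.ofReal ((1/2)^j)} with hA
  have hcard : ∀ j, ∀ F : Finset ℕ, (↑F ⊆ A j) → (F.card : ℝ) ≤ (2:ℝ)^(((j:ℝ)+1) * d) := by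
    intro j F hF
    have e1 : (F.card : ℝ≥0∞) * ENNReal.ofReal ((1/2)^(j+1)) ^ (d:ℝ) ≤ 1 := by
      refine le_trans ?_ (hsum F)
      rw [← nsmul_eq_mul]
      refine Finset.card_nsmul_le_sum _ _ _ (fun n hn => ?_)
      obtain ⟨a1, a2, a3⟩ := hF hn
      rw [ciSup_pos a1]
      exact ENNReal.rpow_le_rpow a2.le d.2
    rw [ENNReal.ofReal_rpow_of_pos (by positivity), ← ENNReal.ofReal_natCast, ← ENNReal.ofReal_mul (by positivity),
      ← ENNReal.ofReal_one, ENNReal.ofReal_le_ofReal_iff (by norm_num)] at e1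
    have e2 : (((1:ℝ)/2)^(j+1)) ^ (d:ℝ) = ((2:ℝ)^(((j:ℝ)+1) * d))⁻¹ := by
      rw [one_div, inv_pow, Real.inv_rpow (by positivity), ← Real.rpow_natCast, ← Real.rpow_mul (by norm_num)]
      push_cast
      rfl
    rw [e2] at e1
    have e3 : (0:ℝ) < (2:ℝ)^(((j:ℝ)+1) * d) := by positivity
    rwa [mul_inv_le_iff₀ e3, one_mul] at e1
  have hfin : ∀ j, (A j).Finite := by
    intro j
    by_contra hinf
    have hinf' : (A j).Infinite := hinf
    obtain ⟨F, hF1, hF2⟩ := hinf'.exists_subset_card_eq (⌊(2:ℝ)^(((j:ℝ)+1) * d)⌋₊ + 1)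
    have := hcard j F hF1
    rw [hF2] at this
    push_cast at this
    have h3 := Nat.lt_floor_add_one ((2:ℝ)^(((j:ℝ)+1) * d))
    linarith
  classical
  refine ⟨t, fun j => if j < k0 then ∅ else (hfin j).toFinset ∪ (if Metric.ediam (t (j - k0)) = 0 then {j - k0} else ∅),
    ?_, fun j hj => if_pos hj, ?_, ?_⟩
  · intro x hx
    obtain ⟨n, hn⟩ := mem_iUnion.1 (hcov hx)
    have hne : (t n).Nonempty := ⟨x, hn⟩
    by_cases h0 : Metric.ediam (t n) = 0
    · refine mem_iUnion.2 ⟨n + k0, mem_iUnion₂.2 ⟨n, ?_, hn⟩⟩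
      beta_reduce
      rw [if_neg (by omega), Nat.add_sub_cancel, if_pos h0]
      simp
    · -- find the dyadic class
      have htop : Metric.ediam (t n) ≠ ∞ := ne_top_of_le_ne_top ENNReal.ofReal_ne_top (hdiam n)
      set e := (Metric.ediam (t n)).toReal with he
      have hepos : 0 < e := ENNReal.toReal_pos h0 htop
      have hee : Metric.ediam (t n) = ENNReal.ofReal e := (ENNReal.ofReal_toReal htop).symm
      have hle : e ≤ (1/2)^k0 := by
        have := hdiam n
        rw [hee] at this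
        exact (ENNReal.ofReal_le_ofReal_iff (by positivity)).1 this
      have hex : ∃ j, ((1:ℝ)/2)^(j+1) < e := by
        obtain ⟨j, hj⟩ := exists_pow_lt_of_lt_one hepos (by norm_num : (1:ℝ)/2 < 1)
        exact ⟨j, lt_of_le_of_lt (pow_le_pow_of_le_one (by norm_num) (by norm_num) (Nat.le_succ j)) hj⟩
      have hj1 := Nat.find_spec hex
      have hmin := fun {k} => Nat.find_min hex (m := k)
      set j := Nat.find hex with hjdef
      have hj2 : e ≤ (1/2)^j := by
        rcases Nat.eq_zero_or_pos j with h00 | h00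
        · rw [h00]
          calc e ≤ (1/2)^k0 := hle
            _ ≤ (1/2)^0 := pow_le_pow_of_le_one (by norm_num) (by norm_num) (Nat.zero_le _)
        · have := hmin (k := j - 1) (by omega)
          push Not at this
          rwa [Nat.sub_add_cancel h00] at this
      have hjk : k0 ≤ j := by
        by_contra hlt
        push Not at hlt
        have : ((1:ℝ)/2)^k0 ≤ (1/2)^(j+1) := pow_le_pow_of_le_one (by norm_num) (by norm_num) hlt
        linarith
      refine mem_iUnion.2 ⟨j, mem_iUnion₂.2 ⟨n, ?_, hn⟩⟩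
      beta_reduce
      rw [if_neg (by omega)]
      refine Finset.mem_union_left _ ?_
      rw [Set.Finite.mem_toFinset]
      refine ⟨hne, ?_, ?_⟩
      · rw [hee]
        exact (ENNReal.ofReal_lt_ofReal_iff hepos).2 hj1
      · rw [hee]
        exact ENNReal.ofReal_le_ofReal hj2
  · intro j n hn x hx y hy
    refine (Metric.edist_le_ediam_of_mem hx hy).trans ?_
    beta_reduce at hn
    by_cases hj : j < k0
    · simp [hj] at hn
    · rw [if_neg hj] at hn
      rcases Finset.mem_union.1 hn with h2 | h2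
      · rw [Set.Finite.mem_toFinset] at h2
        exact h2.2.2
      · by_cases h0 : Metric.ediam (t (j - k0)) = 0
        · rw [if_pos h0, Finset.mem_singleton] at h2
          rw [h2, h0]
          exact zero_le
        · rw [if_neg h0] at h2
          simp at h2
  · intro j
    beta_reduce
    by_cases hj : j < k0
    · rw [if_pos hj]
      simp
      positivity
    · rw [if_neg hj]
      have e1 : (((hfin j).toFinset ∪ (if Metric.ediam (t (j - k0)) = 0 then {j - k0} else ∅)).card : ℝ) ≤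
          ((hfin j).toFinset.card : ℝ) + 1 := by
        have := Finset.card_union_le (hfin j).toFinset (if Metric.ediam (t (j - k0)) = 0 then {j - k0} else ∅)
        have h4 : (if Metric.ediam (t (j - k0)) = 0 then ({j - k0} : Finset ℕ) else ∅).card ≤ 1 := by
          split_ifs
          · simp
          · simp
        exact_mod_cast this.trans (by omega)
      have e2 := hcard j (hfin j).toFinset (by simp)
      have e3 : (1:ℝ) ≤ (2:ℝ)^(((j:ℝ)+1) * d) := by
        apply Real.one_le_rpow (by norm_num)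
        have := d.2
        positivity
      linarith

lemma exists_large_piece {X : Type*} [MeasurableSpace X] (μ : Measure X) {S : Set X} {S' : ℕ → Set X}
    (h : S ⊆ ⋃ j, S' j) (hpos : μ S ≠ 0) (hfin : μ S ≠ ∞) {c : ℕ → ℝ≥0∞} (hc : ∑' j, c j < 1) :
    ∃ j, c j * μ S ≤ μ (S' j) := by
  by_contra hcon
  push Not at hcon
  have h1 : μ S ≤ ∑' j, c j * μ S := by
    calc μ S ≤ μ (⋃ j, S' j) := measure_mono h
      _ ≤ ∑' j, μ (S' j) := measure_iUnion_le _
      _ ≤ ∑' j, c j * μ S := ENNReal.tsum_le_tsum (fun j => (hcon j).le)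
  rw [ENNReal.tsum_mul_right] at h1
  have h2 : (∑' j, c j) * μ S < 1 * μ S := ENNReal.mul_lt_mul_left hpos hfin hc
  rw [one_mul] at h2
  exact absurd h1 (not_le.2 h2)

end Pool.Agent.Helper39
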