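import Mathlib

open MeasureTheory Set Filter Topology
open scoped ENNReal NNReal

namespace Pool.Agent.Helper39

/-- the point with horizontal coordinates `p.1` and height `p.2` -/
noncomputable def ptf {m : ℕ} (p : (Fin m → ℝ) × ℝ) : EuclideanSpace ℝ (Fin (m+1)) :=
  WithLp.toLp 2 (Fin.snoc p.1 p.2)

lemma ptf_castSucc {m : ℕ} (p : (Fin m → ℝ) × ℝ) (k : Fin m) : ptf p k.castSucc = p.1 k := by
  simp [ptf]

lemma ptf_last {m : ℕ} (p : (Fin m → ℝ) × ℝ) : ptf p (Fin.last m) = p.2 := by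
  simp [ptf]

lemma dist_le_ptf {m : ℕ} (p q : (Fin m → ℝ) × ℝ) : dist p q ≤ dist (ptf p) (ptf q) := by
  have h : ∀ i, dist (ptf p i) (ptf q i) ≤ dist (ptf p) (ptf q) := by
    intro i
    rw [Real.dist_eq, dist_eq_norm]
    have := PiLp.norm_apply_le (ptf p - ptf q) i
    rwa [Real.norm_eq_abs] at this
  rw [Prod.dist_eq, max_le_iff]
  constructor
  · rw [dist_pi_le_iff dist_nonneg]
    intro k
    have := h k.castSucc
    rwa [ptf_castSucc, ptf_castSucc] at this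
  · have := h (Fin.last m)
    rwa [ptf_last, ptf_last] at this

/-- extraction of a segment over a window of heights -/
lemma exists_window {m : ℕ} {K : Set (EuclideanSpace ℝ (Fin (m+1)))}
    (hK : ∀ e : EuclideanSpace ℝ (Fin (m+1)), ‖e‖ = 1 → ∃ x, ∀ t : ℝ, 0 ≤ t → t ≤ 1 → x + t • e ∈ K)
    {v : Fin m → ℝ} (hv : v ∈ Icc (0 : Fin m → ℝ) 1) :
    ∃ k : ℤ, ∃ x : Fin m → ℝ, ∀ θ ∈ Ico ((k:ℝ) * (1/(2*((m:ℝ)+1)))) ((k:ℝ) * (1/(2*((m:ℝ)+1))) + 1/(2*((m:ℝ)+1))),
      ptf (x + θ • v, θ) ∈ K := by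
  set H : ℝ := 1/(2*((m:ℝ)+1)) with hH
  have hHpos : 0 < H := by positivity
  set w : EuclideanSpace ℝ (Fin (m+1)) := ptf (v, 1) with hw
  have hnorm : ‖w‖ ≤ (m:ℝ) + 1 := by
    have h1 : ‖w‖ ^ 2 ≤ (m:ℝ) + 1 := by
      rw [EuclideanSpace.norm_sq_eq]
      have : ∀ i, ‖w i‖ ^ 2 ≤ 1 := by
        intro i
        refine Fin.lastCases ?_ (fun k => ?_) i
        · rw [hw, ptf_last]
          simp
        · rw [hw, ptf_castSucc]
          have h1 := hv.1 k
          have h2 := hv.2 k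
          simp only [Pi.zero_apply, Pi.one_apply] at h1 h2
          rw [Real.norm_of_nonneg h1]
          nlinarith
      calc ∑ i, ‖w i‖ ^ 2 ≤ ∑ i : Fin (m+1), (1:ℝ) := Finset.sum_le_sum (fun i _ => this i)
        _ = (m:ℝ) + 1 := by simp
    have h2 : (1:ℝ) ≤ (m:ℝ) + 1 := by
      have : (0:ℝ) ≤ m := Nat.cast_nonneg m
      linarith
    nlinarith [norm_nonneg w]
  have hwpos : 0 < ‖w‖ := by
    rw [norm_pos_iff]
    intro h0
    have : w (Fin.last m) = 0 := by rw [h0]; rfl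
    rw [hw, ptf_last] at this
    norm_num at this
  obtain ⟨a, ha⟩ := hK (‖w‖⁻¹ • w) (by rw [norm_smul, norm_inv, norm_norm, inv_mul_cancel₀ hwpos.ne'])
  set al : ℝ := a (Fin.last m) with hal
  refine ⟨⌈al / H⌉, (fun k => a k.castSucc - al * v k), ?_⟩
  rintro θ ⟨h1, h2⟩
  have e1 : al ≤ θ := by
    have := Int.le_ceil (al / H)
    rw [div_le_iff₀ hHpos] at this
    linarith
  have e2 : θ ≤ al + 1 / ‖w‖ := by
    have h3 := Int.ceil_lt_add_one (al / H)
    have h4 : (⌈al / H⌉ : ℝ) * H < al + H := by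
      have := mul_lt_mul_of_pos_right h3 hHpos
      rw [add_mul, div_mul_cancel₀ _ hHpos.ne', one_mul] at this
      exact this
    have h5 : 2 * H ≤ 1 / ‖w‖ := by
      rw [hH, le_div_iff₀ hwpos]
      calc 2 * (1 / (2 * ((m:ℝ) + 1))) * ‖w‖ ≤ 2 * (1 / (2 * ((m:ℝ) + 1))) * ((m:ℝ) + 1) := by gcongr
        _ = 1 := by field_simp
    linarith
  have e3 := ha ((θ - al) * ‖w‖) (mul_nonneg (by linarith) hwpos.le) (by
    have : θ - al ≤ 1 / ‖w‖ := by linarith
    rwa [le_div_iff₀ hwpos] at this)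
  rw [smul_smul, mul_assoc, mul_inv_cancel₀ hwpos.ne', mul_one] at e3
  convert e3 using 1
  ext i
  refine Fin.lastCases ?_ (fun k => ?_) i
  · rw [ptf_last]
    simp only [PiLp.add_apply, PiLp.smul_apply, smul_eq_mul]
    rw [hw, ptf_last]
    simp only
    rw [← hal]
    ring
  · rw [ptf_castSucc]
    simp only [PiLp.add_apply, PiLp.smul_apply, smul_eq_mul, Pi.add_apply, Pi.smul_apply]
    rw [hw, ptf_castSucc]
    ring

end Pool.Agent.Helper39
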