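import Pool.Agent.Helper39.DiscA
import Pool.Agent.Helper39.DiscB
import Pool.Agent.Helper39.DiscC

open MeasureTheory Set Filter Topology
open scoped ENNReal NNReal

namespace Pool.Agent.Helper39

lemma tendsto_two_pow_rpow {s : ℝ} (hs : 0 < s) : Tendsto (fun j : ℕ => ((2:ℝ)^j)^s) atTop atTop := by
  refine (tendsto_rpow_atTop hs).comp ?_
  exact tendsto_pow_atTop_atTop_of_one_lt (by norm_num)

theorem dimH_of_discrete_auxP {m : ℕ} {al : ℝ} (hal : 0 < al)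
    (P : ℕ → (Fin m → ℝ) × (Fin m → ℝ) → Prop) (h : DiscreteIHP m al P)
    (K : Set (EuclideanSpace ℝ (Fin (m+1))))
    (hK : ∀ e : EuclideanSpace ℝ (Fin (m+1)), ‖e‖ = 1 → ∃ x, ∀ t : ℝ, 0 ≤ t → t ≤ 1 → x + t • e ∈ K)
    (hP : ∀ (Q : ℕ) (y : Fin m → ℝ) (θ : ℝ) (v : Fin m → ℝ), v ∈ Icc (0 : Fin m → ℝ) 1 → ptf (y, θ) ∈ K →
      P Q ((Q:ℝ) • y, ((Q:ℝ) * (1/(2*((m:ℝ)+1)))) • v)) :
    ENNReal.ofReal ((m:ℝ)/al + 1) ≤ dimH K := by
  by_contra hcon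
  push Not at hcon
  obtain ⟨d, hd1, hd2⟩ := ENNReal.lt_iff_exists_nnreal_btwn.1 hcon
  have hd0 : 0 < d := by
    have : (0:ℝ≥0∞) < d := lt_of_le_of_lt zero_le hd1
    exact_mod_cast this
  have hd3 : (d:ℝ) < (m:ℝ)/al + 1 := by
    have h1 : ENNReal.ofReal (d:ℝ) < ENNReal.ofReal ((m:ℝ)/al + 1) := by
      rwa [ENNReal.ofReal_coe_nnreal]
    exact (ENNReal.ofReal_lt_ofReal_iff (by positivity)).1 h1
  set δ0 : ℝ := m - ((d:ℝ) - 1) * al with hδ0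
  have hδpos : 0 < δ0 := by
    have : ((d:ℝ) - 1) < m / al := by linarith
    rw [lt_div_iff₀ hal] at this
    linarith
  obtain ⟨η, hη, Q0, hIH⟩ := h (δ0/4) (by positivity)
  set H : ℝ := 1/(2*((m:ℝ)+1)) with hH
  have hHpos : 0 < H := by positivity
  have hH1 : H ≤ 1 := by
    rw [hH, div_le_one (by positivity)]
    have : (0:ℝ) ≤ m := Nat.cast_nonneg m
    linarith
  -- the window
  set W : ℤ → Set (Fin m → ℝ) := fun k => {v | v ∈ Icc (0 : Fin m → ℝ) 1 ∧ ∃ x : Fin m → ℝ,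
    ∀ θ ∈ Ico ((k:ℝ) * H) ((k:ℝ) * H + H), ptf (x + θ • v, θ) ∈ K} with hW
  have hcover : Icc (0 : Fin m → ℝ) 1 ⊆ ⋃ k, W k := by
    intro v hv
    obtain ⟨k, x, hx⟩ := exists_window hK hv
    exact mem_iUnion.2 ⟨k, hv, x, hx⟩
  have hvol1 : volume (Icc (0 : Fin m → ℝ) 1) = 1 := by
    rw [Real.volume_Icc_pi]
    simp
  obtain ⟨kk, hkk⟩ : ∃ k, volume (W k) ≠ 0 := by
    by_contra hall
    push Not at hall
    have := measure_mono_null hcover (measure_iUnion_null hall)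
    rw [hvol1] at this
    exact one_ne_zero this
  have hWfin : volume (W kk) ≠ ∞ := by
    have : volume (W kk) ≤ 1 := by
      rw [← hvol1]
      exact measure_mono (fun v hv => hv.1)
    exact ne_top_of_le_ne_top ENNReal.one_ne_top this
  set c0 : ℝ := (volume (W kk)).toReal with hc0
  have hc0pos : 0 < c0 := ENNReal.toReal_pos hkk hWfin
  have hc0e : volume (W kk) = ENNReal.ofReal c0 := (ENNReal.ofReal_toReal hWfin).symm
  have hch : ∀ v, v ∈ W kk → ∃ x : Fin m → ℝ,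
    ∀ θ ∈ Ico ((kk:ℝ) * H) ((kk:ℝ) * H + H), ptf (x + θ • v, θ) ∈ K := fun v hv => hv.2
  choose! x hx using hch
  -- geometric weights
  set η' : ℝ := min (η/2) (δ0/4) with hη'
  have hη'pos : 0 < η' := lt_min (by positivity) (by positivity)
  set r : ℝ := (2:ℝ)^(-η') with hr
  have hrpos : 0 < r := by positivity
  have hr1 : r < 1 := Real.rpow_lt_one_of_one_lt_of_neg (by norm_num) (by linarith)
  set cr : ℕ → ℝ := fun j => (1 - r)/2 * r^j with hcr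
  have hcrpos : ∀ j, 0 < cr j := fun j => by
    have : 0 < 1 - r := by linarith
    positivity
  have hcsum : ∑' j, ENNReal.ofReal (cr j) < 1 := by
    have hs : Summable cr := (summable_geometric_of_lt_one hrpos.le hr1).mul_left _
    rw [← ENNReal.ofReal_tsum_of_nonneg (fun j => (hcrpos j).le) hs]
    have : ∑' j, cr j = 1/2 := by
      simp only [hcr]
      rw [tsum_mul_left, tsum_geometric_of_lt_one hrpos.le hr1]
      have : 1 - r ≠ 0 := by linarith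
      field_simp
    rw [this, ← ENNReal.ofReal_one]
    exact (ENNReal.ofReal_lt_ofReal_iff one_pos).2 (by norm_num)
  have hrj : ∀ j : ℕ, r^j = ((2:ℝ)^j)^(-η') := by
    intro j
    rw [hr, ← Real.rpow_natCast, ← Real.rpow_mul (by norm_num), mul_comm, Real.rpow_mul (by norm_num),
      Real.rpow_natCast]
  -- the constants
  set C1 : ℝ := 2 * (2:ℝ)^(d:ℝ) * ((2 * (⌈1/H⌉₊ + 1) + 1) * 5^m) with hC1
  have hC1pos : 0 < C1 := by positivity
  set C2 : ℝ := C1^al / ((1-r)/2 * c0 * H^m) with hC2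
  have h1r : 0 < 1 - r := by linarith
  -- choose the scale
  have hev : ∀ᶠ j : ℕ in atTop, Q0 ≤ 2^j ∧ 2/(1-r) ≤ ((2:ℝ)^j)^(η/2) ∧ C2 < ((2:ℝ)^j)^(δ0/2) := by
    refine Filter.Eventually.and ?_ (Filter.Eventually.and ?_ ?_)
    · exact (tendsto_pow_atTop_atTop_of_one_lt (by norm_num : 1 < 2)).eventually_ge_atTop Q0
    · exact (tendsto_two_pow_rpow (by positivity)).eventually_ge_atTop _
    · exact (tendsto_two_pow_rpow (by positivity)).eventually_gt_atTop _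
  obtain ⟨k0, hk0⟩ := eventually_atTop.1 hev
  obtain ⟨t, J, hKt, hJ0, hJd, hJc⟩ := exists_cover hd0 hd1 k0
  set S : ℕ → (Fin m → ℝ) → Set ℝ := fun j v => {θ | θ ∈ Ico ((kk:ℝ) * H) ((kk:ℝ) * H + H) ∧
    ∃ n ∈ J j, ptf (x v + θ • v, θ) ∈ t n} with hS
  have hvolI : volume (Ico ((kk:ℝ) * H) ((kk:ℝ) * H + H)) = ENNReal.ofReal H := by
    rw [Real.volume_Ico]
    congr 1
    ring
  set D : ℕ → Set (Fin m → ℝ) := fun j => {v | v ∈ W kk ∧ ENNReal.ofReal (cr j) * ENNReal.ofReal H ≤ volume (S j v)}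
    with hD
  have hDcov : W kk ⊆ ⋃ j, D j := by
    intro v hv
    have hsub : Ico ((kk:ℝ) * H) ((kk:ℝ) * H + H) ⊆ ⋃ j, S j v := by
      intro θ hθ
      obtain ⟨j, hj⟩ := mem_iUnion.1 (hKt (hx v hv θ hθ))
      obtain ⟨n, hn1, hn2⟩ := mem_iUnion₂.1 hj
      exact mem_iUnion.2 ⟨j, hθ, n, hn1, hn2⟩
    obtain ⟨j, hj⟩ := exists_large_piece volume hsub
      (by rw [hvolI]; exact (ENNReal.ofReal_pos.2 hHpos).ne') (by rw [hvolI]; exact ENNReal.ofReal_ne_top) hcsum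
    rw [hvolI] at hj
    exact mem_iUnion.2 ⟨j, hv, hj⟩
  obtain ⟨j, hj⟩ := exists_large_piece volume hDcov hkk hWfin hcsum
  have hjk : k0 ≤ j := by
    by_contra hlt
    push Not at hlt
    have hSe : ∀ v, S j v = ∅ := by
      intro v
      simp only [hS, hJ0 j hlt]
      simp
    have hDe : D j = ∅ := by
      rw [Set.eq_empty_iff_forall_notMem]
      rintro v ⟨_, hv⟩
      rw [hSe v, measure_empty] at hv
      have : 0 < ENNReal.ofReal (cr j) * ENNReal.ofReal H :=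
        ENNReal.mul_pos (ENNReal.ofReal_pos.2 (hcrpos j)).ne' (ENNReal.ofReal_pos.2 hHpos).ne'
      exact absurd hv (not_le.2 this)
    rw [hDe, measure_empty] at hj
    have : 0 < ENNReal.ofReal (cr j) * volume (W kk) :=
      ENNReal.mul_pos (ENNReal.ofReal_pos.2 (hcrpos j)).ne' hkk
    exact absurd hj (not_le.2 this)
  obtain ⟨hj1, hj2, hj3⟩ := hk0 j hjk
  have hQpos : 0 < 2^j := by positivity
  have hQcast : ((2^j : ℕ) : ℝ) = (2:ℝ)^j := by push_cast; rfl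
  obtain ⟨L, T, hL1, hLP, hL2, hL3, hL4, hL5, hL6⟩ := disc_core (m := m) (Q := 2^j) hQpos (H := H) (h0 := (kk:ℝ) * H)
    hHpos hH1 (J j) (fun n => ptf ⁻¹' (t n))
    (by
      intro n hn p hp q hq
      have h1 := hJd j n hn _ hp _ hq
      rw [edist_dist, ENNReal.ofReal_le_ofReal_iff (by positivity)] at h1
      rw [hQcast]
      calc dist p q ≤ dist (ptf p) (ptf q) := dist_le_ptf p q
        _ ≤ (1/2)^j := h1
        _ = 1 / (2:ℝ)^j := by rw [div_pow, one_pow])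
    (D j) (fun v hv => hv.1.1) x (S j) (fun v _ θ hθ => hθ.1)
    (by
      rintro v _ θ ⟨_, n, hn1, hn2⟩
      exact ⟨n, hn1, hn2⟩)
    (σ := cr j * H) (τ := cr j * c0)
    (by
      intro v hv
      rw [ENNReal.ofReal_mul (hcrpos j).le]
      exact hv.2)
    (by
      rw [ENNReal.ofReal_mul (hcrpos j).le, ← hc0e]
      exact hj)
    (P (2^j))
    (fun v hv => hP (2^j) _ ((kk:ℝ) * H) v hv.1.1 (hx v hv.1 _ ⟨le_rfl, by linarith⟩))
  rw [hQcast] at hL4 hL5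
  set Q : ℝ := (2:ℝ)^j with hQ
  have hQr : 0 < Q := by positivity
  have hcond : ∀ l ∈ L, (((2^j : ℕ) : ℝ))^(1-η) ≤ (T l).card := by
    intro l hl
    refine le_trans ?_ (hL4 l hl)
    rw [hQcast]
    have e1 : cr j * H * Q / H = (1-r)/2 * (Q^(-η') * Q) := by
      simp only [hcr]
      rw [hrj j, ← hQ]
      field_simp
    rw [e1]
    have e2 : Q^(-η') * Q = Q^(1-η') := by
      rw [sub_eq_add_neg, add_comm 1 (-η'), Real.rpow_add hQr, Real.rpow_one]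
    rw [e2]
    have e3 : Q^(1-η) * Q^(η/2) ≤ Q^(1-η') := by
      rw [← Real.rpow_add hQr]
      apply Real.rpow_le_rpow_of_exponent_le
      · rw [hQ]
        exact one_le_pow₀ (by norm_num)
      · have : η' ≤ η/2 := min_le_left _ _
        linarith
    have e4 : Q^(1-η) * (2/(1-r)) ≤ Q^(1-η') :=
      (mul_le_mul_of_nonneg_left hj2 (by positivity)).trans e3
    calc Q^(1-η) = (1-r)/2 * (Q^(1-η) * (2/(1-r))) := by field_simp
      _ ≤ (1-r)/2 * Q^(1-η') := by gcongr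
  have hfinal := hIH (2^j) hj1 L T hL1 hLP hL2 hL3 hcond
  rw [hQcast] at hfinal
  have hfac : (0:ℝ) ≤ (2 * ((⌈1/H⌉₊:ℝ) + 1) + 1) * 5^m := by positivity
  set SS : ℝ := ∑ i ∈ Finset.range (2^j), (((L.filter (fun l => i ∈ T l)).image
          (fun l => fun k => ⌊l.1 k + (i:ℝ)/Q * l.2 k⌋)).card : ℝ) with hSS
  have hL6' : SS ≤ (J j).card * ((2 * (⌈1/H⌉₊ + 1) + 1) * 5^m) := by
    rw [hSS, ← hQcast]
    exact_mod_cast hL6
  have hJcard : ((J j).card : ℝ) ≤ 2 * (2:ℝ)^(d:ℝ) * Q^(d:ℝ) := by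
    refine (hJc j).trans (le_of_eq ?_)
    rw [mul_assoc, hQ, ← Real.rpow_natCast, ← Real.rpow_mul (by norm_num), ← Real.rpow_add (by norm_num)]
    congr 2
    ring
  have hSSn : 0 ≤ SS := Finset.sum_nonneg (fun i _ => Nat.cast_nonneg _)
  have hSS2 : 1/Q * SS ≤ C1 * Q^((d:ℝ)-1) := by
    have e1 : SS ≤ C1 * Q^(d:ℝ) := by
      calc SS ≤ (J j).card * ((2 * (⌈1/H⌉₊ + 1) + 1) * 5^m) := hL6'
        _ ≤ (2 * (2:ℝ)^(d:ℝ) * Q^(d:ℝ)) * ((2 * (⌈1/H⌉₊ + 1) + 1) * 5^m) := by gcongr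
        _ = C1 * Q^(d:ℝ) := by rw [hC1]; ring
    rw [Real.rpow_sub hQr, Real.rpow_one]
    calc 1/Q * SS ≤ 1/Q * (C1 * Q^(d:ℝ)) := by gcongr
      _ = _ := by ring
  have hup : (L.card : ℝ) ≤ C1^al * Q^(δ0/4 + ((d:ℝ)-1)*al) := by
    calc (L.card : ℝ) ≤ Q^(δ0/4) * (1/Q * SS)^al := hfinal
      _ ≤ Q^(δ0/4) * (C1 * Q^((d:ℝ)-1))^al :=
          mul_le_mul_of_nonneg_left (Real.rpow_le_rpow (mul_nonneg (one_div_nonneg.2 hQr.le) hSSn) hSS2 hal.le)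
            (Real.rpow_nonneg hQr.le _)
      _ = _ := by
        rw [Real.mul_rpow hC1pos.le (by positivity), ← Real.rpow_mul hQr.le, Real.rpow_add hQr]
        ring
  have hlow : (1-r)/2 * c0 * H^m * Q^((m:ℝ) - η') ≤ L.card := by
    refine le_trans (le_of_eq ?_) hL5
    simp only [hcr]
    have e4 : Q^((m:ℝ) - η') = Q^m * Q^(-η') := by
      rw [sub_eq_add_neg, Real.rpow_add hQr, Real.rpow_natCast]
    rw [hrj j, ← hQ, mul_pow, e4]
    ring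
  have hcomb : (1-r)/2 * c0 * H^m * Q^((m:ℝ) - η') ≤ C1^al * Q^(δ0/4 + ((d:ℝ)-1)*al) := hlow.trans hup
  have hcoef : 0 < (1-r)/2 * c0 * H^m := by positivity
  have e5 : Q^((m:ℝ) - η') = Q^(δ0/4 + ((d:ℝ)-1)*al) * Q^(δ0 - δ0/4 - η') := by
    rw [← Real.rpow_add hQr]
    congr 1
    rw [hδ0]
    ring
  rw [e5] at hcomb
  have e6 : 0 < Q^(δ0/4 + ((d:ℝ)-1)*al) := by positivity
  have e7 : (1-r)/2 * c0 * H^m * Q^(δ0 - δ0/4 - η') ≤ C1^al := by
    have : Q^(δ0/4 + ((d:ℝ)-1)*al) * ((1-r)/2 * c0 * H^m * Q^(δ0 - δ0/4 - η')) ≤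
        Q^(δ0/4 + ((d:ℝ)-1)*al) * C1^al := by
      calc _ = (1-r)/2 * c0 * H^m * (Q^(δ0/4 + ((d:ℝ)-1)*al) * Q^(δ0 - δ0/4 - η')) := by ring
        _ ≤ _ := hcomb
        _ = _ := by ring
    exact le_of_mul_le_mul_left this e6
  have e8 : Q^(δ0/2) ≤ Q^(δ0 - δ0/4 - η') := by
    apply Real.rpow_le_rpow_of_exponent_le
    · rw [hQ]
      exact one_le_pow₀ (by norm_num)
    · have : η' ≤ δ0/4 := min_le_right _ _
      linarith
  have e9 : Q^(δ0/2) ≤ C2 := by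
    rw [hC2, le_div_iff₀ hcoef]
    calc Q^(δ0/2) * ((1-r)/2 * c0 * H^m) ≤ Q^(δ0 - δ0/4 - η') * ((1-r)/2 * c0 * H^m) := by gcongr
      _ = (1-r)/2 * c0 * H^m * Q^(δ0 - δ0/4 - η') := by ring
      _ ≤ _ := e7
  linarith

theorem dimH_of_discrete_aux {m : ℕ} (_hm : 1 ≤ m) {al : ℝ} (hal : 0 < al) (h : DiscreteIH m al)
    (K : Set (EuclideanSpace ℝ (Fin (m+1))))
    (hK : ∀ e : EuclideanSpace ℝ (Fin (m+1)), ‖e‖ = 1 → ∃ x, ∀ t : ℝ, 0 ≤ t → t ≤ 1 → x + t • e ∈ K) :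
    ENNReal.ofReal ((m:ℝ)/al + 1) ≤ dimH K :=
  dimH_of_discrete_auxP hal (fun _ _ => True) (h.toP _) K hK (fun _ _ _ _ _ _ => trivial)

/-- **From the discrete statement to the Hausdorff dimension of Kakeya sets.** -/
theorem dimH_of_discrete {n : ℕ} (hn : 2 ≤ n) {al : ℝ} (hal : 1 ≤ al) (h : DiscreteIH (n-1) al)
    (K : Set (EuclideanSpace ℝ (Fin n)))
    (hK : ∀ e : EuclideanSpace ℝ (Fin n), ‖e‖ = 1 → ∃ x, ∀ t : ℝ, 0 ≤ t → t ≤ 1 → x + t • e ∈ K) :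
    ENNReal.ofReal (((n:ℝ)-1)/al + 1) ≤ dimH K := by
  obtain ⟨m, rfl⟩ : ∃ m, n = m + 1 := ⟨n - 1, by omega⟩
  have h1 := dimH_of_discrete_aux (m := m) (by omega) (by linarith : 0 < al) (by simpa using h) K hK
  have h2 : (((m+1 : ℕ):ℝ) - 1) = m := by push_cast; ring
  rw [h2]
  exact h1

/-- The version with all exponents above `a0`. -/
theorem dimH_of_discrete_limit {n : ℕ} (hn : 2 ≤ n) {a0 : ℝ} (ha0 : 1 ≤ a0)
    (h : ∀ al, a0 < al → DiscreteIH (n-1) al)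
    (K : Set (EuclideanSpace ℝ (Fin n)))
    (hK : ∀ e : EuclideanSpace ℝ (Fin n), ‖e‖ = 1 → ∃ x, ∀ t : ℝ, 0 ≤ t → t ≤ 1 → x + t • e ∈ K) :
    ENNReal.ofReal (((n:ℝ)-1)/a0 + 1) ≤ dimH K := by
  have h1 : Tendsto (fun al : ℝ => ENNReal.ofReal (((n:ℝ)-1)/al + 1)) (𝓝[>] a0)
      (𝓝 (ENNReal.ofReal (((n:ℝ)-1)/a0 + 1))) := by
    refine (ENNReal.continuous_ofReal.tendsto _).comp ?_
    refine Tendsto.mono_left ?_ nhdsWithin_le_nhds
    refine ContinuousAt.tendsto ?_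
    have : a0 ≠ 0 := by linarith
    fun_prop (disch := assumption)
  refine le_of_tendsto h1 ?_
  filter_upwards [self_mem_nhdsWithin] with al hal
  exact dimH_of_discrete hn (by have : a0 < al := hal; linarith) (h al hal) K hK

end Pool.Agent.Helper39
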