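import Pool.Agent.Helper8.Kak.Defs

open MeasureTheory Set Filter Topology
open scoped ENNReal NNReal

namespace Pool.Agent.Helper39

open Pool.Agent.Helper8.Kak

/-- Jensen: an upper bound for a conditional entropy `H(T,Z) - H(T)` -/
lemma ent_sub_le_log {Ω : Type} [Fintype Ω] {p : Ω → ℝ} (hp : IsProb p) (r s : Setoid Ω)
    {N : ℝ} (hN : ∑ ω, p ω * (cls p s ω / cls p r ω) ≤ N) (hN0 : 0 < N) :
    Ent p r - Ent p s ≤ Real.log N := by
  classical
  have hpos : ∀ (q : Setoid Ω) ω, 0 < p ω → 0 < cls p q ω := by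
    intro q ω hω
    unfold cls
    refine lt_of_lt_of_le hω ?_
    have : p ω = if q ω ω then p ω else 0 := by rw [if_pos (q.refl ω)]
    rw [this]
    exact Finset.single_le_sum (f := fun ω' => if q ω ω' then p ω' else 0)
      (fun ω' _ => by split_ifs; exacts [hp.1 ω', le_rfl]) (Finset.mem_univ ω)
  have e1 : Ent p r - Ent p s = ∑ ω, p ω * Real.log (cls p s ω / cls p r ω) := by
    unfold Ent
    rw [neg_sub_neg, ← Finset.sum_sub_distrib]
    refine Finset.sum_congr rfl (fun ω _ => ?_)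
    rcases (hp.1 ω).eq_or_lt with h0 | h0
    · rw [← h0]; simp
    · rw [Real.log_div (hpos s ω h0).ne' (hpos r ω h0).ne']
      ring
  rw [e1]
  have e2 : ∀ ω, p ω * Real.log (cls p s ω / cls p r ω) ≤
      p ω * (cls p s ω / cls p r ω / N - 1 + Real.log N) := by
    intro ω
    rcases (hp.1 ω).eq_or_lt with h0 | h0
    · rw [← h0]; simp
    · refine mul_le_mul_of_nonneg_left ?_ (hp.1 ω)
      have h1 := hpos s ω h0
      have h2 := hpos r ω h0
      have h3 := Real.log_le_sub_one_of_pos (show 0 < cls p s ω / cls p r ω / N by positivity)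
      rw [Real.log_div (by positivity) hN0.ne'] at h3
      linarith
  calc ∑ ω, p ω * Real.log (cls p s ω / cls p r ω)
      ≤ ∑ ω, p ω * (cls p s ω / cls p r ω / N - 1 + Real.log N) := Finset.sum_le_sum (fun ω _ => e2 ω)
    _ = (∑ ω, p ω * (cls p s ω / cls p r ω)) / N + (Real.log N - 1) * ∑ ω, p ω := by
        rw [Finset.sum_div, Finset.mul_sum, ← Finset.sum_add_distrib]
        refine Finset.sum_congr rfl (fun ω _ => ?_)
        ring
    _ ≤ N / N + (Real.log N - 1) * 1 := by
        rw [hp.2]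
        gcongr
    _ = Real.log N := by
        rw [div_self hN0.ne']
        ring

open scoped Classical in
lemma sum_ratio_le {Ω A B : Type} [Fintype Ω] {p : Ω → ℝ} (hp : IsProb p) (T : Ω → A) (Z : Ω → B)
    (R : Finset A) (hT : ∀ ω, T ω ∈ R) (E : A → Finset B) (hE : ∀ ω, Z ω ∈ E (T ω)) (τ : ℝ)
    (hτ : ∀ a ∈ R, (∑ ω, if T ω = a then p ω else 0) ≤ τ) :
    ∑ ω, p ω * (cls p (Setoid.ker T) ω / cls p (Setoid.ker T ⊓ Setoid.ker Z) ω) ≤
      τ * ∑ a ∈ R, ((E a).card : ℝ) := by
  set f : Ω → ℝ := fun ω => p ω * (cls p (Setoid.ker T) ω / cls p (Setoid.ker T ⊓ Setoid.ker Z) ω) with hf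
  have h1 : ∀ ω, f ω = ∑ a ∈ R, ∑ b ∈ E a, if T ω = a ∧ Z ω = b then f ω else 0 := by
    intro ω
    rw [Finset.sum_eq_single (T ω)]
    · rw [Finset.sum_eq_single (Z ω)]
      · simp
      · intro b _ hb
        rw [if_neg]
        rintro ⟨_, h⟩
        exact hb h.symm
      · intro h
        exact absurd (hE ω) h
    · intro a _ ha
      refine Finset.sum_eq_zero (fun b _ => ?_)
      rw [if_neg]
      rintro ⟨h, _⟩
      exact ha h.symm
    · intro h
      exact absurd (hT ω) h
  have h2 : ∑ ω, f ω = ∑ a ∈ R, ∑ b ∈ E a, ∑ ω, if T ω = a ∧ Z ω = b then f ω else 0 := by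
    rw [Finset.sum_congr rfl (fun ω _ => h1 ω), Finset.sum_comm]
    refine Finset.sum_congr rfl (fun a _ => ?_)
    rw [Finset.sum_comm]
  rw [h2, Finset.mul_sum]
  refine Finset.sum_le_sum (fun a ha => ?_)
  have h3 : ∀ b ∈ E a, (∑ ω, if T ω = a ∧ Z ω = b then f ω else 0) ≤ τ := by
    intro b _
    set ρ : ℝ := ∑ ω, if T ω = a ∧ Z ω = b then p ω else 0 with hρ
    set τ' : ℝ := ∑ ω, if T ω = a then p ω else 0 with hτ'
    have hτ'0 : 0 ≤ τ' := Finset.sum_nonneg (fun ω _ => by split_ifs; exacts [hp.1 ω, le_rfl])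
    have h4 : ∀ ω, (if T ω = a ∧ Z ω = b then f ω else 0) =
        (if T ω = a ∧ Z ω = b then p ω else 0) * (τ' / ρ) := by
      intro ω
      split_ifs with h
      · simp only [hf]
        have e1 : cls p (Setoid.ker T) ω = τ' := by
          unfold cls
          rw [hτ']
          refine Finset.sum_congr rfl (fun ω' _ => ?_)
          have : (Setoid.ker T) ω ω' ↔ T ω' = a := by
            rw [Setoid.ker_def, h.1]
            exact eq_comm
          by_cases h5 : T ω' = a
          · rw [if_pos h5, if_pos (this.2 h5)]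
          · rw [if_neg h5, if_neg (fun h6 => h5 (this.1 h6))]
        have e2 : cls p (Setoid.ker T ⊓ Setoid.ker Z) ω = ρ := by
          unfold cls
          rw [hρ]
          refine Finset.sum_congr rfl (fun ω' _ => ?_)
          have : (Setoid.ker T ⊓ Setoid.ker Z) ω ω' ↔ (T ω' = a ∧ Z ω' = b) := by
            rw [Setoid.inf_iff_and, Setoid.ker_def, Setoid.ker_def, h.1, h.2]
            exact and_congr eq_comm eq_comm
          by_cases h5 : T ω' = a ∧ Z ω' = b
          · rw [if_pos h5, if_pos (this.2 h5)]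
          · rw [if_neg h5, if_neg (fun h6 => h5 (this.1 h6))]
        rw [e1, e2]
      · simp
    rw [Finset.sum_congr rfl (fun ω _ => h4 ω), ← Finset.sum_mul, ← hρ]
    by_cases h0 : ρ = 0
    · rw [h0]
      simp only [zero_mul]
      exact hτ'0.trans (hτ a ha)
    · rw [mul_div_cancel₀ _ h0]
      exact hτ a ha
  calc ∑ b ∈ E a, ∑ ω, (if T ω = a ∧ Z ω = b then f ω else 0) ≤ ∑ b ∈ E a, τ := Finset.sum_le_sum h3
    _ = τ * (E a).card := by rw [Finset.sum_const, nsmul_eq_mul, mul_comm]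

end Pool.Agent.Helper39
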