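import Pool.Agent.Helper39.DiscE

open MeasureTheory Set Filter Topology
open scoped ENNReal NNReal

namespace Pool.Agent.Helper39

open Pool.Agent.Helper8.Kak

lemma floor_scale {s a : ℝ} (hs : 0 < s) : ⌊a / s / (1 / s)⌋ = ⌊a⌋ := by
  congr 1
  field_simp

open scoped Classical in
/-- the discrete inequality for one configuration -/
lemma disc_of_SD {m : ℕ} {α C : ℝ} (hα : 0 < α) (hC : 0 ≤ C)
    (hSD : ∀ (δ : ℝ) (M : ℕ), 0 < δ → δ ≤ 1 → 1 ≤ δ * M →
      ∀ (L : Type) (x v : L → Fin m → ℝ), (∀ l i, |x l i| ≤ 1) → (∀ l i, |v l i| ≤ 1) →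
        Function.Injective (fun l => cell δ (v l)) →
      ∀ (Ω : Type) [Fintype Ω] (p : Ω → ℝ), IsProb p →
      ∀ (K : Setoid Ω) (l : Ω → L) (T : Ω → Fin M),
        Ent p (K ⊓ Setoid.ker l) - Ent p K ≤
          α * (Ent p (K ⊓ Setoid.ker T ⊓ Setoid.ker (fun ω => cell δ (pnt x v (l ω) (T ω))))
                - Ent p (K ⊓ Setoid.ker T))
          + C * (Real.log M - (Ent p (K ⊓ Setoid.ker l ⊓ Setoid.ker T) - Ent p (K ⊓ Setoid.ker l))
                + 1))
    (Q b : ℕ) (hQ : 1 ≤ Q) (hb : 1 ≤ b)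
    (L : Finset ((Fin m → ℝ) × (Fin m → ℝ))) (T : (Fin m → ℝ) × (Fin m → ℝ) → Finset ℕ)
    (hL1 : ∀ l ∈ L, ‖l.2‖ ≤ Q) (hL2 : ∀ l ∈ L, ‖l.1‖ ≤ b * Q)
    (hinj : Set.InjOn (fun l : (Fin m → ℝ) × (Fin m → ℝ) => fun k => ⌊l.2 k⌋) ↑L)
    (hT : ∀ l ∈ L, T l ⊆ Finset.range Q) (hne : L.Nonempty) {σ : ℝ} (hσ : 0 < σ)
    (hTσ : ∀ l ∈ L, σ ≤ (T l).card)
    {N : ℝ} (hN : ∑ i ∈ Finset.range Q, (((L.filter (fun l => i ∈ T l)).image
          (fun l => fun k => ⌊l.1 k + (i:ℝ)/Q * l.2 k⌋)).card : ℝ) ≤ N) (hN0 : 0 < N) :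
    Real.log L.card ≤ α * Real.log (1/σ * N) + C * (Real.log b + (Real.log Q - Real.log σ) + 1) := by
  set M : ℕ := b * Q with hM
  have hMpos : 0 < M := by positivity
  have hMr : (0:ℝ) < M := by exact_mod_cast hMpos
  have hM1 : (1:ℝ) ≤ M := by exact_mod_cast hMpos
  have hQr : (0:ℝ) < Q := by exact_mod_cast hQ
  have hbr : (0:ℝ) < b := by exact_mod_cast hb
  set δ : ℝ := 1 / M with hδ
  set Ω := (Σ l : {l // l ∈ L}, {i // i ∈ T l.1}) with hΩ
  set p : Ω → ℝ := fun ω => 1 / ((L.card : ℝ) * (T ω.1.1).card) with hp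
  have hLc : (0:ℝ) < L.card := by exact_mod_cast hne.card_pos
  have hTc : ∀ l : {l // l ∈ L}, (0:ℝ) < (T l.1).card := fun l => lt_of_lt_of_le hσ (hTσ l.1 l.2)
  have hsumT : ∀ l : {l // l ∈ L}, ∑ _i : {i // i ∈ T l.1}, 1 / ((L.card : ℝ) * (T l.1).card) = 1 / L.card := by
    intro l
    have := hTc l
    rw [Finset.sum_const, Finset.card_univ, Fintype.card_coe, nsmul_eq_mul]
    field_simp
  have hprob : IsProb p := by
    refine ⟨fun ω => by simp only [hp]; positivity, ?_⟩
    rw [Fintype.sum_sigma]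
    rw [Finset.sum_congr rfl (fun l _ => hsumT l), Finset.sum_const, Finset.card_univ, Fintype.card_coe,
      nsmul_eq_mul]
    field_simp
  let x' : {l // l ∈ L} → Fin m → ℝ := fun l k => l.1.1 k / M
  let v' : {l // l ∈ L} → Fin m → ℝ := fun l k => l.1.2 k / M
  have hx' : ∀ l i, |x' l i| ≤ 1 := by
    intro l i
    simp only [x']
    rw [abs_div, abs_of_pos hMr, div_le_one hMr]
    have := (norm_le_pi_norm l.1.1 i).trans (hL2 l.1 l.2)
    rw [Real.norm_eq_abs] at this
    rw [hM]
    push_cast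
    exact this
  have hv' : ∀ l i, |v' l i| ≤ 1 := by
    intro l i
    simp only [v']
    rw [abs_div, abs_of_pos hMr, div_le_one hMr]
    have h1 := (norm_le_pi_norm l.1.2 i).trans (hL1 l.1 l.2)
    rw [Real.norm_eq_abs] at h1
    have h2 : (Q:ℝ) ≤ M := by
      rw [hM]
      push_cast
      have : (1:ℝ) ≤ b := by exact_mod_cast hb
      nlinarith
    exact h1.trans h2
  have hinj' : Function.Injective (fun l => cell δ (v' l)) := by
    intro l l' h
    have h1 : (fun k => ⌊l.1.2 k⌋) = (fun k => ⌊l'.1.2 k⌋) := by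
      funext k
      have := congrFun h k
      simp only [cell, v', hδ] at this
      rwa [floor_scale hMr, floor_scale hMr] at this
    exact Subtype.ext (hinj l.2 l'.2 h1)
  have hTb : ∀ ω : Ω, b * ω.2.1 < M := by
    intro ω
    have := Finset.mem_range.1 (hT ω.1.1 ω.1.2 ω.2.2)
    rw [hM]
    exact Nat.mul_lt_mul_of_pos_left this hb
  let l' : Ω → {l // l ∈ L} := fun ω => ω.1
  let T' : Ω → Fin M := fun ω => ⟨b * ω.2.1, hTb ω⟩
  have hmain := hSD δ M (by positivity) (by rw [hδ, div_le_one hMr]; exact hM1)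
    (by rw [hδ]; field_simp; exact le_refl _) _ x' v' hx' hv' hinj' Ω p hprob ⊤ l' T'
  simp only [top_inf_eq] at hmain
  -- the trivial partition
  have hEtop : Ent p ⊤ = 0 := by
    unfold Ent
    have : ∀ ω, cls p ⊤ ω = 1 := by
      intro ω
      unfold cls
      rw [← hprob.2]
      refine Finset.sum_congr rfl (fun ω' _ => ?_)
      rw [if_pos (by trivial)]
    simp [this]
  -- entropy of the line
  have hEl : Ent p (Setoid.ker l') = Real.log L.card := by
    unfold Ent
    have : ∀ ω, cls p (Setoid.ker l') ω = 1 / L.card := by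
      intro ω
      unfold cls
      rw [Fintype.sum_sigma, Finset.sum_eq_single ω.1]
      · rw [← hsumT ω.1]
        refine Finset.sum_congr rfl (fun i _ => ?_)
        rw [if_pos]
        rfl
      · intro l _ hl
        refine Finset.sum_eq_zero (fun i _ => ?_)
        rw [if_neg]
        intro h
        have h' : ω.1 = l := h
        exact hl h'.symm
      · intro h
        exact absurd (Finset.mem_univ _) h
    simp only [this]
    rw [← Finset.sum_mul, hprob.2, one_mul, one_div, Real.log_inv, neg_neg]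
  have hElT : Real.log L.card + Real.log σ ≤ Ent p (Setoid.ker l' ⊓ Setoid.ker T') := by
    unfold Ent
    have : ∀ ω, cls p (Setoid.ker l' ⊓ Setoid.ker T') ω = p ω := by
      intro ω
      unfold cls
      rw [Finset.sum_eq_single ω]
      · rw [if_pos]
        exact Setoid.refl' _ _
      · intro ω' _ hω'
        rw [if_neg]
        intro h
        rw [Setoid.inf_iff_and, Setoid.ker_def, Setoid.ker_def] at h
        apply hω'
        obtain ⟨h1, h2⟩ := h
        have h1' : ω.1 = ω'.1 := h1
        have h3 : b * ω.2.1 = b * ω'.2.1 := congrArg Fin.val h2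
        have h4 : ω.2.1 = ω'.2.1 := Nat.eq_of_mul_eq_mul_left hb h3
        obtain ⟨l1, i1⟩ := ω
        obtain ⟨l2, i2⟩ := ω'
        simp only at h1' h4
        subst h1'
        rw [Subtype.ext h4]
      · intro h
        exact absurd (Finset.mem_univ _) h
    simp only [this]
    rw [← Finset.sum_neg_distrib]
    have h5 : ∀ ω, p ω * (Real.log L.card + Real.log σ) ≤ -(p ω * Real.log (p ω)) := by
      intro ω
      rw [← mul_neg]
      refine mul_le_mul_of_nonneg_left ?_ (hprob.1 ω)
      simp only [hp]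
      rw [one_div, Real.log_inv, neg_neg, Real.log_mul hLc.ne' (hTc ω.1).ne']
      have := Real.log_le_log hσ (hTσ ω.1.1 ω.1.2)
      linarith
    calc Real.log L.card + Real.log σ = ∑ ω, p ω * (Real.log L.card + Real.log σ) := by
          rw [← Finset.sum_mul, hprob.2, one_mul]
      _ ≤ _ := Finset.sum_le_sum (fun ω _ => h5 ω)
  -- entropy of the point given the height
  have hEP : Ent p (Setoid.ker T' ⊓ Setoid.ker (fun ω => cell δ (pnt x' v' (l' ω) (T' ω)))) -
      Ent p (Setoid.ker T') ≤ Real.log (1/σ * N) := by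
    let T2 : Ω → ℕ := fun ω => ω.2.1
    let Z : Ω → Fin m → ℤ := fun ω => cell δ (pnt x' v' (l' ω) (T' ω))
    have hker : Setoid.ker T' = Setoid.ker T2 := by
      ext ω ω'
      rw [Setoid.ker_def, Setoid.ker_def]
      constructor
      · intro h
        exact Nat.eq_of_mul_eq_mul_left hb (congrArg Fin.val h)
      · intro h
        apply Fin.ext
        simp only [T']
        have h' : ω.2.1 = ω'.2.1 := h
        rw [h']
    rw [hker]
    refine ent_sub_le_log hprob _ _ ?_ (by positivity)
    refine (sum_ratio_le hprob T2 Z (Finset.range Q) (fun ω => hT ω.1.1 ω.1.2 ω.2.2)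
      (fun i => ((L.filter (fun l => i ∈ T l)).image (fun l => fun k => ⌊l.1 k + (i:ℝ)/Q * l.2 k⌋)))
      ?_ (1/σ) ?_).trans ?_
    · intro ω
      refine Finset.mem_image.2 ⟨ω.1.1, Finset.mem_filter.2 ⟨ω.1.2, ω.2.2⟩, ?_⟩
      funext k
      simp only [Z, cell, pnt, ht, x', v', l', T', T2, hδ]
      rw [hM]
      push_cast
      congr 1
      field_simp
    · intro i _
      rw [Fintype.sum_sigma]
      have h6 : ∀ l : {l // l ∈ L}, (∑ j : {i // i ∈ T l.1}, @ite ℝ (T2 ⟨l, j⟩ = i) (Classical.propDecidable _) (p ⟨l, j⟩) 0) ≤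
          1 / ((L.card : ℝ) * σ) := by
        intro l
        have h7 : (∑ j : {i // i ∈ T l.1}, @ite ℝ (T2 ⟨l, j⟩ = i) (Classical.propDecidable _) (p ⟨l, j⟩) 0) ≤
            1 / ((L.card : ℝ) * (T l.1).card) := by
          by_cases hi : i ∈ T l.1
          · rw [Finset.sum_eq_single (⟨i, hi⟩ : {i // i ∈ T l.1})]
            · rw [if_pos rfl]
            · intro j _ hj
              rw [if_neg]
              intro h
              exact hj (Subtype.ext h)
            · intro h
              exact absurd (Finset.mem_univ _) h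
          · rw [Finset.sum_eq_zero]
            · positivity
            · intro j _
              rw [if_neg]
              intro h
              have h' : j.1 = i := h
              exact hi (h' ▸ j.2)
        refine h7.trans ?_
        have := hTσ l.1 l.2
        exact one_div_le_one_div_of_le (by positivity) (by gcongr)
      calc _ ≤ ∑ l : {l // l ∈ L}, 1 / ((L.card : ℝ) * σ) := Finset.sum_le_sum (fun l _ => h6 l)
        _ = 1 / σ := by
          rw [Finset.sum_const, Finset.card_univ, Fintype.card_coe, nsmul_eq_mul]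
          field_simp
    · have : (0:ℝ) ≤ 1/σ := by positivity
      exact mul_le_mul_of_nonneg_left hN this
  rw [hEtop, sub_zero, hEl] at hmain
  have hlogM : Real.log (M:ℝ) = Real.log b + Real.log Q := by
    rw [hM]
    push_cast
    rw [Real.log_mul hbr.ne' hQr.ne']
  calc Real.log L.card ≤ _ := hmain
    _ ≤ α * Real.log (1/σ * N) + C * (Real.log b + (Real.log Q - Real.log σ) + 1) := by
      have h8 := mul_le_mul_of_nonneg_left hEP hα.le
      have h9 : C * (Real.log M - (Ent p (Setoid.ker l' ⊓ Setoid.ker T') - Real.log L.card) + 1) ≤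
          C * (Real.log b + (Real.log Q - Real.log σ) + 1) := by
        apply mul_le_mul_of_nonneg_left _ hC
        rw [hlogM]
        linarith
      linarith

end Pool.Agent.Helper39
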