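import Pool.Agent.Helper39.DiscD
import Pool.Agent.Helper39.DiscH

/-!
# Hausdorff dimension of arbitrary Kakeya sets from the entropic sums-differences inequality
-/

open MeasureTheory Set Filter Topology
open scoped ENNReal NNReal

namespace Pool.Agent.Helper39

open Pool.Agent.Helper8.Kak

lemma discreteIH_of_SDU {m : ℕ} {α : ℝ} (hα : 0 < α) (h : SDU m α) : DiscreteIH m α := by
  have hb : 1 ≤ 1 := le_refl 1
  obtain ⟨C, hC, hSD⟩ := h
  intro ε hε
  have hαC : 0 < α + C := by linarith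
  have hηpos : 0 < ε / (2 * (α + C)) := by positivity
  refine ⟨ε / (2 * (α + C)), hηpos, ?_⟩
  set η : ℝ := ε / (2 * (α + C)) with hη
  have hev : ∀ᶠ Q : ℕ in atTop, Real.exp (C * (Real.log ((1:ℕ):ℝ) + 1)) ≤ (Q:ℝ)^(ε/2) := by
    have : Tendsto (fun Q : ℕ => (Q:ℝ)^(ε/2)) atTop atTop :=
      (tendsto_rpow_atTop (by positivity)).comp tendsto_natCast_atTop_atTop
    exact this.eventually_ge_atTop _
  obtain ⟨Q1, hQ1⟩ := eventually_atTop.1 hev
  refine ⟨max Q1 1, ?_⟩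
  intro Q hQ L T hL1 hinj hT hTc
  have hQ1' : 1 ≤ Q := (le_max_right _ _).trans hQ
  have hQe := hQ1 Q ((le_max_left _ _).trans hQ)
  have hQr : (0:ℝ) < Q := by exact_mod_cast hQ1'
  set S : ℝ := ∑ i ∈ Finset.range Q, (((L.filter (fun l => i ∈ T l)).image
          (fun l => fun k => ⌊l.1 k + (i:ℝ)/Q * l.2 k⌋)).card : ℝ) with hS
  have hS0 : 0 ≤ S := Finset.sum_nonneg (fun _ _ => Nat.cast_nonneg _)
  rcases L.eq_empty_or_nonempty with hne | hne
  · have hc : (L.card : ℝ) = 0 := by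
      rw [hne, Finset.card_empty, Nat.cast_zero]
    rw [hc]
    exact mul_nonneg (Real.rpow_nonneg hQr.le _)
      (Real.rpow_nonneg (mul_nonneg (one_div_nonneg.2 hQr.le) hS0) _)
  · have hσ : (0:ℝ) < (Q:ℝ)^(1-η) := by positivity
    have hSpos : 0 < S := by
      obtain ⟨l, hl⟩ := hne
      have h1 : (0:ℝ) < (T l).card := lt_of_lt_of_le hσ (hTc l hl)
      have h2 : 0 < (T l).card := by exact_mod_cast h1
      obtain ⟨i, hi⟩ := Finset.card_pos.1 h2
      have h5 : (0:ℝ) < (((L.filter (fun l => i ∈ T l)).image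
          (fun l => fun k => ⌊l.1 k + (i:ℝ)/Q * l.2 k⌋)).card : ℝ) := by
        rw [Nat.cast_pos, Finset.card_pos]
        exact ⟨_, Finset.mem_image_of_mem _ (Finset.mem_filter.2 ⟨hl, hi⟩)⟩
      rw [hS]
      exact Finset.sum_pos' (fun _ _ => Nat.cast_nonneg _) ⟨i, hT l hl hi, h5⟩
    have hSle : S ≤ S := le_refl S
    have hmain := disc_of_SDU hα hC hSD Q 1 hQ1' hb L T hL1 hinj hT hne hσ hTc (N := S) hSle hSpos
    clear_value S
    have hlogσ : Real.log ((Q:ℝ)^(1-η)) = (1-η) * Real.log Q := Real.log_rpow hQr _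
    have e1 : Real.log (1 / (Q:ℝ)^(1-η) * S) = η * Real.log Q + Real.log (1/Q * S) := by
      rw [Real.log_mul (by positivity) hSpos.ne', Real.log_mul (by positivity) hSpos.ne', one_div, one_div,
        Real.log_inv, Real.log_inv, hlogσ]
      ring
    rw [e1, hlogσ] at hmain
    have hLc : (0:ℝ) < L.card := by exact_mod_cast hne.card_pos
    have hN : 0 < 1/(Q:ℝ) * S := by positivity
    have e2 : Real.log L.card ≤ Real.log ((Q:ℝ)^ε * (1/(Q:ℝ) * S)^α) := by
      rw [Real.log_mul (by positivity) (by positivity), Real.log_rpow hQr, Real.log_rpow hN]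
      have e3 : C * (Real.log ((1:ℕ):ℝ) + 1) ≤ ε/2 * Real.log Q := by
        have := Real.log_le_log (Real.exp_pos _) hQe
        rwa [Real.log_exp, Real.log_rpow hQr] at this
      have e4 : (α + C) * η = ε/2 := by
        rw [hη]
        field_simp
      have e5 : α * (η * Real.log Q) + C * (η * Real.log Q) = ε/2 * Real.log Q := by
        rw [← e4]
        ring
      nlinarith
    exact (Real.log_le_log_iff hLc (by positivity)).1 e2

/-- **Hausdorff dimension of Kakeya sets from the entropic sums-differences inequality.** -/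
theorem dimH_ge_of_SDU {m : ℕ} {α : ℝ} (hα : 0 < α) (h : SDU m α)
    (K : Set (EuclideanSpace ℝ (Fin (m+1))))
    (hK : ∀ e : EuclideanSpace ℝ (Fin (m+1)), ‖e‖ = 1 → ∃ x, ∀ t : ℝ, 0 ≤ t → t ≤ 1 → x + t • e ∈ K) :
    ENNReal.ofReal ((m:ℝ)/α + 1) ≤ dimH K :=
  dimH_of_discrete_auxP hα (fun _ _ => True) ((discreteIH_of_SDU hα h).toP _) K hK
    (fun _ _ _ _ _ _ => trivial)

/-- The version with all exponents above `a0`. -/
theorem dimH_ge_of_SDU_limit {m : ℕ} {a0 : ℝ} (ha0 : 0 < a0) (h : ∀ α, a0 < α → SDU m α)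
    (K : Set (EuclideanSpace ℝ (Fin (m+1))))
    (hK : ∀ e : EuclideanSpace ℝ (Fin (m+1)), ‖e‖ = 1 → ∃ x, ∀ t : ℝ, 0 ≤ t → t ≤ 1 → x + t • e ∈ K) :
    ENNReal.ofReal ((m:ℝ)/a0 + 1) ≤ dimH K := by
  have h1 : Tendsto (fun al : ℝ => ENNReal.ofReal ((m:ℝ)/al + 1)) (𝓝[>] a0)
      (𝓝 (ENNReal.ofReal ((m:ℝ)/a0 + 1))) := by
    refine (ENNReal.continuous_ofReal.tendsto _).comp ?_
    refine Tendsto.mono_left ?_ nhdsWithin_le_nhds
    refine ContinuousAt.tendsto ?_
    have : a0 ≠ 0 := by linarith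
    fun_prop (disch := assumption)
  refine le_of_tendsto h1 ?_
  filter_upwards [self_mem_nhdsWithin] with al hal
  exact dimH_ge_of_SDU (by have : a0 < al := hal; linarith) (h al hal) K hK

/-- in `R^n`, `n ≥ 1`, with the exponent written as in the literature -/
theorem dimH_ge_of_SDU_n {n : ℕ} (hn : 1 ≤ n) {α : ℝ} (hα : 0 < α) (h : SDU (n - 1) α)
    (K : Set (EuclideanSpace ℝ (Fin n)))
    (hK : ∀ e : EuclideanSpace ℝ (Fin n), ‖e‖ = 1 → ∃ x, ∀ t : ℝ, 0 ≤ t → t ≤ 1 → x + t • e ∈ K) :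
    ENNReal.ofReal (((n:ℝ)-1)/α + 1) ≤ dimH K := by
  obtain ⟨m, rfl⟩ : ∃ m, n = m + 1 := ⟨n - 1, by omega⟩
  have h1 := dimH_ge_of_SDU (m := m) hα (by simpa using h) K hK
  have h2 : (((m+1 : ℕ):ℝ) - 1) = m := by push_cast; ring
  rw [h2]
  exact h1

end Pool.Agent.Helper39
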