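import Pool.Agent.Helper39.DiscI
import Pool.Agent.Helper39.DiscK

/-!
# Hausdorff dimension of unions of lines with directions in an arbitrary set
-/

open MeasureTheory Set Filter Topology
open scoped ENNReal NNReal

namespace Pool.Agent.Helper39

open Pool.Agent.Helper8.Kak

lemma core_dirs_bdd {m : ℕ} {al : ℝ} (hal : 0 < al) (h : DiscreteIH m al)
    (K : Set ((Fin m → ℝ) × ℝ)) (V : Set (Fin m → ℝ))
    (hK : ∀ v ∈ V, ∃ x : Fin m → ℝ, 1 ≤ dimH {θ : ℝ | (x + θ • v, θ) ∈ K})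
    {s : ℝ} (hs : 0 < s) (hsV : ENNReal.ofReal s < dimH V) :
    ENNReal.ofReal (s/al + 1) ≤ dimH K := by
  -- a cube
  set W : (Fin m → ℤ) → Set (Fin m → ℝ) := fun c => {v | v ∈ V ∧ ∀ k, (c k : ℝ) ≤ v k ∧ v k ≤ c k + 1} with hW
  have hcover : V ⊆ ⋃ c, W c := by
    intro v hv
    exact mem_iUnion.2 ⟨fun k => ⌊v k⌋, hv, fun k => ⟨Int.floor_le _, (Int.lt_floor_add_one _).le⟩⟩
  obtain ⟨c, hc⟩ : ∃ c, ENNReal.ofReal s < dimH (W c) := by
    have h1 : ENNReal.ofReal s < ⨆ c, dimH (W c) := by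
      rw [← dimH_iUnion]
      exact hsV.trans_le (dimH_mono hcover)
    exact lt_iSup_iff.1 h1
  set cc : Fin m → ℝ := fun k => (c k : ℝ) with hcc
  let ψ : ((Fin m → ℝ) × ℝ) →L[ℝ] ((Fin m → ℝ) × ℝ) :=
    (ContinuousLinearMap.fst ℝ (Fin m → ℝ) ℝ - (ContinuousLinearMap.snd ℝ (Fin m → ℝ) ℝ).smulRight cc).prod
      (ContinuousLinearMap.snd ℝ (Fin m → ℝ) ℝ)
  have hψ : ∀ p, ψ p = (p.1 - p.2 • cc, p.2) := fun p => rfl
  have h1 : dimH (ψ '' K) ≤ dimH K := ψ.lipschitz.dimH_image_le K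
  refine le_trans ?_ h1
  refine core_dirs hal h (ψ '' K) ((fun v => v - cc) '' W c) ?_ ?_ hs ?_
  · rintro _ ⟨v, hv, rfl⟩
    refine ⟨fun k => ?_, fun k => ?_⟩
    · simp only [Pi.zero_apply, Pi.sub_apply, sub_nonneg]
      exact (hv.2 k).1
    · simp only [Pi.one_apply, Pi.sub_apply]
      have := (hv.2 k).2
      simp only [hcc]
      linarith
  · rintro _ ⟨v, hv, rfl⟩
    obtain ⟨x, hx⟩ := hK v hv.1
    refine ⟨x, hx.trans (dimH_mono (fun θ hθ => ?_))⟩
    refine ⟨(x + θ • v, θ), hθ, ?_⟩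
    rw [hψ]
    simp only [Prod.mk.injEq, and_true]
    rw [smul_sub, add_sub_assoc]
  · have h2 : dimH ((fun v => v - cc) '' W c) = dimH (W c) :=
      (IsometryEquiv.subRight cc).dimH_image (W c)
    rw [h2]
    exact hc

/-- the unit vector in the direction `(v, 1)` -/
noncomputable def dirf {m : ℕ} (v : Fin m → ℝ) : EuclideanSpace ℝ (Fin (m+1)) := ‖ptf (v, (1:ℝ))‖⁻¹ • ptf (v, 1)

lemma ptf_ne_zero {m : ℕ} (v : Fin m → ℝ) : ptf (v, (1:ℝ)) ≠ 0 := by
  intro h
  have h1 := ptf_last (v, (1:ℝ))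
  rw [h] at h1
  simp at h1

lemma contDiff_dirf (m : ℕ) : ContDiff ℝ 1 (dirf (m := m)) := by
  have h1 : ContDiff ℝ 1 (fun v : Fin m → ℝ => ptf (v, (1:ℝ))) := by
    rw [contDiff_euclidean]
    intro i
    refine Fin.lastCases ?_ (fun k => ?_) i
    · simp only [ptf_last]
      exact contDiff_const
    · simp only [ptf_castSucc]
      exact contDiff_apply ℝ ℝ k
  exact ((h1.norm ℝ (fun v => ptf_ne_zero v)).inv (fun v => norm_ne_zero_iff.2 (ptf_ne_zero v))).smul h1

lemma core_dirs_last {m : ℕ} {al : ℝ} (hal : 0 < al) (h : DiscreteIH m al)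
    (Om K : Set (EuclideanSpace ℝ (Fin (m+1)))) (hOm : ∀ ω ∈ Om, ‖ω‖ = 1 ∧ ω (Fin.last m) ≠ 0)
    (hK : ∀ ω ∈ Om, ∃ x : EuclideanSpace ℝ (Fin (m+1)), 1 ≤ dimH {t : ℝ | x + t • ω ∈ K})
    {s : ℝ} (hs : 0 < s) (hsV : ENNReal.ofReal s < dimH Om) :
    ENNReal.ofReal (s/al + 1) ≤ dimH K := by
  set V : Set (Fin m → ℝ) := {v | dirf v ∈ Om ∨ -dirf v ∈ Om} with hV
  have hsub : Om ⊆ dirf '' V ∪ (fun v => -dirf v) '' V := by
    intro ω hω
    obtain ⟨h1, h2⟩ := hOm ω hω
    set a := ω (Fin.last m) with ha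
    set v : Fin m → ℝ := fun k => ω k.castSucc / a with hv
    have h3 : ptf (v, (1:ℝ)) = a⁻¹ • ω := by
      ext i
      refine Fin.lastCases ?_ (fun k => ?_) i
      · rw [ptf_last]
        simp only [PiLp.smul_apply, smul_eq_mul]
        rw [← ha, inv_mul_cancel₀ h2]
      · rw [ptf_castSucc]
        simp only [PiLp.smul_apply, smul_eq_mul, hv]
        rw [div_eq_inv_mul]
    have h4 : ‖ptf (v, (1:ℝ))‖⁻¹ = |a| := by
      rw [h3, norm_smul, h1, mul_one, norm_inv, inv_inv, Real.norm_eq_abs]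
    have h5 : dirf v = (|a| * a⁻¹) • ω := by
      unfold dirf
      rw [h4, h3, smul_smul]
    rcases lt_or_gt_of_ne h2 with h6 | h6
    · rw [abs_of_neg h6, neg_mul, mul_inv_cancel₀ h2, neg_one_smul] at h5
      right
      refine ⟨v, Or.inr ?_, ?_⟩
      · rw [h5, neg_neg]; exact hω
      · simp only [h5, neg_neg]
    · rw [abs_of_pos h6, mul_inv_cancel₀ h2, one_smul] at h5
      left
      refine ⟨v, Or.inl ?_, ?_⟩
      · rw [h5]; exact hω
      · exact h5
  have hdimV : dimH Om ≤ dimH V := by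
    refine (dimH_mono hsub).trans ?_
    rw [dimH_union, max_le_iff]
    exact ⟨(contDiff_dirf m).contDiffOn.dimH_image_le convex_univ (subset_univ V),
      (contDiff_dirf m).neg.contDiffOn.dimH_image_le convex_univ (subset_univ V)⟩
  have hanti : AntilipschitzWith 1 (ptf (m := m)) := by
    refine AntilipschitzWith.of_le_mul_dist (fun p q => ?_)
    rw [NNReal.coe_one, one_mul]
    exact dist_le_ptf p q
  refine le_trans ?_ (hanti.dimH_preimage_le K)
  refine core_dirs_bdd hal h (ptf ⁻¹' K) V ?_ hs (hsV.trans_le hdimV)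
  intro v hv
  have hnpos : 0 < ‖ptf (v, (1:ℝ))‖ := norm_pos_iff.2 (ptf_ne_zero v)
  -- a line in the direction `dirf v` up to sign
  obtain ⟨x, σ, hσ, hx⟩ : ∃ (x : EuclideanSpace ℝ (Fin (m+1))) (σ : ℝ), σ * σ = 1 ∧
      1 ≤ dimH {t : ℝ | x + t • (σ • dirf v) ∈ K} := by
    rcases hv with hv | hv
    · obtain ⟨x, hx⟩ := hK _ hv
      exact ⟨x, 1, by norm_num, by simpa using hx⟩
    · obtain ⟨x, hx⟩ := hK _ hv
      exact ⟨x, -1, by norm_num, by simpa using hx⟩
  set a := x (Fin.last m) with ha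
  set N := ‖ptf (v, (1:ℝ))‖ with hN
  refine ⟨fun k => x k.castSucc - a * v k, hx.trans ?_⟩
  have hσ0 : σ ≠ 0 := by
    rintro rfl
    norm_num at hσ
  let φ : ℝ → ℝ := fun θ => (θ - a) * (N * σ)
  have hφ : LipschitzWith (Real.toNNReal (|N * σ|)) φ := by
    refine LipschitzWith.of_dist_le_mul (fun p q => ?_)
    rw [Real.dist_eq, Real.dist_eq, Real.coe_toNNReal _ (abs_nonneg _), ← abs_mul]
    apply le_of_eq
    simp only [φ]
    congr 1
    ring
  have hsurj : {t : ℝ | x + t • (σ • dirf v) ∈ K} ⊆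
      φ '' {θ : ℝ | ((fun k => x k.castSucc - a * v k) + θ • v, θ) ∈ ptf ⁻¹' K} := by
    intro t ht
    refine ⟨t * (N * σ)⁻¹ + a, ?_, ?_⟩
    · simp only [mem_ofPred_eq, mem_preimage] at ht ⊢
      convert ht using 1
      unfold dirf
      rw [← hN]
      have hz : t * (N * σ)⁻¹ = t * (σ * N⁻¹) := by
        rw [mul_inv]
        have : σ⁻¹ = σ := by field_simp; linarith [hσ, sq σ]
        rw [this]
        ring
      ext i
      refine Fin.lastCases ?_ (fun k => ?_) i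
      · rw [ptf_last]
        simp only [PiLp.add_apply, PiLp.smul_apply, smul_eq_mul]
        rw [ptf_last, ← ha, hz]
        simp only
        ring
      · rw [ptf_castSucc]
        simp only [PiLp.add_apply, PiLp.smul_apply, smul_eq_mul, Pi.add_apply, Pi.smul_apply]
        rw [ptf_castSucc, hz]
        simp only
        ring
    · simp only [φ]
      have : N * σ ≠ 0 := mul_ne_zero hnpos.ne' hσ0
      field_simp
      ring
  exact (dimH_mono hsurj).trans (hφ.dimH_image_le _)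

/-- the unit sphere of `R^(m+1)` has dimension at least `m` -/
lemma le_dimH_unit_sphere (m : ℕ) : (m : ℝ≥0∞) ≤ dimH {ω : EuclideanSpace ℝ (Fin (m+1)) | ‖ω‖ = 1} := by
  set P : Set (EuclideanSpace ℝ (Fin (m+1))) := {ω | 0 < ω (Fin.last m)} with hP
  have hconv : Convex ℝ P := by
    intro a ha b hb s t hs ht hst
    simp only [hP, mem_ofPred_eq, PiLp.add_apply, PiLp.smul_apply, smul_eq_mul] at ha hb ⊢
    rcases hs.eq_or_lt with h0 | h0
    · have : t = 1 := by linarith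
      rw [← h0, this]
      linarith
    · have := mul_pos h0 ha
      have := mul_nonneg ht hb.le
      linarith
  let f : EuclideanSpace ℝ (Fin (m+1)) → (Fin m → ℝ) := fun ω k => ω k.castSucc / ω (Fin.last m)
  have hcoord : ∀ i : Fin (m+1), ContDiff ℝ 1 (fun ω : EuclideanSpace ℝ (Fin (m+1)) => ω i) := fun i =>
    contDiff_euclidean.1 contDiff_id i
  have hf : ContDiffOn ℝ 1 f P := by
    rw [contDiffOn_pi]
    intro k
    exact (hcoord _).contDiffOn.div (hcoord _).contDiffOn (fun ω hω => (ne_of_gt hω))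
  have h1 := hf.dimH_image_le hconv (t := {ω | ‖ω‖ = 1} ∩ P) inter_subset_right
  have h2 : f '' ({ω | ‖ω‖ = 1} ∩ P) = univ := by
    rw [eq_univ_iff_forall]
    intro v
    have hn : 0 < ‖ptf (v, (1:ℝ))‖ := norm_pos_iff.2 (ptf_ne_zero v)
    refine ⟨dirf v, ⟨?_, ?_⟩, ?_⟩
    · simp only [mem_ofPred_eq, dirf]
      rw [norm_smul, norm_inv, norm_norm, inv_mul_cancel₀ hn.ne']
    · simp only [hP, mem_ofPred_eq, dirf, PiLp.smul_apply, smul_eq_mul]
      rw [ptf_last]
      simp only [mul_one]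
      positivity
    · funext k
      simp only [f, dirf, PiLp.smul_apply, smul_eq_mul]
      rw [ptf_last, ptf_castSucc]
      simp only
      field_simp
  rw [h2, Real.dimH_univ_pi_fin] at h1
  exact h1.trans (dimH_mono inter_subset_left)

/-- **Arbitrary sets of directions.** If for every direction `ω` in a nonempty set `Om` of unit
vectors of `R^(m+1)` the set `K` meets some line in direction `ω` in a set of Hausdorff dimension
one, then `dim K ≥ dim Om / α + 1`, provided the entropic sums-differences inequality holds with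
exponent `α`. -/
theorem dimH_ge_directions {m : ℕ} {al : ℝ} (hal : 0 < al) (h : SDU m al)
    (Om K : Set (EuclideanSpace ℝ (Fin (m+1)))) (hOm : ∀ ω ∈ Om, ‖ω‖ = 1) (hne : Om.Nonempty)
    (hK : ∀ ω ∈ Om, ∃ x : EuclideanSpace ℝ (Fin (m+1)), 1 ≤ dimH {t : ℝ | x + t • ω ∈ K}) :
    dimH Om / ENNReal.ofReal al + 1 ≤ dimH K := by
  have hIH := discreteIH_of_SDU hal h
  rcases eq_or_ne (dimH Om) 0 with h0 | h0
  · rw [h0, ENNReal.zero_div, zero_add]
    obtain ⟨ω, hω⟩ := hne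
    obtain ⟨x, hx⟩ := hK ω hω
    have hiso : Isometry (fun t : ℝ => x + t • ω) := by
      refine Isometry.of_dist_eq (fun p q => ?_)
      rw [dist_add_left, dist_eq_norm, ← sub_smul, norm_smul, hOm ω hω, mul_one, Real.dist_eq,
        Real.norm_eq_abs]
    calc (1 : ℝ≥0∞) ≤ dimH {t : ℝ | x + t • ω ∈ K} := hx
      _ = dimH ((fun t : ℝ => x + t • ω) '' {t : ℝ | x + t • ω ∈ K}) := (hiso.dimH_image _).symm
      _ ≤ dimH K := dimH_mono (by rintro _ ⟨t, ht, rfl⟩; exact ht)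
  · have htop : dimH Om ≠ ∞ := Real.dimH_ne_top Om
    set d := (dimH Om).toReal with hd
    have hdpos : 0 < d := ENNReal.toReal_pos h0 htop
    have hde : dimH Om = ENNReal.ofReal d := (ENNReal.ofReal_toReal htop).symm
    have hmain : ∀ s : ℝ, 0 < s → s < d → ENNReal.ofReal (s/al + 1) ≤ dimH K := by
      intro s hs hsd
      have hsO : ENNReal.ofReal s < dimH Om := by
        rw [hde]
        exact (ENNReal.ofReal_lt_ofReal_iff hdpos).2 hsd
      have hcover : Om ⊆ ⋃ i : Fin (m+1), {ω | ω ∈ Om ∧ ω i ≠ 0} := by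
        intro ω hω
        by_contra hcon
        simp only [mem_iUnion, mem_ofPred_eq, not_exists, not_and, not_not] at hcon
        have h1 : ω = 0 := by
          ext i
          exact hcon i hω
        have h2 := hOm ω hω
        rw [h1, norm_zero] at h2
        exact zero_ne_one h2
      obtain ⟨i, hi⟩ : ∃ i : Fin (m+1), ENNReal.ofReal s < dimH {ω | ω ∈ Om ∧ ω i ≠ 0} := by
        have h1 : ENNReal.ofReal s < ⨆ i : Fin (m+1), dimH {ω | ω ∈ Om ∧ ω i ≠ 0} := by
          rw [← dimH_iUnion]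
          exact hsO.trans_le (dimH_mono hcover)
        exact lt_iSup_iff.1 h1
      let g : EuclideanSpace ℝ (Fin (m+1)) ≃ₗᵢ[ℝ] EuclideanSpace ℝ (Fin (m+1)) :=
        LinearIsometryEquiv.piLpCongrLeft 2 ℝ ℝ (Equiv.swap i (Fin.last m))
      have hglast : ∀ ω, g ω (Fin.last m) = ω i := by
        intro ω
        simp [g, LinearIsometryEquiv.piLpCongrLeft_apply, Equiv.piCongrLeft'_apply]
      have hgK : dimH (g '' K) = dimH K := g.isometry.dimH_image K
      rw [← hgK]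
      refine core_dirs_last hal hIH (g '' {ω | ω ∈ Om ∧ ω i ≠ 0}) (g '' K) ?_ ?_ hs ?_
      · rintro _ ⟨ω, ⟨hω, hωi⟩, rfl⟩
        exact ⟨by rw [g.norm_map]; exact hOm ω hω, by rw [hglast]; exact hωi⟩
      · rintro _ ⟨ω, ⟨hω, _⟩, rfl⟩
        obtain ⟨x, hx⟩ := hK ω hω
        refine ⟨g x, hx.trans (dimH_mono (fun t ht => ?_))⟩
        refine ⟨x + t • ω, ht, ?_⟩
        rw [map_add, map_smul]
      · rw [g.isometry.dimH_image]
        exact hi
    have hlim : ENNReal.ofReal (d/al + 1) ≤ dimH K := by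
      have h1 : Tendsto (fun s : ℝ => ENNReal.ofReal (s/al + 1)) (𝓝[<] d) (𝓝 (ENNReal.ofReal (d/al + 1))) := by
        refine (ENNReal.continuous_ofReal.tendsto _).comp ?_
        refine Tendsto.mono_left ?_ nhdsWithin_le_nhds
        refine ContinuousAt.tendsto ?_
        fun_prop
      refine le_of_tendsto h1 ?_
      have h2 : ∀ᶠ s : ℝ in 𝓝[<] d, 0 < s := nhdsWithin_le_nhds (lt_mem_nhds hdpos)
      filter_upwards [self_mem_nhdsWithin, h2] with s hs1 hs2
      exact hmain s hs2 hs1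
    rw [hde, ← ENNReal.ofReal_div_of_pos hal, ← ENNReal.ofReal_one, ← ENNReal.ofReal_add (by positivity) zero_le_one]
    exact hlim

/-- in `R^n`, `n ≥ 1` -/
theorem dimH_ge_directions_n {n : ℕ} (hn : 1 ≤ n) {al : ℝ} (hal : 0 < al) (h : SDU (n - 1) al)
    (Om K : Set (EuclideanSpace ℝ (Fin n))) (hOm : ∀ ω ∈ Om, ‖ω‖ = 1) (hne : Om.Nonempty)
    (hK : ∀ ω ∈ Om, ∃ x : EuclideanSpace ℝ (Fin n), 1 ≤ dimH {t : ℝ | x + t • ω ∈ K}) :
    dimH Om / ENNReal.ofReal al + 1 ≤ dimH K := by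
  obtain ⟨m, rfl⟩ : ∃ m, n = m + 1 := ⟨n - 1, by omega⟩
  exact dimH_ge_directions hal (by simpa using h) Om K hOm hne hK

end Pool.Agent.Helper39
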