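import Mathlib

open MeasureTheory Set Filter Topology
open scoped ENNReal NNReal

namespace Pool.Agent.Helper39

/-- Finite energy of the image of a measure bounds the Hausdorff dimension from below. -/
theorem dimH_ge_of_energy {X E : Type*} [MeasurableSpace X] [MetricSpace E] [MeasurableSpace E] [BorelSpace E]
    [SecondCountableTopology E]
    {μ : Measure X} [IsFiniteMeasure μ] (hμ : μ ≠ 0) {F : X → E} (hF : Measurable F) {p : ℝ≥0}
    (hp : 0 < p) (hE : ∫⁻ ξ, ∫⁻ ξ', (edist (F ξ) (F ξ')) ^ (-(p : ℝ)) ∂μ ∂μ ≠ ∞)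
    {D : Set X} (hD : μ Dᶜ = 0) : (p : ℝ≥0∞) ≤ dimH (F '' D) := by
  have hp' : (0:ℝ) < p := by exact_mod_cast hp
  set U : X → ℝ≥0∞ := fun ξ => ∫⁻ ξ', (edist (F ξ) (F ξ')) ^ (-(p : ℝ)) ∂μ with hU
  have hmeas2 : Measurable (fun z : X × X => (edist (F z.1) (F z.2)) ^ (-(p : ℝ))) := by
    have h1 : Measurable (fun z : X × X => edist (F z.1) (F z.2)) :=
      Measurable.edist (hF.comp measurable_fst) (hF.comp measurable_snd)
    exact h1.pow_const _
  have hUm : Measurable U := hmeas2.lintegral_prod_right'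
  have hae : ∀ᵐ ξ ∂μ, U ξ < ∞ := ae_lt_top hUm hE
  obtain ⟨M, hM⟩ : ∃ M : ℕ, 0 < μ {ξ | U ξ ≤ M} := by
    by_contra hcon
    push Not at hcon
    have h1 : μ (⋃ M : ℕ, {ξ | U ξ ≤ M}) = 0 := by
      rw [measure_iUnion_null_iff]
      exact fun M => le_antisymm (hcon M) zero_le
    have h2 : ∀ᵐ ξ ∂μ, ξ ∈ ⋃ M : ℕ, {ξ | U ξ ≤ M} := by
      filter_upwards [hae] with ξ hξ
      obtain ⟨M, hM⟩ := ENNReal.exists_nat_gt hξ.ne
      exact mem_iUnion.2 ⟨M, hM.le⟩
    have h3 : μ univ = 0 := by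
      refine le_antisymm ?_ zero_le
      calc μ univ ≤ μ ((⋃ M : ℕ, {ξ | U ξ ≤ M}) ∪ (⋃ M : ℕ, {ξ | U ξ ≤ M})ᶜ) := by
            rw [union_compl_self]
        _ ≤ μ (⋃ M : ℕ, {ξ | U ξ ≤ M}) + μ (⋃ M : ℕ, {ξ | U ξ ≤ M})ᶜ := measure_union_le _ _
        _ = 0 := by
            rw [h1, zero_add]
            exact h2
    exact hμ (Measure.measure_univ_eq_zero.1 h3)
  set A : Set X := {ξ | U ξ ≤ M} with hA
  have hAm : MeasurableSet A := hUm measurableSet_Iic
  set ν : Measure E := (μ.restrict A).map F with hν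
  have hbound : ∀ s : Set E, ν s ≤ M * (Metric.ediam s) ^ (p : ℝ) := by
    intro s
    have hcl : ν s ≤ ν (closure s) := measure_mono subset_closure
    rw [← Metric.ediam_closure s]
    refine hcl.trans ?_
    have hcm : MeasurableSet (closure s) := isClosed_closure.measurableSet
    rw [hν, Measure.map_apply hF hcm, Measure.restrict_apply (hF hcm)]
    rcases (F ⁻¹' closure s ∩ A).eq_empty_or_nonempty with he | ⟨ξ0, h0s, h0A⟩
    · rw [he]; simp
    · have h1 : U ξ0 ≤ M := h0A
      set Δ := Metric.ediam (closure s) with hΔ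
      have h2 : μ (F ⁻¹' closure s ∩ A) * Δ ^ (-(p : ℝ)) ≤ M := by
        calc μ (F ⁻¹' closure s ∩ A) * Δ ^ (-(p : ℝ))
            = ∫⁻ _ in F ⁻¹' closure s ∩ A, Δ ^ (-(p : ℝ)) ∂μ := by
              rw [setLIntegral_const, mul_comm]
          _ ≤ ∫⁻ ξ' in F ⁻¹' closure s ∩ A, (edist (F ξ0) (F ξ')) ^ (-(p : ℝ)) ∂μ := by
              refine setLIntegral_mono' ((hF hcm).inter hAm) (fun ξ' hξ' => ?_)
              rw [ENNReal.rpow_neg, ENNReal.rpow_neg]
              refine ENNReal.inv_le_inv.2 ?_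
              refine ENNReal.rpow_le_rpow ?_ hp'.le
              exact Metric.edist_le_ediam_of_mem h0s hξ'.1
          _ ≤ U ξ0 := setLIntegral_le_lintegral _ _
          _ ≤ M := h1
      rcases eq_or_ne Δ 0 with hΔ0 | hΔ0
      · rw [hΔ0, ENNReal.zero_rpow_of_neg (by linarith)] at h2
        have h3 : μ (F ⁻¹' closure s ∩ A) = 0 := by
          by_contra hne
          rw [ENNReal.mul_top hne] at h2
          exact absurd h2 (by simp)
        rw [h3]
        exact zero_le
      · rcases eq_or_ne Δ ∞ with hΔt | hΔt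
        · rw [hΔt, ENNReal.top_rpow_of_pos hp']
          have hM0 : (M : ℝ≥0∞) ≠ 0 := by
            intro hM0
            rw [hM0] at h1
            have h4 : U ξ0 = 0 := le_antisymm h1 zero_le
            have h5 : ∀ᵐ ξ' ∂μ, (edist (F ξ0) (F ξ')) ^ (-(p : ℝ)) = 0 := by
              have := (lintegral_eq_zero_iff (μ := μ)
                (f := fun ξ' => (edist (F ξ0) (F ξ')) ^ (-(p : ℝ))) (by
                  have h1 : Measurable (fun z : X => edist (F ξ0) (F z)) :=
                    Measurable.edist measurable_const hF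
                  exact h1.pow_const _)).1 h4
              exact this
            have h6 : ∀ᵐ ξ' ∂μ, False := by
              filter_upwards [h5] with ξ' hξ'
              rw [ENNReal.rpow_eq_zero_iff] at hξ'
              rcases hξ' with ⟨_, h⟩ | ⟨h, _⟩
              · linarith
              · exact edist_ne_top _ _ h
            rw [ae_iff] at h6
            simp only [not_false_eq_true] at h6
            apply hμ
            apply Measure.measure_univ_eq_zero.1
            simpa using h6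
          rw [ENNReal.mul_top hM0]
          exact le_top
        · have h3 : Δ ^ (-(p : ℝ)) * Δ ^ (p : ℝ) = 1 := by
            rw [← ENNReal.rpow_add _ _ hΔ0 hΔt]
            simp
          calc μ (F ⁻¹' closure s ∩ A) = μ (F ⁻¹' closure s ∩ A) * Δ ^ (-(p : ℝ)) * Δ ^ (p : ℝ) := by
                rw [mul_assoc, h3, mul_one]
            _ ≤ M * Δ ^ (p : ℝ) := by gcongr
  have hM0 : (M : ℝ≥0∞) ≠ ∞ := ENNReal.natCast_ne_top M
  have hcmp : ((M : ℝ≥0∞) + 1)⁻¹ • ν ≤ Measure.hausdorffMeasure (p : ℝ) := by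
    refine Measure.le_hausdorffMeasure (p : ℝ) _ 1 one_pos (fun s _ => ?_)
    rw [Measure.smul_apply, smul_eq_mul]
    calc ((M : ℝ≥0∞) + 1)⁻¹ * ν s ≤ ((M : ℝ≥0∞) + 1)⁻¹ * (M * (Metric.ediam s) ^ (p : ℝ)) := by
          gcongr
          exact hbound s
      _ = (((M : ℝ≥0∞) + 1)⁻¹ * M) * (Metric.ediam s) ^ (p : ℝ) := by rw [mul_assoc]
      _ ≤ 1 * (Metric.ediam s) ^ (p : ℝ) := by
          gcongr
          rw [mul_comm, ← div_eq_mul_inv]
          exact ENNReal.div_le_of_le_mul (by rw [one_mul]; exact le_self_add)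
      _ = _ := one_mul _
  have hpos : Measure.hausdorffMeasure (p : ℝ) (F '' D) ≠ 0 := by
    intro h0
    have h1 := hcmp (F '' D)
    rw [h0, Measure.smul_apply, smul_eq_mul] at h1
    have h2 : ((M : ℝ≥0∞) + 1)⁻¹ * ν (F '' D) = 0 := le_antisymm h1 zero_le
    rw [mul_eq_zero] at h2
    rcases h2 with h2 | h2
    · rw [ENNReal.inv_eq_zero] at h2
      exact (ENNReal.add_ne_top.2 ⟨hM0, ENNReal.one_ne_top⟩) h2
    · have h3 : (μ.restrict A) D ≤ ν (F '' D) :=
        Measure.le_map_apply_image (μ := μ.restrict A) hF.aemeasurable D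
      rw [h2, Measure.restrict_apply' hAm] at h3
      have h4 : μ A ≤ μ (D ∩ A) + μ Dᶜ := by
        refine (measure_mono (fun x hx => ?_)).trans (measure_union_le _ _)
        by_cases hxD : x ∈ D
        · exact Or.inl ⟨hxD, hx⟩
        · exact Or.inr hxD
      rw [hD, add_zero] at h4
      exact absurd (h4.trans h3) (not_le.2 hM)
  exact le_dimH_of_hausdorffMeasure_ne_zero hpos

end Pool.Agent.Helper39
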