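import Pool.Agent.Helper39.Poly

open MeasureTheory Set Filter Topology
open scoped ENNReal NNReal Matrix ContDiff

namespace Pool.Agent.Helper39

variable {m : ℕ}

/-- radial retraction onto the closed ball of radius `ρ` -/
noncomputable def retr (ρ : ℝ) (v : EE m) : EE m := if ‖v‖ ≤ ρ then v else (ρ / ‖v‖) • v

lemma retr_of_le {ρ : ℝ} {v : EE m} (h : ‖v‖ ≤ ρ) : retr ρ v = v := by
  unfold retr; rw [if_pos h]

lemma retr_norm_eq {ρ : ℝ} (hρ : 0 < ρ) {v : EE m} (h : ρ ≤ ‖v‖) : ‖retr ρ v‖ = ρ := by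
  unfold retr
  split_ifs with h1
  · exact le_antisymm h1 h
  · rw [norm_smul, norm_div, norm_norm, Real.norm_of_nonneg hρ.le]
    have hv : 0 < ‖v‖ := lt_of_lt_of_le hρ h
    exact div_mul_cancel₀ _ hv.ne'

lemma retr_norm_le {ρ : ℝ} (hρ : 0 < ρ) (v : EE m) : ‖retr ρ v‖ ≤ ρ := by
  by_cases h : ‖v‖ ≤ ρ
  · rwa [retr_of_le h]
  · exact (retr_norm_eq hρ (not_le.1 h).le).le

lemma retr_var {ρ : ℝ} (hρ : 0 < ρ) (v w : EE m) (hw : ‖w‖ ≤ ρ) :
    0 ≤ inner ℝ (v - retr ρ v) (retr ρ v - w) := by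
  by_cases h : ‖v‖ ≤ ρ
  · rw [retr_of_le h]; simp
  · push Not at h
    have hv : 0 < ‖v‖ := hρ.trans h
    have e : retr ρ v = (ρ / ‖v‖) • v := by unfold retr; rw [if_neg (not_le.2 h)]
    have e1 : v - retr ρ v = (1 - ρ / ‖v‖) • v := by rw [e, sub_smul, one_smul]
    rw [e1, real_inner_smul_left]
    have h1 : 0 ≤ 1 - ρ / ‖v‖ := by
      rw [sub_nonneg, div_le_one hv]
      exact h.le
    refine mul_nonneg h1 ?_
    rw [inner_sub_right, e, inner_smul_right, real_inner_self_eq_norm_sq]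
    have h2 : inner ℝ v w ≤ ‖v‖ * ‖w‖ := real_inner_le_norm v w
    have h3 : ‖v‖ * ‖w‖ ≤ ‖v‖ * ρ := by gcongr
    have h4 : ρ / ‖v‖ * ‖v‖ ^ 2 = ‖v‖ * ρ := by field_simp
    linarith

lemma retr_mono_strong {ρ : ℝ} (hρ : 0 < ρ) (x y : EE m) :
    ‖retr ρ x - retr ρ y‖ ^ 2 ≤ inner ℝ (retr ρ x - retr ρ y) (x - y) := by
  have h1 := retr_var hρ x (retr ρ y) (retr_norm_le hρ y)
  have h2 := retr_var hρ y (retr ρ x) (retr_norm_le hρ x)
  have e : inner ℝ (retr ρ x - retr ρ y) (x - y) =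
      inner ℝ (x - retr ρ x) (retr ρ x - retr ρ y) + inner ℝ (y - retr ρ y) (retr ρ y - retr ρ x) +
        ‖retr ρ x - retr ρ y‖ ^ 2 := by
    rw [← real_inner_self_eq_norm_sq]
    simp only [inner_sub_left, inner_sub_right]
    rw [real_inner_comm x (retr ρ x), real_inner_comm x (retr ρ y), real_inner_comm y (retr ρ x),
      real_inner_comm y (retr ρ y), real_inner_comm (retr ρ x) (retr ρ y)]
    ring
  linarith

lemma retr_mono {ρ : ℝ} (hρ : 0 < ρ) (x y : EE m) :
    0 ≤ inner ℝ (retr ρ x - retr ρ y) (x - y) :=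
  (sq_nonneg _).trans (retr_mono_strong hρ x y)

lemma retr_lip {ρ : ℝ} (hρ : 0 < ρ) (x y : EE m) : ‖retr ρ x - retr ρ y‖ ≤ ‖x - y‖ := by
  have h1 := retr_mono_strong hρ x y
  have h2 := real_inner_le_norm (retr ρ x - retr ρ y) (x - y)
  have h3 : 0 ≤ ‖retr ρ x - retr ρ y‖ := norm_nonneg _
  have h4 : 0 ≤ ‖x - y‖ := norm_nonneg _
  by_contra h
  push Not at h
  nlinarith

lemma retr_cont {ρ : ℝ} (hρ : 0 < ρ) : Continuous (retr (m := m) ρ) := by
  have : LipschitzWith 1 (retr (m := m) ρ) := by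
    refine LipschitzWith.of_dist_le_mul (fun x y => ?_)
    rw [dist_eq_norm, dist_eq_norm, NNReal.coe_one, one_mul]
    exact retr_lip hρ x y
  exact this.continuous

lemma jac_mol_retr {ρ r : ℝ} (hr : 0 < r) {v : EE m} (hv : ‖v‖ + r < ρ) :
    jac (mol r (retr ρ)) v = 1 := by
  have h1 : mol r (retr (m := m) ρ) =ᶠ[𝓝 v] fun x => x + mol r (fun v => v) 0 := by
    have hpos : 0 < ρ - ‖v‖ - r := by linarith
    filter_upwards [Metric.ball_mem_nhds v hpos] with x hx
    rw [Metric.mem_ball, dist_eq_norm] at hx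
    rw [← mol_id]
    refine mol_congr hr (fun w hw => retr_of_le ?_)
    have h2 : ‖w‖ ≤ ‖w - x‖ + ‖x - v‖ + ‖v‖ := by
      calc ‖w‖ = ‖(w - x) + (x - v) + v‖ := by congr 1; abel
        _ ≤ ‖(w - x) + (x - v)‖ + ‖v‖ := norm_add_le _ _
        _ ≤ _ := by gcongr; exact norm_add_le _ _
    linarith
  rw [jac_eq_det, h1.fderiv_eq]
  have h2 : HasFDerivAt (fun x : EE m => x + mol r (fun v => v) 0) (ContinuousLinearMap.id ℝ (EE m)) v :=
    (hasFDerivAt_id v).add_const _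
  rw [h2.fderiv]
  exact LinearMap.det_id

/-- the flat version of the theorem -/
theorem flat (hm : 1 ≤ m) {ρ α C : ℝ} (hρ : 0 < ρ) (hα : (m : ℝ) - 1 < m * α) (hα1 : α ≤ 1)
    {b : EE m → EE m} (hb : ContinuousOn b (Metric.closedBall 0 ρ))
    (hH : ∀ x y, ‖x‖ = ρ → ‖y‖ = ρ → ‖b x - b y‖ ≤ C * ‖x - y‖ ^ α)
    (S : Finset ℝ) (hS : S.card = m + 1) :
    ∃ t ∈ S, volume {x | ∃ v, ‖v‖ ≤ ρ ∧ x = b v + t • v} ≠ 0 := by
  have hm1 : (1:ℝ) ≤ m := by exact_mod_cast hm
  have hα0 : 0 < α := by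
    by_contra h
    push Not at h
    nlinarith
  have he : 0 < α + (α - 1) * ((m - 1 : ℕ) : ℝ) := by
    rw [Nat.cast_sub hm, Nat.cast_one]
    nlinarith
  set g : EE m → EE m := retr ρ with hg
  set f : EE m → EE m := fun v => b (retr ρ v) with hf
  have hgc : Continuous g := retr_cont hρ
  have hfc : Continuous f := by
    refine hb.comp_continuous (retr_cont hρ) (fun v => ?_)
    rw [Metric.mem_closedBall, dist_zero_right]
    exact retr_norm_le hρ v
  let bu : ContDiffBump (0 : EE m) := ⟨4 * ρ / 3, 5 * ρ / 3, by positivity, by linarith⟩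
  set ζ : EE m → ℝ := fun v => bu v with hζdef
  have hζ : ContDiff ℝ 1 ζ := bu.contDiff
  have hζc : HasCompactSupport ζ := bu.hasCompactSupport
  have hζ0 : ∀ v, 0 ≤ ζ v := fun v => bu.nonneg
  have hζ1 : ∀ v, ‖v‖ ≤ 4 * ρ / 3 → ζ v = 1 := by
    intro v hv
    refine bu.one_of_mem_closedBall ?_
    rw [Metric.mem_closedBall, dist_zero_right]
    exact hv
  have hζd : ∀ v, fderiv ℝ ζ v ≠ 0 → 4 * ρ / 3 ≤ ‖v‖ := by
    intro v hv
    by_contra hlt
    push Not at hlt
    apply hv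
    have : ζ =ᶠ[𝓝 v] fun _ => (1:ℝ) := by
      filter_upwards [Metric.ball_mem_nhds v (sub_pos.2 hlt)] with x hx
      rw [Metric.mem_ball, dist_eq_norm] at hx
      apply hζ1
      have := norm_le_norm_sub_add x v
      linarith
    rw [this.fderiv_eq]
    simp
  set r0 := ρ / 6 with hr0def
  have hr0 : 0 < r0 := by positivity
  set c : ℝ := volume.real (Metric.ball (0 : EE m) (ρ / 2)) with hcdef
  have hc : 0 < c := by
    rw [hcdef, Measure.real, ENNReal.toReal_pos_iff]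
    exact ⟨Metric.measure_ball_pos _ _ (by positivity), measure_ball_lt_top⟩
  have hlead : ∀ k : ℕ, c ≤ ∫ v, ζ v * jac (mol (r0 / 2 ^ k) g) v := by
    intro k
    have hrk : 0 < r0 / 2 ^ k := by positivity
    have hrk2 : r0 / 2 ^ k ≤ r0 := div_le_self hr0.le (one_le_pow₀ (by norm_num))
    have hcd : ContDiff ℝ 2 (mol (r0 / 2 ^ k) g) := mol_contDiff (n := 2) hrk hgc
    have hint : Integrable (fun v => ζ v * jac (mol (r0 / 2 ^ k) g) v) :=
      (hζ.continuous.mul (jac_cont hcd)).integrable_of_hasCompactSupport hζc.mul_right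
    have h1 : ∫ v, (Metric.ball (0 : EE m) (ρ / 2)).indicator (fun _ => (1:ℝ)) v = c := by
      rw [integral_indicator_const _ measurableSet_ball]
      simp [hcdef]
    rw [← h1]
    refine integral_mono ?_ hint (fun v => ?_)
    · rw [integrable_indicator_iff measurableSet_ball]
      exact integrableOn_const (measure_ball_lt_top.ne)
    · by_cases hv : v ∈ Metric.ball (0 : EE m) (ρ / 2)
      · rw [indicator_of_mem hv]
        rw [Metric.mem_ball, dist_zero_right] at hv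
        have : jac (mol (r0 / 2 ^ k) g) v = 1 := jac_mol_retr hrk (by linarith)
        simp only
        rw [this, hζ1 v (by linarith), mul_one]
      · rw [indicator_of_notMem hv]
        exact mul_nonneg (hζ0 v) (jac_nonneg hcd (mol_mono hgc (retr_mono hρ)) v)
  obtain ⟨t, htS, ht⟩ := exists_not_tendsto hζ hζc hfc hgc hr0 hc hlead S hS
  refine ⟨t, htS, fun h0 => ht ?_⟩
  set C' := max C 0 with hC'
  have hC'0 : 0 ≤ C' := le_max_right _ _
  refine tendsto_jac (α := α) (C := C' + |t| * (2 * r0) ^ (1 - α)) hζ hζc (by fun_prop) hα0 hα1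
    (by positivity) hr0 ?_ he ?_
  · intro v hv x hx
    have hv1 := hζd v hv
    have hx1 : ρ ≤ ‖x‖ := by
      have := norm_le_norm_sub_add v x
      rw [norm_sub_rev] at this
      linarith
    have hv2 : ρ ≤ ‖v‖ := by linarith
    have h1 : ‖f x - f v‖ ≤ C' * ‖x - v‖ ^ α := by
      calc ‖f x - f v‖ ≤ C * ‖retr ρ x - retr ρ v‖ ^ α := hH _ _ (retr_norm_eq hρ hx1) (retr_norm_eq hρ hv2)
        _ ≤ C' * ‖retr ρ x - retr ρ v‖ ^ α :=
            mul_le_mul_of_nonneg_right (le_max_left _ _) (by positivity)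
        _ ≤ C' * ‖x - v‖ ^ α := by
            refine mul_le_mul_of_nonneg_left ?_ hC'0
            exact Real.rpow_le_rpow (norm_nonneg _) (retr_lip hρ x v) hα0.le
    have h2 : ‖g x - g v‖ ≤ (2 * r0) ^ (1 - α) * ‖x - v‖ ^ α := by
      refine (retr_lip hρ x v).trans ?_
      rcases (norm_nonneg (x - v)).eq_or_lt with h | h
      · rw [← h]
        positivity
      · calc ‖x - v‖ = ‖x - v‖ ^ (1 - α) * ‖x - v‖ ^ α := by
              rw [← Real.rpow_add h]; simp
          _ ≤ _ := by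
              refine mul_le_mul_of_nonneg_right ?_ (by positivity)
              exact Real.rpow_le_rpow h.le hx (by linarith)
    calc ‖f x + t • g x - (f v + t • g v)‖ = ‖(f x - f v) + t • (g x - g v)‖ := by
          congr 1; rw [smul_sub]; abel
      _ ≤ ‖f x - f v‖ + ‖t • (g x - g v)‖ := norm_add_le _ _
      _ ≤ C' * ‖x - v‖ ^ α + |t| * ((2 * r0) ^ (1 - α) * ‖x - v‖ ^ α) := by
          rw [norm_smul, Real.norm_eq_abs]
          gcongr
      _ = _ := by ring
  · refine measure_mono_null ?_ h0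
    rintro _ ⟨v, _, rfl⟩
    exact ⟨retr ρ v, retr_norm_le hρ v, rfl⟩

end Pool.Agent.Helper39
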