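import Mathlib

/-! A determinant identity (generalised Alon-Füredi argument) bounding the size of a circuit in the
configuration used for gammoids over a finite field. -/

set_option autoImplicit false

namespace Pool.Agent.Helper39.GamAlg

open Finset Matrix

variable {ι F : Type*} [Fintype ι] [DecidableEq ι] [Field F]

/-- the matrix with rows `z i (ε i)` -/
def mat (z : ι → Bool → ι → F) (ε : ι → Bool) : Matrix ι ι F := fun i => z i (ε i)

/-- the determinant of the family `z i (ε i)` -/
def D (z : ι → Bool → ι → F) (ε : ι → Bool) : F := (mat z ε).det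

/-- the determinant with the `i`-th vector replaced by `x0` -/
def lam (z : ι → Bool → ι → F) (x0 : ι → F) (ε : ι → Bool) (i : ι) : F :=
  ((mat z ε).updateRow i x0).det

/-- the sign -/
def sg (ε : ι → Bool) : F := ∏ i, (if ε i then (-1 : F) else 1)

/-- the patterns agreeing with `e` on `J` -/
def compat (J : Finset ι) (e : ι → Bool) : Finset (ι → Bool) :=
  univ.filter fun ε => ∀ j ∈ J, ε j = e j

theorem mem_compat {J : Finset ι} {e ε : ι → Bool} : ε ∈ compat J e ↔ ∀ j ∈ J, ε j = e j := by
  simp [compat]

theorem cramer_id (z : ι → Bool → ι → F) (x0 : ι → F) (ε : ι → Bool)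
    (ψ : (ι → F) →ₗ[F] F) : ∑ i, lam z x0 ε i * ψ (z i (ε i)) = D z ε * ψ x0 := by
  have h : ∑ i, lam z x0 ε i • z i (ε i) = D z ε • x0 := by
    have h1 := Matrix.mulVec_cramer (mat z ε)ᵀ x0
    ext j
    have h2 := congrFun h1 j
    simp only [Matrix.mulVec, dotProduct, Matrix.transpose_apply, Matrix.cramer_transpose_apply,
      Matrix.det_transpose, Pi.smul_apply, smul_eq_mul] at h2
    simp only [Finset.sum_apply, Pi.smul_apply, smul_eq_mul, lam, D]
    rw [← h2]
    refine Finset.sum_congr rfl fun i _ => ?_
    rw [mul_comm]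
    rfl
  have h3 := congrArg ψ h
  simpa using h3

theorem lam_update (z : ι → Bool → ι → F) (x0 : ι → F) (ε : ι → Bool) (i : ι) (b : Bool) :
    lam z x0 (Function.update ε i b) i = lam z x0 ε i := by
  unfold lam
  congr 1
  ext k l
  by_cases hk : k = i
  · subst hk; simp
  · simp [Matrix.updateRow_ne hk, mat, Function.update_of_ne hk]

theorem sg_update (ε : ι → Bool) (i : ι) :
    (sg (Function.update ε i (!ε i)) : F) = - sg ε := by
  unfold sg
  rw [← Finset.mul_prod_erase univ _ (mem_univ i), ← Finset.mul_prod_erase univ _ (mem_univ i)]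
  have : ∏ x ∈ univ.erase i, (if Function.update ε i (!ε i) x then (-1 : F) else 1) =
      ∏ x ∈ univ.erase i, (if ε x then (-1 : F) else 1) := by
    refine Finset.prod_congr rfl fun x hx => ?_
    rw [Function.update_of_ne (Finset.ne_of_mem_erase hx)]
  rw [this]
  cases h : ε i <;> simp

theorem split_sum (J : Finset ι) (e : ι → Bool) (i : ι) (c : Bool → F)
    (Y : (ι → Bool) → F)
    (h : ∀ b, ∑ ε ∈ compat (insert i J) (Function.update e i b), Y ε = 0) :
    ∑ ε ∈ compat J e, c (ε i) * Y ε = 0 := by
  rw [← Finset.sum_fiberwise (compat J e) (fun ε => ε i)]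
  refine Finset.sum_eq_zero fun b _ => ?_
  have h1 : ∑ ε ∈ (compat J e).filter (fun ε => ε i = b), c (ε i) * Y ε =
      c b * ∑ ε ∈ (compat J e).filter (fun ε => ε i = b), Y ε := by
    rw [Finset.mul_sum]
    refine Finset.sum_congr rfl fun ε hε => ?_
    rw [(Finset.mem_filter.1 hε).2]
  rw [h1]
  by_cases hb : i ∈ J ∧ e i ≠ b
  · have : (compat J e).filter (fun ε => ε i = b) = ∅ := by
      rw [Finset.filter_eq_empty_iff]
      intro ε hε hεb
      exact hb.2 (by rw [← mem_compat.1 hε i hb.1, hεb])
    rw [this]; simp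
  · have : (compat J e).filter (fun ε => ε i = b) =
        compat (insert i J) (Function.update e i b) := by
      ext ε
      simp only [Finset.mem_filter, mem_compat, Finset.mem_insert]
      constructor
      · rintro ⟨h1, h2⟩ j (rfl | hj)
        · simp [h2]
        · by_cases hji : j = i
          · subst hji; simp [h2]
          · rw [Function.update_of_ne hji]; exact h1 j hj
      · intro h1
        have h2 : ε i = b := by simpa using h1 i (Or.inl rfl)
        refine ⟨fun j hj => ?_, h2⟩
        by_cases hji : j = i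
        · subst hji
          rw [h2]
          by_contra hne
          exact hb ⟨hj, fun h => hne h.symm⟩
        · have := h1 j (Or.inr hj)
          rwa [Function.update_of_ne hji] at this
    rw [this, h b, mul_zero]

variable {z : ι → Bool → ι → F} {x0 : ι → F}

theorem prod_single (f : ι → F) (n : ι → ℕ) (i : ι) :
    ∏ j, f j ^ (n j + if j = i then 1 else 0) = f i * ∏ j, f j ^ n j := by
  have : ∀ j, f j ^ (n j + if j = i then 1 else 0) = (if j = i then f j else 1) * f j ^ n j := by
    intro j
    split_ifs with h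
    · rw [pow_succ]; ring
    · simp
  simp_rw [this, Finset.prod_mul_distrib]
  simp

/-- existence of a functional vanishing on `x0` and on the vectors of `J` except `i` -/
theorem exists_psi (hx : ∀ (j : ι) (ε : ι → Bool),
      LinearIndependent F (Function.update (fun i => z i (ε i)) j x0))
    {J : Finset ι} (e : ι → Bool) {m i : ι} (hm : m ∉ J) (hi : i ∈ J) :
    ∃ ψ : (ι → F) →ₗ[F] F, ψ x0 = 0 ∧ ψ (z i (e i)) = 1 ∧
      ∀ j ∈ J, j ≠ i → ψ (z j (e j)) = 0 := by
  have him : i ≠ m := fun h => hm (h ▸ hi)
  have : Nonempty ι := ⟨i⟩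
  let B := basisOfLinearIndependentOfCardEqFinrank (hx m e) (by simp)
  have hB : ∀ j, B j = Function.update (fun i => z i (e i)) m x0 j := by
    intro j
    simp [B]
  refine ⟨B.coord i, ?_, ?_, ?_⟩
  · have := hB m
    rw [Function.update_self] at this
    rw [← this, Module.Basis.coord_apply, Module.Basis.repr_self, Finsupp.single_apply,
      if_neg him.symm]
  · have := hB i
    rw [Function.update_of_ne him] at this
    rw [← this, Module.Basis.coord_apply, Module.Basis.repr_self, Finsupp.single_apply,
      if_pos rfl]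
  · intro j hj hji
    have hjm : j ≠ m := fun h => hm (h ▸ hj)
    have := hB j
    rw [Function.update_of_ne hjm] at this
    rw [← this, Module.Basis.coord_apply, Module.Basis.repr_self, Finsupp.single_apply,
      if_neg hji]

theorem sum_zero (hlam : ∀ ε i, lam z x0 ε i ≠ 0)
    (hx : ∀ (j : ι) (ε : ι → Bool),
      LinearIndependent F (Function.update (fun i => z i (ε i)) j x0)) :
    ∀ (k : ℕ) (J : Finset ι) (n : ι → ℕ) (e : ι → Bool), (∀ j, n j ≠ 0 ↔ j ∈ J) →
      ∑ j, n j + 1 = Fintype.card ι → k + J.card + 1 = Fintype.card ι →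
      ∑ ε ∈ compat J e, sg ε * (∏ j, lam z x0 ε j ^ n j) * (∏ j, lam z x0 ε j)⁻¹ = 0 := by
  intro k
  induction k with
  | zero =>
    intro J n e hJ hn hk
    rw [zero_add] at hk
    -- the missing index
    obtain ⟨m, hm⟩ : ∃ m, m ∉ J := by
      by_contra h
      push Not at h
      have : J = univ := Finset.eq_univ_iff_forall.2 h
      rw [this, Finset.card_univ] at hk
      omega
    have hJm : univ.erase m = J := by
      symm
      apply Finset.eq_of_subset_of_card_le
      · intro j hj
        rw [Finset.mem_erase]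
        exact ⟨fun h => hm (h ▸ hj), mem_univ _⟩
      · rw [Finset.card_erase_of_mem (mem_univ m), Finset.card_univ]
        omega
    have hn0 : n m = 0 := by
      by_contra h
      exact hm ((hJ m).1 h)
    have hsum : ∑ j ∈ J, n j = J.card := by
      have := Finset.add_sum_erase univ n (mem_univ m)
      rw [hJm, hn0, zero_add] at this
      omega
    have hn1 : ∀ j ∈ J, n j = 1 := by
      have hge : ∀ j ∈ J, 1 ≤ n j := fun j hj => Nat.one_le_iff_ne_zero.2 ((hJ j).2 hj)
      have : ∑ j ∈ J, n j = ∑ j ∈ J, 1 := by rw [hsum]; simp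
      intro j hj
      exact ((Finset.sum_eq_sum_iff_of_le hge).1 this.symm j hj).symm
    have hval : ∀ ε, (∏ j, lam z x0 ε j ^ n j) * (∏ j, lam z x0 ε j)⁻¹ = (lam z x0 ε m)⁻¹ := by
      intro ε
      rw [← Finset.mul_prod_erase univ (fun j => lam z x0 ε j ^ n j) (mem_univ m),
        ← Finset.mul_prod_erase univ (fun j => lam z x0 ε j) (mem_univ m), hJm, hn0, pow_zero,
        one_mul]
      have h1 : ∏ x ∈ J, lam z x0 ε x ^ n x = ∏ x ∈ J, lam z x0 ε x :=
        Finset.prod_congr rfl fun j hj => by rw [hn1 j hj, pow_one]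
      rw [h1]
      have h2 : ∏ x ∈ J, lam z x0 ε x ≠ 0 := Finset.prod_ne_zero_iff.2 fun j _ => hlam ε j
      rw [mul_inv, mul_comm, mul_assoc, inv_mul_cancel₀ h2, mul_one]
    simp_rw [mul_assoc, hval]
    refine Finset.sum_involution (fun ε _ => Function.update ε m (!ε m)) ?_ ?_ ?_ ?_
    · intro ε _
      rw [sg_update, lam_update]
      ring
    · intro ε _ _ h
      have := congrFun h m
      rw [Function.update_self] at this
      cases h' : ε m <;> simp [h'] at this
    · intro ε hε
      rw [mem_compat] at hε ⊢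
      intro j hj
      have hjm : j ≠ m := fun h => hm (h ▸ hj)
      rw [Function.update_of_ne hjm]
      exact hε j hj
    · intro ε _
      simp
  | succ k ih =>
    intro J n e hJ hn hk
    obtain ⟨m, hm⟩ : ∃ m, m ∉ J := by
      by_contra h
      push Not at h
      have : J = univ := Finset.eq_univ_iff_forall.2 h
      rw [this, Finset.card_univ] at hk
      omega
    -- an index of multiplicity at least two
    obtain ⟨i, hi2⟩ : ∃ i, 2 ≤ n i := by
      by_contra h
      push Not at h
      have h1 : ∑ j, n j ≤ J.card := by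
        have : ∑ j, n j = ∑ j ∈ J, n j := by
          symm
          apply Finset.sum_subset (Finset.subset_univ _)
          intro j _ hj
          by_contra h0
          exact hj ((hJ j).1 h0)
        rw [this, Finset.card_eq_sum_ones]
        exact Finset.sum_le_sum fun j _ => by have := h j; omega
      omega
    have hiJ : i ∈ J := (hJ i).1 (by omega)
    obtain ⟨ψ, hψ0, hψ1, hψ2⟩ := exists_psi hx e hm hiJ
    set n' : ι → ℕ := fun j => if j = i then n i - 1 else n j with hn'
    have hprod : ∀ ε, ∏ j, lam z x0 ε j ^ n j =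
        lam z x0 ε i * ∏ j, lam z x0 ε j ^ n' j := by
      intro ε
      rw [← prod_single]
      refine Finset.prod_congr rfl fun j _ => ?_
      congr 1
      simp only [hn']
      split_ifs with h
      · subst h; omega
      · omega
    have hn's : ∑ j, n' j + 1 = ∑ j, n j := by
      have h1 := Finset.add_sum_erase univ n (mem_univ i)
      have h2 := Finset.add_sum_erase univ n' (mem_univ i)
      have h3 : ∑ x ∈ univ.erase i, n' x = ∑ x ∈ univ.erase i, n x := by
        refine Finset.sum_congr rfl fun x hx => ?_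
        simp [hn', Finset.ne_of_mem_erase hx]
      have h4 : n' i = n i - 1 := by simp [hn']
      omega
    have hn'J : ∀ j, n' j ≠ 0 ↔ j ∈ J := by
      intro j
      simp only [hn']
      split_ifs with h
      · subst h
        constructor
        · intro _; exact hiJ
        · intro _; omega
      · exact hJ j
    -- rewrite `lam i`
    have hrw : ∀ ε ∈ compat J e, lam z x0 ε i =
        - ∑ j ∈ Jᶜ, ψ (z j (ε j)) * lam z x0 ε j := by
      intro ε hε
      have h1 := cramer_id z x0 ε ψ
      rw [hψ0, mul_zero] at h1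
      have h2 : ∑ j ∈ J, lam z x0 ε j * ψ (z j (ε j)) = lam z x0 ε i := by
        rw [Finset.sum_eq_single i]
        · rw [mem_compat.1 hε i hiJ, hψ1, mul_one]
        · intro j hj hji
          rw [mem_compat.1 hε j hj, hψ2 j hj hji, mul_zero]
        · intro h; exact absurd hiJ h
      have h3 := Finset.sum_add_sum_compl J (fun j => lam z x0 ε j * ψ (z j (ε j)))
      rw [h2, h1] at h3
      have h4 : ∑ j ∈ Jᶜ, lam z x0 ε j * ψ (z j (ε j)) =
          ∑ j ∈ Jᶜ, ψ (z j (ε j)) * lam z x0 ε j :=
        Finset.sum_congr rfl fun j _ => mul_comm _ _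
      rw [h4] at h3
      exact eq_neg_of_add_eq_zero_left h3
    have hstep : ∑ ε ∈ compat J e, sg ε * (∏ j, lam z x0 ε j ^ n j) * (∏ j, lam z x0 ε j)⁻¹ =
        - ∑ m' ∈ Jᶜ, ∑ ε ∈ compat J e, ψ (z m' (ε m')) *
          (sg ε * (∏ j, lam z x0 ε j ^ (n' j + if j = m' then 1 else 0)) *
            (∏ j, lam z x0 ε j)⁻¹) := by
      rw [Finset.sum_comm, ← Finset.sum_neg_distrib]
      refine Finset.sum_congr rfl fun ε hε => ?_
      rw [hprod ε, hrw ε hε]
      simp_rw [prod_single]
      rw [neg_mul, mul_neg, neg_mul, Finset.sum_mul, Finset.mul_sum, Finset.sum_mul]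
      congr 1
      refine Finset.sum_congr rfl fun j _ => ?_
      ring
    rw [hstep, neg_eq_zero]
    refine Finset.sum_eq_zero fun m' hm' => ?_
    rw [Finset.mem_compl] at hm'
    refine split_sum J e m' (fun b => ψ (z m' b)) _ fun b => ?_
    refine ih (insert m' J) (fun j => n' j + if j = m' then 1 else 0)
      (Function.update e m' b) ?_ ?_ ?_
    · intro j
      rw [Finset.mem_insert]
      by_cases h : j = m'
      · simp [h]
      · simp only [h, if_false, add_zero, false_or]
        exact hn'J j
    · rw [Finset.sum_add_distrib]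
      simp only [Finset.sum_ite_eq', mem_univ, if_true]
      omega
    · rw [Finset.card_insert_of_notMem hm']
      omega

theorem sum_zero' (hlam : ∀ ε i, lam z x0 ε i ≠ 0)
    (hx : ∀ (j : ι) (ε : ι → Bool),
      LinearIndependent F (Function.update (fun i => z i (ε i)) j x0))
    (ψ : (ι → F) →ₗ[F] F) (hψ : ψ x0 = 1) :
    ∀ (a : ℕ) (J : Finset ι) (n : ι → ℕ) (e : ι → Bool), (∀ j, n j ≠ 0 ↔ j ∈ J) →
      a + ∑ j, n j + 1 = Fintype.card ι →
      ∑ ε ∈ compat J e, sg ε * D z ε ^ a * (∏ j, lam z x0 ε j ^ n j) *
        (∏ j, lam z x0 ε j)⁻¹ = 0 := by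
  intro a
  induction a with
  | zero =>
    intro J n e hJ hn
    have hle : J.card ≤ ∑ j, n j := by
      have h1 : ∑ j ∈ J, n j ≤ ∑ j, n j := Finset.sum_le_sum_of_subset (Finset.subset_univ _)
      refine le_trans ?_ h1
      rw [Finset.card_eq_sum_ones]
      exact Finset.sum_le_sum fun j hj => Nat.one_le_iff_ne_zero.2 ((hJ j).2 hj)
    have := sum_zero hlam hx (Fintype.card ι - 1 - J.card) J n e hJ (by omega) (by omega)
    simpa using this
  | succ a ih =>
    intro J n e hJ hn
    have hstep : ∑ ε ∈ compat J e, sg ε * D z ε ^ (a + 1) * (∏ j, lam z x0 ε j ^ n j) *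
          (∏ j, lam z x0 ε j)⁻¹ =
        ∑ i, ∑ ε ∈ compat J e, ψ (z i (ε i)) *
          (sg ε * D z ε ^ a * (∏ j, lam z x0 ε j ^ (n j + if j = i then 1 else 0)) *
            (∏ j, lam z x0 ε j)⁻¹) := by
      rw [Finset.sum_comm]
      refine Finset.sum_congr rfl fun ε _ => ?_
      have h1 := cramer_id z x0 ε ψ
      rw [hψ, mul_one] at h1
      simp_rw [prod_single]
      rw [pow_succ]
      conv_lhs => rw [← h1]
      rw [h1]
      have h2 : ∀ i, ψ (z i (ε i)) * (sg ε * D z ε ^ a *
          (lam z x0 ε i * ∏ j, lam z x0 ε j ^ n j) * (∏ j, lam z x0 ε j)⁻¹) =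
          (lam z x0 ε i * ψ (z i (ε i))) * (sg ε * D z ε ^ a *
          (∏ j, lam z x0 ε j ^ n j) * (∏ j, lam z x0 ε j)⁻¹) := by
        intro i; ring
      simp_rw [h2]
      rw [← Finset.sum_mul, h1]
      ring
    rw [hstep]
    refine Finset.sum_eq_zero fun i _ => ?_
    refine split_sum J e i (fun b => ψ (z i b)) _ fun b => ?_
    refine ih (insert i J) (fun j => n j + if j = i then 1 else 0)
      (Function.update e i b) ?_ ?_
    · intro j
      rw [Finset.mem_insert]
      by_cases h : j = i
      · simp [h]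
      · simp only [h, if_false, add_zero, false_or]
        exact hJ j
    · rw [Finset.sum_add_distrib]
      simp only [Finset.sum_ite_eq', mem_univ, if_true]
      omega

theorem full_zero (hlam : ∀ ε i, lam z x0 ε i ≠ 0)
    (hx : ∀ (j : ι) (ε : ι → Bool),
      LinearIndependent F (Function.update (fun i => z i (ε i)) j x0))
    (ψ : (ι → F) →ₗ[F] F) (hψ : ψ x0 = 1) (i0 : ι) (a c : ℕ)
    (hac : a + c + 1 = Fintype.card ι) :
    ∑ ε : ι → Bool, sg ε * D z ε ^ a * lam z x0 ε i0 ^ c * (∏ j, lam z x0 ε j)⁻¹ = 0 := by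
  have huniv : compat (∅ : Finset ι) (fun _ => false) = univ := by
    ext ε; simp [mem_compat]
  have hp : ∀ ε, ∏ j, lam z x0 ε j ^ (if j = i0 then c else 0) = lam z x0 ε i0 ^ c := by
    intro ε
    rw [Finset.prod_eq_single i0]
    · simp
    · intro j _ hj; simp [hj]
    · intro h; exact absurd (mem_univ _) h
  rcases Nat.eq_zero_or_pos c with rfl | hc
  · have := sum_zero' hlam hx ψ hψ a ∅ (fun _ => 0) (fun _ => false) (by simp) (by simpa using hac)
    rw [huniv] at this
    simpa using this
  · have := split_sum (F := F) ∅ (fun _ => false) i0 (fun _ => 1)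
      (fun ε => sg ε * D z ε ^ a * (∏ j, lam z x0 ε j ^ (if j = i0 then c else 0)) *
        (∏ j, lam z x0 ε j)⁻¹) (fun b =>
        sum_zero' hlam hx ψ hψ a (insert i0 ∅) (fun j => if j = i0 then c else 0)
          (Function.update (fun _ => false) i0 b) (by
            intro j
            by_cases h : j = i0
            · simp [h]; omega
            · simp [h]) (by
            simp; omega))
    rw [huniv] at this
    simp_rw [hp, one_mul] at this
    exact this

/-- The circuit bound in coordinates. -/
theorem core [Fintype F] (hD : ∀ ε : ι → Bool, (∃ i, ε i = true) →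
      LinearIndependent F (fun i => z i (ε i)))
    (hD0 : ¬ LinearIndependent F (fun i => z i false))
    (hx : ∀ (j : ι) (ε : ι → Bool),
      LinearIndependent F (Function.update (fun i => z i (ε i)) j x0)) :
    Fintype.card ι + 1 ≤ Fintype.card F := by
  classical
  by_contra hlt
  rw [not_le] at hlt
  have hne : Nonempty ι := by
    by_contra h
    rw [not_nonempty_iff] at h
    exact hD0 linearIndependent_empty_type
  obtain ⟨i0⟩ := hne
  have hdet : ∀ M : Matrix ι ι F, LinearIndependent F (fun i => M i) ↔ M.det ≠ 0 := by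
    intro M
    have h1 : LinearIndependent F (fun i => M i) ↔ IsUnit M :=
      Matrix.linearIndependent_rows_iff_isUnit
    rw [h1, Matrix.isUnit_iff_isUnit_det, isUnit_iff_ne_zero]
  have hlam : ∀ ε i, lam z x0 ε i ≠ 0 := by
    intro ε i
    refine (hdet _).1 ?_
    exact hx i ε
  have hDne : ∀ ε : ι → Bool, ε ≠ (fun _ => false) → D z ε ≠ 0 := by
    intro ε hε
    refine (hdet _).1 (hD ε ?_)
    by_contra h
    push Not at h
    exact hε (funext fun i => by simpa using h i)
  have hDz : D z (fun _ => false) = 0 := by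
    by_contra h
    exact hD0 ((hdet _).2 h)
  -- a functional with value one at `x0`
  have hx0 : x0 ≠ 0 := by
    have := (hx i0 (fun _ => false)).ne_zero i0
    rwa [Function.update_self] at this
  obtain ⟨ψ, hψ⟩ : ∃ ψ : (ι → F) →ₗ[F] F, ψ x0 = 1 := by
    obtain ⟨i, hi⟩ := Function.ne_iff.1 hx0
    refine ⟨(x0 i)⁻¹ • LinearMap.proj i, ?_⟩
    simp only [LinearMap.smul_apply, LinearMap.proj_apply, smul_eq_mul]
    exact inv_mul_cancel₀ hi
  set q := Fintype.card F with hq
  have hq2 : 1 < q := Fintype.one_lt_card
  have hA := full_zero hlam hx ψ hψ i0 (q - 1) (Fintype.card ι - q) (by omega)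
  have hB := full_zero hlam hx ψ hψ i0 0 (Fintype.card ι - 1) (by omega)
  have hAB : ∑ ε : ι → Bool, (sg ε * D z ε ^ (q - 1) * lam z x0 ε i0 ^ (Fintype.card ι - q) *
      (∏ j, lam z x0 ε j)⁻¹ - sg ε * D z ε ^ 0 * lam z x0 ε i0 ^ (Fintype.card ι - 1) *
      (∏ j, lam z x0 ε j)⁻¹) = 0 := by
    rw [Finset.sum_sub_distrib, hA, hB, sub_zero]
  rw [Finset.sum_eq_single (fun _ => false)] at hAB
  · rw [hDz, zero_pow (by omega), mul_zero, zero_mul, zero_mul, zero_sub, neg_eq_zero, pow_zero,
      mul_one] at hAB
    have h1 : (sg (fun _ : ι => false) : F) = 1 := by simp [sg]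
    rw [h1, one_mul, mul_eq_zero] at hAB
    rcases hAB with h | h
    · exact pow_ne_zero _ (hlam _ _) h
    · exact inv_ne_zero (Finset.prod_ne_zero_iff.2 fun j _ => hlam _ j) h
  · intro ε _ hε
    have h1 : D z ε ^ (q - 1) = 1 := FiniteField.pow_card_sub_one_eq_one _ (hDne ε hε)
    have h2 : lam z x0 ε i0 ^ (q - 1) = 1 := FiniteField.pow_card_sub_one_eq_one _ (hlam ε i0)
    have h3 : lam z x0 ε i0 ^ (Fintype.card ι - 1) = lam z x0 ε i0 ^ (Fintype.card ι - q) := by
      have : Fintype.card ι - 1 = (q - 1) + (Fintype.card ι - q) := by omega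
      rw [this, pow_add, h2, one_mul]
    rw [h1, h3, pow_zero]
    ring
  · intro h; exact absurd (mem_univ _) h

/-- **The circuit bound.** Let `V` be a vector space over the finite field `F` of dimension `|ι|`,
`z i false`, `z i true` vectors and `x0` a vector. If every family `z i (ε i)` with `ε ≠ 0` is
independent, the family `z i false` is dependent, and every family obtained from some `z i (ε i)`
by replacing one vector by `x0` is independent, then `|ι| + 1 ≤ |F|`. -/
theorem circuit_bound {V : Type*} [AddCommGroup V] [Module F V] [Fintype F]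
    (hV : Module.finrank F V = Fintype.card ι) (z : ι → Bool → V) (x0 : V)
    (hD : ∀ ε : ι → Bool, (∃ i, ε i = true) → LinearIndependent F (fun i => z i (ε i)))
    (hD0 : ¬ LinearIndependent F (fun i => z i false))
    (hx : ∀ (j : ι) (ε : ι → Bool),
      LinearIndependent F (Function.update (fun i => z i (ε i)) j x0)) :
    Fintype.card ι + 1 ≤ Fintype.card F := by
  have hne : Nonempty ι := by
    by_contra h
    rw [not_nonempty_iff] at h
    exact hD0 linearIndependent_empty_type
  have hpos : 0 < Module.finrank F V := by rw [hV]; exact Fintype.card_pos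
  have : FiniteDimensional F V := Module.finite_of_finrank_pos hpos
  have e : V ≃ₗ[F] (ι → F) := LinearEquiv.ofFinrankEq _ _ (by simp [hV])
  have hli : ∀ v : ι → V, LinearIndependent F (fun i => e (v i)) ↔ LinearIndependent F v := by
    intro v
    exact (LinearMap.linearIndependent_iff (e : V →ₗ[F] (ι → F)) (by simp))
  refine core (z := fun i b => e (z i b)) (x0 := e x0) ?_ ?_ ?_
  · intro ε hε
    exact (hli _).2 (hD ε hε)
  · intro h
    exact hD0 ((hli _).1 h)
  · intro j ε
    have h1 : Function.update (fun i => e (z i (ε i))) j (e x0) =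
        fun i => e (Function.update (fun i => z i (ε i)) j x0 i) := by
      ext i k
      by_cases h : i = j
      · subst h; simp
      · simp [Function.update_of_ne h]
    rw [h1]
    exact (hli _).2 (hx j ε)

end Pool.Agent.Helper39.GamAlg
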