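import Mathlib

open MeasureTheory Set Filter Topology
open scoped ENNReal NNReal

namespace Pool.Agent.Helper39

lemma four_prod {W S : Type*} [MeasurableSpace W] [MeasurableSpace S] (μ : Measure W) (ν : Measure S)
    [SFinite μ] [SFinite ν] {G : W → S → W → S → ℝ≥0∞}
    (hG : Measurable (fun q : (W × S) × (W × S) => G q.1.1 q.1.2 q.2.1 q.2.2)) :
    ∫⁻ ξ, ∫⁻ ξ', G ξ.1 ξ.2 ξ'.1 ξ'.2 ∂(μ.prod ν) ∂(μ.prod ν) =
      ∫⁻ w, ∫⁻ w', ∫⁻ s, ∫⁻ s', G w s w' s' ∂ν ∂ν ∂μ ∂μ := by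
  have h1 : Measurable (fun ξ : W × S => ∫⁻ ξ', G ξ.1 ξ.2 ξ'.1 ξ'.2 ∂(μ.prod ν)) :=
    hG.lintegral_prod_right'
  rw [lintegral_prod _ h1.aemeasurable]
  refine lintegral_congr (fun w => ?_)
  have h2 : ∀ s : S, ∫⁻ ξ', G w s ξ'.1 ξ'.2 ∂(μ.prod ν) = ∫⁻ w', ∫⁻ s', G w s w' s' ∂ν ∂μ := by
    intro s
    have h3 : Measurable (fun ξ' : W × S => G w s ξ'.1 ξ'.2) :=
      hG.comp (f := fun ξ' : W × S => ((w, s), ξ')) (by fun_prop)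
    rw [lintegral_prod _ h3.aemeasurable]
  simp only [h2]
  apply lintegral_lintegral_swap
  have h4 : Measurable (fun q : (S × W) × S => G w q.1.1 q.1.2 q.2) :=
    hG.comp (f := fun q : (S × W) × S => ((w, q.1.1), (q.1.2, q.2))) (by fun_prop)
  exact h4.lintegral_prod_right'.aemeasurable

lemma three_swap {L X : Type*} [MeasurableSpace L] [MeasurableSpace X] (lam : Measure L) (μ : Measure X)
    [SFinite lam] [SFinite μ] {Φ : L → X → X → ℝ≥0∞}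
    (hΦ : Measurable (fun q : L × (X × X) => Φ q.1 q.2.1 q.2.2)) :
    ∫⁻ l, ∫⁻ ξ, ∫⁻ ξ', Φ l ξ ξ' ∂μ ∂μ ∂lam = ∫⁻ ξ, ∫⁻ ξ', ∫⁻ l, Φ l ξ ξ' ∂lam ∂μ ∂μ := by
  have h1 : ∫⁻ l, ∫⁻ ξ, ∫⁻ ξ', Φ l ξ ξ' ∂μ ∂μ ∂lam = ∫⁻ l, ∫⁻ z, Φ l z.1 z.2 ∂(μ.prod μ) ∂lam := by
    refine lintegral_congr (fun l => ?_)
    have h3 : Measurable (fun z : X × X => Φ l z.1 z.2) :=
      hΦ.comp (f := fun z : X × X => (l, z)) (by fun_prop)
    rw [lintegral_prod _ h3.aemeasurable]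
  rw [h1, lintegral_lintegral_swap hΦ.aemeasurable]
  have h4 : Measurable (fun z : X × X => ∫⁻ l, Φ l z.1 z.2 ∂lam) := by
    have h5 : Measurable (fun q : (X × X) × L => Φ q.2 q.1.1 q.1.2) :=
      hΦ.comp (f := fun q : (X × X) × L => (q.2, q.1)) (by fun_prop)
    exact h5.lintegral_prod_right'
  rw [lintegral_prod _ h4.aemeasurable]

end Pool.Agent.Helper39
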