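import Pool.Agent.Helper39.Jac2

open MeasureTheory Set Filter Topology
open scoped ENNReal NNReal Matrix ContDiff

namespace Pool.Agent.Helper39

variable {m : ℕ}

/-- the linear homotopy -/
noncomputable def hom (f W : EE m → EE m) (s : ℝ) : EE m → EE m := fun v => f v + s • W v

lemma hom_contDiff {f W : EE m → EE m} {n : ℕ∞} (hf : ContDiff ℝ n f) (hW : ContDiff ℝ n W) (s : ℝ) :
    ContDiff ℝ n (hom f W s) := by
  unfold hom
  fun_prop

lemma hom_cols {f W : EE m → EE m} (hf : ContDiff ℝ 2 f) (hW : ContDiff ℝ 2 W) (s : ℝ) (v : EE m) :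
    cols (hom f W s) v = fun j => cols f v j + s • cols W v j := by
  ext1 j
  have h1 : DifferentiableAt ℝ f v := (hf.differentiable (by norm_num)) v
  have h2 : DifferentiableAt ℝ W v := (hW.differentiable (by norm_num)) v
  have h3 : HasFDerivAt (hom f W s) (fderiv ℝ f v + s • fderiv ℝ W v) v :=
    h1.hasFDerivAt.add (h2.hasFDerivAt.const_smul s)
  unfold cols
  rw [h3.fderiv]
  rfl

/-- the integrand -/
noncomputable def GG (φ : EE m → ℝ) (f W : EE m → EE m) (s : ℝ) (v : EE m) : ℝ :=
  φ (f v + s • W v) * dtM m (fun j => cols f v j + s • cols W v j)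

/-- its `s` derivative -/
noncomputable def GG' (φ : EE m → ℝ) (f W : EE m → EE m) (s : ℝ) (v : EE m) : ℝ :=
  fderiv ℝ φ (f v + s • W v) (W v) * dtM m (fun j => cols f v j + s • cols W v j) +
    φ (f v + s • W v) * ∑ j, dtM m (Function.update (fun j => cols f v j + s • cols W v j) j (cols W v j))

lemma GG_hasDerivAt {φ : EE m → ℝ} {f W : EE m → EE m} (hφ : ContDiff ℝ 1 φ) (s : ℝ) (v : EE m) :
    HasDerivAt (fun s => GG φ f W s v) (GG' φ f W s v) s := by
  have h1 : HasDerivAt (fun s : ℝ => f v + s • W v) (W v) s := by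
    have := ((hasDerivAt_id s).smul_const (W v)).const_add (f v)
    simpa using this
  have h2 : HasDerivAt (fun s : ℝ => φ (f v + s • W v)) (fderiv ℝ φ (f v + s • W v) (W v)) s := by
    have hφd : DifferentiableAt ℝ φ (f v + s • W v) := (hφ.differentiable (by norm_num)) _
    exact hφd.hasFDerivAt.comp_hasDerivAt s h1
  have h3 : ∀ j, HasFDerivAt (fun s : ℝ => cols f v j + s • cols W v j)
      (ContinuousLinearMap.toSpanSingleton ℝ (cols W v j)) s := by
    intro j
    have := ((hasDerivAt_id s).smul_const (cols W v j)).const_add (cols f v j)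
    have := this.hasFDerivAt
    simp only [one_smul, id] at this
    exact this
  have h4 := (hasFDerivAt_dtM h3).hasDerivAt
  have h5 := h2.mul h4
  have e : (∑ i, ((dtM m).toContinuousLinearMap (fun j => cols f v j + s • cols W v j) i).comp
      (ContinuousLinearMap.toSpanSingleton ℝ (cols W v i))) 1 =
      ∑ j, dtM m (Function.update (fun j => cols f v j + s • cols W v j) j (cols W v j)) := by
    simp [ContinuousMultilinearMap.toContinuousLinearMap_apply]
  rw [e] at h5
  exact h5

lemma GG'_eq {φ : EE m → ℝ} {f W : EE m → EE m} (hφ : ContDiff ℝ 1 φ)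
    (hf : ContDiff ℝ 2 f) (hW : ContDiff ℝ 2 W) (s : ℝ) (v : EE m) :
    GG' φ f W s v = ∑ j, fderiv ℝ (XX φ (hom f W s) W j) v (bv j) := by
  rw [piola hφ (hom_contDiff hf hW s) (hW.of_le (by norm_num)) v, hom_cols hf hW s v]
  rfl

lemma cols_cont {f : EE m → EE m} (hf : ContDiff ℝ 2 f) (j : Fin m) : Continuous (fun v => cols f v j) := by
  have h := (hf.continuous_fderiv (by norm_num))
  exact h.clm_apply continuous_const

lemma GG'_cont {φ : EE m → ℝ} {f W : EE m → EE m} (hφ : ContDiff ℝ 1 φ)
    (hf : ContDiff ℝ 2 f) (hW : ContDiff ℝ 2 W) :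
    Continuous (fun p : ℝ × EE m => GG' φ f W p.1 p.2) := by
  have hfc := hf.continuous
  have hWc := hW.continuous
  have hφc := hφ.continuous
  have hφd := hφ.continuous_fderiv (by norm_num)
  have h1 : Continuous (fun p : ℝ × EE m => f p.2 + p.1 • W p.2) := by fun_prop
  have hcf : ∀ j, Continuous (fun v => cols f v j) := cols_cont hf
  have hcW : ∀ j, Continuous (fun v => cols W v j) := cols_cont hW
  have h2 : ∀ j, Continuous (fun p : ℝ × EE m => cols f p.2 j + p.1 • cols W p.2 j) := by
    intro j
    have a := (hcf j).comp (continuous_snd (X := ℝ) (Y := EE m))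
    have b := (hcW j).comp (continuous_snd (X := ℝ) (Y := EE m))
    exact a.add (continuous_fst.smul b)
  unfold GG'
  refine ((Continuous.clm_apply (hφd.comp h1) (hWc.comp continuous_snd)).mul
    ((dtM m).cont.comp (continuous_pi h2))).add ((hφc.comp h1).mul (continuous_finsetSum _ (fun j _ => ?_)))
  refine (dtM m).cont.comp (continuous_pi (fun i => ?_))
  by_cases hij : i = j
  · subst hij
    simp only [Function.update_self]
    exact (hcW i).comp continuous_snd
  · simp only [Function.update_of_ne hij]
    exact h2 i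

end Pool.Agent.Helper39
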