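import Pool.Agent.Helper39.Homot

open MeasureTheory Set Filter Topology
open scoped ENNReal NNReal Matrix ContDiff

namespace Pool.Agent.Helper39

variable {m : ℕ}

/-- the functional `∫ ζ φ(f) det Df` -/
noncomputable def JJ (ζ φ : EE m → ℝ) (f : EE m → EE m) : ℝ := ∫ v, ζ v * (φ (f v) * jac f v)

lemma XX_cont {φ : EE m → ℝ} {H W : EE m → EE m} (hφ : ContDiff ℝ 1 φ)
    (hH : ContDiff ℝ 2 H) (hW : ContDiff ℝ 2 W) (j : Fin m) : Continuous (XX φ H W j) := by
  unfold XX
  have hφc := hφ.continuous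
  have hHc := hH.continuous
  refine (hφc.comp hHc).mul ((dtM m).cont.comp (continuous_pi (fun i => ?_)))
  by_cases hij : i = j
  · subst hij
    simp only [Function.update_self]
    exact hW.continuous
  · simp only [Function.update_of_ne hij]
    exact cols_cont hH i

lemma XX_contDiff {φ : EE m → ℝ} {H W : EE m → EE m} (hφ : ContDiff ℝ 1 φ)
    (hH : ContDiff ℝ 2 H) (hW : ContDiff ℝ 2 W) (j : Fin m) : ContDiff ℝ 1 (XX φ H W j) := by
  unfold XX
  have h1 : ContDiff ℝ 1 (fun v => φ (H v)) := hφ.comp (hH.of_le (by norm_num))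
  have h2 : ContDiff ℝ 1 (fun v => Function.update (cols H v) j (W v)) := by
    refine contDiff_pi.2 (fun i => ?_)
    by_cases hij : i = j
    · subst hij
      simp only [Function.update_self]
      exact hW.of_le (by norm_num)
    · simp only [Function.update_of_ne hij]
      exact cols_contDiff (n := 1) (by norm_num; exact hH) i
  exact h1.mul ((dtM m).contDiff.comp h2)

/-- integration by parts for the `s` derivative -/
lemma int_GG' {ζ φ : EE m → ℝ} {f W : EE m → EE m} (hζ : ContDiff ℝ 1 ζ) (hζc : HasCompactSupport ζ)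
    (hφ : ContDiff ℝ 1 φ) (hf : ContDiff ℝ 2 f) (hW : ContDiff ℝ 2 W) (s : ℝ) :
    ∫ v, ζ v * GG' φ f W s v = - ∑ j, ∫ v, fderiv ℝ ζ v (bv j) * XX φ (hom f W s) W j v := by
  have hH := hom_contDiff (n := 2) hf hW s
  have hX := fun j => XX_contDiff hφ hH hW j
  have hXc := fun j => (hX j).continuous
  have hX' : ∀ j, Continuous (fun v => fderiv ℝ (XX φ (hom f W s) W j) v (bv j)) := fun j =>
    ((hX j).continuous_fderiv (by norm_num)).clm_apply continuous_const
  have hζ' : ∀ j : Fin m, Continuous (fun v => fderiv ℝ ζ v (bv j)) := fun j =>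
    (hζ.continuous_fderiv (by norm_num)).clm_apply continuous_const
  have hζ'c : ∀ j : Fin m, HasCompactSupport (fun v => fderiv ℝ ζ v (bv j)) := fun j =>
    hζc.fderiv_apply (𝕜 := ℝ) _
  have i1 : ∀ j, Integrable (fun v => ζ v * fderiv ℝ (XX φ (hom f W s) W j) v (bv j)) := fun j =>
    (hζ.continuous.mul (hX' j)).integrable_of_hasCompactSupport hζc.mul_right
  have i2 : ∀ j, Integrable (fun v => fderiv ℝ ζ v (bv j) * XX φ (hom f W s) W j v) := fun j =>
    ((hζ' j).mul (hXc j)).integrable_of_hasCompactSupport (hζ'c j).mul_right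
  have i3 : ∀ j, Integrable (fun v => ζ v * XX φ (hom f W s) W j v) := fun j =>
    (hζ.continuous.mul (hXc j)).integrable_of_hasCompactSupport hζc.mul_right
  calc ∫ v, ζ v * GG' φ f W s v
      = ∫ v, ∑ j, ζ v * fderiv ℝ (XX φ (hom f W s) W j) v (bv j) := by
        congr 1
        ext v
        rw [GG'_eq hφ hf hW, Finset.mul_sum]
    _ = ∑ j, ∫ v, ζ v * fderiv ℝ (XX φ (hom f W s) W j) v (bv j) := integral_finsetSum _ (fun j _ => i1 j)
    _ = ∑ j, - ∫ v, fderiv ℝ ζ v (bv j) * XX φ (hom f W s) W j v := by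
        refine Finset.sum_congr rfl (fun j _ => ?_)
        exact integral_mul_fderiv_eq_neg_fderiv_mul_of_integrable (i2 j) (i1 j) (i3 j)
          (fun x _ => (hζ.differentiable (by norm_num)) x) (fun x _ => ((hX j).differentiable (by norm_num)) x)
    _ = _ := by rw [Finset.sum_neg_distrib]

lemma bv_norm (j : Fin m) : ‖bv j‖ = 1 := by simp [bv]

/-- main estimate for the derivative -/
lemma int_GG'_bound {ζ φ : EE m → ℝ} {f W : EE m → EE m} (hζ : ContDiff ℝ 1 ζ) (hζc : HasCompactSupport ζ)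
    (hφ : ContDiff ℝ 1 φ) (hφb : ∀ x, |φ x| ≤ 1) (hf : ContDiff ℝ 2 f) (hW : ContDiff ℝ 2 W) (s : ℝ)
    {δ M : ℝ} (hδ : 0 ≤ δ) (hM : 0 ≤ M)
    (hb : ∀ v, fderiv ℝ ζ v ≠ 0 → ‖W v‖ ≤ δ ∧ ‖fderiv ℝ (hom f W s) v‖ ≤ M) :
    |∫ v, ζ v * GG' φ f W s v| ≤ m * (‖dtM m‖ * (∫ v, ‖fderiv ℝ ζ v‖) * δ * M ^ (m - 1)) := by
  rw [int_GG' hζ hζc hφ hf hW, abs_neg]
  have hζi : Integrable (fun v => ‖fderiv ℝ ζ v‖) :=
    Continuous.integrable_of_hasCompactSupport (hζ.continuous_fderiv (by norm_num)).norm (hζc.fderiv (𝕜 := ℝ)).norm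
  have h1 : ∀ j, |∫ v, fderiv ℝ ζ v (bv j) * XX φ (hom f W s) W j v| ≤
      ‖dtM m‖ * (∫ v, ‖fderiv ℝ ζ v‖) * δ * M ^ (m - 1) := by
    intro j
    calc |∫ v, fderiv ℝ ζ v (bv j) * XX φ (hom f W s) W j v|
        ≤ ∫ v, ‖fderiv ℝ ζ v‖ * (‖dtM m‖ * (δ * M ^ (m - 1))) := by
          rw [← Real.norm_eq_abs]
          refine norm_integral_le_of_norm_le (hζi.mul_const _) (Eventually.of_forall (fun v => ?_))
          rw [norm_mul]
          by_cases hv : fderiv ℝ ζ v = 0
          · simp [hv]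
          · obtain ⟨hb1, hb2⟩ := hb v hv
            have e1 : ‖fderiv ℝ ζ v (bv j)‖ ≤ ‖fderiv ℝ ζ v‖ := by
              have := (fderiv ℝ ζ v).le_opNorm (bv j)
              rwa [bv_norm, mul_one] at this
            have e2 : ‖XX φ (hom f W s) W j v‖ ≤ ‖dtM m‖ * (δ * M ^ (m - 1)) := by
              unfold XX
              rw [norm_mul]
              have e3 : ‖dtM m (Function.update (cols (hom f W s) v) j (W v))‖ ≤
                  ‖dtM m‖ * (δ * M ^ (m - 1)) := by
                refine ((dtM m).le_opNorm _).trans ?_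
                refine mul_le_mul_of_nonneg_left ?_ (norm_nonneg _)
                rw [← Finset.mul_prod_erase _ _ (Finset.mem_univ j)]
                simp only [Function.update_self]
                refine mul_le_mul hb1 ?_ (Finset.prod_nonneg (fun _ _ => norm_nonneg _)) hδ
                calc ∏ x ∈ Finset.univ.erase j, ‖Function.update (cols (hom f W s) v) j (W v) x‖
                    ≤ ∏ x ∈ Finset.univ.erase j, M := by
                      refine Finset.prod_le_prod (fun _ _ => norm_nonneg _) (fun i hi => ?_)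
                      have hij : i ≠ j := (Finset.mem_erase.1 hi).1
                      rw [Function.update_of_ne hij]
                      unfold cols
                      refine ((fderiv ℝ (hom f W s) v).le_opNorm (bv i)).trans ?_
                      rw [bv_norm, mul_one]
                      exact hb2
                  _ = M ^ (m - 1) := by simp
              calc ‖φ (hom f W s v)‖ * ‖dtM m (Function.update (cols (hom f W s) v) j (W v))‖
                  ≤ 1 * (‖dtM m‖ * (δ * M ^ (m - 1))) :=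
                    mul_le_mul (hφb _) e3 (norm_nonneg _) zero_le_one
                _ = _ := one_mul _
            exact mul_le_mul e1 e2 (norm_nonneg _) (norm_nonneg _)
      _ = _ := by rw [integral_mul_const]; ring
  calc |∑ j, ∫ v, fderiv ℝ ζ v (bv j) * XX φ (hom f W s) W j v|
      ≤ ∑ j, |∫ v, fderiv ℝ ζ v (bv j) * XX φ (hom f W s) W j v| := Finset.abs_sum_le_sum_abs _ _
    _ ≤ ∑ j : Fin m, ‖dtM m‖ * (∫ v, ‖fderiv ℝ ζ v‖) * δ * M ^ (m - 1) := Finset.sum_le_sum (fun j _ => h1 j)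
    _ = _ := by simp

lemma int_GG_hasDerivAt {ζ φ : EE m → ℝ} {f W : EE m → EE m} (hζ : ContDiff ℝ 1 ζ) (hζc : HasCompactSupport ζ)
    (hφ : ContDiff ℝ 1 φ) (hf : ContDiff ℝ 2 f) (hW : ContDiff ℝ 2 W) (s : ℝ) :
    HasDerivAt (fun s => ∫ v, ζ v * GG φ f W s v) (∫ v, ζ v * GG' φ f W s v) s := by
  have hc := GG'_cont hφ hf hW
  have hcz : Continuous (fun p : ℝ × EE m => ζ p.2 * GG' φ f W p.1 p.2) :=
    (hζ.continuous.comp continuous_snd).mul hc
  have hK : IsCompact (Metric.closedBall s 1 ×ˢ tsupport ζ) := (isCompact_closedBall s 1).prod hζc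
  obtain ⟨C, hC⟩ := hK.exists_bound_of_continuousOn hcz.continuousOn
  have hGc : ∀ s, Continuous (fun v => GG φ f W s v) := by
    intro s
    unfold GG
    have h2 : ∀ j, Continuous (fun v => cols f v j + s • cols W v j) := by
      intro j
      have := cols_cont hf j
      have := cols_cont hW j
      fun_prop
    have := hf.continuous
    have := hW.continuous
    have := hφ.continuous
    exact Continuous.mul (by fun_prop) ((dtM m).cont.comp (continuous_pi h2))
  refine (hasDerivAt_integral_of_dominated_loc_of_deriv_le (bound := fun v => (tsupport ζ).indicator (fun _ => C) v)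
    (F' := fun s v => ζ v * GG' φ f W s v) (Metric.closedBall_mem_nhds s one_pos) ?_ ?_ ?_ ?_ ?_ ?_).2
  · exact Eventually.of_forall (fun x => (hζ.continuous.mul (hGc x)).aestronglyMeasurable)
  · exact (hζ.continuous.mul (hGc s)).integrable_of_hasCompactSupport hζc.mul_right
  · exact (hcz.comp (Continuous.prodMk_right s)).aestronglyMeasurable
  · refine Eventually.of_forall (fun v x hx => ?_)
    by_cases hv : v ∈ tsupport ζ
    · rw [indicator_of_mem hv]
      exact hC (x, v) ⟨hx, hv⟩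
    · rw [indicator_of_notMem hv, image_eq_zero_of_notMem_tsupport hv]
      simp
  · rw [integrable_indicator_iff (isClosed_tsupport ζ).measurableSet]
    exact integrableOn_const (hζc.measure_lt_top.ne)
  · exact Eventually.of_forall (fun v x _ => (GG_hasDerivAt hφ x v).const_mul _)

/-- **Homotopy estimate.** -/
theorem homotopy_bound {ζ φ : EE m → ℝ} {f g : EE m → EE m} (hζ : ContDiff ℝ 1 ζ) (hζc : HasCompactSupport ζ)
    (hφ : ContDiff ℝ 1 φ) (hφb : ∀ x, |φ x| ≤ 1) (hf : ContDiff ℝ 2 f) (hg : ContDiff ℝ 2 g)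
    {δ M : ℝ} (hδ : 0 ≤ δ) (hM : 0 ≤ M)
    (hb : ∀ v, fderiv ℝ ζ v ≠ 0 → ‖g v - f v‖ ≤ δ ∧ ‖fderiv ℝ f v‖ ≤ M ∧ ‖fderiv ℝ g v‖ ≤ M) :
    |JJ ζ φ g - JJ ζ φ f| ≤ m * (‖dtM m‖ * (∫ v, ‖fderiv ℝ ζ v‖) * δ * M ^ (m - 1)) := by
  set W : EE m → EE m := fun v => g v - f v with hWdef
  have hW : ContDiff ℝ 2 W := hg.sub hf
  have hcW : ∀ v, cols W v = fun j => cols g v j - cols f v j := by
    intro v
    ext1 j
    unfold cols
    have h1 : DifferentiableAt ℝ f v := (hf.differentiable (by norm_num)) v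
    have h2 : DifferentiableAt ℝ g v := (hg.differentiable (by norm_num)) v
    rw [hWdef, fderiv_fun_sub h2 h1]
    rfl
  have h0 : (fun s => ∫ v, ζ v * GG φ f W s v) 0 = JJ ζ φ f := by
    simp only [JJ, GG, jac, zero_smul, add_zero]
  have h1 : (fun s => ∫ v, ζ v * GG φ f W s v) 1 = JJ ζ φ g := by
    simp only [JJ, GG, jac, one_smul, hcW]
    congr 1
    ext v
    simp [hWdef]
  rw [← h0, ← h1]
  refine norm_image_sub_le_of_norm_deriv_le_segment_01'
    (fun s _ => (int_GG_hasDerivAt hζ hζc hφ hf hW s).hasDerivWithinAt) (fun s hs => ?_)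
  refine int_GG'_bound hζ hζc hφ hφb hf hW s hδ hM (fun v hv => ?_)
  obtain ⟨hb1, hb2, hb3⟩ := hb v hv
  refine ⟨hb1, ?_⟩
  have h1 : DifferentiableAt ℝ f v := (hf.differentiable (by norm_num)) v
  have h2 : DifferentiableAt ℝ g v := (hg.differentiable (by norm_num)) v
  have h3 : HasFDerivAt (hom f W s) (fderiv ℝ f v + s • (fderiv ℝ g v - fderiv ℝ f v)) v :=
    h1.hasFDerivAt.add ((h2.hasFDerivAt.sub h1.hasFDerivAt).const_smul s)
  rw [h3.fderiv]
  have e : fderiv ℝ f v + s • (fderiv ℝ g v - fderiv ℝ f v) = (1 - s) • fderiv ℝ f v + s • fderiv ℝ g v := by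
    module
  rw [e]
  calc ‖(1 - s) • fderiv ℝ f v + s • fderiv ℝ g v‖ ≤ ‖(1 - s) • fderiv ℝ f v‖ + ‖s • fderiv ℝ g v‖ := norm_add_le _ _
    _ = (1 - s) * ‖fderiv ℝ f v‖ + s * ‖fderiv ℝ g v‖ := by
        rw [norm_smul, norm_smul, Real.norm_of_nonneg (by linarith [hs.2]), Real.norm_of_nonneg hs.1]
    _ ≤ (1 - s) * M + s * M := by
        have := hs.1
        have := hs.2
        gcongr
    _ = M := by ring

end Pool.Agent.Helper39
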