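import Mathlib

open MeasureTheory Set Filter Topology
open scoped ENNReal NNReal Matrix

namespace Pool.Agent.Helper39

/-- Euclidean space of dimension `m`. -/
abbrev EE (m : ℕ) := EuclideanSpace ℝ (Fin m)

variable {m : ℕ}

/-- as an alternating map -/
noncomputable def dtA (m : ℕ) : (EE m) [⋀^Fin m]→ₗ[ℝ] ℝ :=
  (Matrix.detRowAlternating (n := Fin m) (R := ℝ)).compLinearMap
    (WithLp.linearEquiv 2 ℝ (Fin m → ℝ)).toLinearMap

lemma dtA_apply (u : Fin m → EE m) : dtA m u = Matrix.det (fun j i => u j i) := rfl

lemma dtA_cont : Continuous (fun u : Fin m → EE m => dtA m u) := by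
  simp only [dtA_apply]
  apply Continuous.matrix_det
  fun_prop

/-- determinant as a continuous multilinear map -/
noncomputable def dtM (m : ℕ) : ContinuousMultilinearMap ℝ (fun _ : Fin m => EE m) ℝ :=
  { (dtA m).toMultilinearMap with cont := dtA_cont }

lemma dtM_apply (u : Fin m → EE m) : dtM m u = Matrix.det (fun j i => u j i) := rfl

lemma dtM_eq (u : Fin m → EE m) : dtM m u = dtA m u := rfl

/-- Cramer's rule. -/
lemma cramer_dt (A : Fin m → EE m) (w : EE m) :
    ∑ j, (dtM m (Function.update A j w)) • A j = (dtM m A) • w := by
  ext i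
  have h := congrFun (Matrix.mulVec_cramer (Matrix.of (fun i j => A j i) : Matrix (Fin m) (Fin m) ℝ) (fun i => w i)) i
  simp only [Matrix.mulVec, dotProduct, Matrix.cramer_apply, Pi.smul_apply, smul_eq_mul] at h
  have h1 : ∀ j, (Matrix.updateCol (Matrix.of (fun i j => A j i) : Matrix (Fin m) (Fin m) ℝ) j (fun i => w i)).det = dtM m (Function.update A j w) := by
    intro j
    rw [dtM_apply, ← Matrix.det_transpose]
    congr 1
    ext a b
    simp only [Matrix.transpose_apply, Matrix.updateCol_apply, Function.update_apply]
    split_ifs with h <;> simp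
  have h2 : (Matrix.of (fun i j => A j i) : Matrix (Fin m) (Fin m) ℝ).det = dtM m A := by
    rw [dtM_apply, ← Matrix.det_transpose]
    rfl
  simp only [h1, h2, Matrix.of_apply] at h
  simp only [PiLp.smul_apply, smul_eq_mul]
  rw [← h]
  simp only [WithLp.ofLp_sum, WithLp.ofLp_smul, Finset.sum_apply, Pi.smul_apply, smul_eq_mul]
  exact Finset.sum_congr rfl (fun j _ => mul_comm _ _)

/-- the antisymmetric double sum vanishes -/
lemma antisym_sum (A : Fin m → EE m) (w : EE m) (S : Fin m → Fin m → EE m)
    (hS : ∀ i j, S i j = S j i) :
    ∑ j, ∑ i ∈ Finset.univ.erase j, dtM m (Function.update (Function.update A j w) i (S i j)) = 0 := by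
  have key : ∀ i j, i ≠ j → dtM m (Function.update (Function.update A j w) i (S i j)) =
      - dtM m (Function.update (Function.update A i w) j (S j i)) := by
    intro i j hij
    have := (dtA m).map_swap (Function.update (Function.update A i w) j (S j i)) hij
    rw [dtM_eq, dtM_eq, ← this]
    congr 1
    ext k
    simp only [Function.comp_apply]
    by_cases hki : k = i
    · subst hki
      simp [hS k j]
    · by_cases hkj : k = j
      · subst hkj
        simp [Function.update_of_ne (Ne.symm hij), Function.update_of_ne hij]
      · rw [Equiv.swap_apply_of_ne_of_ne hki hkj]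
        simp [hki, hkj]
  have h2 : ∑ j, ∑ i ∈ Finset.univ.erase j, dtM m (Function.update (Function.update A j w) i (S i j)) =
      - ∑ j, ∑ i ∈ Finset.univ.erase j, dtM m (Function.update (Function.update A j w) i (S i j)) := by
    calc ∑ j, ∑ i ∈ Finset.univ.erase j, dtM m (Function.update (Function.update A j w) i (S i j))
        = ∑ j, ∑ i ∈ Finset.univ.erase j, - dtM m (Function.update (Function.update A i w) j (S j i)) := by
          refine Finset.sum_congr rfl (fun j _ => Finset.sum_congr rfl (fun i hi => key i j ?_))
          exact (Finset.mem_erase.1 hi).1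
      _ = ∑ i, ∑ j ∈ Finset.univ.erase i, - dtM m (Function.update (Function.update A i w) j (S j i)) := by
          refine Finset.sum_comm' ?_
          intro x y
          simp [eq_comm]
      _ = _ := by simp only [Finset.sum_neg_distrib]
  linarith

end Pool.Agent.Helper39
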