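import Pool.Agent.Helper39.Jac

open MeasureTheory Set Filter Topology
open scoped ENNReal NNReal Matrix ContDiff

namespace Pool.Agent.Helper39

variable {m : ℕ}

/-- standard basis vector -/
noncomputable def bv (j : Fin m) : EE m := EuclideanSpace.single j 1

/-- columns of the derivative -/
noncomputable def cols (H : EE m → EE m) (v : EE m) : Fin m → EE m := fun j => fderiv ℝ H v (bv j)

/-- Jacobian determinant -/
noncomputable def jac (H : EE m → EE m) (v : EE m) : ℝ := dtM m (cols H v)

lemma cols_contDiff {H : EE m → EE m} {n : ℕ∞} (hH : ContDiff ℝ (n+1) H) (j : Fin m) :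
    ContDiff ℝ n (fun v => cols H v j) := by
  have := hH.fderiv_right (m := n) le_rfl
  exact this.clm_apply contDiff_const

/-- derivative of `dtM` along columns -/
lemma hasFDerivAt_dtM {X : Type*} [NormedAddCommGroup X] [NormedSpace ℝ X]
    {u : Fin m → X → EE m} {u' : Fin m → (X →L[ℝ] EE m)} {v : X}
    (hu : ∀ j, HasFDerivAt (u j) (u' j) v) :
    HasFDerivAt (fun v => dtM m (fun j => u j v))
      (∑ i, ((dtM m).toContinuousLinearMap (fun j => u j v) i).comp (u' i)) v := by
  have h1 : HasFDerivAt (fun v => (fun j => u j v)) (ContinuousLinearMap.pi u') v :=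
    hasFDerivAt_pi.2 hu
  have h2 := ((dtM m).hasFDerivAt (fun j => u j v)).comp v h1
  have e1 : ((dtM m).linearDeriv (fun j => u j v)).comp (ContinuousLinearMap.pi u') =
      (∑ i, ((dtM m).toContinuousLinearMap (fun j => u j v) i).comp (u' i)) := by
    ext e
    simp [ContinuousMultilinearMap.linearDeriv_apply, ContinuousMultilinearMap.toContinuousLinearMap_apply]
  rw [e1] at h2
  exact h2

/-- second derivatives -/
noncomputable def sec (H : EE m → EE m) (v : EE m) (i j : Fin m) : EE m :=
  fderiv ℝ (fderiv ℝ H) v (bv j) (bv i)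

lemma sec_symm {H : EE m → EE m} (hH : ContDiff ℝ 2 H) (v : EE m) (i j : Fin m) :
    sec H v i j = sec H v j i := by
  have h : IsSymmSndFDerivAt ℝ H v := by
    apply ContDiffAt.isSymmSndFDerivAt (n := 2) hH.contDiffAt
    simp
  exact h.eq _ _

lemma cols_hasFDerivAt {H : EE m → EE m} (hH : ContDiff ℝ 2 H) (v : EE m) (i : Fin m) :
    HasFDerivAt (fun v => cols H v i)
      ((ContinuousLinearMap.apply ℝ (EE m) (bv i)).comp (fderiv ℝ (fderiv ℝ H) v)) v := by
  have h1 : DifferentiableAt ℝ (fderiv ℝ H) v := by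
    have := hH.fderiv_right (m := 1) (by norm_num)
    exact (this.differentiable (by norm_num)) v
  exact (ContinuousLinearMap.apply ℝ (EE m) (bv i)).hasFDerivAt.comp v h1.hasFDerivAt

/-- the fields whose divergence is computed -/
noncomputable def XX (φ : EE m → ℝ) (H W : EE m → EE m) (j : Fin m) (v : EE m) : ℝ :=
  φ (H v) * dtM m (Function.update (cols H v) j (W v))

lemma XX_hasFDerivAt {φ : EE m → ℝ} {H W : EE m → EE m} (hφ : ContDiff ℝ 1 φ)
    (hH : ContDiff ℝ 2 H) (hW : ContDiff ℝ 1 W) (j : Fin m) (v : EE m) :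
    ∃ L : EE m →L[ℝ] ℝ, HasFDerivAt (XX φ H W j) L v ∧
      L (bv j) = fderiv ℝ φ (H v) (cols H v j) * dtM m (Function.update (cols H v) j (W v)) +
        φ (H v) * (dtM m (Function.update (cols H v) j (fderiv ℝ W v (bv j))) +
          ∑ i ∈ Finset.univ.erase j, dtM m (Function.update (Function.update (cols H v) j (W v)) i
            (sec H v i j))) := by
  have hHd : DifferentiableAt ℝ H v := (hH.differentiable (by norm_num)) v
  have hWd : DifferentiableAt ℝ W v := (hW.differentiable (by norm_num)) v
  have hφd : DifferentiableAt ℝ φ (H v) := (hφ.differentiable (by norm_num)) (H v)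
  have h1 : HasFDerivAt (fun v => φ (H v)) ((fderiv ℝ φ (H v)).comp (fderiv ℝ H v)) v :=
    hφd.hasFDerivAt.comp v hHd.hasFDerivAt
  have h2 : ∀ i, HasFDerivAt (fun v => Function.update (cols H v) j (W v) i)
      (if i = j then fderiv ℝ W v else
        (ContinuousLinearMap.apply ℝ (EE m) (bv i)).comp (fderiv ℝ (fderiv ℝ H) v)) v := by
    intro i
    by_cases hij : i = j
    · subst hij
      simp only [Function.update_self, if_true]
      exact hWd.hasFDerivAt
    · simp only [Function.update_of_ne hij, if_neg hij]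
      exact cols_hasFDerivAt hH v i
  have h3 := hasFDerivAt_dtM h2
  have h4 := h1.mul h3
  refine ⟨_, h4, ?_⟩
  simp only [ContinuousLinearMap.add_apply, ContinuousLinearMap.smul_apply, smul_eq_mul,
    ContinuousLinearMap.comp_apply, ContinuousLinearMap.sum_apply,
    ContinuousMultilinearMap.toContinuousLinearMap_apply]
  have h5 : ∑ i, dtM m (Function.update (Function.update (cols H v) j (W v)) i
      ((if i = j then fderiv ℝ W v else
        (ContinuousLinearMap.apply ℝ (EE m) (bv i)).comp (fderiv ℝ (fderiv ℝ H) v)) (bv j))) =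
      dtM m (Function.update (cols H v) j (fderiv ℝ W v (bv j))) +
          ∑ i ∈ Finset.univ.erase j, dtM m (Function.update (Function.update (cols H v) j (W v)) i
            (sec H v i j)) := by
    rw [← Finset.add_sum_erase _ _ (Finset.mem_univ j)]
    congr 1
    · simp
    · refine Finset.sum_congr rfl (fun i hi => ?_)
      have hij : i ≠ j := (Finset.mem_erase.1 hi).1
      simp only [if_neg hij]
      rfl
  rw [h5]
  unfold cols
  ring

/-- Piola type identity. -/
lemma piola {φ : EE m → ℝ} {H W : EE m → EE m} (hφ : ContDiff ℝ 1 φ)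
    (hH : ContDiff ℝ 2 H) (hW : ContDiff ℝ 1 W) (v : EE m) :
    ∑ j, fderiv ℝ (XX φ H W j) v (bv j) =
      fderiv ℝ φ (H v) (W v) * dtM m (cols H v) +
        φ (H v) * ∑ j, dtM m (Function.update (cols H v) j (fderiv ℝ W v (bv j))) := by
  have h1 : ∀ j, fderiv ℝ (XX φ H W j) v (bv j) =
      fderiv ℝ φ (H v) (cols H v j) * dtM m (Function.update (cols H v) j (W v)) +
        φ (H v) * (dtM m (Function.update (cols H v) j (fderiv ℝ W v (bv j))) +
          ∑ i ∈ Finset.univ.erase j, dtM m (Function.update (Function.update (cols H v) j (W v)) i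
            (sec H v i j))) := by
    intro j
    obtain ⟨L, hL, hLe⟩ := XX_hasFDerivAt hφ hH hW j v
    rw [hL.fderiv, hLe]
  simp only [h1, Finset.sum_add_distrib, ← Finset.mul_sum]
  rw [antisym_sum (cols H v) (W v) (sec H v) (fun i j => sec_symm hH v i j), add_zero]
  congr 1
  have h2 := congrArg (fderiv ℝ φ (H v)) (cramer_dt (cols H v) (W v))
  simp only [map_sum, map_smul, smul_eq_mul] at h2
  rw [mul_comm (fderiv ℝ φ (H v) (W v)), ← h2]
  exact Finset.sum_congr rfl (fun j _ => mul_comm _ _)

end Pool.Agent.Helper39
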