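import Pool.Agent.Helper8.Kak.Poly

/-!
# X-step: a fourth line `l3` through the point of `l2` at height `b` (bookkeeping)

`s = P(l3, bh)` where `bh` is a `K`-measurable height, `c3 = mv c t3 b bh`,
`u = frm l3 bh c3 v(l1)`, `P3 = P(l3, t3)`.

Main results: `Hyp.ht3`, `Hyp.factG3`, `Hyp.factG3'`, `Hyp.factX0`, `Hyp.factX'` (sharp constants,
no sign hypotheses) and `Hyp.factX`.
-/

set_option autoImplicit false

namespace Pool.Agent.Helper8.Kak

inductive V2 | K | l0 | l1 | l2 | l3 | T0 | T1 | S | R | b | b' | t3 | P0 | P1 | Pb | P3 | B | c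
  | z | c3 | s | u
deriving DecidableEq

namespace X2

open V2

/-- functional dependencies -/
def rules : List (V2 × List (Finset V2)) :=
  [(P0, [{l0, T0}, {l1, T0}]), (P1, [{l0, T1}, {l2, T1}]), (Pb, [{l2, b}, {l3, b}]),
   (P3, [{l3, t3}]), (B, [{T0, T1, S, R}]), (c, [{B, b', T1, b}]), (z, [{l2, l1, b, c}]),
   (c3, [{K, c, t3, b}]), (s, [{K, l3}]), (u, [{K, l3, l1, c3}])]

/-- hypotheses on the entropies; `eL - eK = a`, `eP - eT = h`, `lM - (eB - eL) = κ` -/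
structure Hyp {Ω : Type} [Fintype Ω] (p : Ω → ℝ) (V : V2 → Setoid Ω)
    (eK eL eB eT eP lM Lam : ℝ) (k1 kc kU kc3 kU3 k11 k12 : ℝ) : Prop where
  hp : IsProb p
  hr : Valid p V rules
  hK : HH p V {K} = eK
  hL0 : HH p V {K, l0} = eL
  hL1 : HH p V {K, l1} = eL
  hL2 : HH p V {K, l2} = eL
  hL3 : HH p V {K, l3} = eL
  h00 : HH p V {K, l0, T0} = eB
  h01 : HH p V {K, l0, T1} = eB
  h0S : HH p V {K, l0, S} = eB
  h10 : HH p V {K, l1, T0} = eB
  h1R : HH p V {K, l1, R} = eB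
  h21 : HH p V {K, l2, T1} = eB
  h2b : HH p V {K, l2, b} = eB
  h2b' : HH p V {K, l2, b'} = eB
  h3b : HH p V {K, l3, b} = eB
  h33 : HH p V {K, l3, t3} = eB
  hT0 : HH p V {K, T0} = eT
  hT1 : HH p V {K, T1} = eT
  hTS : HH p V {K, S} = eT
  hTR : HH p V {K, R} = eT
  hTb : HH p V {K, b} = eT
  hTb' : HH p V {K, b'} = eT
  hT3 : HH p V {K, t3} = eT
  hP0 : HH p V {K, T0, P0} = eP
  hP1 : HH p V {K, T1, P1} = eP
  hPb : HH p V {K, b, Pb} = eP
  hP3 : HH p V {K, t3, P3} = eP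
  tot : 10 * eB - 6 * eL - 3 * eP ≤ HH p V {K, l0, l1, l2, l3, T0, T1, S, R, b, b', t3}
  lam2 : HH p V {K, T1, T0, b, P0, Pb} - HH p V {K, T1, T0, b} = Lam
  eTM : eT - eK ≤ lM
  /-- costs -/
  cc1 : HH p V {B, S, T0, T1, R} - HH p V {B, S, T0, T1} ≤ k1
  cc : HH p V {K, c} - HH p V {K} ≤ lM + kc
  cU : HH p V {b', b, T1, c, B} - HH p V {b', b, T1, c} ≤ kU
  cc3 : HH p V {K, c3} - HH p V {K} ≤ lM + kc3
  cU3 : HH p V {K, c3, t3, b, c} - HH p V {K, c3, t3, b} ≤ kU3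
  c11 : HH p V {K, u, s, c3, l1} - HH p V {K, u, s, c3} ≤ k11
  c12 : HH p V {K, P3, z, c, t3, b, c3, u} - HH p V {K, P3, z, c, t3, b, c3} ≤ k12

variable {Ω : Type} [Fintype Ω] {p : Ω → ℝ} {V : V2 → Setoid Ω}
  {eK eL eB eT eP lM Lam : ℝ} {k1 kc kU kc3 kU3 k11 k12 : ℝ}

theorem Hyp.inc (h : Hyp p V eK eL eB eT eP lM Lam k1 kc kU kc3 kU3 k11 k12)
    (A A' B B' : Finset V2) (hB' : B' ⊆ cl rules (A' ∪ B))
    (hA : A ⊆ cl rules A' ∩ cl rules B) : HH p V B' - HH p V B ≤ HH p V A' - HH p V A :=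
  HH_INC h.hp h.hr A A' B B' hB' hA

theorem Hyp.mn (h : Hyp p V eK eL eB eT eP lM Lam k1 kc kU kc3 kU3 k11 k12)
    (A B : Finset V2) (hA : A ⊆ cl rules B) : HH p V A ≤ HH p V B :=
  HH_MN h.hp h.hr A B hA

/-- `κ = lM - (eB - eL)` is nonnegative -/
theorem Hyp.kap_nonneg (h : Hyp p V eK eL eB eT eP lM Lam k1 kc kU kc3 kU3 k11 k12) :
    0 ≤ lM - (eB - eL) := by
  have i1 := h.inc {K} {K, T0} {K, l0} {K, l0, T0} (by decide +kernel) (by decide +kernel)
  linarith [h.hK, h.hT0, h.hL0, h.h00, h.eTM]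

/-- upper bound for the four lines and all heights except `t3` -/
theorem Hyp.remt3 (h : Hyp p V eK eL eB eT eP lM Lam k1 kc kU kc3 kU3 k11 k12) :
    HH p V {K, l0, l1, l2, l3, T0, T1, S, R, b, b'} ≤ 9 * eB - 5 * eL - 3 * eP := by
  have i1 := h.inc {K, T0, P0} {K, l1, T0} {K, l0, T0} {K, l0, T0, l1}
    (by decide +kernel) (by decide +kernel)
  have i2 := h.inc {K, l0} {K, l0, S} {K, l0, T0, l1} {K, l0, T0, l1, S}
    (by decide +kernel) (by decide +kernel)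
  have i2' := h.inc {K, l1} {K, l1, R} {K, l0, T0, l1, S} {K, l0, T0, l1, S, R}
    (by decide +kernel) (by decide +kernel)
  have i3 := h.inc {K, l0} {K, l0, T1} {K, l0, T0, l1, S, R} {K, l0, T0, l1, S, R, T1}
    (by decide +kernel) (by decide +kernel)
  have i4 := h.inc {K, T1, P1} {K, l2, T1} {K, l0, T0, l1, S, R, T1} {K, l0, T0, l1, S, R, T1, l2}
    (by decide +kernel) (by decide +kernel)
  have i5 := h.inc {K, l2} {K, l2, b} {K, l0, T0, l1, S, R, T1, l2}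
    {K, l0, l1, l2, T0, T1, S, R, b} (by decide +kernel) (by decide +kernel)
  have i6 := h.inc {K, l2} {K, l2, b'} {K, l0, l1, l2, T0, T1, S, R, b}
    {K, l0, l1, l2, T0, T1, S, R, b, b'} (by decide +kernel) (by decide +kernel)
  have i7 := h.inc {K, b, Pb} {K, l3, b} {K, l0, l1, l2, T0, T1, S, R, b, b'}
    {K, l0, l1, l2, l3, T0, T1, S, R, b, b'} (by decide +kernel) (by decide +kernel)
  linarith [h.h00, h.h10, h.hP0, h.h0S, h.hL1, h.h1R, h.h01, h.hL0, h.h21, h.hP1, h.h2b, h.hL2,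
    h.h2b', h.h3b, h.hPb]

/-- the height `t3` is almost uniform given everything else (used for `E log 1/|t3 - b|`) -/
theorem Hyp.ht3 (h : Hyp p V eK eL eB eT eP lM Lam k1 kc kU kc3 kU3 k11 k12) :
    eB - eL ≤ HH p V {K, l0, l1, l2, l3, T0, T1, S, R, b, b', t3}
      - HH p V {K, l0, l1, l2, l3, T0, T1, S, R, b, b'} := by
  linarith [h.remt3, h.tot]

/-- lower bound for the four lines, `c3` and `t3` -/
theorem Hyp.N4 (h : Hyp p V eK eL eB eT eP lM Lam k1 kc kU kc3 kU3 k11 k12) :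
    8 * eB - 4 * eL - 3 * eP - kU3 - kU - k1 ≤
      HH p V {K, T0, T1, b, c3, l0, l1, l2, l3, t3} := by
  have i1 := h.inc {K, c3, t3, b} {K, c3, t3, b, c}
    {K, T0, T1, b, c3, l0, l1, l2, l3, t3} {K, T0, T1, b, c3, l0, l1, l2, l3, t3, c}
    (by decide +kernel) (by decide +kernel)
  have i2 := h.inc {K, l2} {K, l2, b'} {K, T0, T1, b, c3, l0, l1, l2, l3, t3, c}
    {K, T0, T1, b, c3, l0, l1, l2, l3, t3, c, b'} (by decide +kernel) (by decide +kernel)
  have i3 := h.inc {b', b, T1, c} {b', b, T1, c, B}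
    {K, T0, T1, b, c3, l0, l1, l2, l3, t3, c, b'}
    {K, T0, T1, b, c3, l0, l1, l2, l3, t3, c, b', B} (by decide +kernel) (by decide +kernel)
  have i4 := h.inc {K, l0} {K, l0, S} {K, T0, T1, b, c3, l0, l1, l2, l3, t3, c, b', B}
    {K, T0, T1, b, c3, l0, l1, l2, l3, t3, c, b', B, S} (by decide +kernel) (by decide +kernel)
  have i5 := h.inc {B, S, T0, T1} {B, S, T0, T1, R}
    {K, T0, T1, b, c3, l0, l1, l2, l3, t3, c, b', B, S}
    {K, l0, l1, l2, l3, T0, T1, S, R, b, b', t3} (by decide +kernel) (by decide +kernel)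
  linarith [h.tot, h.cU3, h.hL2, h.h2b', h.cU, h.hL0, h.h0S, h.cc1]

/-- lower bound for the four lines and `c3` -/
theorem Hyp.N3 (h : Hyp p V eK eL eB eT eP lM Lam k1 kc kU kc3 kU3 k11 k12) :
    7 * eB - 3 * eL - 3 * eP - kU3 - kU - k1 ≤
      HH p V {K, T0, T1, b, c3, l0, l1, l2, l3} := by
  have i1 := h.inc {K, l3} {K, l3, t3} {K, T0, T1, b, c3, l0, l1, l2, l3}
    {K, T0, T1, b, c3, l0, l1, l2, l3, t3} (by decide +kernel) (by decide +kernel)
  linarith [h.N4, h.hL3, h.h33]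

/-- upper bound for `l0, l2` and the heights -/
theorem Hyp.U2 (h : Hyp p V eK eL eB eT eP lM Lam k1 kc kU kc3 kU3 k11 k12) :
    HH p V {K, T0, T1, b, l0, l2} ≤ 4 * eB - 2 * eL - eP := by
  have i2 := h.inc {K, l0} {K, l0, T1} {K, l0, T0} {K, l0, T0, T1}
    (by decide +kernel) (by decide +kernel)
  have i4 := h.inc {K, T1, P1} {K, l2, T1} {K, l0, T0, T1} {K, l0, T0, T1, l2}
    (by decide +kernel) (by decide +kernel)
  have i5 := h.inc {K, l2} {K, l2, b} {K, l0, T0, T1, l2}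
    {K, T0, T1, b, l0, l2} (by decide +kernel) (by decide +kernel)
  linarith [h.h00, h.h01, h.hL0, h.h21, h.hP1, h.h2b, h.hL2]

/-- upper bound for the four lines and the heights -/
theorem Hyp.U4 (h : Hyp p V eK eL eB eT eP lM Lam k1 kc kU kc3 kU3 k11 k12) :
    HH p V {K, T0, T1, b, l0, l1, l2, l3} ≤ 6 * eB - 2 * eL - 3 * eP := by
  have i1 := h.inc {K, T0, P0} {K, l1, T0} {K, T0, T1, b, l0, l2} {K, T0, T1, b, l0, l2, l1}
    (by decide +kernel) (by decide +kernel)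
  have i7 := h.inc {K, b, Pb} {K, l3, b} {K, T0, T1, b, l0, l2, l1}
    {K, T0, T1, b, l0, l1, l2, l3} (by decide +kernel) (by decide +kernel)
  linarith [h.U2, h.h10, h.hP0, h.h3b, h.hPb]

/-- `c3` is almost uniform given the four lines -/
theorem Hyp.factG3 (h : Hyp p V eK eL eB eT eP lM Lam k1 kc kU kc3 kU3 k11 k12) :
    lM - ((lM - (eB - eL)) + kU + k1 + kU3) ≤ HH p V {K, T0, T1, b, c3, l0, l1, l2, l3}
      - HH p V {K, T0, T1, b, l0, l1, l2, l3} := by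
  linarith [h.N3, h.U4]

/-- the same given `l1, l3` only (this is what the final step needs) -/
theorem Hyp.factG3' (h : Hyp p V eK eL eB eT eP lM Lam k1 kc kU kc3 kU3 k11 k12) :
    lM - ((lM - (eB - eL)) + kU + k1 + kU3) ≤ HH p V {K, T0, T1, b, l1, l3, c3}
      - HH p V {K, T0, T1, b, l1, l3} := by
  have i1 := h.inc {K, T0, T1, b, l1, l3} {K, T0, T1, b, l1, l3, c3}
    {K, T0, T1, b, l0, l1, l2, l3} {K, T0, T1, b, c3, l0, l1, l2, l3}
    (by decide +kernel) (by decide +kernel)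
  linarith [h.factG3]

/-- lower bound for the four lines and the three heights -/
theorem Hyp.N0 (h : Hyp p V eK eL eB eT eP lM Lam k1 kc kU kc3 kU3 k11 k12) :
    6 * eB - 2 * eL - 3 * eP ≤ HH p V {K, T0, T1, b, l0, l1, l2, l3} := by
  have i1 := h.inc {K, l3} {K, l3, t3} {K, T0, T1, b, l0, l1, l2, l3}
    {K, T0, T1, b, l0, l1, l2, l3, t3} (by decide +kernel) (by decide +kernel)
  have i2 := h.inc {K, l2} {K, l2, b'} {K, T0, T1, b, l0, l1, l2, l3, t3}
    {K, T0, T1, b, l0, l1, l2, l3, t3, b'} (by decide +kernel) (by decide +kernel)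
  have i4 := h.inc {K, l0} {K, l0, S} {K, T0, T1, b, l0, l1, l2, l3, t3, b'}
    {K, T0, T1, b, l0, l1, l2, l3, t3, b', S} (by decide +kernel) (by decide +kernel)
  have i5 := h.inc {K, l1} {K, l1, R} {K, T0, T1, b, l0, l1, l2, l3, t3, b', S}
    {K, l0, l1, l2, l3, T0, T1, S, R, b, b', t3} (by decide +kernel) (by decide +kernel)
  linarith [h.tot, h.hL3, h.h33, h.hL2, h.h2b', h.hL0, h.h0S, h.hL1, h.h1R]

/-- the three heights `T0, T1, b` are almost uniform and independent -/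
theorem Hyp.L3 (h : Hyp p V eK eL eB eT eP lM Lam k1 kc kU kc3 kU3 k11 k12) :
    eK + 3 * (eB - eL) ≤ HH p V {K, T1, T0, b} := by
  have i1 := h.inc {K, T0, P0} {K, l1, T0} {K, T0, T1, b, l0} {K, T0, T1, b, l0, l1}
    (by decide +kernel) (by decide +kernel)
  have i4 := h.inc {K, T1, P1} {K, l2, T1} {K, T0, T1, b, l0, l1} {K, T0, T1, b, l0, l1, l2}
    (by decide +kernel) (by decide +kernel)
  have i7 := h.inc {K, b, Pb} {K, l3, b} {K, T0, T1, b, l0, l1, l2}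
    {K, T0, T1, b, l0, l1, l2, l3} (by decide +kernel) (by decide +kernel)
  have i8 := h.inc {K} {K, T1, T0, b} {K, l0} {K, T0, T1, b, l0}
    (by decide +kernel) (by decide +kernel)
  linarith [h.N0, h.h10, h.hP0, h.h21, h.hP1, h.h3b, h.hPb, h.hL0, h.hK]

/-- the line `l1` and the three heights (lower bound) -/
theorem Hyp.L1lo (h : Hyp p V eK eL eB eT eP lM Lam k1 kc kU kc3 kU3 k11 k12) :
    eL + 3 * (eB - eL) ≤ HH p V {K, l1, T0, T1, b} := by
  have i1 := h.inc {K, T0, P0} {K, l0, T0} {K, l1, T0, T1, b} {K, T0, T1, b, l0, l1}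
    (by decide +kernel) (by decide +kernel)
  have i4 := h.inc {K, T1, P1} {K, l2, T1} {K, T0, T1, b, l0, l1} {K, T0, T1, b, l0, l1, l2}
    (by decide +kernel) (by decide +kernel)
  have i7 := h.inc {K, b, Pb} {K, l3, b} {K, T0, T1, b, l0, l1, l2}
    {K, T0, T1, b, l0, l1, l2, l3} (by decide +kernel) (by decide +kernel)
  linarith [h.N0, h.h00, h.hP0, h.h21, h.hP1, h.h3b, h.hPb]

/-- the line `l1` and the three heights (upper bound) -/
theorem Hyp.L1up (h : Hyp p V eK eL eB eT eP lM Lam k1 kc kU kc3 kU3 k11 k12) :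
    HH p V {K, l1, T0, T1, b} ≤ eL + 3 * lM := by
  have i1 := h.inc {K} {K, T0} {K, l1} {K, l1, T0} (by decide +kernel) (by decide +kernel)
  have i2 := h.inc {K} {K, T1} {K, l1, T0} {K, l1, T0, T1} (by decide +kernel) (by decide +kernel)
  have i3 := h.inc {K} {K, b} {K, l1, T0, T1} {K, l1, T0, T1, b}
    (by decide +kernel) (by decide +kernel)
  linarith [h.hL1, h.hK, h.hT0, h.hT1, h.hTb, h.eTM]

/-- the three heights (upper bound) -/
theorem Hyp.U3 (h : Hyp p V eK eL eB eT eP lM Lam k1 kc kU kc3 kU3 k11 k12) :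
    HH p V {K, T0, T1, b} ≤ eK + 3 * lM := by
  have i1 := h.inc {K} {K, T1} {K, T0} {K, T0, T1} (by decide +kernel) (by decide +kernel)
  have i2 := h.inc {K} {K, b} {K, T0, T1} {K, T0, T1, b} (by decide +kernel) (by decide +kernel)
  linarith [h.hK, h.hT0, h.hT1, h.hTb, h.eTM]

/-- entropy of the pair `l1, l3` -/
theorem Hyp.factX0 (h : Hyp p V eK eL eB eT eP lM Lam k1 kc kU kc3 kU3 k11 k12) :
    eK + 3 * lM + 2 * (eL - eK) - 2 * (eP - eT) + Lam ≤ HH p V {K, T0, T1, b, l1, l3}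
      + (10 * (lM - (eB - eL))) := by
  have i1 := HH_SM h.hp h.hr {K, T0, T1, b, l1, l3} {K, T0, T1, b, l0, l2}
    {K, T0, T1, b, l0, l1, l2, l3} {K, T1, T0, b, P0, Pb} (by decide +kernel)
    (by decide +kernel)
  linarith [h.N0, h.U2, h.L3, h.lam2, h.kap_nonneg, h.eTM]

/-- entropy of the pair `l1, l3` given the heights and `c3` -/
theorem Hyp.factX1 (h : Hyp p V eK eL eB eT eP lM Lam k1 kc kU kc3 kU3 k11 k12) :
    2 * (eL - eK) - 2 * (eP - eT) + Lam ≤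
      HH p V {K, T0, T1, b, c3, l1, l3} - HH p V {K, T0, T1, b, c3}
      + (4 * (lM - (eB - eL)) + 2 * (kU3 + kU + k1 + kc3)) := by
  have i1 := HH_SM h.hp h.hr {K, T0, T1, b, c3, l1, l3} {K, T0, T1, b, c3, l0, l2}
    {K, T0, T1, b, c3, l0, l1, l2, l3} {K, T0, T1, b, c3, P0, Pb} (by decide +kernel)
    (by decide +kernel)
  have i2 := h.inc {K} {K, c3} {K, T0, T1, b, l0, l2} {K, T0, T1, b, c3, l0, l2}
    (by decide +kernel) (by decide +kernel)
  have i3 := h.inc {K} {K, c3} {K, T1, T0, b} {K, T0, T1, b, c3}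
    (by decide +kernel) (by decide +kernel)
  have j1 := h.inc {K, T1, T0, b, P0, Pb} {K, T0, T1, b, c3, P0, Pb}
    {K, T0, T1, b, l0, l1, l2, l3} {K, T0, T1, b, c3, l0, l1, l2, l3} (by decide +kernel)
    (by decide +kernel)
  linarith [h.N3, h.factG3, h.U2, h.lam2, h.cc3, h.eTM, h.hK]

/-- deficit of the height `t3` given the four lines and `c3` -/
theorem Hyp.defl (h : Hyp p V eK eL eB eT eP lM Lam k1 kc kU kc3 kU3 k11 k12) :
    lM - (2 * (lM - (eB - eL)) + kc3 + kU3 + kU + k1) ≤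
      HH p V {K, T0, T1, b, c3, l0, l1, l2, l3, t3} - HH p V {K, T0, T1, b, c3, l0, l1, l2, l3} := by
  have i2 := h.inc {K} {K, c3} {K, T0, T1, b, l0, l1, l2, l3} {K, T0, T1, b, c3, l0, l1, l2, l3}
    (by decide +kernel) (by decide +kernel)
  linarith [h.N4, h.U4, h.cc3]

/-- deficit of the height `t3` given `l3`, `u` and `c3` -/
theorem Hyp.deft3 (h : Hyp p V eK eL eB eT eP lM Lam k1 kc kU kc3 kU3 k11 k12) :
    lM - (2 * (lM - (eB - eL)) + kc3 + kU3 + kU + k1) ≤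
      HH p V {K, T0, T1, b, c3, u, l3, t3} - HH p V {K, T0, T1, b, c3, u, l3} := by
  have i1 := h.inc {K, T0, T1, b, c3, u, l3} {K, T0, T1, b, c3, u, l3, t3}
    {K, T0, T1, b, c3, l0, l1, l2, l3} {K, T0, T1, b, c3, l0, l1, l2, l3, t3}
    (by decide +kernel) (by decide +kernel)
  linarith [h.defl]

/-- the point `P3` given `u`, `c3`, `t3` -/
theorem Hyp.factP3 (h : Hyp p V eK eL eB eT eP lM Lam k1 kc kU kc3 kU3 k11 k12) :
    HH p V {K, T0, T1, b, c3, u, t3, P3} - HH p V {K, T0, T1, b, c3, u, t3} ≤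
      (eP - eT) + (HH p V {K, T0, T1, b, c, z} - HH p V {K, T0, T1, b, c})
        - (HH p V {K, T0, T1, b, c3, u} - HH p V {K, T0, T1, b, c3})
        + (2 * (lM - (eB - eL)) + kc3 + 2 * kU3 + kU + k1 + k12) := by
  -- the entropy of `u` given `c3`, `t3`
  have i1 := h.inc {K, T0, T1, b, c3, u} {K, T0, T1, b, c3, u, t3}
    {K, T0, T1, b, c3, u, l3} {K, T0, T1, b, c3, u, l3, t3} (by decide +kernel)
    (by decide +kernel)
  have i2 := h.inc {K} {K, t3} {K, T0, T1, b, c3} {K, T0, T1, b, c3, t3}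
    (by decide +kernel) (by decide +kernel)
  -- upper bound
  have j1 := h.inc {K, c3, t3, b} {K, c3, t3, b, c} {K, T0, T1, b, c3, t3}
    {K, T0, T1, b, c3, t3, c} (by decide +kernel) (by decide +kernel)
  have j2 := h.inc {K, T0, T1, b, c} {K, T0, T1, b, c, z} {K, T0, T1, b, c3, t3, c}
    {K, T0, T1, b, c3, t3, c, z} (by decide +kernel) (by decide +kernel)
  have j3 := h.inc {K, t3} {K, t3, P3} {K, T0, T1, b, c3, t3, c, z}
    {K, T0, T1, b, c3, t3, c, z, P3} (by decide +kernel) (by decide +kernel)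
  have j4 := h.inc {K, P3, z, c, t3, b, c3} {K, P3, z, c, t3, b, c3, u}
    {K, T0, T1, b, c3, t3, c, z, P3} {K, T0, T1, b, c3, t3, c, z, P3, u}
    (by decide +kernel) (by decide +kernel)
  have j5 := h.mn {K, T0, T1, b, c3, u, t3, P3} {K, T0, T1, b, c3, t3, c, z, P3, u}
    (by decide +kernel)
  linarith [h.deft3, h.hK, h.hT3, h.cU3, h.hP3, h.c12, h.eTM]

/-- the line `l3` given `u`, `c3` -/
theorem Hyp.factL3 (h : Hyp p V eK eL eB eT eP lM Lam k1 kc kU kc3 kU3 k11 k12) :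
    2 * (eL - eK) - 2 * (eP - eT) + Lam
        - (HH p V {K, T0, T1, b, c3, u} - HH p V {K, T0, T1, b, c3}) ≤
      HH p V {K, T0, T1, b, c3, u, l3} - HH p V {K, T0, T1, b, c3, u}
      + (4 * (lM - (eB - eL)) + 2 * (kU3 + kU + k1 + kc3) + k11) := by
  have i1 := h.inc {K, u, s, c3} {K, u, s, c3, l1} {K, T0, T1, b, c3, u, l3}
    {K, T0, T1, b, c3, u, l3, l1} (by decide +kernel) (by decide +kernel)
  have i2 := h.mn {K, T0, T1, b, c3, l1, l3} {K, T0, T1, b, c3, u, l3, l1}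
    (by decide +kernel)
  linarith [h.factX1, h.c11]

/-- MAIN: the X inequality, sharp constants -/
theorem Hyp.factX' (h : Hyp p V eK eL eB eT eP lM Lam k1 kc kU kc3 kU3 k11 k12) {β C : ℝ}
    (hβ : 0 ≤ β) (hC : 0 ≤ C)
    (ih : HH p V {K, T0, T1, b, c3, u, l3} - HH p V {K, T0, T1, b, c3, u} ≤
      β * (HH p V {K, T0, T1, b, c3, u, t3, P3} - HH p V {K, T0, T1, b, c3, u, t3})
      + C * (lM - (HH p V {K, T0, T1, b, c3, u, l3, t3} - HH p V {K, T0, T1, b, c3, u, l3}) + 1)) :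
    2 * (eL - eK) - 2 * (eP - eT) + Lam
        - (HH p V {K, T0, T1, b, c3, u} - HH p V {K, T0, T1, b, c3})
      ≤ β * ((eP - eT) + (HH p V {K, T0, T1, b, c, z} - HH p V {K, T0, T1, b, c})
          - (HH p V {K, T0, T1, b, c3, u} - HH p V {K, T0, T1, b, c3})
          + (2 * (lM - (eB - eL)) + kc3 + 2 * kU3 + kU + k1 + k12))
        + C * (2 * (lM - (eB - eL)) + kc3 + kU3 + kU + k1 + 1)
        + (4 * (lM - (eB - eL)) + 2 * (kU3 + kU + k1 + kc3) + k11) := by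
  have hD : lM - (HH p V {K, T0, T1, b, c3, u, l3, t3} - HH p V {K, T0, T1, b, c3, u, l3}) + 1
      ≤ 2 * (lM - (eB - eL)) + kc3 + kU3 + kU + k1 + 1 := by linarith [h.deft3]
  have m1 := mul_le_mul_of_nonneg_left h.factP3 hβ
  have m2 := mul_le_mul_of_nonneg_left hD hC
  linarith [h.factL3]

/-- MAIN: the X inequality -/
theorem Hyp.factX (h : Hyp p V eK eL eB eT eP lM Lam k1 kc kU kc3 kU3 k11 k12) {β C : ℝ}
    (hβ : 0 ≤ β) (hC : 0 ≤ C) (hkc : 0 ≤ kc) (hkc3 : 0 ≤ kc3)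
    (ih : HH p V {K, T0, T1, b, c3, u, l3} - HH p V {K, T0, T1, b, c3, u} ≤
      β * (HH p V {K, T0, T1, b, c3, u, t3, P3} - HH p V {K, T0, T1, b, c3, u, t3})
      + C * (lM - (HH p V {K, T0, T1, b, c3, u, l3, t3} - HH p V {K, T0, T1, b, c3, u, l3}) + 1)) :
    2 * (eL - eK) - 2 * (eP - eT) + Lam
        - (HH p V {K, T0, T1, b, c3, u} - HH p V {K, T0, T1, b, c3})
      ≤ β * ((eP - eT) + (HH p V {K, T0, T1, b, c, z} - HH p V {K, T0, T1, b, c})
          - (HH p V {K, T0, T1, b, c3, u} - HH p V {K, T0, T1, b, c3}))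
        + (β + C + 1) * (20 * (lM - (eB - eL)) + 20 * (k1 + kc + kU + kc3 + kU3 + k11 + k12)) + C := by
  have h0 := h.factX' hβ hC ih
  have hκ := h.kap_nonneg
  have hk1 : 0 ≤ k1 := by
    have := h.mn {B, S, T0, T1} {B, S, T0, T1, R} (by decide +kernel)
    linarith [h.cc1]
  have hkU : 0 ≤ kU := by
    have := h.mn {b', b, T1, c} {b', b, T1, c, B} (by decide +kernel)
    linarith [h.cU]
  have hkU3 : 0 ≤ kU3 := by
    have := h.mn {K, c3, t3, b} {K, c3, t3, b, c} (by decide +kernel)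
    linarith [h.cU3]
  have hk11 : 0 ≤ k11 := by
    have := h.mn {K, u, s, c3} {K, u, s, c3, l1} (by decide +kernel)
    linarith [h.c11]
  have hk12 : 0 ≤ k12 := by
    have := h.mn {K, P3, z, c, t3, b, c3} {K, P3, z, c, t3, b, c3, u} (by decide +kernel)
    linarith [h.c12]
  have e1 : 2 * (lM - (eB - eL)) + kc3 + 2 * kU3 + kU + k1 + k12 ≤
      20 * (lM - (eB - eL)) + 20 * (k1 + kc + kU + kc3 + kU3 + k11 + k12) := by linarith
  have e2 : 2 * (lM - (eB - eL)) + kc3 + kU3 + kU + k1 ≤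
      20 * (lM - (eB - eL)) + 20 * (k1 + kc + kU + kc3 + kU3 + k11 + k12) := by linarith
  have e3 : 4 * (lM - (eB - eL)) + 2 * (kU3 + kU + k1 + kc3) + k11 ≤
      20 * (lM - (eB - eL)) + 20 * (k1 + kc + kU + kc3 + kU3 + k11 + k12) := by linarith
  have m1 := mul_le_mul_of_nonneg_left e1 hβ
  have m2 := mul_le_mul_of_nonneg_left e2 hC
  linarith

end X2

end Pool.Agent.Helper8.Kak
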