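import Pool.Agent.Helper8.Kak.ZSpace

/-!
# The X-step: instantiation of the bookkeeping on the glued space
-/

set_option autoImplicit false

namespace Pool.Agent.Helper8.Kak

open Pool.Agent.Helper89.KakGeo

section

variable {m M : ℕ} {G : Geo m M} (S : Sys G) (bh : S.Ω → Fin M)

/-! ### the law -/

theorem Z_law (c : Quotient S.K × Fin M × (Fin m → ℤ)) :
    law S.pY (fP S.K S.l S.T G.P ∘ cb) c = law (pA1 S.p S.K S.l) (fP S.K S.l S.T G.P ∘ Prod.fst) c := by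
  rw [(MP_cb S.K S.l S.T G.P S.hp).law_eq, (A1_fst S.K S.l S.hp).law_eq]

theorem pZ_prob : IsProb S.pZ := glue_isProb S.hpY (A1_prob S.K S.l S.hp) (Z_law S)

theorem pZ_fst : MP S.pZ S.pY Prod.fst := glue_fst S.hpY.1 (Z_law S)

theorem pZ_snd : MP S.pZ (pA1 S.p S.K S.l) Prod.snd :=
  glue_snd (A1_prob S.K S.l S.hp).1 (Z_law S)

/-- the coordinate of the line `l3` -/
theorem MP_z3 : MP S.pZ S.p (fun z => z.2.1) := (pZ_snd S).comp (A1_fst S.K S.l S.hp)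

/-- the coordinate of the height `t3` -/
theorem MP_zt : MP S.pZ S.p (fun z => z.2.2) := (pZ_snd S).comp (A1_snd S.K S.l S.hp)

/-- relations between the coordinates of two points of the support -/
structure LkZ (z z' : ZZ S.Ω) : Prop where
  lk : Lk S z.1 z'.1
  K3 : S.K z.2.1 z'.2.1 ↔ S.K (c0 z.1) (c0 z'.1)
  Kt : S.K z.2.2 z'.2.2 ↔ S.K (c0 z.1) (c0 z'.1)
  k3 : S.K (c0 z.1) z.2.1
  k3' : S.K (c0 z'.1) z'.2.1
  t3 : S.T z.2.1 = S.T (cb z.1)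
  t3' : S.T z'.2.1 = S.T (cb z'.1)
  lt : S.l z.2.2 = S.l z.2.1
  lt' : S.l z'.2.2 = S.l z'.2.1
  pb : G.P (S.l z.2.1) (S.T (cb z.1)) = G.P (S.l (c2 z.1)) (S.T (cb z.1))
  pb' : G.P (S.l z'.2.1) (S.T (cb z'.1)) = G.P (S.l (c2 z'.1)) (S.T (cb z'.1))

theorem K_c0_cb {y : Y S.Ω} (h : 0 < S.pY y) : S.K (c0 y) (cb y) := by
  obtain ⟨_, _, _, ⟨a8, _⟩, ⟨a10, _, _⟩, ⟨a13, _⟩, _⟩ := links S.K S.l S.T G.P S.hp h
  exact S.K.iseqv.trans (S.K.iseqv.trans (S.K.iseqv.symm a8) a10) a13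

theorem linkZ {z : ZZ S.Ω} (hz : 0 < S.pZ z) :
    S.K (c0 z.1) z.2.1 ∧ S.T z.2.1 = S.T (cb z.1) ∧
    G.P (S.l z.2.1) (S.T (cb z.1)) = G.P (S.l (c2 z.1)) (S.T (cb z.1)) ∧
    (S.K z.2.1 z.2.2 ∧ S.l z.2.2 = S.l z.2.1) := by
  have hy : 0 < S.pY z.1 := (pZ_fst S).pos (pZ_prob S).1 hz
  have hA : 0 < pA1 S.p S.K S.l z.2 := (pZ_snd S).pos (pZ_prob S).1 hz
  have h0 : fP S.K S.l S.T G.P (cb z.1) = fP S.K S.l S.T G.P z.2.1 := glue_link (f :=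
    fP S.K S.l S.T G.P ∘ cb) (g := fP S.K S.l S.T G.P ∘ Prod.fst) hz
  obtain ⟨a1, a2, a3⟩ := fP_eq.1 h0
  obtain ⟨b1, b2⟩ := fL_eq.1 (glue_link hA)
  have k := S.lk hy hy
  refine ⟨S.K.iseqv.trans (K_c0_cb S hy) a1, a2.symm, ?_, b1, b2.symm⟩
  rw [← k.lb, a3, a2]

theorem lkZ {z z' : ZZ S.Ω} (h : 0 < S.pZ z) (h' : 0 < S.pZ z') : LkZ S z z' := by
  obtain ⟨a1, a2, a3, a4, a5⟩ := linkZ S h
  obtain ⟨b1, b2, b3, b4, b5⟩ := linkZ S h'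
  exact ⟨S.lk ((pZ_fst S).pos (pZ_prob S).1 h) ((pZ_fst S).pos (pZ_prob S).1 h'),
    Kcongr a1 b1, (Kcongr a4 b4).trans (Kcongr a1 b1), a1, b1, a2, b2, a5, b5, a3, b3⟩

/-! ### the variables -/

@[simp] theorem VZ_K (z z') : S.VZ bh .K z z' ↔ S.K (c0 z.1) (c0 z'.1) := Iff.rfl
@[simp] theorem VZ_l0 (z z') : S.VZ bh .l0 z z' ↔ S.l (c0 z.1) = S.l (c0 z'.1) := Iff.rfl
@[simp] theorem VZ_l1 (z z') : S.VZ bh .l1 z z' ↔ S.l (c1 z.1) = S.l (c1 z'.1) := Iff.rfl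
@[simp] theorem VZ_l2 (z z') : S.VZ bh .l2 z z' ↔ S.l (c2 z.1) = S.l (c2 z'.1) := Iff.rfl
@[simp] theorem VZ_l3 (z z') : S.VZ bh .l3 z z' ↔ S.l z.2.1 = S.l z'.2.1 := Iff.rfl
@[simp] theorem VZ_T0 (z z') : S.VZ bh .T0 z z' ↔ S.T (c0 z.1) = S.T (c0 z'.1) := Iff.rfl
@[simp] theorem VZ_T1 (z z') : S.VZ bh .T1 z z' ↔ S.T (cT z.1) = S.T (cT z'.1) := Iff.rfl
@[simp] theorem VZ_S (z z') : S.VZ bh .S z z' ↔ S.T (cS z.1) = S.T (cS z'.1) := Iff.rfl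
@[simp] theorem VZ_R (z z') : S.VZ bh .R z z' ↔ S.T (cR z.1) = S.T (cR z'.1) := Iff.rfl
@[simp] theorem VZ_b (z z') : S.VZ bh .b z z' ↔ S.T (cb z.1) = S.T (cb z'.1) := Iff.rfl
@[simp] theorem VZ_b' (z z') : S.VZ bh .b' z z' ↔ S.T (cb' z.1) = S.T (cb' z'.1) := Iff.rfl
@[simp] theorem VZ_t3 (z z') : S.VZ bh .t3 z z' ↔ S.T z.2.2 = S.T z'.2.2 := Iff.rfl
@[simp] theorem VZ_P0 (z z') : S.VZ bh .P0 z z' ↔ S.V .P0 z.1 z'.1 := Iff.rfl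
@[simp] theorem VZ_P1 (z z') : S.VZ bh .P1 z z' ↔ S.V .P1 z.1 z'.1 := Iff.rfl
@[simp] theorem VZ_Pb (z z') : S.VZ bh .Pb z z' ↔
  G.P (S.l (c2 z.1)) (S.T (cb z.1)) = G.P (S.l (c2 z'.1)) (S.T (cb z'.1)) := Iff.rfl
@[simp] theorem VZ_P3 (z z') : S.VZ bh .P3 z z' ↔
  G.P (S.l z.2.1) (S.T z.2.2) = G.P (S.l z'.2.1) (S.T z'.2.2) := Iff.rfl
@[simp] theorem VZ_B (z z') : S.VZ bh .B z z' ↔ vB S z.1 = vB S z'.1 := Iff.rfl
@[simp] theorem VZ_c (z z') : S.VZ bh .c z z' ↔ vc S z.1 = vc S z'.1 := Iff.rfl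
@[simp] theorem VZ_z (z z') : S.VZ bh .z z z' ↔ vz S z.1 = vz S z'.1 := Iff.rfl
@[simp] theorem VZ_c3 (z z') : S.VZ bh .c3 z z' ↔ vc3 S bh z = vc3 S bh z' := Iff.rfl
@[simp] theorem VZ_s (z z') : S.VZ bh .s z z' ↔
  G.P (S.l z.2.1) (bh z.2.1) = G.P (S.l z'.2.1) (bh z'.2.1) := Iff.rfl
@[simp] theorem VZ_u (z z') : S.VZ bh .u z z' ↔ vu S bh z = vu S bh z' := Iff.rfl

variable (hbh : ∀ ω ω', S.K ω ω' → bh ω = bh ω')

include hbh in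
theorem validZ : Valid S.pZ (S.VZ bh) X2.rules := by
  intro r hr D hD z z' hz hz' h
  have kz := lkZ S hz hz'
  have k := kz.lk
  simp only [X2.rules, List.mem_cons, List.not_mem_nil, or_false] at hr
  rcases hr with rfl | rfl | rfl | rfl | rfl | rfl | rfl | rfl | rfl | rfl <;>
    simp only [List.mem_cons, List.not_mem_nil, or_false] at hD
  · rcases hD with rfl | rfl <;>
      simp only [Finset.mem_insert, Finset.mem_singleton, forall_eq_or_imp, forall_eq, VZ_l0,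
        VZ_T0, VZ_l1] at h ⊢
    · rw [VZ_P0, V_P0, h.1, h.2]
    · rw [VZ_P0, V_P0, ← k.p0, ← k.q0, h.1, h.2]
  · rcases hD with rfl | rfl <;>
      simp only [Finset.mem_insert, Finset.mem_singleton, forall_eq_or_imp, forall_eq, VZ_l0,
        VZ_T1, VZ_l2] at h ⊢
    · rw [VZ_P1, V_P1, h.1, h.2]
    · rw [VZ_P1, V_P1, ← k.p1, ← k.q1, h.1, h.2]
  · rcases hD with rfl | rfl <;>
      simp only [Finset.mem_insert, Finset.mem_singleton, forall_eq_or_imp, forall_eq, VZ_l2,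
        VZ_l3, VZ_b] at h ⊢
    · rw [VZ_Pb, h.1, h.2]
    · rw [VZ_Pb, ← kz.pb, ← kz.pb', h.1, h.2]
  · subst hD
    simp only [Finset.mem_insert, Finset.mem_singleton, forall_eq_or_imp, forall_eq, VZ_l3,
      VZ_t3] at h ⊢
    rw [VZ_P3, h.1, h.2]
  · subst hD
    simp only [Finset.mem_insert, Finset.mem_singleton, forall_eq_or_imp, forall_eq, VZ_T0, VZ_T1,
      VZ_S, VZ_R] at h ⊢
    obtain ⟨h1, h2, h3, h4⟩ := h
    rw [VZ_B]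
    unfold vB
    rw [h1, h2, h3, h4]
  · subst hD
    simp only [Finset.mem_insert, Finset.mem_singleton, forall_eq_or_imp, forall_eq, VZ_B, VZ_b',
      VZ_T1, VZ_b] at h ⊢
    obtain ⟨h1, h2, h3, h4⟩ := h
    rw [VZ_c]
    unfold vc
    rw [h1, h2, h3, h4]
  · subst hD
    simp only [Finset.mem_insert, Finset.mem_singleton, forall_eq_or_imp, forall_eq, VZ_l2, VZ_l1,
      VZ_b, VZ_c] at h ⊢
    obtain ⟨h1, h2, h3, h4⟩ := h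
    rw [VZ_z]
    unfold vz
    rw [h1, h2, h3, h4]
  · subst hD
    simp only [Finset.mem_insert, Finset.mem_singleton, forall_eq_or_imp, forall_eq, VZ_K, VZ_c,
      VZ_t3, VZ_b] at h ⊢
    obtain ⟨h1, h2, h3, h4⟩ := h
    have h5 := hbh _ _ (kz.K3.2 h1)
    rw [VZ_c3]
    unfold vc3
    rw [h2, h3, h4, h5]
  · subst hD
    simp only [Finset.mem_insert, Finset.mem_singleton, forall_eq_or_imp, forall_eq, VZ_K,
      VZ_l3] at h ⊢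
    have h5 := hbh _ _ (kz.K3.2 h.1)
    rw [VZ_s, h.2, h5]
  · subst hD
    simp only [Finset.mem_insert, Finset.mem_singleton, forall_eq_or_imp, forall_eq, VZ_K, VZ_l3,
      VZ_l1, VZ_c3] at h ⊢
    obtain ⟨h1, h2, h3, h4⟩ := h
    have h5 := hbh _ _ (kz.K3.2 h1)
    rw [VZ_u]
    unfold vu
    rw [h2, h3, h4, h5]

/-! ### entropies -/

theorem HZ_fst (A : Finset V2) (A' : Finset V1)
    (h : ∀ z z' : ZZ S.Ω, (∀ i ∈ A, S.VZ bh i z z') ↔ (∀ i ∈ A', S.V i z.1 z'.1)) :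
    HH S.pZ (S.VZ bh) A = HH S.pY S.V A' :=
  HH_coord (pZ_prob S) (pZ_fst S) _ _ (A'.inf S.V) fun z z' _ _ =>
    (h z z').trans (inf_rel _ _ _ _).symm

theorem ent_Z : Ent S.pZ (Setoid.comap Prod.fst S.rY4 ⊓ Setoid.comap Prod.snd S.rA)
    = 10 * S.eB - 6 * S.eL - 3 * S.eP := by
  have h := Ent_glue S.hpY (A1_prob S.K S.l S.hp)
    (f := fP S.K S.l S.T G.P ∘ cb) (g := fP S.K S.l S.T G.P ∘ Prod.fst) (Z_law S)
    S.rY4 S.rA (fun _ _ _ _ h => S.rB_fP h.1.2.2) (fun _ _ _ _ h => S.rB_fP h.1)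
  have e3 : Ent S.pY (Setoid.ker (fP S.K S.l S.T G.P ∘ cb)) = S.eP := by
    rw [← S.ker_fP, ← (MP_cb S.K S.l S.T G.P S.hp).Ent_eq]
    rfl
  rw [e3, S.ent_rA, S.ent_rY4] at h
  have e2 : Ent S.pZ (Setoid.comap Prod.fst S.rY4 ⊓ Setoid.comap Prod.snd S.rA)
    = (8 * S.eB - 5 * S.eL - 2 * S.eP) + (2 * S.eB - S.eL) - S.eP := h
  rw [e2]; ring

theorem HZ_val (A : Finset V2) (A' : Finset V1) {e : ℝ} (he : HH S.pY S.V A' = e)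
    (h : ∀ z z' : ZZ S.Ω, (∀ i ∈ A, S.VZ bh i z z') ↔ (∀ i ∈ A', S.V i z.1 z'.1)) :
    HH S.pZ (S.VZ bh) A = e := (HZ_fst S bh A A' h).trans he

theorem Z_hK : HH S.pZ (S.VZ bh) {.K} = S.eK := by
  have h := S.base.hK
  have h2 : ∀ z z' : ZZ S.Ω, (∀ i ∈ ({.K} : Finset V2), S.VZ bh i z z') ↔
    (∀ i ∈ ({.K} : Finset V1), S.V i z.1 z'.1) := by simp
  exact HZ_val S bh _ _ h h2

theorem Z_hL0 : HH S.pZ (S.VZ bh) {.K, .l0} = S.eL := by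
  have h := S.base.hL0
  have h2 : ∀ z z' : ZZ S.Ω, (∀ i ∈ ({.K, .l0} : Finset V2), S.VZ bh i z z') ↔
    (∀ i ∈ ({.K, .l0} : Finset V1), S.V i z.1 z'.1) := by simp
  exact HZ_val S bh _ _ h h2

theorem Z_hL1 : HH S.pZ (S.VZ bh) {.K, .l1} = S.eL := by
  have h := S.base.hL1
  have h2 : ∀ z z' : ZZ S.Ω, (∀ i ∈ ({.K, .l1} : Finset V2), S.VZ bh i z z') ↔
    (∀ i ∈ ({.K, .l1} : Finset V1), S.V i z.1 z'.1) := by simp
  exact HZ_val S bh _ _ h h2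

theorem Z_hL2 : HH S.pZ (S.VZ bh) {.K, .l2} = S.eL := by
  have h := S.base.hL2
  have h2 : ∀ z z' : ZZ S.Ω, (∀ i ∈ ({.K, .l2} : Finset V2), S.VZ bh i z z') ↔
    (∀ i ∈ ({.K, .l2} : Finset V1), S.V i z.1 z'.1) := by simp
  exact HZ_val S bh _ _ h h2

theorem Z_h00 : HH S.pZ (S.VZ bh) {.K, .l0, .T0} = S.eB := by
  have h := S.base.h00
  have h2 : ∀ z z' : ZZ S.Ω, (∀ i ∈ ({.K, .l0, .T0} : Finset V2), S.VZ bh i z z') ↔
    (∀ i ∈ ({.K, .l0, .T0} : Finset V1), S.V i z.1 z'.1) := by simp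
  exact HZ_val S bh _ _ h h2

theorem Z_h01 : HH S.pZ (S.VZ bh) {.K, .l0, .T1} = S.eB := by
  have h := S.base.h01
  have h2 : ∀ z z' : ZZ S.Ω, (∀ i ∈ ({.K, .l0, .T1} : Finset V2), S.VZ bh i z z') ↔
    (∀ i ∈ ({.K, .l0, .T1} : Finset V1), S.V i z.1 z'.1) := by simp
  exact HZ_val S bh _ _ h h2

theorem Z_h0S : HH S.pZ (S.VZ bh) {.K, .l0, .S} = S.eB := by
  have h := S.base.h0S
  have h2 : ∀ z z' : ZZ S.Ω, (∀ i ∈ ({.K, .l0, .S} : Finset V2), S.VZ bh i z z') ↔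
    (∀ i ∈ ({.K, .l0, .S} : Finset V1), S.V i z.1 z'.1) := by simp
  exact HZ_val S bh _ _ h h2

theorem Z_h10 : HH S.pZ (S.VZ bh) {.K, .l1, .T0} = S.eB := by
  have h := S.base.h10
  have h2 : ∀ z z' : ZZ S.Ω, (∀ i ∈ ({.K, .l1, .T0} : Finset V2), S.VZ bh i z z') ↔
    (∀ i ∈ ({.K, .l1, .T0} : Finset V1), S.V i z.1 z'.1) := by simp
  exact HZ_val S bh _ _ h h2

theorem Z_h1R : HH S.pZ (S.VZ bh) {.K, .l1, .R} = S.eB := by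
  have h := S.base.h1R
  have h2 : ∀ z z' : ZZ S.Ω, (∀ i ∈ ({.K, .l1, .R} : Finset V2), S.VZ bh i z z') ↔
    (∀ i ∈ ({.K, .l1, .R} : Finset V1), S.V i z.1 z'.1) := by simp
  exact HZ_val S bh _ _ h h2

theorem Z_h21 : HH S.pZ (S.VZ bh) {.K, .l2, .T1} = S.eB := by
  have h := S.base.h21
  have h2 : ∀ z z' : ZZ S.Ω, (∀ i ∈ ({.K, .l2, .T1} : Finset V2), S.VZ bh i z z') ↔
    (∀ i ∈ ({.K, .l2, .T1} : Finset V1), S.V i z.1 z'.1) := by simp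
  exact HZ_val S bh _ _ h h2

theorem Z_h2b : HH S.pZ (S.VZ bh) {.K, .l2, .b} = S.eB := by
  have h := S.base.h2b
  have h2 : ∀ z z' : ZZ S.Ω, (∀ i ∈ ({.K, .l2, .b} : Finset V2), S.VZ bh i z z') ↔
    (∀ i ∈ ({.K, .l2, .b} : Finset V1), S.V i z.1 z'.1) := by simp
  exact HZ_val S bh _ _ h h2

theorem Z_h2b' : HH S.pZ (S.VZ bh) {.K, .l2, .b'} = S.eB := by
  have h := S.base.h2b'
  have h2 : ∀ z z' : ZZ S.Ω, (∀ i ∈ ({.K, .l2, .b'} : Finset V2), S.VZ bh i z z') ↔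
    (∀ i ∈ ({.K, .l2, .b'} : Finset V1), S.V i z.1 z'.1) := by simp
  exact HZ_val S bh _ _ h h2

theorem Z_hT0 : HH S.pZ (S.VZ bh) {.K, .T0} = S.eT := by
  have h := S.base.hT0
  have h2 : ∀ z z' : ZZ S.Ω, (∀ i ∈ ({.K, .T0} : Finset V2), S.VZ bh i z z') ↔
    (∀ i ∈ ({.K, .T0} : Finset V1), S.V i z.1 z'.1) := by simp
  exact HZ_val S bh _ _ h h2

theorem Z_hT1 : HH S.pZ (S.VZ bh) {.K, .T1} = S.eT := by
  have h := S.base.hT1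
  have h2 : ∀ z z' : ZZ S.Ω, (∀ i ∈ ({.K, .T1} : Finset V2), S.VZ bh i z z') ↔
    (∀ i ∈ ({.K, .T1} : Finset V1), S.V i z.1 z'.1) := by simp
  exact HZ_val S bh _ _ h h2

theorem Z_hTS : HH S.pZ (S.VZ bh) {.K, .S} = S.eT := by
  have h := S.base.hTS
  have h2 : ∀ z z' : ZZ S.Ω, (∀ i ∈ ({.K, .S} : Finset V2), S.VZ bh i z z') ↔
    (∀ i ∈ ({.K, .S} : Finset V1), S.V i z.1 z'.1) := by simp
  exact HZ_val S bh _ _ h h2

theorem Z_hTR : HH S.pZ (S.VZ bh) {.K, .R} = S.eT := by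
  have h := S.base.hTR
  have h2 : ∀ z z' : ZZ S.Ω, (∀ i ∈ ({.K, .R} : Finset V2), S.VZ bh i z z') ↔
    (∀ i ∈ ({.K, .R} : Finset V1), S.V i z.1 z'.1) := by simp
  exact HZ_val S bh _ _ h h2

theorem Z_hTb : HH S.pZ (S.VZ bh) {.K, .b} = S.eT := by
  have h := S.base.hTb
  have h2 : ∀ z z' : ZZ S.Ω, (∀ i ∈ ({.K, .b} : Finset V2), S.VZ bh i z z') ↔
    (∀ i ∈ ({.K, .b} : Finset V1), S.V i z.1 z'.1) := by simp
  exact HZ_val S bh _ _ h h2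

theorem Z_hTb' : HH S.pZ (S.VZ bh) {.K, .b'} = S.eT := by
  have h := S.base.hTb'
  have h2 : ∀ z z' : ZZ S.Ω, (∀ i ∈ ({.K, .b'} : Finset V2), S.VZ bh i z z') ↔
    (∀ i ∈ ({.K, .b'} : Finset V1), S.V i z.1 z'.1) := by simp
  exact HZ_val S bh _ _ h h2

theorem Z_hP0 : HH S.pZ (S.VZ bh) {.K, .T0, .P0} = S.eP := by
  have h := S.base.hP0
  have h2 : ∀ z z' : ZZ S.Ω, (∀ i ∈ ({.K, .T0, .P0} : Finset V2), S.VZ bh i z z') ↔
    (∀ i ∈ ({.K, .T0, .P0} : Finset V1), S.V i z.1 z'.1) := by simp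
  exact HZ_val S bh _ _ h h2

theorem Z_hP1 : HH S.pZ (S.VZ bh) {.K, .T1, .P1} = S.eP := by
  have h := S.base.hP1
  have h2 : ∀ z z' : ZZ S.Ω, (∀ i ∈ ({.K, .T1, .P1} : Finset V2), S.VZ bh i z z') ↔
    (∀ i ∈ ({.K, .T1, .P1} : Finset V1), S.V i z.1 z'.1) := by simp
  exact HZ_val S bh _ _ h h2

theorem Z_hPb : HH S.pZ (S.VZ bh) {.K, .b, .Pb} = S.eP := by
  have h := S.base.hPb
  have h2 : ∀ z z' : ZZ S.Ω, (∀ i ∈ ({.K, .b, .Pb} : Finset V2), S.VZ bh i z z') ↔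
    (∀ i ∈ ({.K, .b, .Pb} : Finset V1), S.V i z.1 z'.1) := by simp
  exact HZ_val S bh _ _ h h2

theorem Z_hL3 : HH S.pZ (S.VZ bh) {.K, .l3} = S.eL :=
  HH_coord (pZ_prob S) (MP_z3 S) _ _ (S.K ⊓ Setoid.ker S.l) fun z z' h h' => by
    have k := lkZ S h h'
    simp [Setoid.inf_iff_and, Setoid.ker_def, k.K3]

theorem Z_h3b : HH S.pZ (S.VZ bh) {.K, .l3, .b} = S.eB :=
  HH_coord (pZ_prob S) (MP_z3 S) _ _ (S.K ⊓ Setoid.ker S.l ⊓ Setoid.ker S.T)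
    fun z z' h h' => by
    have k := lkZ S h h'
    simp [Setoid.inf_iff_and, Setoid.ker_def, k.K3, k.t3, k.t3', and_assoc]

theorem Z_h33 : HH S.pZ (S.VZ bh) {.K, .l3, .t3} = S.eB :=
  HH_coord (pZ_prob S) (MP_zt S) _ _ (S.K ⊓ Setoid.ker S.l ⊓ Setoid.ker S.T)
    fun z z' h h' => by
    have k := lkZ S h h'
    simp [Setoid.inf_iff_and, Setoid.ker_def, k.Kt, k.lt, k.lt', and_assoc]

theorem Z_hT3 : HH S.pZ (S.VZ bh) {.K, .t3} = S.eT :=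
  HH_coord (pZ_prob S) (MP_zt S) _ _ (S.K ⊓ Setoid.ker S.T) fun z z' h h' => by
    have k := lkZ S h h'
    simp [Setoid.inf_iff_and, Setoid.ker_def, k.Kt]

theorem Z_hP3 : HH S.pZ (S.VZ bh) {.K, .t3, .P3} = S.eP :=
  HH_coord (pZ_prob S) (MP_zt S) _ _
    (S.K ⊓ Setoid.ker S.T ⊓ Setoid.ker (fun ω => G.P (S.l ω) (S.T ω))) fun z z' h h' => by
    have k := lkZ S h h'
    simp [Setoid.inf_iff_and, Setoid.ker_def, k.Kt, k.lt, k.lt', and_assoc]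

theorem Z_tot : 10 * S.eB - 6 * S.eL - 3 * S.eP
    ≤ HH S.pZ (S.VZ bh) {.K, .l0, .l1, .l2, .l3, .T0, .T1, .S, .R, .b, .b', .t3} := by
  rw [← ent_Z S]
  unfold HH
  refine Ent_mono' (pZ_prob S) fun z z' h h' h1 => ?_
  have kz := lkZ S h h'
  have k := kz.lk
  rw [inf_rel] at h1
  simp only [Finset.mem_insert, Finset.mem_singleton, forall_eq_or_imp, forall_eq, VZ_K, VZ_l0,
    VZ_l1, VZ_l2, VZ_l3, VZ_T0, VZ_T1, VZ_S, VZ_R, VZ_b, VZ_b', VZ_t3] at h1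
  obtain ⟨g1, g2, g3, g4, g4', g5, g6, g7, g8, g9, g10, g11⟩ := h1
  have e1 : S.rY4 z.1 z'.1 := by
    simp only [rY4_iff, rB_iff, k.KS, k.K1, k.KR, k.KT, k.K2, k.Kb, k.Kb', k.lS, k.lT, k.lR,
      k.lb, k.lb', k.mS, k.mT, k.mR, k.mb, k.mb', k.t1, k.u1, k.t2, k.u2, g1, g2, g3, g4, g5,
      g6, g7, g8, g9, g10, and_self]
  have e2 : S.rB z.2.1 z'.2.1 := by
    simp only [rB_iff, kz.K3, g1, g4', kz.t3, kz.t3', g9, and_self]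
  have e3 : S.rB z.2.2 z'.2.2 := by
    simp only [rB_iff, kz.Kt, g1, kz.lt, kz.lt', g4', g11, and_self]
  exact ⟨e1, e2, e3⟩

theorem Z_lam2 : HH S.pZ (S.VZ bh) {.K, .T1, .T0, .b, .P0, .Pb}
    - HH S.pZ (S.VZ bh) {.K, .T1, .T0, .b} = S.Lam := by
  rw [HZ_fst S bh {.K, .T1, .T0, .b, .P0, .Pb} {.K, .T1, .T0, .b, .P0, .Pb} (by simp),
    HZ_fst S bh {.K, .T1, .T0, .b} {.K, .T1, .T0, .b} (by simp)]
  exact S.base.lam2


/-- the bookkeeping hypotheses with given costs -/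
theorem preX (hbh : ∀ ω ω', S.K ω ω' → bh ω = bh ω') {k1 kc kU kc3 kU3 k11 k12 : ℝ}
    (cc1 : HH S.pZ (S.VZ bh) {.B, .S, .T0, .T1, .R} - HH S.pZ (S.VZ bh) {.B, .S, .T0, .T1} ≤ k1)
    (cc : HH S.pZ (S.VZ bh) {.K, .c} - HH S.pZ (S.VZ bh) {.K} ≤ Real.log M + kc)
    (cU : HH S.pZ (S.VZ bh) {.b', .b, .T1, .c, .B} - HH S.pZ (S.VZ bh) {.b', .b, .T1, .c} ≤ kU)
    (cc3 : HH S.pZ (S.VZ bh) {.K, .c3} - HH S.pZ (S.VZ bh) {.K} ≤ Real.log M + kc3)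
    (cU3 : HH S.pZ (S.VZ bh) {.K, .c3, .t3, .b, .c} - HH S.pZ (S.VZ bh) {.K, .c3, .t3, .b} ≤ kU3)
    (c11 : HH S.pZ (S.VZ bh) {.K, .u, .s, .c3, .l1} - HH S.pZ (S.VZ bh) {.K, .u, .s, .c3} ≤ k11)
    (c12 : HH S.pZ (S.VZ bh) {.K, .P3, .z, .c, .t3, .b, .c3, .u}
      - HH S.pZ (S.VZ bh) {.K, .P3, .z, .c, .t3, .b, .c3} ≤ k12) :
    X2.Hyp S.pZ (S.VZ bh) S.eK S.eL S.eB S.eT S.eP (Real.log M) S.Lam k1 kc kU kc3 kU3 k11 k12 where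
  hp := pZ_prob S
  hr := validZ S bh hbh
  hL3 := Z_hL3 S bh
  h3b := Z_h3b S bh
  h33 := Z_h33 S bh
  hT3 := Z_hT3 S bh
  hP3 := Z_hP3 S bh
  tot := Z_tot S bh
  lam2 := Z_lam2 S bh
  eTM := S.eTM
  hK := Z_hK S bh
  hL0 := Z_hL0 S bh
  hL1 := Z_hL1 S bh
  hL2 := Z_hL2 S bh
  h00 := Z_h00 S bh
  h01 := Z_h01 S bh
  h0S := Z_h0S S bh
  h10 := Z_h10 S bh
  h1R := Z_h1R S bh
  h21 := Z_h21 S bh
  h2b := Z_h2b S bh
  h2b' := Z_h2b' S bh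
  hT0 := Z_hT0 S bh
  hT1 := Z_hT1 S bh
  hTS := Z_hTS S bh
  hTR := Z_hTR S bh
  hTb := Z_hTb S bh
  hTb' := Z_hTb' S bh
  hP0 := Z_hP0 S bh
  hP1 := Z_hP1 S bh
  hPb := Z_hPb S bh
  cc1 := cc1
  cc := cc
  cU := cU
  cc3 := cc3
  cU3 := cU3
  c11 := c11
  c12 := c12

/-- the hypotheses with the exact values of the costs -/
theorem preX0 (hbh : ∀ ω ω', S.K ω ω' → bh ω = bh ω') :
    ∃ k1 kc kU kc3 kU3 k11 k12 : ℝ, X2.Hyp S.pZ (S.VZ bh) S.eK S.eL S.eB S.eT S.eP (Real.log M)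
      S.Lam k1 kc kU kc3 kU3 k11 k12 := by
  have e : ∀ x y : ℝ, x ≤ y + (x - y) := fun x y => by linarith
  exact ⟨_, _, _, _, _, _, _, preX S bh hbh le_rfl (e _ _) le_rfl (e _ _) le_rfl le_rfl le_rfl⟩

include hbh in
theorem ht3Z : S.eB - S.eL ≤ HH S.pZ (S.VZ bh) {.K, .l0, .l1, .l2, .l3, .T0, .T1, .S, .R, .b, .b', .t3}
      - HH S.pZ (S.VZ bh) {.K, .l0, .l1, .l2, .l3, .T0, .T1, .S, .R, .b, .b'} := by
  obtain ⟨_, _, _, _, _, _, _, h⟩ := preX0 S bh hbh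
  exact h.ht3

/-! ### distances of heights and sizes of parameters -/

include hbh in
theorem ldt3b : Ex S.pZ (fun z => ld (S.T z.2.2) (S.T (cb z.1))) ≤ 5 * (S.κ + 1) := by
  have h1 : S.VZ bh V2.t3 = Setoid.ker (fun z => S.T z.2.2) := rfl
  have h2 : ∀ z z', S.VZ bh V2.b z z' →
      (fun z : ZZ S.Ω => S.T (cb z.1)) z = (fun z : ZZ S.Ω => S.T (cb z.1)) z' := fun _ _ h => h
  have h3 : V2.b ∈ ({.K, .l0, .l1, .l2, .l3, .T0, .T1, .S, .R, .b, .b'} : Finset V2) := by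
    decide +kernel
  have h4 : ({.K, .l0, .l1, .l2, .l3, .T0, .T1, .S, .R, .b, .b', .t3} : Finset V2) =
    insert V2.t3 {.K, .l0, .l1, .l2, .l3, .T0, .T1, .S, .R, .b, .b'} := by decide +kernel
  exact (ld_le (pZ_prob S) _ _ h1 h2 h3 h4 (ht3Z S bh hbh)).trans S.deficit

include hbh in
theorem ldt3h : Ex S.pZ (fun z => ld (S.T z.2.2) (bh z.2.1)) ≤ 5 * (S.κ + 1) := by
  have h1 : S.VZ bh V2.t3 = Setoid.ker (fun z => S.T z.2.2) := rfl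
  have h2 : ∀ z z', S.VZ bh V2.K z z' →
      (fun z : ZZ S.Ω => bh (c0 z.1)) z = (fun z : ZZ S.Ω => bh (c0 z.1)) z' :=
    fun _ _ h => hbh _ _ h
  have h3 : V2.K ∈ ({.K, .l0, .l1, .l2, .l3, .T0, .T1, .S, .R, .b, .b'} : Finset V2) := by
    decide +kernel
  have h4 : ({.K, .l0, .l1, .l2, .l3, .T0, .T1, .S, .R, .b, .b', .t3} : Finset V2) =
    insert V2.t3 {.K, .l0, .l1, .l2, .l3, .T0, .T1, .S, .R, .b, .b'} := by decide +kernel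
  have h5 := (ld_le (pZ_prob S) _ _ h1 h2 h3 h4 (ht3Z S bh hbh)).trans S.deficit
  refine le_trans (le_of_eq ?_) h5
  unfold Ex
  refine Finset.sum_congr rfl fun z _ => ?_
  rcases ((pZ_prob S).1 z).eq_or_lt with h0 | h0
  · rw [← h0]; simp
  · have := hbh _ _ (linkZ S h0).1
    simp only
    rw [this]

theorem Ex_fst (f : Y S.Ω → ℝ) : Ex S.pZ (fun z => f z.1) = Ex S.pY f :=
  (pZ_fst S).sum_comp f

include hbh in
theorem upc3 : Ex S.pZ (fun z => up M (vc3 S bh z)) ≤ 22 * (S.κ + 1) := by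
  have h := S.κ_nonneg
  have h4 := log4_le
  have e : Ex S.pZ (fun z => up M (vc3 S bh z)) ≤
      Ex S.pZ (fun z => up M (vc S z.1) + (ld (S.T z.2.2) (S.T (cb z.1)) + Real.log 4)) := by
    refine Ex_mono (pZ_prob S) fun z => ?_
    have h5 := up_mv (vc S z.1) (S.T z.2.2) (S.T (cb z.1)) (bh z.2.1)
    unfold vc3
    linarith
  rw [Ex_add, Ex_add, Ex_const (pZ_prob S), Ex_fst S (fun y => up M (vc S y))] at e
  linarith [S.upc, ldt3b S bh hbh]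

include hbh in
theorem dnc3 : Ex S.pZ (fun z => dn M (vc3 S bh z)) ≤ 44 * (S.κ + 1) := by
  have h := S.κ_nonneg
  have h8 := log8_le
  have e : Ex S.pZ (fun z => dn M (vc3 S bh z)) ≤
      Ex S.pZ (fun z => dn M (vc S z.1) + (ld (S.T z.2.2) (S.T (cb z.1)) +
        (ld (S.T z.2.2) (bh z.2.1) + Real.log 8))) := by
    refine Ex_mono (pZ_prob S) fun z => ?_
    have h5 := dn_mv (vc S z.1) (S.T z.2.2) (S.T (cb z.1)) (bh z.2.1)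
    unfold vc3
    linarith
  rw [Ex_add, Ex_add, Ex_add, Ex_const (pZ_prob S), Ex_fst S (fun y => dn M (vc S y))] at e
  linarith [S.dnc, ldt3b S bh hbh, ldt3h S bh hbh]

/-! ### costs -/

theorem le_2kk {κ x : ℝ} (h : 0 ≤ κ) (hx : x ≤ 68 * (κ + 1)) : x ≤ 2 * kk m κ := by
  have := le_kk (m := m) (x := x / 2) h (by linarith)
  linarith

theorem mul_le_2kk {κ x : ℝ} (h : 0 ≤ κ) (hx : x ≤ 68 * (κ + 1)) : m * x ≤ 2 * kk m κ := by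
  have := mul_le_kk (m := m) (x := x / 2) h (by linarith)
  linarith

theorem costZ_c1 : HH S.pZ (S.VZ bh) {.B, .S, .T0, .T1, .R}
    - HH S.pZ (S.VZ bh) {.B, .S, .T0, .T1} ≤ kk m S.κ := by
  rw [HZ_fst S bh {.B, .S, .T0, .T1, .R} {.B, .S, .T0, .T1, .R} (by simp),
    HZ_fst S bh {.B, .S, .T0, .T1} {.B, .S, .T0, .T1} (by simp)]
  exact S.cost_c1

theorem costZ_cc : HH S.pZ (S.VZ bh) {.K, .c} - HH S.pZ (S.VZ bh) {.K}
    ≤ Real.log M + kk m S.κ := by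
  rw [HZ_fst S bh {.K, .c} {.K, .c} (by simp), HZ_fst S bh {.K} {.K} (by simp)]
  exact S.cost_cc

theorem costZ_cU : HH S.pZ (S.VZ bh) {.b', .b, .T1, .c, .B}
    - HH S.pZ (S.VZ bh) {.b', .b, .T1, .c} ≤ kk m S.κ := by
  rw [HZ_fst S bh {.b', .b, .T1, .c, .B} {.b', .b, .T1, .c, .B} (by simp),
    HZ_fst S bh {.b', .b, .T1, .c} {.b', .b, .T1, .c} (by simp)]
  exact S.cost_cU

include hbh in
theorem costZ_c3 : HH S.pZ (S.VZ bh) {.K, .c3} - HH S.pZ (S.VZ bh) {.K}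
    ≤ Real.log M + 2 * kk m S.κ := by
  have hκ := S.κ_nonneg
  refine cost_le (S.VZ bh) _ _ V2.c3 (by decide +kernel) _ fun r _ => ?_
  have h1 := CE_param (pZ_prob S) r (vc3 S bh) (M_pos G)
  have h2 : 2 * Ex S.pZ (fun ω => up M (vc3 S bh ω)) + Real.log 3 ≤ 2 * kk m S.κ := by
    apply le_2kk hκ
    linarith [upc3 S bh hbh, log3_le]
  have h3 : CE S.pZ (S.VZ bh V2.c3) r = CE S.pZ (Setoid.ker (vc3 S bh)) r := rfl
  rw [h3]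
  linarith

include hbh in
theorem costZ_U3 : HH S.pZ (S.VZ bh) {.K, .c3, .t3, .b, .c} - HH S.pZ (S.VZ bh) {.K, .c3, .t3, .b}
    ≤ 2 * kk m S.κ := by
  have hκ := S.κ_nonneg
  refine cost_le (S.VZ bh) _ _ V2.c (by decide +kernel) _ fun r hr => ?_
  simp only [Finset.mem_insert, Finset.mem_singleton, forall_eq_or_imp, forall_eq, VZ_K, VZ_c3,
    VZ_t3, VZ_b] at hr
  have h2 := CE_unmv (pZ_prob S) r (fun z : ZZ S.Ω => vc S z.1)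
      (fun z => S.T z.2.2) (fun z => S.T (cb z.1)) (fun z => bh z.2.1)
      (fun z z' hz hz' g => ⟨(hr z z' g).2.2.1, (hr z z' g).2.2.2,
        hbh _ _ ((lkZ S hz hz').K3.2 (hr z z' g).1), (hr z z' g).2.1⟩)
  rw [Ex_add, Ex_add, Ex_smul, Ex_fst S (fun y => up M (vc S y))] at h2
  refine h2.trans (le_2kk hκ ?_)
  linarith [S.upc, ldt3b S bh hbh, ldt3h S bh hbh, log5_le]

include hbh in
theorem costZ_11 : HH S.pZ (S.VZ bh) {.K, .u, .s, .c3, .l1} - HH S.pZ (S.VZ bh) {.K, .u, .s, .c3}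
    ≤ 2 * kk m S.κ := by
  have hκ := S.κ_nonneg
  refine cost_le (S.VZ bh) _ _ V2.l1 (by decide +kernel) _ fun r hr => ?_
  simp only [Finset.mem_insert, Finset.mem_singleton, forall_eq_or_imp, forall_eq, VZ_K, VZ_u,
    VZ_s, VZ_c3] at hr
  have h2 := CE_clos (pZ_prob S) G.hδ G.hδ1 G.hM G.hv G.hinj r
      (fun z : ZZ S.Ω => S.l z.2.1) (fun z => S.l (c1 z.1)) (vc3 S bh) (fun z => bh z.2.1)
      (fun z z' _ _ g => ⟨(hr z z' g).2.2.2, (hr z z' g).2.2.1, (hr z z' g).2.1⟩)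
  refine h2.trans (mul_le_2kk hκ ?_)
  linarith [dnc3 S bh hbh, log7_le]

include hbh in
theorem costZ_12 : HH S.pZ (S.VZ bh) {.K, .P3, .z, .c, .t3, .b, .c3, .u}
      - HH S.pZ (S.VZ bh) {.K, .P3, .z, .c, .t3, .b, .c3} ≤ kk m S.κ := by
  have hκ := S.κ_nonneg
  refine cost_le (S.VZ bh) _ _ V2.u (by decide +kernel) _ fun r hr => ?_
  simp only [Finset.mem_insert, Finset.mem_singleton, forall_eq_or_imp, forall_eq, VZ_K, VZ_P3,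
    VZ_z, VZ_c, VZ_t3, VZ_b, VZ_c3] at hr
  have h3 := CE_move (pZ_prob S) G.hδ G.hδ1 G.hM G.hx G.hv r
    (fun z : ZZ S.Ω => S.l z.2.1) (fun z => S.l (c2 z.1)) (fun z => S.l (c1 z.1))
    (fun z => vc S z.1) (fun z => S.T z.2.2) (fun z => S.T (cb z.1)) (fun z => bh z.2.1)
    (fun z hz => (linkZ S hz).2.2.1)
    (fun z z' hz hz' g => by
      obtain ⟨g1, g2, g3, g4, g5, g6, g7⟩ := hr z z' g
      exact ⟨g5, g6, hbh _ _ ((lkZ S hz hz').K3.2 g1), g4, g2, g3⟩)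
  refine h3.trans (mul_le_kk hκ ?_)
  linarith [ldt3b S bh hbh, log11_le]

/-- the bookkeeping hypotheses -/
theorem hypX (hbh : ∀ ω ω', S.K ω ω' → bh ω = bh ω') :
    X2.Hyp S.pZ (S.VZ bh) S.eK S.eL S.eB S.eT S.eP (Real.log M) S.Lam
      (kk m S.κ) (kk m S.κ) (kk m S.κ) (2 * kk m S.κ) (2 * kk m S.κ) (2 * kk m S.κ) (kk m S.κ) :=
  preX S bh hbh (costZ_c1 S bh) (costZ_cc S bh) (costZ_cU S bh) (costZ_c3 S bh hbh)
    (costZ_U3 S bh hbh) (costZ_11 S bh hbh) (costZ_12 S bh hbh)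

/-! ### the X inequality -/

/-- the system used for the X inequality -/
noncomputable def Sys.sysX : Sys G :=
  sysOf (pZ_prob S) (S.VZ bh) ({.K, .T0, .T1, .b, .c3, .u} : Finset V2)
    (fun z => S.l z.2.1) (fun z => S.T z.2.2)

theorem sysX_a : (S.sysX bh).a = HH S.pZ (S.VZ bh) {.K, .T0, .T1, .b, .c3, .u, .l3}
    - HH S.pZ (S.VZ bh) {.K, .T0, .T1, .b, .c3, .u} :=
  sysOf_a (pZ_prob S) (S.VZ bh) _ _ V2.l3 rfl (by decide +kernel)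

theorem sysX_h : (S.sysX bh).h = HH S.pZ (S.VZ bh) {.K, .T0, .T1, .b, .c3, .u, .t3, .P3}
    - HH S.pZ (S.VZ bh) {.K, .T0, .T1, .b, .c3, .u, .t3} :=
  sysOf_h (pZ_prob S) (S.VZ bh) _ _ V2.t3 V2.P3 rfl rfl (by decide +kernel) (by decide +kernel)

theorem sysX_κ : (S.sysX bh).κ = Real.log M
    - (HH S.pZ (S.VZ bh) {.K, .T0, .T1, .b, .c3, .u, .l3, .t3}
      - HH S.pZ (S.VZ bh) {.K, .T0, .T1, .b, .c3, .u, .l3}) :=
  sysOf_κ (pZ_prob S) (S.VZ bh) _ _ V2.l3 V2.t3 rfl rfl (by decide +kernel) (by decide +kernel)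

theorem ze_Z : S.ze = HH S.pZ (S.VZ bh) {.K, .T0, .T1, .b, .c, .z}
    - HH S.pZ (S.VZ bh) {.K, .T0, .T1, .b, .c} := by
  rw [HZ_fst S bh {.K, .T0, .T1, .b, .c, .z} {.K, .T0, .T1, .b, .c, .z} (by simp),
    HZ_fst S bh {.K, .T0, .T1, .b, .c} {.K, .T0, .T1, .b, .c} (by simp)]
  rfl

/-- MAIN: the X inequality -/
theorem factXS (hbh : ∀ ω ω', S.K ω ω' → bh ω = bh ω') {β C : ℝ} (hβ : 0 ≤ β) (hC : 0 ≤ C)
    (ih : SDG G β C) :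
    2 * S.a - 2 * S.h + S.Lam - S.X bh ≤ β * (S.h + S.ze - S.X bh)
      + 15 * (β + C + 1) * kk m S.κ := by
  have hκ := S.κ_nonneg
  obtain ⟨k1, k2⟩ := kk_ge (m := m) hκ
  have k3 : 34 * S.κ ≤ kk m S.κ := by
    unfold kk
    have : (0 : ℝ) ≤ (m : ℝ) := Nat.cast_nonneg _
    nlinarith [mul_nonneg this (by linarith : (0 : ℝ) ≤ S.κ + 1)]
  have i := ih (S.sysX bh)
  rw [sysX_a, sysX_h, sysX_κ] at i
  have h := (hypX S bh hbh).factX' hβ hC i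
  rw [← ze_Z S bh] at h
  have e : Real.log M - (S.eB - S.eL) = S.κ := rfl
  rw [e] at h
  have e2 : HH S.pZ (S.VZ bh) {.K, .T0, .T1, .b, .c3, .u} - HH S.pZ (S.VZ bh) {.K, .T0, .T1, .b, .c3}
    = S.X bh := rfl
  rw [e2] at h
  have e3 : S.eL - S.eK = S.a := rfl
  have e4 : S.eP - S.eT = S.h := rfl
  rw [e3, e4] at h
  have h1 := mul_le_mul_of_nonneg_left k3 hβ
  have h2 := mul_le_mul_of_nonneg_left k3 hC
  have h3 := mul_le_mul_of_nonneg_left k2 hC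
  have h4 : 0 ≤ β * kk m S.κ := mul_nonneg hβ (le_trans zero_le_one k2)
  have h5 : 0 ≤ C * kk m S.κ := mul_nonneg hC (le_trans zero_le_one k2)
  nlinarith

/-! ### exports for the final step -/

theorem Z_X0 (hbh : ∀ ω ω', S.K ω ω' → bh ω = bh ω') :
    S.eK + 3 * Real.log M + 2 * S.a - 2 * S.h + S.Lam - kk m S.κ ≤
      HH S.pZ (S.VZ bh) {.K, .T0, .T1, .b, .l1, .l3} := by
  have hκ := S.κ_nonneg
  have k3 : 10 * S.κ ≤ kk m S.κ := le_kk hκ (by linarith)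
  have h := (hypX S bh hbh).factX0
  have e : Real.log M - (S.eB - S.eL) = S.κ := rfl
  rw [e] at h
  have e3 : S.eL - S.eK = S.a := rfl
  have e4 : S.eP - S.eT = S.h := rfl
  rw [e3, e4] at h
  linarith

theorem Z_G3 (hbh : ∀ ω ω', S.K ω ω' → bh ω = bh ω') :
    Real.log M - 5 * kk m S.κ ≤ HH S.pZ (S.VZ bh) {.K, .T0, .T1, .b, .l1, .l3, .c3}
      - HH S.pZ (S.VZ bh) {.K, .T0, .T1, .b, .l1, .l3} := by
  have hκ := S.κ_nonneg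
  obtain ⟨k1, k2⟩ := kk_ge (m := m) hκ
  have h := (hypX S bh hbh).factG3'
  have e : Real.log M - (S.eB - S.eL) = S.κ := rfl
  rw [e] at h
  linarith

theorem Z_U (hbh : ∀ ω ω', S.K ω ω' → bh ω = bh ω') :
    HH S.pZ (S.VZ bh) {.K, .T0, .T1, .b} ≤ S.eK + 3 * Real.log M := (hypX S bh hbh).U3

theorem Z_L1up (hbh : ∀ ω ω', S.K ω ω' → bh ω = bh ω') :
    HH S.pZ (S.VZ bh) {.K, .l1, .T0, .T1, .b} ≤ S.eL + 3 * Real.log M := (hypX S bh hbh).L1up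

theorem Z_L1lo (hbh : ∀ ω ω', S.K ω ω' → bh ω = bh ω') :
    S.eL + 3 * Real.log M - kk m S.κ ≤ HH S.pZ (S.VZ bh) {.K, .l1, .T0, .T1, .b} := by
  have hκ := S.κ_nonneg
  have k3 : 3 * S.κ ≤ kk m S.κ := le_kk hκ (by linarith)
  have h := (hypX S bh hbh).L1lo
  have e : Real.log M - (S.eB - S.eL) = S.κ := rfl
  linarith

end

end Pool.Agent.Helper8.Kak
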