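import Pool.Agent.Helper39.KakXI
import Pool.Agent.Helper75.KakFI

/-!
# Output of the X-step in the form needed by the final step
-/

set_option autoImplicit false

namespace Pool.Agent.Helper8.Kak

/-- output of the X-step over a system `N` with a measurable height -/
theorem xOut {m M : ℕ} {G : Geo m M} (N : Sys G) (bh : N.Ω → Fin M)
    (hbh : ∀ y y', N.K y y' → bh y = bh y') :
    XOut N bh (5 * kk m N.κ) (22 * (N.κ + 1)) (44 * (N.κ + 1)) where
  prob := pZ_prob N
  fst := pZ_fst N
  snd := pZ_snd N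
  hup := upc3 N bh hbh
  hdn := dnc3 N bh hbh
  x0 := by
    have h := Z_X0 N bh hbh
    have hκ := N.κ_nonneg
    obtain ⟨k1, k2⟩ := kk_ge (m := m) hκ
    linarith
  g3 := Z_G3 N bh hbh
  u0 := Z_U N bh hbh
  u1 := Z_L1up N bh hbh

end Pool.Agent.Helper8.Kak
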