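import Pool.Agent.Helper39.Sphere

open MeasureTheory Set Filter Topology Module
open scoped ENNReal NNReal

namespace Pool.Agent.Helper39

variable {m : ℕ}

/-- Main theorem, `α ≤ 1`. -/
theorem main_aux (hm : 1 ≤ m) {K : Set (EE (m + 1))} {a : EE (m + 1) → EE (m + 1)} {w : EE (m + 1)}
    (hw : ‖w‖ = 1) {ε α : ℝ} (hε : 0 < ε) (hα : (m : ℝ) - 1 < m * α) (hα1 : α ≤ 1)
    (hK : ∀ ω, ‖ω‖ = 1 → ‖ω - w‖ < ε → ∀ s ∈ Icc (0:ℝ) 1, a ω + s • ω ∈ K)
    (ha : ContinuousOn a {ω | ‖ω‖ = 1 ∧ ‖ω - w‖ < ε})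
    (hH : ∀ δ > 0, ∃ r ∈ Ioo (0:ℝ) δ, ∃ C : ℝ, ∀ ω ω', ‖ω‖ = 1 → ‖ω'‖ = 1 → ‖ω - w‖ = r → ‖ω' - w‖ = r →
      ‖a ω - a ω'‖ ≤ C * ‖ω - ω'‖ ^ α) : volume K ≠ 0 := by
  intro hK0
  have hm1 : (1:ℝ) ≤ m := by exact_mod_cast hm
  have hα0 : 0 < α := by
    by_contra h
    push Not at h
    nlinarith
  obtain ⟨P, Q, hQn, hQw, hPQ', hPw, hPQ, hPn⟩ := coords m w hw
  obtain ⟨δ1, hδ1, hcont⟩ : ∃ δ1 > 0, ∀ ω, ‖ω‖ = 1 → ‖ω - w‖ < ε → ‖ω - w‖ < δ1 → ‖a ω - a w‖ < 1 / 8 := by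
    have h1 : ContinuousWithinAt a {ω | ‖ω‖ = 1 ∧ ‖ω - w‖ < ε} w := ha w ⟨hw, by simpa using hε⟩
    rw [Metric.continuousWithinAt_iff] at h1
    obtain ⟨δ, hδ, h2⟩ := h1 (1/8) (by norm_num)
    refine ⟨δ, hδ, fun ω h3 h4 h5 => ?_⟩
    have := @h2 ω ⟨h3, h4⟩ (by rwa [dist_eq_norm])
    rwa [dist_eq_norm] at this
  obtain ⟨r, ⟨hr0, hr1⟩, C, hC⟩ := hH (min (min ε δ1) (1/2)) (by positivity)
  have hrε : r < ε := hr1.trans_le ((min_le_left _ _).trans (min_le_left _ _))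
  have hrδ : r < δ1 := hr1.trans_le ((min_le_left _ _).trans (min_le_right _ _))
  have hr2 : r < 1 / 2 := hr1.trans_le (min_le_right _ _)
  set κ0 : ℝ := 1 - r ^ 2 / 2 with hκ0
  have hκ0l : 7 / 8 < κ0 := by rw [hκ0]; nlinarith
  have hκ0u : κ0 < 1 := by rw [hκ0]; nlinarith
  set ρ : ℝ := Real.sqrt (1 / κ0 ^ 2 - 1) with hρdef
  have hinv : 1 < 1 / κ0 ^ 2 := by
    rw [lt_div_iff₀ (by positivity)]; nlinarith
  have hinv2 : 1 / κ0 ^ 2 < 2 := by
    rw [div_lt_iff₀ (by positivity)]; nlinarith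
  have hρ : 0 < ρ := Real.sqrt_pos.2 (by linarith)
  have hρ2 : ρ ^ 2 = 1 / κ0 ^ 2 - 1 := Real.sq_sqrt (by linarith)
  -- the chart
  set κ : EE m → ℝ := fun v => (Real.sqrt (1 + ‖v‖ ^ 2))⁻¹ with hκ
  have hκpos : ∀ v, 0 < κ v := fun v => by
    have : 0 < Real.sqrt (1 + ‖v‖ ^ 2) := Real.sqrt_pos.2 (by positivity)
    exact inv_pos.2 this
  have hκsq : ∀ v, κ v ^ 2 * (1 + ‖v‖ ^ 2) = 1 := by
    intro v
    have h1 : 0 < 1 + ‖v‖ ^ 2 := by positivity
    rw [hκ]
    simp only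
    rw [inv_pow, Real.sq_sqrt h1.le, inv_mul_cancel₀ h1.ne']
  have hκle : ∀ v, κ v ≤ 1 := by
    intro v
    have h1 := hκsq v
    have h2 := hκpos v
    have h3 : 0 ≤ ‖v‖ ^ 2 := by positivity
    by_contra h
    push Not at h
    nlinarith [mul_nonneg (sq_nonneg (κ v)) h3]
  have hκρ : ∀ v, ‖v‖ ≤ ρ → κ0 ≤ κ v := by
    intro v hv
    have h1 := hκsq v
    have h2 := hκpos v
    have h3 : ‖v‖ ^ 2 ≤ ρ ^ 2 := by gcongr
    rw [hρ2] at h3
    have h4 : κ v ^ 2 * (1 / κ0 ^ 2) ≥ 1 := by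
      calc κ v ^ 2 * (1 / κ0 ^ 2) ≥ κ v ^ 2 * (1 + ‖v‖ ^ 2) :=
            mul_le_mul_of_nonneg_left (by linarith) (by positivity)
        _ = 1 := h1
    have h5 : κ0 ^ 2 ≤ κ v ^ 2 := by
      rw [mul_one_div, ge_iff_le, le_div_iff₀ (by positivity), one_mul] at h4
      exact h4
    exact le_of_sq_le_sq h5 h2.le
  have hκρ' : ∀ v, ‖v‖ = ρ → κ v = κ0 := by
    intro v hv
    refine le_antisymm ?_ (hκρ v hv.le)
    have h1 := hκsq v
    have h2 := hκpos v
    rw [hv, hρ2] at h1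
    have h5 : κ v ^ 2 ≤ κ0 ^ 2 := by
      have : κ v ^ 2 * (1 / κ0 ^ 2) = 1 := by linarith
      rw [mul_one_div, div_eq_one_iff_eq (by positivity)] at this
      exact this.le
    exact le_of_sq_le_sq h5 (by linarith)
  have hκcont : Continuous κ := by
    rw [hκ]
    refine Continuous.inv₀ (by fun_prop) (fun v => ?_)
    have : 0 < Real.sqrt (1 + ‖v‖ ^ 2) := Real.sqrt_pos.2 (by positivity)
    exact this.ne'
  set om : EE m → EE (m + 1) := fun v => κ v • (Q v + w) with hom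
  have homc : Continuous om := by
    rw [hom]
    exact hκcont.smul (Q.continuous.add continuous_const)
  have hnsq : ∀ v, ‖Q v + w‖ ^ 2 = 1 + ‖v‖ ^ 2 := by
    intro v
    rw [norm_add_sq_real, hQn, real_inner_comm, hQw, hw]
    ring
  have homn : ∀ v, ‖om v‖ = 1 := by
    intro v
    have h1 : ‖om v‖ ^ 2 = 1 := by
      rw [hom]
      simp only
      rw [norm_smul, mul_pow, hnsq, Real.norm_of_nonneg (hκpos v).le]
      exact hκsq v
    have h2 : 0 ≤ ‖om v‖ := norm_nonneg _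
    nlinarith
  have homw : ∀ v, inner ℝ w (om v) = κ v := by
    intro v
    rw [hom]
    simp only
    rw [inner_smul_right, inner_add_right, hQw, real_inner_self_eq_norm_sq, hw]
    ring
  have homd : ∀ v, ‖om v - w‖ ^ 2 = 2 - 2 * κ v := by
    intro v
    rw [norm_sub_sq_real, homn, hw, real_inner_comm, homw]
    ring
  have homd1 : ∀ v, ‖v‖ ≤ ρ → ‖om v - w‖ ≤ r := by
    intro v hv
    have h1 := homd v
    have h2 := hκρ v hv
    have h3 : ‖om v - w‖ ^ 2 ≤ r ^ 2 := by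
      rw [h1]; rw [hκ0] at h2; linarith
    exact le_of_sq_le_sq h3 hr0.le
  have homd2 : ∀ v, ‖v‖ = ρ → ‖om v - w‖ = r := by
    intro v hv
    have h1 := homd v
    rw [hκρ' v hv, hκ0] at h1
    have h3 : ‖om v - w‖ ^ 2 = r ^ 2 := by rw [h1]; ring
    have h4 : 0 ≤ ‖om v - w‖ := norm_nonneg _
    rw [sq_eq_sq₀ h4 hr0.le] at h3
    exact h3
  -- positions
  set A : EE m → EE (m + 1) := fun v => a (om v) with hA
  set h : EE m → ℝ := fun v => inner ℝ w (A v) with hh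
  set b : EE m → EE m := fun v => P (A v) - h v • v with hb
  have hAc : ContinuousOn A (Metric.closedBall 0 ρ) := by
    refine ha.comp homc.continuousOn (fun v hv => ?_)
    rw [Metric.mem_closedBall, dist_zero_right] at hv
    exact ⟨homn v, (homd1 v hv).trans_lt hrε⟩
  have hhc : ContinuousOn h (Metric.closedBall 0 ρ) := continuousOn_const.inner hAc
  have hbc : ContinuousOn b (Metric.closedBall 0 ρ) := by
    have h1 : ContinuousOn (fun v => P (A v)) (Metric.closedBall 0 ρ) := P.continuous.comp_continuousOn hAc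
    exact h1.sub (hhc.smul continuousOn_id)
  have hAn : ∀ v, ‖v‖ ≤ ρ → ‖A v - a w‖ < 1 / 8 := fun v hv =>
    hcont _ (homn v) ((homd1 v hv).trans_lt hrε) ((homd1 v hv).trans_lt hrδ)
  set t0 : ℝ := inner ℝ w (a w) with ht0
  have hhn : ∀ v, ‖v‖ ≤ ρ → |h v - t0| < 1 / 8 := by
    intro v hv
    rw [hh, ht0]
    simp only
    rw [← inner_sub_right]
    calc |inner ℝ w (A v - a w)| ≤ ‖w‖ * ‖A v - a w‖ := abs_real_inner_le_norm _ _
      _ < 1 / 8 := by rw [hw, one_mul]; exact hAn v hv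
  -- Hölder
  have hbH : ∀ x y, ‖x‖ = ρ → ‖y‖ = ρ →
      ‖b x - b y‖ ≤ ((1 + ρ) * |C| + (|t0| + 1 / 8) * (2 * ρ) ^ (1 - α)) * ‖x - y‖ ^ α := by
    intro x y hx hy
    have e1 : om x - om y = κ0 • Q (x - y) := by
      rw [hom]
      simp only
      rw [hκρ' x hx, hκρ' y hy, ← smul_sub, map_sub]
      congr 1
      abel
    have e2 : ‖om x - om y‖ ≤ ‖x - y‖ := by
      rw [e1, norm_smul, hQn, Real.norm_of_nonneg (by linarith)]
      have := norm_nonneg (x - y)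
      nlinarith
    have e3 : ‖A x - A y‖ ≤ |C| * ‖x - y‖ ^ α := by
      calc ‖A x - A y‖ ≤ C * ‖om x - om y‖ ^ α :=
            hC _ _ (homn x) (homn y) (homd2 x hx) (homd2 y hy)
        _ ≤ |C| * ‖om x - om y‖ ^ α := mul_le_mul_of_nonneg_right (le_abs_self C) (by positivity)
        _ ≤ _ := by
            refine mul_le_mul_of_nonneg_left ?_ (abs_nonneg C)
            exact Real.rpow_le_rpow (norm_nonneg _) e2 hα0.le
    have e4 : |h x - h y| ≤ |C| * ‖x - y‖ ^ α := by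
      have : h x - h y = inner ℝ w (A x - A y) := by
        rw [hh]; simp only; rw [← inner_sub_right]
      rw [this]
      refine (abs_real_inner_le_norm _ _).trans ?_
      rw [hw, one_mul]
      exact e3
    have e5 : |h y| ≤ |t0| + 1 / 8 := by
      have h1 := (hhn y hy.le).le
      have h2 : |h y| ≤ |h y - t0| + |t0| := by
        calc |h y| = |(h y - t0) + t0| := by congr 1; ring
          _ ≤ _ := abs_add_le _ _
      linarith
    have e6 : ‖x - y‖ ≤ (2 * ρ) ^ (1 - α) * ‖x - y‖ ^ α := by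
      have hxy : ‖x - y‖ ≤ 2 * ρ := by
        have := norm_sub_le x y
        rw [hx, hy] at this
        linarith
      rcases (norm_nonneg (x - y)).eq_or_lt with h0 | h0
      · rw [← h0]; positivity
      · calc ‖x - y‖ = ‖x - y‖ ^ (1 - α) * ‖x - y‖ ^ α := by
              rw [← Real.rpow_add h0]; simp
          _ ≤ _ := by
              refine mul_le_mul_of_nonneg_right ?_ (by positivity)
              exact Real.rpow_le_rpow h0.le hxy (by linarith)
    have e7 : b x - b y = P (A x - A y) - (h x - h y) • x - h y • (x - y) := by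
      rw [hb]
      simp only
      rw [map_sub, sub_smul, smul_sub]
      abel
    rw [e7]
    calc ‖P (A x - A y) - (h x - h y) • x - h y • (x - y)‖
        ≤ ‖P (A x - A y)‖ + ‖(h x - h y) • x‖ + ‖h y • (x - y)‖ :=
          (norm_sub_le _ _).trans (by gcongr; exact norm_sub_le _ _)
      _ ≤ |C| * ‖x - y‖ ^ α + |C| * ‖x - y‖ ^ α * ρ + (|t0| + 1 / 8) * ((2 * ρ) ^ (1 - α) * ‖x - y‖ ^ α) := by
          rw [norm_smul, norm_smul, Real.norm_eq_abs, Real.norm_eq_abs, hx]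
          gcongr
          exact (hPn _).trans e3
      _ = _ := by ring
  -- slices
  have hslice := measure_zero_slices hPQ hK0
  set G : Set ℝ := {t | volume {x : EE m | Q x + t • w ∈ K} = 0} with hG
  have hinf : (G ∩ Ioo (t0 + 1 / 4) (t0 + 1 / 2)).Infinite := by
    intro hfin
    have h1 : volume (G ∩ Ioo (t0 + 1 / 4) (t0 + 1 / 2)) = 0 := hfin.measure_zero _
    have h2 : volume Gᶜ = 0 := by
      rw [ae_iff] at hslice
      exact hslice
    have h3 : volume (Ioo (t0 + 1 / 4) (t0 + 1 / 2)) ≤ 0 := by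
      calc volume (Ioo (t0 + 1 / 4) (t0 + 1 / 2))
          ≤ volume ((G ∩ Ioo (t0 + 1 / 4) (t0 + 1 / 2)) ∪ Gᶜ) := by
            refine measure_mono (fun t ht => ?_)
            by_cases htG : t ∈ G
            · exact Or.inl ⟨htG, ht⟩
            · exact Or.inr htG
        _ ≤ volume (G ∩ Ioo (t0 + 1 / 4) (t0 + 1 / 2)) + volume Gᶜ := measure_union_le _ _
        _ = 0 := by rw [h1, h2, add_zero]
    rw [Real.volume_Ioo] at h3
    simp only [nonpos_iff_eq_zero, ENNReal.ofReal_eq_zero] at h3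
    linarith
  obtain ⟨S, hS1, hS2⟩ := hinf.exists_subset_card_eq (m + 1)
  obtain ⟨t, htS, ht⟩ := flat hm hρ hα hα1 hbc hbH S hS2
  have htG := hS1 htS
  apply ht
  refine measure_mono_null ?_ htG.1
  rintro x ⟨v, hv, rfl⟩
  have ht1 := htG.2.1
  have ht2 := htG.2.2
  have h1 := abs_lt.1 (hhn v hv)
  have h2 := hκρ v hv
  have hκv := hκpos v
  have h3 := hK (om v) (homn v) ((homd1 v hv).trans_lt hrε) ((t - h v) / κ v) ⟨?_, ?_⟩
  · have e1 : Q (b v + t • v) + t • w = a (om v) + ((t - h v) / κ v) • om v := by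
      have e2 : ((t - h v) / κ v) • om v = (t - h v) • (Q v + w) := by
        rw [hom]
        simp only
        rw [smul_smul, div_mul_cancel₀ _ hκv.ne']
      rw [e2]
      have e3 : a (om v) = Q (P (A v)) + h v • w := hPQ (A v)
      rw [e3, hb]
      simp only
      rw [map_add, map_sub, map_smul, map_smul, smul_add, sub_smul, sub_smul]
      abel
    change Q (b v + t • v) + t • w ∈ K
    rw [e1]
    exact h3
  · apply div_nonneg _ hκv.le
    linarith
  · rw [div_le_one hκv]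
    linarith

end Pool.Agent.Helper39
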