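import Pool.Agent.Helper39.Null

open MeasureTheory Set Filter Topology
open scoped ENNReal NNReal Matrix ContDiff

namespace Pool.Agent.Helper39

variable {m : ℕ}

/-- the bump -/
noncomputable def bmp (m : ℕ) : ContDiffBump (0 : EE m) := ⟨1/2, 1, by norm_num, by norm_num⟩

/-- the mollifying kernel -/
noncomputable def rho (m : ℕ) (u : EE m) : ℝ := (bmp m).normed volume u

lemma rho_nonneg (u : EE m) : 0 ≤ rho m u := (bmp m).nonneg_normed u

lemma rho_contDiff {n : ℕ∞} : ContDiff ℝ n (rho m) := (bmp m).contDiff_normed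

lemma rho_cont : Continuous (rho m) := (bmp m).continuous_normed

lemma rho_compact : HasCompactSupport (rho m) := (bmp m).hasCompactSupport_normed

lemma rho_integrable : Integrable (rho m) := (bmp m).integrable_normed

lemma rho_integral : ∫ u, rho m u = 1 := (bmp m).integral_normed

lemma rho_zero {u : EE m} (h : 1 ≤ ‖u‖) : rho m u = 0 := by
  have h1 : Function.support (rho m) = Metric.ball 0 1 := (bmp m).support_normed_eq
  by_contra h2
  have h3 : u ∈ Function.support (rho m) := h2
  rw [h1] at h3
  simp only [Metric.mem_ball, dist_zero_right] at h3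
  linarith

/-- mollification at scale `r` -/
noncomputable def mol (r : ℝ) (f : EE m → EE m) (x : EE m) : EE m :=
  ∫ u, rho m u • f (x - r • u)

/-- the integrand is integrable -/
lemma mol_int {r : ℝ} {f : EE m → EE m} (hf : Continuous f) (x : EE m) :
    Integrable (fun u => rho m u • f (x - r • u)) := by
  have h : Continuous (fun u => rho m u • f (x - r • u)) := by
    have := @rho_cont m
    fun_prop
  exact h.integrable_of_hasCompactSupport rho_compact.smul_right

lemma mol_add {r : ℝ} {f g : EE m → EE m} (hf : Continuous f) (hg : Continuous g) (x : EE m) :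
    mol r (fun v => f v + g v) x = mol r f x + mol r g x := by
  unfold mol
  rw [← integral_add (mol_int hf x) (mol_int hg x)]
  simp only [smul_add]

lemma mol_smul {r t : ℝ} {f : EE m → EE m} (x : EE m) :
    mol r (fun v => t • f v) x = t • mol r f x := by
  unfold mol
  rw [← integral_smul]
  congr 1
  ext1 u
  rw [smul_comm]

lemma mol_const {r : ℝ} (c : EE m) (x : EE m) : mol r (fun _ => c) x = c := by
  unfold mol
  rw [integral_smul_const, rho_integral, one_smul]

lemma mol_sub_const {r : ℝ} {f : EE m → EE m} (hf : Continuous f) (c : EE m) (x : EE m) :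
    mol r f x - c = ∫ u, rho m u • (f (x - r • u) - c) := by
  have h : ∫ u, rho m u • (f (x - r • u) - c) = mol r (fun v => f v + (-c)) x := by
    unfold mol
    simp only [sub_eq_add_neg]
  rw [h, mol_add hf continuous_const, mol_const, sub_eq_add_neg]

lemma mol_sub_le {r η : ℝ} (hr : 0 < r) {f : EE m → EE m} (hf : Continuous f) (c x : EE m)
    (h : ∀ w, ‖w - x‖ ≤ r → ‖f w - c‖ ≤ η) : ‖mol r f x - c‖ ≤ η := by
  rw [mol_sub_const hf]
  have h1 : ‖∫ u, rho m u • (f (x - r • u) - c)‖ ≤ ∫ u, rho m u * η := by
    refine norm_integral_le_of_norm_le (rho_integrable.mul_const _) (Eventually.of_forall (fun u => ?_))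
    rw [norm_smul, Real.norm_eq_abs, abs_of_nonneg (rho_nonneg u)]
    by_cases hu : 1 ≤ ‖u‖
    · rw [rho_zero hu]; simp
    · refine mul_le_mul_of_nonneg_left (h _ ?_) (rho_nonneg u)
      push Not at hu
      have : x - r • u - x = -(r • u) := by abel
      rw [this, norm_neg, norm_smul, Real.norm_eq_abs, abs_of_pos hr]
      nlinarith
  rw [integral_mul_const, rho_integral, one_mul] at h1
  exact h1

/-- convolution form -/
lemma mol_eq_conv {r : ℝ} (hr : 0 < r) (f : EE m → EE m) (x : EE m) :
    mol r f x = |((r⁻¹) ^ m)| • ∫ w, rho m (r⁻¹ • w) • f (x - w) := by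
  have h1 := Measure.integral_comp_smul (volume : Measure (EE m))
    (fun w => rho m (r⁻¹ • w) • f (x - w)) r
  have h2 : (fun u : EE m => rho m (r⁻¹ • r • u) • f (x - r • u)) = fun u => rho m u • f (x - r • u) := by
    ext1 u
    rw [smul_smul, inv_mul_cancel₀ hr.ne', one_smul]
  rw [h2] at h1
  unfold mol
  rw [h1]
  simp

lemma mol_contDiff {r : ℝ} (hr : 0 < r) {f : EE m → EE m} (hf : Continuous f) {n : ℕ∞} :
    ContDiff ℝ n (mol r f) := by
  have h1 : mol r f = fun x => |((r⁻¹) ^ m)| • ∫ w, rho m (r⁻¹ • w) • f (x - w) := by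
    ext1 x
    exact mol_eq_conv hr f x
  rw [h1]
  have h2 : ContDiff ℝ n (fun x => ∫ w, rho m (r⁻¹ • w) • f (x - w)) := by
    have hk : HasCompactSupport (fun w => rho m (r⁻¹ • w)) :=
      rho_compact.comp_homeomorph (Homeomorph.smulOfNeZero r⁻¹ (inv_ne_zero hr.ne'))
    have hs : ContDiff ℝ n (fun w => rho m (r⁻¹ • w)) := rho_contDiff.comp (contDiff_const_smul _)
    exact hk.contDiff_convolution_left (ContinuousLinearMap.lsmul ℝ ℝ) hs hf.locallyIntegrable (μ := volume)
  exact h2.const_smul _

end Pool.Agent.Helper39
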