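import Pool.Agent.Helper39.Moll

open MeasureTheory Set Filter Topology
open scoped ENNReal NNReal Matrix ContDiff

namespace Pool.Agent.Helper39

variable {m : ℕ}

lemma exists_rho_lip (m : ℕ) : ∃ L : ℝ, 0 ≤ L ∧ ∀ x y : EE m, |rho m x - rho m y| ≤ L * ‖x - y‖ := by
  have h1 : ContDiff ℝ 1 (rho m) := rho_contDiff (n := 1)
  obtain ⟨C, hC⟩ := h1.lipschitzWith_of_hasCompactSupport rho_compact (by norm_num)
  refine ⟨C, C.2, fun x y => ?_⟩
  have := hC.dist_le_mul x y
  rwa [Real.dist_eq, dist_eq_norm] at this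

/-- shifted form of the mollification -/
lemma mol_eq_shift {r : ℝ} (hr : 0 < r) (f : EE m → EE m) (x : EE m) :
    mol r f x = |((r⁻¹) ^ m)| • ∫ w, rho m (r⁻¹ • (x - w)) • f w := by
  rw [mol_eq_conv hr]
  congr 1
  have := integral_sub_left_eq_self (fun w => rho m (r⁻¹ • (x - w)) • f w) (volume : Measure (EE m)) x
  rw [← this]
  congr 1
  ext1 w
  rw [sub_sub_cancel]

lemma mol_shift_int {r : ℝ} (hr : 0 < r) {f : EE m → EE m} (hf : Continuous f) (x : EE m) :
    Integrable (fun w => rho m (r⁻¹ • (x - w)) • f w) := by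
  have h : Continuous (fun w => rho m (r⁻¹ • (x - w)) • f w) := by
    have := @rho_cont m
    fun_prop
  refine h.integrable_of_hasCompactSupport ?_
  have h2 : HasCompactSupport (fun w : EE m => rho m (r⁻¹ • (x - w))) := by
    refine HasCompactSupport.of_support_subset_isCompact (isCompact_closedBall x r) ?_
    intro w hw
    rw [Metric.mem_closedBall, dist_eq_norm]
    by_contra hlt
    push Not at hlt
    apply hw
    apply rho_zero
    rw [norm_smul, norm_inv, Real.norm_eq_abs, abs_of_pos hr, norm_sub_rev, inv_mul_eq_div, le_div_iff₀ hr]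
    linarith
  exact h2.smul_right

/-- Lipschitz estimate for mollifications -/
lemma mol_lip (m : ℕ) : ∃ L : ℝ, 0 ≤ L ∧ ∀ (r η : ℝ) (f : EE m → EE m) (c x y : EE m), 0 < r →
    Continuous f → (∀ w, ‖w - x‖ ≤ 2 * r → ‖f w - c‖ ≤ η) → ‖y - x‖ ≤ r →
    ‖mol r f y - mol r f x‖ ≤ (L * η / r) * ‖y - x‖ := by
  obtain ⟨L, hL, hlip⟩ := exists_rho_lip m
  refine ⟨L * (volume (Metric.closedBall (0 : EE m) 2)).toReal, by positivity, ?_⟩
  intro r η f c x y hr hf h hyx
  have hη : 0 ≤ η := (norm_nonneg _).trans (h x (by simp; positivity))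
  have hfc : Continuous (fun w => f w - c) := by fun_prop
  have e1 : mol r f y - mol r f x = mol r (fun w => f w - c) y - mol r (fun w => f w - c) x := by
    have h1 : ∀ z, mol r (fun w => f w - c) z = mol r f z - c := by
      intro z
      rw [mol_sub_const hf]
      rfl
    rw [h1, h1]; abel
  rw [e1, mol_eq_shift hr, mol_eq_shift hr, ← smul_sub,
    ← integral_sub (mol_shift_int hr hfc y) (mol_shift_int hr hfc x), norm_smul]
  have e2 : ‖∫ w, (rho m (r⁻¹ • (y - w)) • (f w - c) - rho m (r⁻¹ • (x - w)) • (f w - c))‖ ≤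
      ∫ w, (Metric.closedBall x (2 * r)).indicator (fun _ => L * (r⁻¹ * ‖y - x‖) * η) w := by
    refine norm_integral_le_of_norm_le ?_ (Eventually.of_forall (fun w => ?_))
    · rw [integrable_indicator_iff measurableSet_closedBall]
      exact integrableOn_const (measure_closedBall_lt_top.ne)
    · rw [← sub_smul, norm_smul]
      by_cases hw : w ∈ Metric.closedBall x (2 * r)
      · rw [indicator_of_mem hw]
        rw [Metric.mem_closedBall, dist_eq_norm] at hw
        refine mul_le_mul ?_ (h w hw) (norm_nonneg _) (by positivity)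
        rw [Real.norm_eq_abs]
        refine (hlip _ _).trans (le_of_eq ?_)
        rw [← smul_sub, norm_smul, norm_inv, Real.norm_eq_abs, abs_of_pos hr]
        congr 3
        abel
      · rw [indicator_of_notMem hw]
        rw [Metric.mem_closedBall, dist_eq_norm] at hw
        push Not at hw
        have h1 : 1 ≤ ‖r⁻¹ • (y - w)‖ := by
          rw [norm_smul, norm_inv, Real.norm_eq_abs, abs_of_pos hr, inv_mul_eq_div, le_div_iff₀ hr, one_mul]
          have : ‖w - x‖ ≤ ‖w - y‖ + ‖y - x‖ := norm_sub_le_norm_sub_add_norm_sub w y x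
          rw [norm_sub_rev y w]
          linarith
        have h2 : 1 ≤ ‖r⁻¹ • (x - w)‖ := by
          rw [norm_smul, norm_inv, Real.norm_eq_abs, abs_of_pos hr, inv_mul_eq_div, le_div_iff₀ hr, one_mul]
          rw [norm_sub_rev x w]
          linarith
        rw [rho_zero h1, rho_zero h2]
        simp
  rw [integral_indicator_const _ measurableSet_closedBall] at e2
  have e3 : volume.real (Metric.closedBall x (2 * r)) = r ^ m * (volume (Metric.closedBall (0 : EE m) 2)).toReal := by
    rw [Measure.real, mul_comm 2 r, Measure.addHaar_closedBall_mul _ x hr.le (by norm_num),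
      ENNReal.toReal_mul, ENNReal.toReal_ofReal (by positivity)]
    simp
  rw [e3] at e2
  calc ‖|r⁻¹ ^ m|‖ * ‖∫ w, (rho m (r⁻¹ • (y - w)) • (f w - c) - rho m (r⁻¹ • (x - w)) • (f w - c))‖
      ≤ (r⁻¹ ^ m) * ((r ^ m * (volume (Metric.closedBall (0 : EE m) 2)).toReal) • (L * (r⁻¹ * ‖y - x‖) * η)) := by
        refine mul_le_mul (le_of_eq ?_) e2 (norm_nonneg _) (by positivity)
        rw [norm_abs_eq_norm, Real.norm_eq_abs, abs_of_pos (by positivity)]
    _ = _ := by
        rw [smul_eq_mul]
        have h1 : r⁻¹ ^ m * r ^ m = 1 := by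
          rw [← mul_pow, inv_mul_cancel₀ hr.ne', one_pow]
        calc r⁻¹ ^ m * (r ^ m * (volume (Metric.closedBall (0 : EE m) 2)).toReal * (L * (r⁻¹ * ‖y - x‖) * η))
            = (r⁻¹ ^ m * r ^ m) * ((volume (Metric.closedBall (0 : EE m) 2)).toReal * (L * (r⁻¹ * ‖y - x‖) * η)) := by ring
          _ = _ := by rw [h1]; ring

/-- derivative bound -/
lemma mol_fderiv (m : ℕ) : ∃ L : ℝ, 0 ≤ L ∧ ∀ (r η : ℝ) (f : EE m → EE m) (c x : EE m), 0 < r →
    Continuous f → (∀ w, ‖w - x‖ ≤ 2 * r → ‖f w - c‖ ≤ η) →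
    ‖fderiv ℝ (mol r f) x‖ ≤ L * η / r := by
  obtain ⟨L, hL, h⟩ := mol_lip m
  refine ⟨L, hL, fun r η f c x hr hf h1 => ?_⟩
  have hη : 0 ≤ η := (norm_nonneg _).trans (h1 x (by simp; positivity))
  refine norm_fderiv_le_of_lip' ℝ (by positivity) ?_
  filter_upwards [Metric.closedBall_mem_nhds x hr] with y hy
  rw [Metric.mem_closedBall, dist_eq_norm] at hy
  exact h r η f c x y hr hf h1 hy

lemma mol_congr {r : ℝ} (hr : 0 < r) {f g : EE m → EE m} {x : EE m}
    (h : ∀ w, ‖w - x‖ ≤ r → f w = g w) : mol r f x = mol r g x := by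
  unfold mol
  congr 1
  ext1 u
  by_cases hu : 1 ≤ ‖u‖
  · rw [rho_zero hu]; simp
  · push Not at hu
    rw [h]
    have : x - r • u - x = -(r • u) := by abel
    rw [this, norm_neg, norm_smul, Real.norm_eq_abs, abs_of_pos hr]
    nlinarith

lemma mol_id {r : ℝ} (x : EE m) : mol r (fun v => v) x = x + mol r (fun v => v) 0 := by
  have h1 : mol r (fun v => v) x = mol r (fun v => x + (v - x)) x := by
    congr 1; ext1 v; abel
  have h2 : mol r (fun v : EE m => v) 0 = mol r (fun v => v - x) x := by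
    unfold mol
    congr 1
    ext1 u
    change rho m u • ((0 : EE m) - r • u) = rho m u • (x - r • u - x)
    rw [zero_sub, sub_sub_cancel_left]
  rw [h1, h2, mol_add continuous_const (by fun_prop), mol_const]

lemma mol_mono {r : ℝ} {f : EE m → EE m} (hf : Continuous f)
    (h : ∀ x y, 0 ≤ inner ℝ (f x - f y) (x - y)) (x y : EE m) :
    0 ≤ inner ℝ (mol r f x - mol r f y) (x - y) := by
  unfold mol
  have hi : Integrable (fun u => rho m u • f (x - r • u) - rho m u • f (y - r • u)) :=
    (mol_int hf x).sub (mol_int hf y)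
  rw [← integral_sub (mol_int hf x) (mol_int hf y), real_inner_comm, ← integral_inner hi]
  refine integral_nonneg (fun u => ?_)
  simp only [Pi.zero_apply]
  rw [← smul_sub, inner_smul_right, real_inner_comm]
  refine mul_nonneg (rho_nonneg u) ?_
  have := h (x - r • u) (y - r • u)
  rwa [sub_sub_sub_cancel_right] at this

end Pool.Agent.Helper39
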