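import Pool.Agent.Helper39.Homot2

open MeasureTheory Set Filter Topology
open scoped ENNReal NNReal Matrix ContDiff Manifold

namespace Pool.Agent.Helper39

variable {m : ℕ}

lemma jac_eq_det (H : EE m → EE m) (v : EE m) : jac H v = (fderiv ℝ H v).det := by
  unfold jac
  rw [dtM_apply, ContinuousLinearMap.det,
    ← LinearMap.det_toMatrix (EuclideanSpace.basisFun (Fin m) ℝ).toBasis, ← Matrix.det_transpose]
  congr 1

lemma jac_cont {f : EE m → EE m} (hf : ContDiff ℝ 2 f) : Continuous (jac f) :=
  (dtM m).cont.comp (continuous_pi (fun j => cols_cont hf j))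

/-- The preimage of a null set under a `C^1` map is null up to critical points. -/
lemma null_preimage {g : EE m → EE m} (hg : ContDiff ℝ 2 g) {C : Set (EE m)} (hC : IsClosed C)
    (h0 : volume C = 0) : volume {v | g v ∈ C ∧ jac g v ≠ 0} = 0 := by
  apply measure_null_of_locally_null
  intro x hx
  obtain ⟨hx1, hx2⟩ := hx
  have hx3 : (fderiv ℝ g x).det ≠ 0 := by rwa [jac_eq_det] at hx2
  have hst : HasStrictFDerivAt g (fderiv ℝ g x) x :=
    hg.contDiffAt.hasStrictFDerivAt (by norm_num)
  set e := ContinuousLinearMap.toContinuousLinearEquivOfDetNeZero (fderiv ℝ g x) hx3 with he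
  have hst' : HasStrictFDerivAt g (e : EE m →L[ℝ] EE m) x := by
    rw [he, ContinuousLinearMap.coe_toContinuousLinearEquivOfDetNeZero]
    exact hst
  let P := hst'.toOpenPartialHomeomorph g
  have hPs : x ∈ P.source := hst'.mem_toOpenPartialHomeomorph_source
  refine ⟨P.source ∩ {v | g v ∈ C ∧ jac g v ≠ 0}, ?_, ?_⟩
  · exact inter_mem (mem_nhdsWithin_of_mem_nhds (P.open_source.mem_nhds hPs)) self_mem_nhdsWithin
  · have hinj : InjOn g (P.source ∩ {v | g v ∈ C ∧ jac g v ≠ 0}) := by
      have : InjOn P P.source := P.injOn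
      exact this.mono inter_subset_left
    have hmeas : MeasurableSet (P.source ∩ {v | g v ∈ C ∧ jac g v ≠ 0}) := by
      refine P.open_source.measurableSet.inter (MeasurableSet.inter ?_ ?_)
      · exact (hC.preimage hg.continuous).measurableSet
      · exact (isOpen_ne_fun (jac_cont hg) continuous_const).measurableSet
    have h1 := lintegral_abs_det_fderiv_eq_addHaar_image volume hmeas
      (fun v _ => ((hg.differentiable (by norm_num)) v).hasFDerivAt.hasFDerivWithinAt) hinj
    have h2 : volume (g '' (P.source ∩ {v | g v ∈ C ∧ jac g v ≠ 0})) = 0 := by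
      refine measure_mono_null ?_ h0
      rintro _ ⟨v, hv, rfl⟩
      exact hv.2.1
    rw [h2, lintegral_eq_zero_iff] at h1
    · rw [Filter.EventuallyEq, ae_restrict_iff' hmeas] at h1
      have h3 : ∀ᵐ v, v ∉ (P.source ∩ {v | g v ∈ C ∧ jac g v ≠ 0}) := by
        filter_upwards [h1] with v hv hv2
        have := hv hv2
        simp only [Pi.zero_apply, ENNReal.ofReal_eq_zero, abs_nonpos_iff] at this
        rw [← jac_eq_det] at this
        exact hv2.2.2 this
      rw [ae_iff] at h3
      simpa only [not_not, Set.ofPred_mem_eq] using h3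
    · have : Measurable (fun v => |(fderiv ℝ g v).det|) := by
        have h := (jac_cont hg).abs.measurable
        simpa only [jac_eq_det] using h
      exact this.ennreal_ofReal

lemma exists_cutoff {s t : Set (EE m)} (hs : IsClosed s) (ht : IsClosed t) (hd : Disjoint s t) :
    ∃ φ : EE m → ℝ, ContDiff ℝ ∞ φ ∧ (∀ x ∈ s, φ x = 0) ∧ (∀ x ∈ t, φ x = 1) ∧ ∀ x, φ x ∈ Icc (0:ℝ) 1 := by
  obtain ⟨f, hf1, hf2, hf3⟩ := exists_contMDiffMap_zero_one_of_isClosed 𝓘(ℝ, EE m) hs ht hd
  exact ⟨f, f.contMDiff.contDiff, fun x hx => hf1 hx, fun x hx => hf2 hx, hf3⟩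

end Pool.Agent.Helper39
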