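import Pool.Agent.Helper39.Conv2

open MeasureTheory Set Filter Topology
open scoped ENNReal NNReal Matrix ContDiff

namespace Pool.Agent.Helper39

variable {m : ℕ}

lemma det_comb (S : Finset ℝ) (hS : S.card = m + 1) (A B : Matrix (Fin m) (Fin m) ℝ) :
    B.det = ∑ t ∈ S, (A + t • B).det / ∏ s ∈ S.erase t, (t - s) := by
  classical
  set P : Polynomial ℝ := Matrix.det ((Polynomial.X : Polynomial ℝ) • B.map Polynomial.C + A.map Polynomial.C) with hP
  have hdeg : P.natDegree ≤ m := by
    have := Polynomial.natDegree_det_X_add_C_le B A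
    simpa using this
  have hdeg2 : P.degree < (S.card : WithBot ℕ) := by
    rw [hS]
    calc P.degree ≤ (P.natDegree : WithBot ℕ) := Polynomial.degree_le_natDegree
      _ < ((m + 1 : ℕ) : WithBot ℕ) := by exact_mod_cast Nat.lt_succ_of_le hdeg
  have h1 := Lagrange.coeff_eq_sum (s := S) (v := fun x : ℝ => x) (fun _ _ _ _ h => h) hdeg2
  have h2 : P.coeff (S.card - 1) = B.det := by
    have := Polynomial.coeff_det_X_add_C_card B A
    rw [Fintype.card_fin] at this
    rw [hS, Nat.add_sub_cancel]
    exact this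
  rw [← h2, h1]
  refine Finset.sum_congr rfl (fun t _ => ?_)
  congr 1
  have h3 := RingHom.map_det (Polynomial.evalRingHom t)
    ((Polynomial.X : Polynomial ℝ) • B.map Polynomial.C + A.map Polynomial.C)
  rw [← hP, Polynomial.coe_evalRingHom] at h3
  rw [h3]
  congr 1
  ext i j
  simp
  ring

lemma cols_mol_add {r t : ℝ} (hr : 0 < r) {f g : EE m → EE m} (hf : Continuous f) (hg : Continuous g)
    (v : EE m) (j : Fin m) :
    cols (mol r (fun v => f v + t • g v)) v j = cols (mol r f) v j + t • cols (mol r g) v j := by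
  have h1 : mol r (fun v => f v + t • g v) = fun v => mol r f v + t • mol r g v := by
    ext1 x
    rw [mol_add hf (by fun_prop), mol_smul]
  unfold cols
  have d1 : DifferentiableAt ℝ (mol r f) v := ((mol_contDiff (n := 1) hr hf).differentiable (by norm_num)) v
  have d2 : DifferentiableAt ℝ (mol r g) v := ((mol_contDiff (n := 1) hr hg).differentiable (by norm_num)) v
  rw [h1]
  have h3 : HasFDerivAt (fun v => mol r f v + t • mol r g v) (fderiv ℝ (mol r f) v + t • fderiv ℝ (mol r g) v) v :=
    d1.hasFDerivAt.add (d2.hasFDerivAt.const_smul t)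
  rw [h3.fderiv]
  rfl

lemma jac_comb {r : ℝ} (hr : 0 < r) {f g : EE m → EE m} (hf : Continuous f) (hg : Continuous g)
    (S : Finset ℝ) (hS : S.card = m + 1) (v : EE m) :
    jac (mol r g) v = ∑ t ∈ S, jac (mol r (fun v => f v + t • g v)) v / ∏ s ∈ S.erase t, (t - s) := by
  have h := det_comb S hS (fun j i => cols (mol r f) v j i) (fun j i => cols (mol r g) v j i)
  have e1 : jac (mol r g) v = Matrix.det (fun j i => cols (mol r g) v j i) := rfl
  rw [e1, h]
  refine Finset.sum_congr rfl (fun t _ => ?_)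
  congr 1
  unfold jac
  rw [dtM_apply]
  congr 1
  ext j i
  rw [cols_mol_add hr hf hg]
  rfl

/-- If the leading coefficient stays away from zero, some value of `t` is good. -/
theorem exists_not_tendsto {ζ : EE m → ℝ} {f g : EE m → EE m} {r0 c : ℝ} (hζ : ContDiff ℝ 1 ζ)
    (hζc : HasCompactSupport ζ) (hf : Continuous f) (hg : Continuous g) (hr0 : 0 < r0) (hc : 0 < c)
    (hlead : ∀ k : ℕ, c ≤ ∫ v, ζ v * jac (mol (r0 / 2 ^ k) g) v)
    (S : Finset ℝ) (hS : S.card = m + 1) :
    ∃ t ∈ S, ¬ Tendsto (fun k : ℕ => ∫ v, ζ v * jac (mol (r0 / 2 ^ k) (fun v => f v + t • g v)) v) atTop (𝓝 0) := by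
  by_contra hcon
  push Not at hcon
  have h1 : Tendsto (fun k : ℕ => ∑ t ∈ S, (∫ v, ζ v * jac (mol (r0 / 2 ^ k) (fun v => f v + t • g v)) v) /
      ∏ s ∈ S.erase t, (t - s)) atTop (𝓝 (∑ t ∈ S, 0 / ∏ s ∈ S.erase t, (t - s))) :=
    tendsto_finsetSum _ (fun t ht => (hcon t ht).div_const _)
  simp only [zero_div, Finset.sum_const_zero] at h1
  have h2 : ∀ k : ℕ, ∑ t ∈ S, (∫ v, ζ v * jac (mol (r0 / 2 ^ k) (fun v => f v + t • g v)) v) /
      ∏ s ∈ S.erase t, (t - s) = ∫ v, ζ v * jac (mol (r0 / 2 ^ k) g) v := by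
    intro k
    have hrk : 0 < r0 / 2 ^ k := by positivity
    have hint : ∀ t ∈ S, Integrable (fun v => ζ v * jac (mol (r0 / 2 ^ k) (fun v => f v + t • g v)) v /
      ∏ s ∈ S.erase t, (t - s)) := by
      intro t _
      have hc : Continuous (jac (mol (r0 / 2 ^ k) (fun v => f v + t • g v))) :=
        jac_cont (mol_contDiff (n := 2) hrk (by fun_prop))
      exact ((hζ.continuous.mul hc).integrable_of_hasCompactSupport hζc.mul_right).div_const _
    calc ∑ t ∈ S, (∫ v, ζ v * jac (mol (r0 / 2 ^ k) (fun v => f v + t • g v)) v) / ∏ s ∈ S.erase t, (t - s)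
        = ∑ t ∈ S, ∫ v, ζ v * jac (mol (r0 / 2 ^ k) (fun v => f v + t • g v)) v / ∏ s ∈ S.erase t, (t - s) := by
          refine Finset.sum_congr rfl (fun t _ => ?_)
          rw [integral_div]
      _ = ∫ v, ∑ t ∈ S, ζ v * jac (mol (r0 / 2 ^ k) (fun v => f v + t • g v)) v / ∏ s ∈ S.erase t, (t - s) :=
          (integral_finsetSum _ hint).symm
      _ = _ := by
          congr 1
          ext v
          rw [jac_comb hrk hf hg S hS, Finset.mul_sum]
          refine Finset.sum_congr rfl (fun t _ => ?_)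
          rw [mul_div_assoc]
  simp only [h2] at h1
  have h3 := ge_of_tendsto h1 (Eventually.of_forall hlead)
  linarith

/-- Jacobians of monotone maps are nonnegative -/
lemma jac_nonneg {g : EE m → EE m} (hg : ContDiff ℝ 2 g)
    (h : ∀ x y, 0 ≤ inner ℝ (g x - g y) (x - y)) (v : EE m) : 0 ≤ jac g v := by
  rw [jac_eq_det]
  set L := fderiv ℝ g v with hL
  have hpos : ∀ w, 0 ≤ inner ℝ (L w) w := by
    intro w
    have hd : HasFDerivAt g L v := ((hg.differentiable (by norm_num)) v).hasFDerivAt
    have h1 : HasDerivAt (fun t : ℝ => g (v + t • w)) (L w) 0 := by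
      have h2 : HasDerivAt (fun t : ℝ => v + t • w) w 0 := by
        have := ((hasDerivAt_id (0:ℝ)).smul_const w).const_add v
        simpa using this
      have h3 : HasFDerivAt g L (v + (0:ℝ) • w) := by simpa using hd
      exact h3.comp_hasDerivAt 0 h2
    have h4 : Tendsto (fun t : ℝ => inner ℝ (t⁻¹ • (g (v + t • w) - g v)) w) (𝓝[>] 0) (𝓝 (inner ℝ (L w) w)) := by
      have h5 := h1.tendsto_slope_zero_right
      simp only [zero_add, zero_smul, add_zero] at h5
      exact h5.inner tendsto_const_nhds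
    refine ge_of_tendsto h4 ?_
    filter_upwards [self_mem_nhdsWithin] with t ht
    have ht' : (0:ℝ) < t := ht
    have h6 := h (v + t • w) v
    rw [add_sub_cancel_left, inner_smul_right] at h6
    rw [real_inner_smul_left]
    have h7 : 0 ≤ inner ℝ (g (v + t • w) - g v) w := by
      by_contra hneg
      push Not at hneg
      nlinarith
    positivity
  have hdet : ∀ ε : ℝ, 0 < ε → 0 < (L + ε • ContinuousLinearMap.id ℝ (EE m)).det := by
    intro ε hε
    set F : ℝ → ℝ := fun u => ((1 - u) • ContinuousLinearMap.id ℝ (EE m) + u • (L + ε • ContinuousLinearMap.id ℝ (EE m))).det with hF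
    have hFc : Continuous F := by
      have : Continuous (fun A : EE m →L[ℝ] EE m => A.det) := ContinuousLinearMap.continuous_det
      exact this.comp (by fun_prop)
    have hne : ∀ u ∈ Icc (0:ℝ) 1, F u ≠ 0 := by
      intro u hu hz
      set A : EE m →L[ℝ] EE m := ((1 - u) • ContinuousLinearMap.id ℝ (EE m) + u • (L + ε • ContinuousLinearMap.id ℝ (EE m))) with hA
      have hz' : LinearMap.det (A : EE m →ₗ[ℝ] EE m) = 0 := hz
      have hb := LinearMap.bot_lt_ker_of_det_eq_zero hz'
      obtain ⟨w, hw, hw0⟩ := Submodule.exists_mem_ne_zero_of_ne_bot hb.ne'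
      have hw1 : A w = 0 := hw
      have h1 : inner ℝ (A w) w = (1 - u) * ‖w‖ ^ 2 + u * (inner ℝ (L w) w + ε * ‖w‖ ^ 2) := by
        simp only [hA, add_apply, smul_apply,
          ContinuousLinearMap.id_apply, inner_add_left, real_inner_smul_left, real_inner_self_eq_norm_sq]
      rw [hw1, inner_zero_left] at h1
      have h2 : 0 < ‖w‖ ^ 2 := by positivity
      have h3 := hpos w
      have hu0 := hu.1
      have hu1 := hu.2
      rcases lt_or_ge u 1 with h | h
      · have : 0 < (1 - u) * ‖w‖ ^ 2 := by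
          have : 0 < 1 - u := by linarith
          positivity
        have : 0 ≤ u * (inner ℝ (L w) w + ε * ‖w‖ ^ 2) := by positivity
        linarith
      · have hu' : u = 1 := le_antisymm hu1 h
        subst hu'
        have : 0 < ε * ‖w‖ ^ 2 := by positivity
        nlinarith
    have hF0 : F 0 = 1 := by
      have e1 : (1 - (0:ℝ)) • ContinuousLinearMap.id ℝ (EE m) + (0:ℝ) • (L + ε • ContinuousLinearMap.id ℝ (EE m)) =
          ContinuousLinearMap.id ℝ (EE m) := by
        ext1 w
        simp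
      rw [hF]
      change ((1 - (0:ℝ)) • ContinuousLinearMap.id ℝ (EE m) + (0:ℝ) • (L + ε • ContinuousLinearMap.id ℝ (EE m))).det = 1
      rw [e1]
      exact LinearMap.det_id
    have hF1 : F 1 = (L + ε • ContinuousLinearMap.id ℝ (EE m)).det := by
      have e1 : (1 - (1:ℝ)) • ContinuousLinearMap.id ℝ (EE m) + (1:ℝ) • (L + ε • ContinuousLinearMap.id ℝ (EE m)) =
          L + ε • ContinuousLinearMap.id ℝ (EE m) := by
        ext1 w
        simp
      rw [hF]
      change ((1 - (1:ℝ)) • ContinuousLinearMap.id ℝ (EE m) + (1:ℝ) • (L + ε • ContinuousLinearMap.id ℝ (EE m))).det = _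
      rw [e1]
    rw [← hF1]
    by_contra hcon
    push Not at hcon
    have hivt := intermediate_value_Icc' (zero_le_one (α := ℝ)) hFc.continuousOn (f := F)
    have h0 : (0:ℝ) ∈ Icc (F 1) (F 0) := ⟨hcon, by rw [hF0]; exact zero_le_one⟩
    obtain ⟨u, hu, hu2⟩ := hivt h0
    exact hne u hu hu2
  have hc : Tendsto (fun ε : ℝ => (L + ε • ContinuousLinearMap.id ℝ (EE m)).det) (𝓝[>] 0) (𝓝 L.det) := by
    have h1 : Continuous (fun ε : ℝ => (L + ε • ContinuousLinearMap.id ℝ (EE m)).det) := by
      have : Continuous (fun A : EE m →L[ℝ] EE m => A.det) := ContinuousLinearMap.continuous_det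
      exact this.comp (by fun_prop)
    have h2 := h1.tendsto 0
    have e1 : L + (0:ℝ) • ContinuousLinearMap.id ℝ (EE m) = L := by
      ext1 w
      simp
    rw [e1] at h2
    exact h2.mono_left nhdsWithin_le_nhds
  refine ge_of_tendsto hc ?_
  filter_upwards [self_mem_nhdsWithin] with ε hε
  exact (hdet ε hε).le

end Pool.Agent.Helper39
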