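import Mathlib

open MeasureTheory Set Filter Topology
open scoped ENNReal NNReal

namespace Pool.Agent.Helper39

lemma enorm_rpow_meas (β : ℝ) : Measurable (fun x : ℝ => ‖x‖ₑ ^ (-β)) :=
  measurable_enorm.pow_const _

lemma half_finite {β : ℝ} (hβ : β < 1) : ∫⁻ x in Icc (0:ℝ) 1, ‖x‖ₑ ^ (-β) ≠ ∞ := by
  have h1 : IntegrableOn (fun x : ℝ => x ^ (-β)) (Ioc 0 1) := by
    have := intervalIntegral.intervalIntegrable_rpow' (a := 0) (b := 1) (r := -β) (by linarith)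
    rwa [intervalIntegrable_iff_integrableOn_Ioc_of_le zero_le_one] at this
  have h2 := h1.2
  have h3 : ∫⁻ x in Icc (0:ℝ) 1, ‖x‖ₑ ^ (-β) = ∫⁻ x in Ioc (0:ℝ) 1, ‖x‖ₑ ^ (-β) :=
    (setLIntegral_congr Ioc_ae_eq_Icc).symm
  rw [h3]
  have h4 : ∫⁻ x in Ioc (0:ℝ) 1, ‖x‖ₑ ^ (-β) = ∫⁻ x in Ioc (0:ℝ) 1, ‖x ^ (-β)‖ₑ := by
    refine setLIntegral_congr_fun measurableSet_Ioc (fun x hx => ?_)
    rw [Real.enorm_eq_ofReal_abs, Real.enorm_eq_ofReal_abs, abs_of_pos hx.1,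
      abs_of_pos (Real.rpow_pos_of_pos hx.1 _), ENNReal.ofReal_rpow_of_pos hx.1]
  rw [h4]
  exact h2.ne

lemma full_finite {β : ℝ} (hβ : β < 1) : ∫⁻ x in Icc (-1:ℝ) 1, ‖x‖ₑ ^ (-β) ≠ ∞ := by
  have h1 : ∫⁻ x in Icc (-1:ℝ) 0, ‖x‖ₑ ^ (-β) = ∫⁻ x in Icc (0:ℝ) 1, ‖x‖ₑ ^ (-β) := by
    rw [← lintegral_indicator measurableSet_Icc, ← lintegral_indicator measurableSet_Icc]
    have h2 := (Measure.measurePreserving_neg (volume : Measure ℝ)).lintegral_comp
      (f := (Icc (0:ℝ) 1).indicator (fun x => ‖x‖ₑ ^ (-β))) ((enorm_rpow_meas β).indicator measurableSet_Icc)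
    rw [← h2]
    congr 1
    ext x
    by_cases hx : x ∈ Icc (-1:ℝ) 0
    · have hx' : -x ∈ Icc (0:ℝ) 1 := ⟨by linarith [hx.2], by linarith [hx.1]⟩
      rw [indicator_of_mem hx, indicator_of_mem hx', enorm_neg]
    · have hx' : -x ∉ Icc (0:ℝ) 1 := fun h => hx ⟨by linarith [h.2], by linarith [h.1]⟩
      rw [indicator_of_notMem hx, indicator_of_notMem hx']
  have h2 : Icc (-1:ℝ) 1 ⊆ Icc (-1) 0 ∪ Icc 0 1 := by
    intro x hx
    rcases le_total x 0 with h | h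
    · exact Or.inl ⟨hx.1, h⟩
    · exact Or.inr ⟨h, hx.2⟩
  have h3 : ∫⁻ x in Icc (-1:ℝ) 1, ‖x‖ₑ ^ (-β) ≤
      (∫⁻ x in Icc (-1:ℝ) 0, ‖x‖ₑ ^ (-β)) + (∫⁻ x in Icc (0:ℝ) 1, ‖x‖ₑ ^ (-β)) :=
    (lintegral_mono_set h2).trans (lintegral_union_le _ _ _)
  rw [h1] at h3
  exact ne_top_of_le_ne_top (ENNReal.add_ne_top.2 ⟨half_finite hβ, half_finite hβ⟩) h3

/-- one dimensional estimate -/
lemma one_dim {β : ℝ} (hβ0 : 0 < β) (hβ : β < 1) (a b : ℝ) : ∃ C : ℝ≥0∞, C ≠ ∞ ∧ 1 ≤ C ∧ ∀ c u : ℝ,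
    ∫⁻ x in Icc a b, ‖c + x * u‖ₑ ^ (-β) ≤ C * ‖u‖ₑ ^ (-β) := by
  refine ⟨(∫⁻ x in Icc (-1:ℝ) 1, ‖x‖ₑ ^ (-β)) + volume (Icc a b) + 1, ?_, ?_, ?_⟩
  · exact ENNReal.add_ne_top.2 ⟨ENNReal.add_ne_top.2 ⟨full_finite hβ, by simp⟩, ENNReal.one_ne_top⟩
  · exact le_add_self
  · intro c u
    rcases eq_or_ne u 0 with hu | hu
    · rw [hu, enorm_zero, ENNReal.zero_rpow_of_neg (by linarith), ENNReal.mul_top (by simp)]
      exact le_top
    · have h1 : ∀ x : ℝ, ‖c + x * u‖ₑ ^ (-β) = ‖u‖ₑ ^ (-β) * ‖x + c / u‖ₑ ^ (-β) := by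
        intro x
        have : c + x * u = u * (x + c / u) := by field_simp; ring
        rw [this, enorm_mul, ENNReal.mul_rpow_of_ne_top (by simp) (by simp)]
      simp only [h1]
      have hmm : Measurable (fun x : ℝ => ‖x + c / u‖ₑ ^ (-β)) :=
        (enorm_rpow_meas β).comp (measurable_add_const _)
      rw [lintegral_const_mul _ hmm, mul_comm]
      refine mul_le_mul_left ?_ _
      calc ∫⁻ x in Icc a b, ‖x + c / u‖ₑ ^ (-β)
          ≤ ∫⁻ x in Icc a b, ((Icc (-1:ℝ) 1).indicator (fun y => ‖y‖ₑ ^ (-β)) (x + c / u) + 1) := by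
            refine lintegral_mono (fun x => ?_)
            by_cases hx : x + c / u ∈ Icc (-1:ℝ) 1
            · rw [indicator_of_mem hx]
              exact le_self_add
            · rw [indicator_of_notMem hx, zero_add]
              have h2 : 1 ≤ ‖x + c / u‖ₑ := by
                rw [Real.enorm_eq_ofReal_abs, ← ENNReal.ofReal_one]
                apply ENNReal.ofReal_le_ofReal
                by_contra hlt
                push Not at hlt
                rw [abs_lt] at hlt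
                exact hx ⟨hlt.1.le, hlt.2.le⟩
              rw [ENNReal.rpow_neg]
              exact ENNReal.inv_le_one.2 (ENNReal.one_le_rpow h2 hβ0)
        _ = (∫⁻ x in Icc a b, (Icc (-1:ℝ) 1).indicator (fun y => ‖y‖ₑ ^ (-β)) (x + c / u)) + volume (Icc a b) := by
            rw [lintegral_add_right _ measurable_const]
            simp
        _ ≤ (∫⁻ x, (Icc (-1:ℝ) 1).indicator (fun y => ‖y‖ₑ ^ (-β)) (x + c / u)) + volume (Icc a b) := by
            gcongr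
            exact Measure.restrict_le_self
        _ = (∫⁻ x in Icc (-1:ℝ) 1, ‖x‖ₑ ^ (-β)) + volume (Icc a b) := by
            rw [lintegral_add_right_eq_self (fun y => (Icc (-1:ℝ) 1).indicator (fun y => ‖y‖ₑ ^ (-β)) y),
              lintegral_indicator measurableSet_Icc]
        _ ≤ _ := le_self_add

/-- product of integrals -/
theorem lintegral_pi_prod {n : ℕ} (μ : Measure ℝ) [SigmaFinite μ] (f : Fin n → ℝ → ℝ≥0∞)
    (hf : ∀ i, Measurable (f i)) :
    ∫⁻ x : Fin n → ℝ, ∏ i, f i (x i) ∂(Measure.pi fun _ => μ) = ∏ i, ∫⁻ x, f i x ∂μ := by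
  induction n with
  | zero => simp
  | succ n n_ih =>
      have h0 := (measurePreserving_piFinSuccAbove (fun _ : Fin (n + 1) => μ) 0).symm
      have hm : Measurable (fun x : Fin (n + 1) → ℝ => ∏ i, f i (x i)) :=
        Finset.measurable_prod _ (fun i _ => (hf i).comp (measurable_pi_apply i))
      rw [← h0.lintegral_comp hm]
      have h1 : ∀ z : ℝ × (Fin n → ℝ), ∏ i, f i ((MeasurableEquiv.piFinSuccAbove (fun _ : Fin (n + 1) => ℝ) 0).symm z i) =
          f 0 z.1 * ∏ i : Fin n, f (Fin.succ i) (z.2 i) := by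
        intro z
        rw [Fin.prod_univ_succ]
        rfl
      simp only [h1]
      have hm2 : Measurable (fun x : Fin n → ℝ => ∏ i, f (Fin.succ i) (x i)) :=
        Finset.measurable_prod _ (fun i _ => (hf (Fin.succ i)).comp (measurable_pi_apply i))
      rw [lintegral_prod_mul (hf 0).aemeasurable hm2.aemeasurable, n_ih _ (fun i => hf (Fin.succ i)),
        Fin.prod_univ_succ]

end Pool.Agent.Helper39
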