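import Pool.Agent.Helper39.Energy
import Pool.Agent.Helper39.Prev1

open MeasureTheory Set Filter Topology
open scoped ENNReal NNReal

namespace Pool.Agent.Helper39

/-- two dimensional estimate -/
lemma two_dim {β : ℝ} (hβ0 : 0 < β) (hβ : β < 1) : ∃ C : ℝ≥0∞, C ≠ ∞ ∧ ∀ g h z z' : ℝ,
    ∫⁻ s in Icc (0:ℝ) (1/4), ∫⁻ s' in Icc (0:ℝ) (1/4),
      ‖g + s * z - s' * z'‖ₑ ^ (-β) * ‖h + s - s'‖ₑ ^ (-β) ≤ C * ‖z - z'‖ₑ ^ (-β) := by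
  obtain ⟨C1, hC1, hC1', h1⟩ := one_dim hβ0 hβ (0:ℝ) (1/4)
  obtain ⟨C2, hC2, hC2', h2⟩ := one_dim hβ0 hβ (-(1/4):ℝ) (1/4)
  refine ⟨C2 * C1, ENNReal.mul_ne_top hC2 hC1, fun g h z z' => ?_⟩
  have hm : Measurable (fun q : ℝ × ℝ => ‖g + q.1 * z - q.2 * z'‖ₑ ^ (-β) * ‖h + q.1 - q.2‖ₑ ^ (-β)) := by
    refine Measurable.mul ?_ ?_
    · exact (enorm_rpow_meas β).comp (by fun_prop)
    · exact (enorm_rpow_meas β).comp (by fun_prop)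
  rw [lintegral_lintegral_swap hm.aemeasurable]
  have h3 : ∀ s' ∈ Icc (0:ℝ) (1/4), ∫⁻ s in Icc (0:ℝ) (1/4),
      ‖g + s * z - s' * z'‖ₑ ^ (-β) * ‖h + s - s'‖ₑ ^ (-β) ≤
      ∫⁻ x in Icc (-(1/4):ℝ) (1/4), ‖(g + x * z) + s' * (z - z')‖ₑ ^ (-β) * ‖h + x * 1‖ₑ ^ (-β) := by
    intro s' hs'
    rw [← lintegral_indicator measurableSet_Icc, ← lintegral_indicator measurableSet_Icc,
      ← lintegral_add_right_eq_self _ s']
    refine lintegral_mono (fun x => ?_)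
    by_cases hx : x + s' ∈ Icc (0:ℝ) (1/4)
    · have hx' : x ∈ Icc (-(1/4):ℝ) (1/4) := ⟨by linarith [hx.1, hs'.2], by linarith [hx.2, hs'.1]⟩
      simp only
      rw [indicator_of_mem hx, indicator_of_mem hx']
      refine le_of_eq ?_
      congr 3
      · ring
      · ring
    · simp only
      rw [indicator_of_notMem hx]
      exact zero_le
  have hm2 : Measurable (fun q : ℝ × ℝ => ‖(g + q.2 * z) + q.1 * (z - z')‖ₑ ^ (-β) * ‖h + q.2 * 1‖ₑ ^ (-β)) := by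
    refine Measurable.mul ?_ ?_
    · exact (enorm_rpow_meas β).comp (by fun_prop)
    · exact (enorm_rpow_meas β).comp (by fun_prop)
  calc ∫⁻ s' in Icc (0:ℝ) (1/4), ∫⁻ s in Icc (0:ℝ) (1/4),
        ‖g + s * z - s' * z'‖ₑ ^ (-β) * ‖h + s - s'‖ₑ ^ (-β)
      ≤ ∫⁻ s' in Icc (0:ℝ) (1/4), ∫⁻ x in Icc (-(1/4):ℝ) (1/4),
          ‖(g + x * z) + s' * (z - z')‖ₑ ^ (-β) * ‖h + x * 1‖ₑ ^ (-β) := by
        refine setLIntegral_mono' measurableSet_Icc (fun s' hs' => h3 s' hs')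
    _ = ∫⁻ x in Icc (-(1/4):ℝ) (1/4), ∫⁻ s' in Icc (0:ℝ) (1/4),
          ‖(g + x * z) + s' * (z - z')‖ₑ ^ (-β) * ‖h + x * 1‖ₑ ^ (-β) :=
        lintegral_lintegral_swap hm2.aemeasurable
    _ ≤ ∫⁻ x in Icc (-(1/4):ℝ) (1/4), (C1 * ‖z - z'‖ₑ ^ (-β)) * ‖h + x * 1‖ₑ ^ (-β) := by
        refine lintegral_mono (fun x => ?_)
        simp only
        have hmm : Measurable (fun s' : ℝ => ‖(g + x * z) + s' * (z - z')‖ₑ ^ (-β)) :=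
          (enorm_rpow_meas β).comp (by fun_prop)
        rw [lintegral_mul_const _ hmm]
        gcongr
        exact h1 _ _
    _ = (C1 * ‖z - z'‖ₑ ^ (-β)) * ∫⁻ x in Icc (-(1/4):ℝ) (1/4), ‖h + x * 1‖ₑ ^ (-β) := by
        have hmm : Measurable (fun x : ℝ => ‖h + x * 1‖ₑ ^ (-β)) :=
          (enorm_rpow_meas β).comp (by fun_prop)
        rw [lintegral_const_mul _ hmm]
    _ ≤ (C1 * ‖z - z'‖ₑ ^ (-β)) * C2 := by
        gcongr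
        have := h2 h 1
        simpa using this
    _ = _ := by ring

/-- multi dimensional estimate -/
lemma multi_dim {β : ℝ} (hβ0 : 0 < β) (hβ : β < 1) (k : ℕ) (a b : ℝ) : ∃ C : ℝ≥0∞, C ≠ ∞ ∧
    ∀ c u : Fin k → ℝ,
    ∫⁻ l, ∏ i, ‖c i + l i * u i‖ₑ ^ (-β) ∂(Measure.pi (fun _ : Fin k => volume.restrict (Icc a b))) ≤
      C * ∏ i, ‖u i‖ₑ ^ (-β) := by
  obtain ⟨C1, hC1, hC1', h1⟩ := one_dim hβ0 hβ a b
  refine ⟨C1 ^ k, ENNReal.pow_ne_top hC1, fun c u => ?_⟩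
  have h2 := lintegral_pi_prod (volume.restrict (Icc a b)) (fun (i : Fin k) (x : ℝ) => ‖c i + x * u i‖ₑ ^ (-β))
    (fun i => (enorm_rpow_meas β).comp (by fun_prop))
  rw [h2]
  calc ∏ i, ∫⁻ x in Icc a b, ‖c i + x * u i‖ₑ ^ (-β) ≤ ∏ i, (C1 * ‖u i‖ₑ ^ (-β)) :=
        Finset.prod_le_prod' (fun i _ => h1 _ _)
    _ = _ := by rw [Finset.prod_mul_distrib]; simp

end Pool.Agent.Helper39
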