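import Pool.Agent.Helper39.Prev2

open MeasureTheory Set Filter Topology
open scoped ENNReal NNReal

namespace Pool.Agent.Helper39

/-- diagonal perturbation of a vector of `ℝ^(k+2)` -/
noncomputable def dshift (k : ℕ) (lam : Fin k → ℝ) (x : EuclideanSpace ℝ (Fin (k + 2))) :
    EuclideanSpace ℝ (Fin (k + 2)) :=
  WithLp.toLp 2 (fun j => if h : (j : ℕ) < k then lam ⟨j, h⟩ * x j else 0)

variable {k : ℕ}

/-- height factor -/
noncomputable def rr (w : (Fin k → ℝ) × ℝ) : ℝ := Real.sqrt ((1 - ∑ i, w.1 i ^ 2) / (1 + w.2 ^ 2))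

/-- direction with last coordinate one -/
noncomputable def vv (w : (Fin k → ℝ) × ℝ) : EuclideanSpace ℝ (Fin (k + 2)) :=
  WithLp.toLp 2 (Fin.snoc (α := fun _ => ℝ) (Fin.snoc (α := fun _ => ℝ) (fun i : Fin k => w.1 i / rr w) w.2) 1)

/-- unit direction -/
noncomputable def omv (w : (Fin k → ℝ) × ℝ) : EuclideanSpace ℝ (Fin (k + 2)) :=
  WithLp.toLp 2 (Fin.snoc (α := fun _ => ℝ) (Fin.snoc (α := fun _ => ℝ) (fun i : Fin k => w.1 i) (w.2 * rr w)) (rr w))

lemma rr_meas : Measurable (rr (k := k)) := by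
  unfold rr
  refine Measurable.sqrt (Measurable.div ?_ ?_)
  · refine measurable_const.sub (Finset.measurable_sum _ (fun i _ => ?_))
    exact ((measurable_pi_apply i).comp measurable_fst).pow_const _
  · exact measurable_const.add (measurable_snd.pow_const _)

lemma snoc_meas {X : Type*} [MeasurableSpace X] {n : ℕ} {f : X → Fin n → ℝ} {g : X → ℝ} (hf : Measurable f)
    (hg : Measurable g) : Measurable (fun x => (Fin.snoc (α := fun _ => ℝ) (f x) (g x) : Fin (n + 1) → ℝ)) := by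
  refine measurable_pi_iff.2 (fun j => ?_)
  refine Fin.lastCases ?_ (fun i => ?_) j
  · simp only [Fin.snoc_last]
    exact hg
  · simp only [Fin.snoc_castSucc]
    exact (measurable_pi_apply i).comp hf

lemma vv_meas : Measurable (vv (k := k)) := by
  unfold vv
  refine (WithLp.measurable_toLp 2 _).comp (snoc_meas (snoc_meas ?_ measurable_snd) measurable_const)
  refine measurable_pi_iff.2 (fun i => ?_)
  exact ((measurable_pi_apply i).comp measurable_fst).div rr_meas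

lemma omv_meas : Measurable (omv (k := k)) := by
  unfold omv
  refine (WithLp.measurable_toLp 2 _).comp (snoc_meas (snoc_meas measurable_fst ?_) rr_meas)
  exact measurable_snd.mul rr_meas

lemma dshift_meas : Measurable (fun q : (Fin k → ℝ) × EuclideanSpace ℝ (Fin (k + 2)) => dshift k q.1 q.2) := by
  unfold dshift
  refine (WithLp.measurable_toLp 2 _).comp (measurable_pi_iff.2 (fun j => ?_))
  split_ifs with h
  · refine ((measurable_pi_apply _).comp measurable_fst).mul ?_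
    exact ((measurable_pi_apply j).comp (WithLp.measurable_ofLp 2 _)).comp measurable_snd
  · exact measurable_const

/-- the parametrisation of the perturbed set -/
noncomputable def FF (a : EuclideanSpace ℝ (Fin (k + 2)) → EuclideanSpace ℝ (Fin (k + 2))) (lam : Fin k → ℝ)
    (ξ : ((Fin k → ℝ) × ℝ) × ℝ) : EuclideanSpace ℝ (Fin (k + 2)) :=
  a (omv ξ.1) + dshift k lam (omv ξ.1) + ξ.2 • vv ξ.1

lemma FF_meas {a : EuclideanSpace ℝ (Fin (k + 2)) → EuclideanSpace ℝ (Fin (k + 2))} (ha : Measurable a) :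
    Measurable (fun q : (Fin k → ℝ) × (((Fin k → ℝ) × ℝ) × ℝ) => FF a q.1 q.2) := by
  unfold FF
  have h1 : Measurable (fun q : (Fin k → ℝ) × (((Fin k → ℝ) × ℝ) × ℝ) => omv q.2.1) :=
    omv_meas.comp (measurable_fst.comp measurable_snd)
  have h2 : Measurable (fun q : (Fin k → ℝ) × (((Fin k → ℝ) × ℝ) × ℝ) => vv q.2.1) :=
    vv_meas.comp (measurable_fst.comp measurable_snd)
  refine ((ha.comp h1).add ?_).add ?_
  · exact dshift_meas.comp (measurable_fst.prodMk h1)
  · exact (measurable_snd.comp measurable_snd).smul h2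

lemma FF_coord1 (a : EuclideanSpace ℝ (Fin (k + 2)) → EuclideanSpace ℝ (Fin (k + 2))) (lam : Fin k → ℝ)
    (ξ : ((Fin k → ℝ) × ℝ) × ℝ) (i : Fin k) :
    FF a lam ξ (Fin.castSucc (Fin.castSucc i)) =
      a (omv ξ.1) (Fin.castSucc (Fin.castSucc i)) + lam i * ξ.1.1 i + ξ.2 * (ξ.1.1 i / rr ξ.1) := by
  unfold FF dshift omv vv
  simp

lemma FF_coord2 (a : EuclideanSpace ℝ (Fin (k + 2)) → EuclideanSpace ℝ (Fin (k + 2))) (lam : Fin k → ℝ)
    (ξ : ((Fin k → ℝ) × ℝ) × ℝ) :
    FF a lam ξ (Fin.castSucc (Fin.last k)) =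
      a (omv ξ.1) (Fin.castSucc (Fin.last k)) + ξ.2 * ξ.1.2 := by
  unfold FF dshift omv vv
  simp

lemma FF_coord3 (a : EuclideanSpace ℝ (Fin (k + 2)) → EuclideanSpace ℝ (Fin (k + 2))) (lam : Fin k → ℝ)
    (ξ : ((Fin k → ℝ) × ℝ) × ℝ) :
    FF a lam ξ (Fin.last (k + 1)) =
      a (omv ξ.1) (Fin.last (k + 1)) + ξ.2 := by
  unfold FF dshift omv vv
  simp

lemma edist_bound {β : ℝ} (hβ : 0 < β) (x x' : EuclideanSpace ℝ (Fin (k + 2))) :
    (edist x x') ^ (-(((k : ℝ) + 2) * β)) ≤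
      (∏ i : Fin k, ‖x (Fin.castSucc (Fin.castSucc i)) - x' (Fin.castSucc (Fin.castSucc i))‖ₑ ^ (-β)) *
        (‖x (Fin.castSucc (Fin.last k)) - x' (Fin.castSucc (Fin.last k))‖ₑ ^ (-β) *
          ‖x (Fin.last (k + 1)) - x' (Fin.last (k + 1))‖ₑ ^ (-β)) := by
  have h1 : ∀ j, ‖x j - x' j‖ₑ ≤ edist x x' := by
    intro j
    rw [edist_eq_enorm_sub]
    have := PiLp.norm_apply_le (x - x') j
    rw [← ofReal_norm, ← ofReal_norm]
    exact ENNReal.ofReal_le_ofReal this
  have h2 : ∀ j, (edist x x') ^ (-β) ≤ ‖x j - x' j‖ₑ ^ (-β) := by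
    intro j
    rw [ENNReal.rpow_neg, ENNReal.rpow_neg]
    exact ENNReal.inv_le_inv.2 (ENNReal.rpow_le_rpow (h1 j) hβ.le)
  have h3 : (edist x x') ^ (-(((k : ℝ) + 2) * β)) = ∏ _j : Fin (k + 2), (edist x x') ^ (-β) := by
    rw [Finset.prod_const, Finset.card_univ, Fintype.card_fin, ← ENNReal.rpow_natCast, ← ENNReal.rpow_mul]
    congr 1
    push_cast
    ring
  rw [h3]
  refine (Finset.prod_le_prod' (fun j _ => h2 j)).trans (le_of_eq ?_)
  rw [Fin.prod_univ_castSucc, Fin.prod_univ_castSucc, mul_assoc]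

end Pool.Agent.Helper39
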