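import Pool.Agent.Helper39.Prev3
import Pool.Agent.Helper39.Gen

open MeasureTheory Set Filter Topology
open scoped ENNReal NNReal

namespace Pool.Agent.Helper39

variable {k : ℕ}

/-- box measure -/
noncomputable def boxm (k : ℕ) (a b : ℝ) : Measure (Fin k → ℝ) :=
  Measure.pi (fun _ : Fin k => (volume : Measure ℝ).restrict (Icc a b))

instance boxm_finite (k : ℕ) (a b : ℝ) : IsFiniteMeasure (boxm k a b) := by
  unfold boxm; infer_instance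

/-- interval measure -/
noncomputable def intm : Measure ℝ := (volume : Measure ℝ).restrict (Icc (0:ℝ) (1/4))

instance intm_finite : IsFiniteMeasure intm := by unfold intm; infer_instance

/-- measure on directions -/
noncomputable def dirm (k : ℕ) (c : ℝ) : Measure ((Fin k → ℝ) × ℝ) := (boxm k 0 c).prod intm

instance dirm_finite (k : ℕ) (c : ℝ) : IsFiniteMeasure (dirm k c) := by unfold dirm; infer_instance

/-- kernel in the planar variables -/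
noncomputable def ker2 (β : ℝ) (g h : (Fin k → ℝ) × ℝ → ℝ)
    (w : (Fin k → ℝ) × ℝ) (s : ℝ) (w' : (Fin k → ℝ) × ℝ) (s' : ℝ) : ℝ≥0∞ :=
  ‖(g w - g w') + s * w.2 - s' * w'.2‖ₑ ^ (-β) * ‖(h w - h w') + s - s'‖ₑ ^ (-β)

/-- kernel in the other variables -/
noncomputable def kerA (β : ℝ) (w w' : (Fin k → ℝ) × ℝ) : ℝ≥0∞ := ∏ i : Fin k, ‖w.1 i - w'.1 i‖ₑ ^ (-β)

lemma kerA_meas (β : ℝ) : Measurable (fun q : ((Fin k → ℝ) × ℝ) × ((Fin k → ℝ) × ℝ) => kerA β q.1 q.2) := by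
  unfold kerA
  refine Finset.measurable_prod _ (fun i _ => (enorm_rpow_meas β).comp ?_)
  exact ((measurable_pi_apply i).comp (measurable_fst.comp measurable_fst)).sub
    ((measurable_pi_apply i).comp (measurable_fst.comp measurable_snd))

lemma ker2_meas (β : ℝ) {g h : (Fin k → ℝ) × ℝ → ℝ} (hg : Measurable g) (hh : Measurable h) :
    Measurable (fun q : (((Fin k → ℝ) × ℝ) × ℝ) × (((Fin k → ℝ) × ℝ) × ℝ) => ker2 β g h q.1.1 q.1.2 q.2.1 q.2.2) := by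
  unfold ker2
  have e1 : Measurable (fun q : (((Fin k → ℝ) × ℝ) × ℝ) × (((Fin k → ℝ) × ℝ) × ℝ) => q.1.1) :=
    measurable_fst.comp measurable_fst
  have e2 : Measurable (fun q : (((Fin k → ℝ) × ℝ) × ℝ) × (((Fin k → ℝ) × ℝ) × ℝ) => q.1.2) :=
    measurable_snd.comp measurable_fst
  have e3 : Measurable (fun q : (((Fin k → ℝ) × ℝ) × ℝ) × (((Fin k → ℝ) × ℝ) × ℝ) => q.2.1) :=
    measurable_fst.comp measurable_snd
  have e4 : Measurable (fun q : (((Fin k → ℝ) × ℝ) × ℝ) × (((Fin k → ℝ) × ℝ) × ℝ) => q.2.2) :=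
    measurable_snd.comp measurable_snd
  refine Measurable.mul ((enorm_rpow_meas β).comp ?_) ((enorm_rpow_meas β).comp ?_)
  · exact ((((hg.comp e1).sub (hg.comp e3)).add (e2.mul (measurable_snd.comp e1)))).sub
      (e4.mul (measurable_snd.comp e3))
  · exact ((((hh.comp e1).sub (hh.comp e3)).add e2)).sub e4

/-- the remaining integral is finite -/
lemma kernel_finite {β : ℝ} (hβ0 : 0 < β) (hβ : β < 1) (c : ℝ) {g h : (Fin k → ℝ) × ℝ → ℝ}
    (hg : Measurable g) (hh : Measurable h) :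
    ∫⁻ ξ, ∫⁻ ξ', kerA β ξ.1 ξ'.1 * ker2 β g h ξ.1 ξ.2 ξ'.1 ξ'.2 ∂((dirm k c).prod intm) ∂((dirm k c).prod intm) ≠ ∞ := by
  obtain ⟨C2, hC2, h2⟩ := two_dim hβ0 hβ
  obtain ⟨C1, hC1, h1⟩ := multi_dim hβ0 hβ k 0 c
  obtain ⟨C3, hC3, _, h3⟩ := one_dim hβ0 hβ (0:ℝ) (1/4)
  have hA := kerA_meas (k := k) β
  have hK := ker2_meas β hg hh
  have hAK : Measurable (fun q : (((Fin k → ℝ) × ℝ) × ℝ) × (((Fin k → ℝ) × ℝ) × ℝ) =>
      kerA β q.1.1 q.2.1 * ker2 β g h q.1.1 q.1.2 q.2.1 q.2.2) := by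
    refine Measurable.mul ?_ hK
    exact hA.comp (f := fun q : (((Fin k → ℝ) × ℝ) × ℝ) × (((Fin k → ℝ) × ℝ) × ℝ) => (q.1.1, q.2.1)) (by fun_prop)
  have e1 := four_prod (dirm k c) intm (G := fun w s w' s' => kerA β w w' * ker2 β g h w s w' s') hAK
  have e3 : ∀ w w' : (Fin k → ℝ) × ℝ,
      ∫⁻ s, ∫⁻ s', kerA β w w' * ker2 β g h w s w' s' ∂intm ∂intm ≤ kerA β w w' * (C2 * ‖w.2 - w'.2‖ₑ ^ (-β)) := by
    intro w w'
    have hm1 : ∀ s : ℝ, Measurable (fun s' => ker2 β g h w s w' s') := fun s =>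
      hK.comp (f := fun s' : ℝ => ((w, s), (w', s'))) (by fun_prop)
    have hm2 : Measurable (fun s => ∫⁻ s', ker2 β g h w s w' s' ∂intm) := by
      have hm : Measurable (fun q : ℝ × ℝ => ker2 β g h w q.1 w' q.2) :=
        hK.comp (f := fun q : ℝ × ℝ => ((w, q.1), (w', q.2))) (by fun_prop)
      exact hm.lintegral_prod_right'
    calc ∫⁻ s, ∫⁻ s', kerA β w w' * ker2 β g h w s w' s' ∂intm ∂intm
        = kerA β w w' * ∫⁻ s, ∫⁻ s', ker2 β g h w s w' s' ∂intm ∂intm := by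
          rw [← lintegral_const_mul _ hm2]
          refine lintegral_congr (fun s => ?_)
          rw [lintegral_const_mul _ (hm1 s)]
      _ ≤ kerA β w w' * (C2 * ‖w.2 - w'.2‖ₑ ^ (-β)) := by
          gcongr
          exact h2 _ _ _ _
  have e4 : ∀ w : (Fin k → ℝ) × ℝ,
      ∫⁻ w', kerA β w w' * (C2 * ‖w.2 - w'.2‖ₑ ^ (-β)) ∂(dirm k c) ≤ C1 * (C2 * C3) := by
    intro w
    have hmA : Measurable (fun y' : Fin k → ℝ => ∏ i : Fin k, ‖w.1 i - y' i‖ₑ ^ (-β)) := by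
      refine Finset.measurable_prod _ (fun i _ => (enorm_rpow_meas β).comp ?_)
      exact measurable_const.sub (measurable_pi_apply i)
    have hmz : Measurable (fun z' : ℝ => C2 * ‖w.2 - z'‖ₑ ^ (-β)) :=
      ((enorm_rpow_meas β).comp (measurable_const.sub measurable_id)).const_mul _
    unfold dirm kerA
    rw [lintegral_prod_mul (f := fun y' : Fin k → ℝ => ∏ i : Fin k, ‖w.1 i - y' i‖ₑ ^ (-β))
      (g := fun z' : ℝ => C2 * ‖w.2 - z'‖ₑ ^ (-β)) hmA.aemeasurable hmz.aemeasurable]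
    refine mul_le_mul' ?_ ?_
    · have := h1 (fun i => w.1 i) (fun _ => -1)
      simp only [enorm_neg, enorm_one, ENNReal.one_rpow, Finset.prod_const_one, mul_one, mul_neg,
        ← sub_eq_add_neg] at this
      exact this
    · have hmz' : Measurable (fun z' : ℝ => ‖w.2 - z'‖ₑ ^ (-β)) :=
        ((enorm_rpow_meas β).comp (measurable_const.sub measurable_id))
      rw [lintegral_const_mul _ hmz']
      refine mul_le_mul' le_rfl ?_
      have := h3 w.2 (-1)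
      simp only [enorm_neg, enorm_one, ENNReal.one_rpow, mul_one, mul_neg, ← sub_eq_add_neg] at this
      exact this
  rw [e1]
  refine ne_top_of_le_ne_top (b := C1 * (C2 * C3) * (dirm k c) univ) ?_ ?_
  · exact ENNReal.mul_ne_top (ENNReal.mul_ne_top hC1 (ENNReal.mul_ne_top hC2 hC3)) (measure_ne_top _ _)
  · calc ∫⁻ w, ∫⁻ w', ∫⁻ s, ∫⁻ s', kerA β w w' * ker2 β g h w s w' s' ∂intm ∂intm ∂(dirm k c) ∂(dirm k c)
        ≤ ∫⁻ _w, C1 * (C2 * C3) ∂(dirm k c) := by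
          refine lintegral_mono (fun w => ?_)
          exact (lintegral_mono (fun w' => e3 w w')).trans (e4 w)
      _ = _ := by rw [lintegral_const]

/-- total energy, integrated over the parameters, is finite -/
theorem energy_finite {β : ℝ} (hβ0 : 0 < β) (hβ : β < 1) (c R : ℝ)
    {a : EuclideanSpace ℝ (Fin (k + 2)) → EuclideanSpace ℝ (Fin (k + 2))} (ha : Measurable a) :
    ∫⁻ l, ∫⁻ ξ, ∫⁻ ξ', (edist (FF a l ξ) (FF a l ξ')) ^ (-(((k : ℝ) + 2) * β))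
      ∂((dirm k c).prod intm) ∂((dirm k c).prod intm) ∂(boxm k (-R) R) ≠ ∞ := by
  obtain ⟨C1, hC1, h1⟩ := multi_dim hβ0 hβ k (-R) R
  set μ := (dirm k c).prod intm with hμ
  set g : (Fin k → ℝ) × ℝ → ℝ := fun w => a (omv w) (Fin.castSucc (Fin.last k)) with hg
  set h : (Fin k → ℝ) × ℝ → ℝ := fun w => a (omv w) (Fin.last (k + 1)) with hh
  have hcoord : ∀ j, Measurable (fun w : (Fin k → ℝ) × ℝ => a (omv w) j) := fun j =>
    ((measurable_pi_apply j).comp (WithLp.measurable_ofLp 2 _)).comp (ha.comp omv_meas)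
  have hgm : Measurable g := hcoord _
  have hhm : Measurable h := hcoord _
  have hF := FF_meas (k := k) ha
  have hΦ : Measurable (fun q : (Fin k → ℝ) × ((((Fin k → ℝ) × ℝ) × ℝ) × (((Fin k → ℝ) × ℝ) × ℝ)) =>
      (edist (FF a q.1 q.2.1) (FF a q.1 q.2.2)) ^ (-(((k : ℝ) + 2) * β))) := by
    refine Measurable.pow_const ?_ _
    refine Measurable.edist ?_ ?_
    · exact hF.comp (f := fun q : (Fin k → ℝ) × ((((Fin k → ℝ) × ℝ) × ℝ) × (((Fin k → ℝ) × ℝ) × ℝ)) => (q.1, q.2.1)) (by fun_prop)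
    · exact hF.comp (f := fun q : (Fin k → ℝ) × ((((Fin k → ℝ) × ℝ) × ℝ) × (((Fin k → ℝ) × ℝ) × ℝ)) => (q.1, q.2.2)) (by fun_prop)
  have e1 := three_swap (boxm k (-R) R) μ
    (Φ := fun l ξ ξ' => (edist (FF a l ξ) (FF a l ξ')) ^ (-(((k : ℝ) + 2) * β))) hΦ
  have hA := kerA_meas (k := k) β
  have hK := ker2_meas β hgm hhm
  have hAK : Measurable (fun q : (((Fin k → ℝ) × ℝ) × ℝ) × (((Fin k → ℝ) × ℝ) × ℝ) =>
      kerA β q.1.1 q.2.1 * ker2 β g h q.1.1 q.1.2 q.2.1 q.2.2) := by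
    refine Measurable.mul ?_ hK
    exact hA.comp (f := fun q : (((Fin k → ℝ) × ℝ) × ℝ) × (((Fin k → ℝ) × ℝ) × ℝ) => (q.1.1, q.2.1)) (by fun_prop)
  have e2 : ∀ ξ ξ' : ((Fin k → ℝ) × ℝ) × ℝ,
      ∫⁻ l, (edist (FF a l ξ) (FF a l ξ')) ^ (-(((k : ℝ) + 2) * β)) ∂(boxm k (-R) R) ≤
        C1 * (kerA β ξ.1 ξ'.1 * ker2 β g h ξ.1 ξ.2 ξ'.1 ξ'.2) := by
    intro ξ ξ'
    set cc : Fin k → ℝ := fun i => (a (omv ξ.1) (Fin.castSucc (Fin.castSucc i)) + ξ.2 * (ξ.1.1 i / rr ξ.1)) -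
      (a (omv ξ'.1) (Fin.castSucc (Fin.castSucc i)) + ξ'.2 * (ξ'.1.1 i / rr ξ'.1)) with hcc
    set uu : Fin k → ℝ := fun i => ξ.1.1 i - ξ'.1.1 i with huu
    have e3 : ∀ l : Fin k → ℝ, (edist (FF a l ξ) (FF a l ξ')) ^ (-(((k : ℝ) + 2) * β)) ≤
        (∏ i : Fin k, ‖cc i + l i * uu i‖ₑ ^ (-β)) * ker2 β g h ξ.1 ξ.2 ξ'.1 ξ'.2 := by
      intro l
      refine (edist_bound hβ0 _ _).trans (le_of_eq ?_)
      unfold ker2
      congr 1
      · refine Finset.prod_congr rfl (fun i _ => ?_)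
        rw [FF_coord1, FF_coord1, hcc, huu]
        congr 2
        ring
      · rw [FF_coord2, FF_coord2, FF_coord3, FF_coord3, hg, hh]
        congr 3
        · ring
        · ring
    have hm : Measurable (fun l : Fin k → ℝ => ∏ i : Fin k, ‖cc i + l i * uu i‖ₑ ^ (-β)) := by
      refine Finset.measurable_prod _ (fun i _ => (enorm_rpow_meas β).comp ?_)
      exact measurable_const.add ((measurable_pi_apply i).mul_const _)
    calc ∫⁻ l, (edist (FF a l ξ) (FF a l ξ')) ^ (-(((k : ℝ) + 2) * β)) ∂(boxm k (-R) R)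
        ≤ ∫⁻ l, (∏ i : Fin k, ‖cc i + l i * uu i‖ₑ ^ (-β)) * ker2 β g h ξ.1 ξ.2 ξ'.1 ξ'.2 ∂(boxm k (-R) R) :=
          lintegral_mono e3
      _ = (∫⁻ l, ∏ i : Fin k, ‖cc i + l i * uu i‖ₑ ^ (-β) ∂(boxm k (-R) R)) * ker2 β g h ξ.1 ξ.2 ξ'.1 ξ'.2 := by
          rw [lintegral_mul_const _ hm]
      _ ≤ (C1 * ∏ i : Fin k, ‖uu i‖ₑ ^ (-β)) * ker2 β g h ξ.1 ξ.2 ξ'.1 ξ'.2 := by
          gcongr
          exact h1 cc uu
      _ = _ := by rw [mul_assoc]; rfl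
  rw [e1]
  refine ne_top_of_le_ne_top (b := C1 * ∫⁻ ξ, ∫⁻ ξ', kerA β ξ.1 ξ'.1 * ker2 β g h ξ.1 ξ.2 ξ'.1 ξ'.2 ∂μ ∂μ) ?_ ?_
  · exact ENNReal.mul_ne_top hC1 (kernel_finite hβ0 hβ c hgm hhm)
  · have hm1 : Measurable (fun ξ : ((Fin k → ℝ) × ℝ) × ℝ => ∫⁻ ξ', kerA β ξ.1 ξ'.1 * ker2 β g h ξ.1 ξ.2 ξ'.1 ξ'.2 ∂μ) :=
      hAK.lintegral_prod_right'
    have hm2 : ∀ ξ : ((Fin k → ℝ) × ℝ) × ℝ, Measurable (fun ξ' : ((Fin k → ℝ) × ℝ) × ℝ =>
        kerA β ξ.1 ξ'.1 * ker2 β g h ξ.1 ξ.2 ξ'.1 ξ'.2) := fun ξ =>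
      hAK.comp (f := fun ξ' : ((Fin k → ℝ) × ℝ) × ℝ => (ξ, ξ')) (by fun_prop)
    rw [← lintegral_const_mul _ hm1]
    refine lintegral_mono (fun ξ => ?_)
    simp only
    rw [← lintegral_const_mul _ (hm2 ξ)]
    exact lintegral_mono (fun ξ' => e2 ξ ξ')

end Pool.Agent.Helper39
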