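import Pool.Agent.Helper39.Flat
import Pool.Agent.Helper39.Coords

open MeasureTheory Set Filter Topology Module
open scoped ENNReal NNReal

namespace Pool.Agent.Helper39

variable {m : ℕ}

lemma measure_zero_slices {P : EE (m + 1) →L[ℝ] EE m} {Q : EE m →L[ℝ] EE (m + 1)} {w : EE (m + 1)}
    (hPQ : ∀ y, y = Q (P y) + (inner ℝ w y : ℝ) • w) {K : Set (EE (m + 1))} (hK : volume K = 0) :
    ∀ᵐ t : ℝ, volume {x : EE m | Q x + t • w ∈ K} = 0 := by
  let L : (ℝ × EE m) →ₗ[ℝ] EE (m + 1) :=
    { toFun := fun z => Q z.2 + z.1 • w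
      map_add' := by
        intro x y
        simp only [Prod.snd_add, Prod.fst_add, map_add, add_smul]
        abel
      map_smul' := by
        intro c x
        simp only [Prod.smul_snd, Prod.smul_fst, map_smul, smul_add, RingHom.id_apply, smul_assoc] }
  have hLs : Function.Surjective L := fun y => ⟨((inner ℝ w y : ℝ), P y), (hPQ y).symm⟩
  have hH : ((volume : Measure ℝ).prod (volume : Measure (EE m))).IsAddHaarMeasure := inferInstance
  obtain ⟨c, _, hc⟩ := L.exists_map_addHaar_eq_smul_addHaar ((volume : Measure ℝ).prod (volume : Measure (EE m)))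
    (volume : Measure (EE (m + 1))) hLs
  have hLc : Continuous L := L.continuous_of_finiteDimensional
  have h1 : ((volume : Measure ℝ).prod (volume : Measure (EE m))) (L ⁻¹' K) = 0 := by
    have h2 := Measure.le_map_apply (μ := (volume : Measure ℝ).prod (volume : Measure (EE m))) hLc.aemeasurable K
    rw [hc, Measure.smul_apply, hK, smul_zero] at h2
    exact le_antisymm h2 zero_le
  have h3 : ∀ᵐ z ∂((volume : Measure ℝ).prod (volume : Measure (EE m))), L z ∉ K := by
    rw [ae_iff]
    simp only [not_not]
    exact h1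
  have h4 := Measure.ae_ae_of_ae_prod h3
  filter_upwards [h4] with t ht
  rw [ae_iff] at ht
  simp only [not_not] at ht
  exact ht

lemma dimH_eq_of_volume_ne_zero {n : ℕ} {K : Set (EuclideanSpace ℝ (Fin n))} (hK : volume K ≠ 0) :
    dimH K = n := by
  apply le_antisymm
  · calc dimH K ≤ dimH (univ : Set (EuclideanSpace ℝ (Fin n))) := dimH_mono (subset_univ _)
      _ = n := by rw [Real.dimH_univ_eq_finrank]; simp
  · have h := isAddHaarMeasure_hausdorffMeasure (E := EuclideanSpace ℝ (Fin n))
    have h1 : (μH[(n : ℝ≥0)] : Measure (EuclideanSpace ℝ (Fin n))) K ≠ 0 := by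
      intro h0
      apply hK
      have h2 : (volume : Measure (EuclideanSpace ℝ (Fin n))) ≪
        (μH[(finrank ℝ (EuclideanSpace ℝ (Fin n)) : ℝ)] : Measure (EuclideanSpace ℝ (Fin n))) :=
        Measure.absolutelyContinuous_isAddHaarMeasure _ _
      apply h2
      simpa using h0
    have := le_dimH_of_hausdorffMeasure_ne_zero h1
    simpa using this

end Pool.Agent.Helper39
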